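import Pool.Agent.H.MP_42e49e_nt.Fund2

/-!
# The fundamental lemma of the sieve, for arbitrary residue classes: final form
-/

set_option autoImplicit false

open Finset

namespace Pool.MP42e49e

open Pool.Agent.H.MP_3e6494_nt (prm mem_prm)

theorem sqrt_iter (J z : ℕ) :
    (Nat.sqrt^[J] z) ^ (2 ^ J) ≤ z ∧ z < (Nat.sqrt^[J] z + 1) ^ (2 ^ J) := by
  induction J generalizing z with
  | zero => simp
  | succ J ih =>
    rw [Function.iterate_succ_apply]
    obtain ⟨h1, h2⟩ := ih (Nat.sqrt z)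
    obtain ⟨v, hv⟩ : ∃ v, v = Nat.sqrt^[J] (Nat.sqrt z) := ⟨_, rfl⟩
    rw [← hv] at h1 h2 ⊢
    rw [pow_succ 2 J, pow_mul, pow_mul]
    constructor
    · exact (Nat.pow_le_pow_left h1 2).trans (Nat.sqrt_le' z)
    · have h3 : Nat.sqrt z + 1 ≤ (v + 1) ^ 2 ^ J := h2
      have h4 := Nat.lt_succ_sqrt' z
      exact h4.trans_le (Nat.pow_le_pow_left h3 2)

/-- **The fundamental lemma of the sieve** for arbitrary residue classes. -/
theorem fund {y W R P0 : ℕ} {L l q δ : ℝ} (hl : 1000 ≤ l) (hLl : Real.exp l = L)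
    (hq1 : 300 * l ≤ q) (hq2 : q ≤ L) (hW1 : (W : ℝ) ≤ Real.exp q) (hW2 : Real.exp q ≤ 2 * W)
    (hδ0 : 0 < δ) (hδl : 2 ≤ δ * l) (hR : 115 ≤ R) (hR2 : 60 ≤ δ * 42 ^ R)
    (hP : (P0 : ℝ) * Real.exp ((4 * R + 28) * q) ≤ y) (b : ℕ → ℕ) {d : ℕ} (c : ℕ) (hd : 0 < d)
    (hdP : d ≤ P0) (hdc : ∀ q ∈ lS W, Nat.Coprime d q) :
    |((sv b (lS W) (cls y d c)).card : ℝ) - (y : ℝ) / d * PP (lS W)| ≤
      δ * ((y : ℝ) / d * PP (lS W)) := by
  obtain ⟨J, hJ⟩ : ∃ J : ℕ, J = Nat.clog 2 ⌈2 * l⌉₊ := ⟨_, rfl⟩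
  have hd0 : (0 : ℝ) < d := by exact_mod_cast hd
  have hJ1 : 2 * l ≤ (2 : ℝ) ^ J := by
    have h1 : ⌈2 * l⌉₊ ≤ 2 ^ J := by
      rw [hJ]
      exact Nat.le_pow_clog (by norm_num) _
    have h2 : ((⌈2 * l⌉₊ : ℕ) : ℝ) ≤ ((2 ^ J : ℕ) : ℝ) := by exact_mod_cast h1
    push_cast at h2
    exact (Nat.le_ceil _).trans h2
  have hJ2 : (2 : ℝ) ^ J ≤ 5 * l := by
    have h1 : 1 < ⌈2 * l⌉₊ := by
      rw [Nat.lt_ceil]
      push_cast
      linarith
    have h2 := Nat.pow_pred_clog_lt_self (b := 2) (by norm_num) h1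
    rw [← hJ] at h2
    have hJ0 : 0 < J := by
      rcases Nat.eq_zero_or_pos J with h0 | h0
      · rw [h0, pow_zero] at hJ1
        linarith
      · exact h0
    have h3 : (2 : ℝ) ^ J = 2 * ((2 ^ J.pred : ℕ) : ℝ) := by
      obtain ⟨k, rfl⟩ : ∃ k, J = k + 1 := ⟨J - 1, by omega⟩
      rw [Nat.pred_succ, pow_succ]
      push_cast
      ring
    have h4 : ((2 ^ J.pred : ℕ) : ℝ) < ((⌈2 * l⌉₊ : ℕ) : ℝ) := by exact_mod_cast h2
    have h5 : ((⌈2 * l⌉₊ : ℕ) : ℝ) < 2 * l + 1 := Nat.ceil_lt_add_one (by linarith)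
    rw [h3]
    linarith
  obtain ⟨v, hv⟩ : ∃ v : ℕ, v = Nat.sqrt^[J] (W ^ 2) := ⟨_, rfl⟩
  obtain ⟨hs1, hs2⟩ := sqrt_iter J (W ^ 2)
  rw [← hv] at hs1 hs2
  have hW0 : (0 : ℝ) < W := by
    have := Real.exp_pos q
    linarith
  have h2J : (0 : ℝ) < 2 ^ J := by positivity
  -- lower bound for `v`
  have hv1 : Real.exp 50 ≤ (v : ℝ) := by
    have h1 : ((W ^ 2 : ℕ) : ℝ) < (((v + 1) ^ 2 ^ J : ℕ) : ℝ) := by exact_mod_cast hs2
    push_cast at h1
    have h2 := Real.log_lt_log (by positivity) h1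
    rw [Real.log_pow, Real.log_pow] at h2
    have h3 : q - 1 ≤ Real.log W := by
      have h4 := Real.log_le_log (Real.exp_pos _) hW2
      rw [Real.log_exp, Real.log_mul (by norm_num) hW0.ne'] at h4
      have := Real.log_two_lt_d9
      linarith
    push_cast at h2
    have h4 : 100 ≤ Real.log ((v : ℝ) + 1) := by
      by_contra h5
      push Not at h5
      have h6 : (2 : ℝ) ^ J * Real.log ((v : ℝ) + 1) ≤ 5 * l * 100 := by
        have h7 : (2 : ℝ) ^ J * Real.log ((v : ℝ) + 1) ≤ 2 ^ J * 100 :=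
          mul_le_mul_of_nonneg_left h5.le h2J.le
        linarith
      linarith
    have h5 : Real.exp 100 ≤ (v : ℝ) + 1 := by
      rwa [Real.le_log_iff_exp_le (by positivity)] at h4
    have h6 : Real.exp 100 = Real.exp 50 * Real.exp 50 := by
      rw [← Real.exp_add]
      norm_num
    have h7 : (51 : ℝ) ≤ Real.exp 50 := by
      have := Real.add_one_le_exp (50 : ℝ)
      linarith
    nlinarith
  have hv51 : (51 : ℝ) ≤ v := by
    have := Real.add_one_le_exp (50 : ℝ)
    linarith
  -- upper bound for `v`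
  have hv2 : Real.log v ≤ q / l := by
    have h1 : (((v ^ 2 ^ J : ℕ) : ℕ) : ℝ) ≤ ((W ^ 2 : ℕ) : ℝ) := by exact_mod_cast hs1
    push_cast at h1
    have h2 := Real.log_le_log (by positivity) h1
    rw [Real.log_pow, Real.log_pow] at h2
    have h3 : Real.log W ≤ q := by
      have h4 := Real.log_le_log hW0 hW1
      rwa [Real.log_exp] at h4
    push_cast at h2
    have h5 : 0 ≤ Real.log v := Real.log_nonneg (by linarith)
    rw [le_div_iff₀ (by linarith)]
    have h6 : Real.log v * (2 * l) ≤ Real.log v * 2 ^ J := mul_le_mul_of_nonneg_left hJ1 h5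
    linarith
  have hFFv : FF v ≤ l + 20 := by
    have hv2' : 2 ≤ v := by
      have : (2 : ℝ) ≤ v := by linarith
      exact_mod_cast this
    have h1 := FF_le hv2'
    have h2 : Real.log v ≤ L := by
      refine hv2.trans (le_trans (div_le_self (by linarith) (by linarith)) hq2)
    have h3 : 0 < Real.log v := Real.log_pos (by linarith)
    have h4 := Real.log_le_log h3 h2
    rw [← hLl, Real.log_exp] at h4
    linarith
  -- base
  have hrs : rs (prm v).toList = FF v := rs_toList _
  obtain ⟨r, hr⟩ : ∃ r : ℕ, r = ⌈16 * l⌉₊ := ⟨_, rfl⟩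
  have hr1 : 16 * l ≤ (r : ℝ) := by
    rw [hr]
    exact Nat.le_ceil _
  have hr2 : (r : ℝ) ≤ 16 * l + 1 := by
    rw [hr]
    exact (Nat.ceil_lt_add_one (by linarith)).le
  have hprv : ∀ q ∈ (prm v).toList, q.Prime ∧ q ≤ v := by
    intro q hq
    rw [mem_toList, mem_prm] at hq
    exact hq
  have hexp2 : Real.exp 2 ≤ 8 := by
    have h1 := Real.exp_one_lt_d9
    have h2 : Real.exp 2 = Real.exp 1 * Real.exp 1 := by
      rw [← Real.exp_add]
      norm_num
    have h3 := Real.exp_pos 1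
    rw [h2]
    nlinarith
  have hrs0 := rs_nonneg (prm v).toList
  have hrle : Real.exp 2 * rs (prm v).toList ≤ r := by
    have h1 : Real.exp 2 * rs (prm v).toList ≤ 8 * rs (prm v).toList :=
      mul_le_mul_of_nonneg_right hexp2 hrs0
    rw [hrs] at h1 ⊢
    linarith
  have hlen : (((prm v).toList.length : ℕ) : ℝ) ≤ v := by
    rw [length_toList]
    have : (prm v).card ≤ (Icc 1 v).card := by
      unfold prm
      exact card_filter_le _ _
    rw [Nat.card_Icc, Nat.add_sub_cancel] at this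
    exact_mod_cast this
  have hPPv : Real.exp (-(l + 21)) ≤ PP (prm v).toList := by
    refine le_trans ?_ (PP_ge (prm v).toList fun q hq => (hprv q hq).1.two_le)
    apply Real.exp_le_exp.2
    have := rs2_prm v
    rw [hrs]
    linarith
  have hPPv0 : 0 < PP (prm v).toList := (Real.exp_pos _).trans_le hPPv
  have hpow : (((prm v).toList.length : ℝ) + 1) ^ (r + 1) ≤ Real.exp (18 * q) := by
    have h1 : ((prm v).toList.length : ℝ) + 1 ≤ Real.exp (q / l + 1) := by
      have h2 : (v : ℝ) ≤ Real.exp (q / l) := by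
        rwa [Real.log_le_iff_le_exp (by linarith)] at hv2
      have h3 : (1 : ℝ) ≤ Real.exp (q / l) := by
        apply Real.one_le_exp
        apply div_nonneg <;> linarith
      have h4 : (2 : ℝ) ≤ Real.exp 1 := by
        have := Real.add_one_le_exp (1 : ℝ)
        linarith
      rw [Real.exp_add]
      nlinarith
    calc (((prm v).toList.length : ℝ) + 1) ^ (r + 1) ≤ Real.exp (q / l + 1) ^ (r + 1) :=
          pow_le_pow_left₀ (by positivity) h1 _
      _ = Real.exp ((r + 1 : ℕ) * (q / l + 1)) := by rw [Real.exp_nat_mul]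
      _ ≤ Real.exp (18 * q) := by
          apply Real.exp_le_exp.2
          push_cast
          have h5 : 0 ≤ q / l := div_nonneg (by linarith) (by linarith)
          have h6 : ((r : ℝ) + 1) * (q / l + 1) ≤ (17 * l) * (q / l + 1) :=
            mul_le_mul_of_nonneg_right (by linarith) (by linarith)
          have h7 : (17 * l) * (q / l + 1) = 17 * q + 17 * l := by
            have : l ≠ 0 := by linarith
            field_simp
          linarith
  have base : ∀ d c : ℕ, 0 < d → (∀ q ∈ prm v, Nat.Coprime d q) →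
      (d : ℝ) ≤ y * Real.exp (-(20 * q)) →
      |((sv b (prm v).toList (cls y d c)).card : ℝ) - (y : ℝ) / d * PP (prm v).toList| ≤
        Real.exp (-(14 * l)) * ((y : ℝ) / d * PP (prm v).toList) := by
    intro d c hd hdc hdD
    have hd0 : (0 : ℝ) < d := by exact_mod_cast hd
    have h1 := brun b y (l := (prm v).toList) (fun q hq => (hprv q hq).1.pos)
      (pairwise_toList fun p hp => (mem_prm.1 hp).1) c hd
      (fun q hq => hdc q (mem_toList.1 hq)) hrle
    refine h1.trans ?_
    have hyd : Real.exp (20 * q) ≤ (y : ℝ) / d := by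
      rw [le_div_iff₀ hd0]
      calc Real.exp (20 * q) * d ≤ Real.exp (20 * q) * (y * Real.exp (-(20 * q))) :=
            mul_le_mul_of_nonneg_left hdD (Real.exp_pos _).le
        _ = y * (Real.exp (20 * q) * Real.exp (-(20 * q))) := by ring
        _ = y := by rw [← Real.exp_add, add_neg_cancel, Real.exp_zero, mul_one]
    have hyd0 : 0 < (y : ℝ) / d := (Real.exp_pos _).trans_le hyd
    have h2 : Real.exp (18 * q) ≤ (y : ℝ) / d * Real.exp (-(2 * q)) := by
      calc Real.exp (18 * q) = Real.exp (20 * q) * Real.exp (-(2 * q)) := by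
            rw [← Real.exp_add]
            congr 1
            ring
        _ ≤ _ := mul_le_mul_of_nonneg_right hyd (Real.exp_pos _).le
    have h3 : Real.exp (-(2 * q)) ≤ Real.exp (-(16 * l)) := Real.exp_le_exp.2 (by linarith)
    have h4 : Real.exp (-(r : ℝ)) ≤ Real.exp (-(16 * l)) := Real.exp_le_exp.2 (by linarith)
    have h5 : Real.exp (-(16 * l)) + Real.exp (-(16 * l)) ≤
        Real.exp (-(14 * l)) * PP (prm v).toList := by
      have h6 : Real.exp (-(14 * l)) * Real.exp (-(l + 21)) ≤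
          Real.exp (-(14 * l)) * PP (prm v).toList :=
        mul_le_mul_of_nonneg_left hPPv (Real.exp_pos _).le
      refine le_trans ?_ h6
      have h7 : Real.exp (-(14 * l)) * Real.exp (-(l + 21)) =
          Real.exp (-(16 * l)) * Real.exp (l - 21) := by
        rw [← Real.exp_add, ← Real.exp_add]
        congr 1
        ring
      rw [h7]
      have h8 : (2 : ℝ) ≤ Real.exp (l - 21) := by
        have := Real.add_one_le_exp (l - 21)
        linarith
      have h9 := Real.exp_pos (-(16 * l))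
      nlinarith
    calc (((prm v).toList.length : ℝ) + 1) ^ (r + 1) + (y : ℝ) / d * Real.exp (-r)
        ≤ (y : ℝ) / d * Real.exp (-(16 * l)) + (y : ℝ) / d * Real.exp (-(16 * l)) :=
          add_le_add ((hpow.trans h2).trans (mul_le_mul_of_nonneg_left h3 hyd0.le))
            (mul_le_mul_of_nonneg_left h4 hyd0.le)
      _ = (y : ℝ) / d * (Real.exp (-(16 * l)) + Real.exp (-(16 * l))) := by ring
      _ ≤ (y : ℝ) / d * (Real.exp (-(14 * l)) * PP (prm v).toList) :=
          mul_le_mul_of_nonneg_left h5 hyd0.le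
      _ = _ := by ring
  have hmain := fund_aux b y hR (Real.exp_pos (-(14 * l))).le hv1 base J 0 (W ^ 2) hv.symm d c hd
    (fun q hq => hdc q (by
      unfold lS
      rw [mem_toList]
      exact hq)) (by
      have h1 : (d : ℝ) ≤ P0 := by exact_mod_cast hdP
      have h2 : ((W ^ 2 : ℕ) : ℝ) ^ (2 * 0 + 2 * R + 4) ≤ Real.exp ((4 * R + 8) * q) := by
        have h3 : ((W ^ 2 : ℕ) : ℝ) ≤ Real.exp (2 * q) := by
          rw [Nat.cast_pow, show (2 : ℝ) * q = (2 : ℕ) * q by norm_num, Real.exp_nat_mul]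
          exact pow_le_pow_left₀ (Nat.cast_nonneg _) hW1 2
        calc ((W ^ 2 : ℕ) : ℝ) ^ (2 * 0 + 2 * R + 4) ≤ Real.exp (2 * q) ^ (2 * 0 + 2 * R + 4) :=
              pow_le_pow_left₀ (Nat.cast_nonneg _) h3 _
          _ = Real.exp ((4 * R + 8) * q) := by
              rw [← Real.exp_nat_mul]
              congr 1
              push_cast
              ring
      calc (d : ℝ) * ((W ^ 2 : ℕ) : ℝ) ^ (2 * 0 + 2 * R + 4)
          ≤ P0 * Real.exp ((4 * R + 8) * q) :=
            mul_le_mul h1 h2 (by positivity) (Nat.cast_nonneg _)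
        _ = P0 * Real.exp ((4 * R + 28) * q) * Real.exp (-(20 * q)) := by
            rw [mul_assoc, ← Real.exp_add]
            congr 2
            ring
        _ ≤ _ := mul_le_mul_of_nonneg_right hP (Real.exp_pos _).le)
  have hlS : (prm (W ^ 2)).toList = lS W := rfl
  rw [hlS, add_zero] at hmain
  refine hmain.trans ?_
  have hPP0 : 0 < PP (lS W) :=
    (Real.exp_pos _).trans_le (PP_ge _ fun _ hq => (mem_lS.1 hq).1.two_le)
  apply mul_le_mul_of_nonneg_right _ (by positivity)
  have h1 : (21 : ℝ) ^ J * Real.exp (-(14 * l)) ≤ δ / 2 := by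
    have h2 : (21 : ℝ) ^ J ≤ (5 * l) ^ 5 := by
      calc (21 : ℝ) ^ J ≤ (2 ^ 5) ^ J := pow_le_pow_left₀ (by norm_num) (by norm_num) J
        _ = (2 ^ J) ^ 5 := by rw [← pow_mul, ← pow_mul, mul_comm]
        _ ≤ (5 * l) ^ 5 := pow_le_pow_left₀ h2J.le hJ2 5
    have h3 : 5 * l ≤ Real.exp (2 * l) := by
      have h4 := Real.add_one_le_exp l
      have h5 : Real.exp (2 * l) = Real.exp l * Real.exp l := by
        rw [← Real.exp_add]
        congr 1
        ring
      rw [h5]
      nlinarith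
    have h4 : (5 * l) ^ 5 ≤ Real.exp (10 * l) := by
      calc (5 * l) ^ 5 ≤ Real.exp (2 * l) ^ 5 := pow_le_pow_left₀ (by linarith) h3 5
        _ = Real.exp (10 * l) := by
            rw [← Real.exp_nat_mul]
            congr 1
            push_cast
            ring
    have h5 : Real.exp (-(4 * l)) ≤ δ / 2 := by
      have h6 : Real.exp (-(4 * l)) ≤ 1 / l := by
        rw [Real.exp_neg, inv_eq_one_div]
        apply one_div_le_one_div_of_le (by linarith)
        have := Real.add_one_le_exp (4 * l)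
        linarith
      refine h6.trans ?_
      rw [div_le_iff₀ (by linarith)]
      linarith
    calc (21 : ℝ) ^ J * Real.exp (-(14 * l)) ≤ Real.exp (10 * l) * Real.exp (-(14 * l)) :=
          mul_le_mul_of_nonneg_right (h2.trans h4) (Real.exp_pos _).le
      _ = Real.exp (-(4 * l)) := by
          rw [← Real.exp_add]
          congr 1
          ring
      _ ≤ _ := h5
  have h2 : (30 : ℝ) / 42 ^ R ≤ δ / 2 := by
    rw [div_le_iff₀ (by positivity)]
    linarith
  linarith

end Pool.MP42e49e
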