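import Pool.Agent.H.MP_42e49e_nt.R2Par3

/-!
# The sums over the largest primes
-/

set_option autoImplicit false

open Finset Filter

namespace Pool.MP42e49e.R

open Pool.Agent.H.MP_3e6494_nt (prm mem_prm)

variable {θ δ η K L l q : ℝ} {x y W Z P0 : ℕ}

theorem card_pw_log (P0 x : ℕ) (hP : 1 ≤ P0) :
    ((pw P0 x).card : ℝ) * Real.log P0 ≤ x * Real.log 4 := by
  have h1 : P0 ^ (pw P0 x).card ≤ ∏ p ∈ pw P0 x, p := by
    rw [← prod_const]
    exact prod_le_prod (fun _ _ => Nat.zero_le _) fun p hp => (mem_pw.1 hp).2.1.le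
  have h2 : ∏ p ∈ pw P0 x, p ≤ primorial x := by
    unfold primorial
    apply prod_le_prod_of_subset_of_one_le'
    · intro p hp
      have := mem_pw.1 hp
      rw [mem_filter, mem_range]
      exact ⟨by omega, this.1⟩
    · intro p hp _
      exact (mem_filter.1 hp).2.one_lt.le
  have h3 := h1.trans (h2.trans (primorial_le_four_pow x))
  have h4 : ((P0 ^ (pw P0 x).card : ℕ) : ℝ) ≤ ((4 ^ x : ℕ) : ℝ) := by exact_mod_cast h3
  have hP' : (0 : ℝ) < P0 := by exact_mod_cast (show 0 < P0 by omega)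
  have h5 := Real.log_le_log (by positivity) h4
  push_cast at h5
  rwa [Real.log_pow, Real.log_pow] at h5

theorem log4_le : Real.log 4 ≤ 3 / 2 := by
  have h1 : Real.log 4 = 2 * Real.log 2 := by
    rw [show (4 : ℝ) = 2 ^ 2 by norm_num, Real.log_pow]
    norm_num
  have := Real.log_two_lt_d9
  linarith

theorem Rg.P_ge (h : Rg θ δ η K L l q x y W Z P0) : 8 ≤ P0 := by
  have hl := h.l_ge
  have hL := h.L_ge
  have hP := h.P_facts
  have hlq := h.lq_le2
  have h1 : L / 2 ≤ Real.log P0 := by linarith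
  have h2 : (3 : ℝ) ≤ Real.log P0 := by linarith
  have hP0 : (2 : ℝ) ≤ P0 := by exact_mod_cast hP.2.2.2.2
  rw [Real.le_log_iff_exp_le (by linarith)] at h2
  have h3 : (8 : ℝ) ≤ Real.exp 3 := by
    have h4 : Real.exp 3 = Real.exp 1 ^ 3 := by
      rw [← Real.exp_nat_mul]
      norm_num
    rw [h4]
    have h5 : (2 : ℝ) ≤ Real.exp 1 := by
      have := Real.add_one_le_exp (1 : ℝ)
      linarith
    calc (8 : ℝ) = 2 ^ 3 := by norm_num
      _ ≤ _ := pow_le_pow_left₀ (by norm_num) h5 3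
  exact_mod_cast h3.trans h2

theorem Rg.sum_ps (h : Rg θ δ η K L l q x y W Z P0) :
    ∑ p ∈ pw P0 x, 1 / ((p : ℝ) * sp y p) ≤ 56 * l / L := by
  have hl := h.l_ge
  have hL := h.L_ge
  have hP := h.P_facts
  have hlq := h.lq_le2
  have hP8 := h.P_ge
  have hx0 : 0 < x := by exact_mod_cast h.xR
  have hy0 : 0 < y := by exact_mod_cast h.yR
  have hsx := h.sx
  have hη := h.η_le
  have h1 := sum_inv_s (x := x) (y := y) (P0 := P0) (L := L) (by linarith) (by linarith) hP8
    (by nlinarith) hx0 hy0 (by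
      have := h.sP
      have := h.lq_ge.1
      linarith)
  refine h1.trans ?_
  rw [← h.hl, div_mul_eq_mul_div]
  apply div_le_div_of_nonneg_right _ (by linarith)
  linarith

/-- Mertens on a window close to the end -/
theorem Rg.win (h : Rg θ δ η K L l q x y W Z P0) {v : ℕ} {D : ℝ} (hv : 2 ≤ v) (hvx : v ≤ x)
    (hD0 : 0 ≤ D) (hD : D ≤ L / 2) (hlog : L - D ≤ Real.log v) :
    FF x - FF v ≤ (2 * D + 24) / L := by
  have hL := h.L_ge
  have hL0 : 0 < L := by linarith
  have h1 := (window hv hvx).1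
  rw [← h.hL, ← h.hl] at h1
  have hlv : L / 2 ≤ Real.log v := by linarith
  have hlv0 : 0 < Real.log v := by linarith
  have h2 : 12 / Real.log v ≤ 24 / L := by
    rw [div_le_div_iff₀ hlv0 hL0]
    linarith
  have h3 : l - Real.log (Real.log v) ≤ 2 * D / L := by
    have h4 : Real.log (L - D) ≤ Real.log (Real.log v) :=
      Real.log_le_log (by linarith) hlog
    have h5 : Real.log (L - D) = l + Real.log (1 - D / L) := by
      have e : L - D = L * (1 - D / L) := by field_simp
      have e2 : D / L ≤ 1 / 2 := by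
        rw [div_le_iff₀ hL0]
        linarith
      rw [e, Real.log_mul hL0.ne' (by linarith), h.hl]
    have e2 : D / L ≤ 1 / 2 := by
      rw [div_le_iff₀ hL0]
      linarith
    have e3 : 0 ≤ D / L := by positivity
    have h6 := Real.one_sub_inv_le_log_of_pos (show 0 < 1 - D / L by linarith)
    have h7 : (1 - D / L)⁻¹ ≤ 1 + 2 * (D / L) := by
      rw [inv_le_iff_one_le_mul₀ (by linarith)]
      nlinarith
    have h8 : 2 * D / L = 2 * (D / L) := by ring
    linarith
  have h9 : (2 * D + 24) / L = 2 * D / L + 24 / L := by ring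
  linarith

theorem Rg.mertens (h : Rg θ δ η K L l q x y W Z P0) : FF P0 - FF Z ≤ 1 - 15 * δ := by
  have hZ := h.Z_facts
  have hP := h.P_facts
  have hL := h.L_ge
  have hθ := h.theta_ge
  have hL0 : 0 < L := by linarith
  have h1 := (window hZ.2.2.2.2 h.Z_le_P).1
  have hθL : 300 ≤ θ * L := by nlinarith
  have hlogZ : 0 < θ * L - 1 := by linarith
  have hlogZ' : 0 < Real.log Z := by linarith
  have hlogP0 : 0 < Real.log P0 := by
    have := h.lq_le2
    linarith
  have h2 : Real.log (Real.log P0) ≤ l := by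
    rw [h.hl]
    apply Real.log_le_log hlogP0
    have := h.lq_ge.1
    have := h.l_ge
    linarith
  have h3 : Real.log (θ * L - 1) ≤ Real.log (Real.log Z) := Real.log_le_log hlogZ hZ.2.2.1
  have h4 : Real.log θ + l - 2 / (θ * L) ≤ Real.log (θ * L - 1) := by
    have e1 : θ * L - 1 = θ * L * (1 - 1 / (θ * L)) := by field_simp
    have hθL0 : 0 < θ * L := by linarith
    have e2 : 1 / (θ * L) ≤ 1 / 300 := one_div_le_one_div_of_le (by norm_num) hθL
    rw [e1, Real.log_mul hθL0.ne' (by linarith), Real.log_mul (by linarith) hL0.ne', ← h.hl]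
    have h5 := Real.one_sub_inv_le_log_of_pos (show 0 < 1 - 1 / (θ * L) by linarith)
    have h6 : -(2 / (θ * L)) ≤ 1 - (1 - 1 / (θ * L))⁻¹ := by
      have h7 : (1 - 1 / (θ * L))⁻¹ ≤ 1 + 2 * (1 / (θ * L)) := by
        rw [inv_le_iff_one_le_mul₀ (by linarith)]
        have : 0 ≤ 1 / (θ * L) := by positivity
        nlinarith
      have h8 : 2 / (θ * L) = 2 * (1 / (θ * L)) := by ring
      linarith
    linarith
  have h5 : 12 / Real.log Z ≤ 24 / (θ * L) := by
    rw [div_le_div_iff₀ hlogZ' (by linarith)]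
    linarith
  have h6 : 2 / (θ * L) + 24 / (θ * L) ≤ δ := by
    rw [← add_div, div_le_iff₀ (by linarith)]
    have h7 := h.Kδ.1
    have h8 : (1 : ℝ) ≤ Real.exp 22 := Real.one_le_exp (by norm_num)
    have h9 := h.hKl
    have h10 := h.l_le
    have h11 := h.hδ0
    have h12 : K * δ ≤ L * δ := mul_le_mul_of_nonneg_right (by linarith) h11.le
    have h13 : L * δ / 3 ≤ δ * (θ * L) := by
      have : 0 ≤ L * δ := by positivity
      nlinarith
    linarith
  have h7 := h.hδ
  linarith

theorem Rg.u_le (h : Rg θ δ η K L l q x y W Z P0) {p : ℕ} (hp : p ∈ pw P0 x) :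
    (up q y p : ℝ) ≤ y * Real.exp (-(l / 4)) * (1 / ((p : ℝ) * sp y p)) := by
  obtain ⟨h1, h2, h3⟩ := h.sp_bounds hp
  have htp := h.tp_bounds hp
  have hl := h.l_ge
  have hp' := mem_pw.1 hp
  have hp0 : (0 : ℝ) < p := by exact_mod_cast hp'.1.pos
  have hy := h.yR
  obtain ⟨s, hs⟩ : ∃ s, s = sp y p := ⟨_, rfl⟩
  rw [← hs] at h1 h2 h3 htp ⊢
  have h4 : (up q y p : ℝ) ≤ Real.exp (s / 14) := by
    have h5 : (up q y p : ℝ) ≤ Real.exp (tp q y p) := Nat.floor_le (Real.exp_pos _).le
    exact h5.trans (Real.exp_le_exp.2 htp.2.2.1)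
  have h5 : (y : ℝ) / p = Real.exp s := by
    rw [hs, sp, Real.exp_log (by positivity)]
  have h6 : Real.exp (s / 14) ≤ Real.exp s * Real.exp (-(l / 4)) * (1 / s) := by
    have h7 : s ≤ Real.exp (s / 4) := by
      have h8 := Real.add_one_le_exp (s / 8)
      have h9 : Real.exp (s / 4) = Real.exp (s / 8) ^ 2 := by
        rw [← Real.exp_nat_mul]
        congr 1
        push_cast
        ring
      rw [h9]
      have h10 : (s / 8) ^ 2 ≤ Real.exp (s / 8) ^ 2 :=
        pow_le_pow_left₀ (by linarith) (by linarith) 2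
      nlinarith
    rw [mul_one_div, le_div_iff₀ (by linarith)]
    calc Real.exp (s / 14) * s ≤ Real.exp (s / 14) * Real.exp (s / 4) :=
          mul_le_mul_of_nonneg_left h7 (Real.exp_pos _).le
      _ = Real.exp (s / 14 + s / 4) := by rw [Real.exp_add]
      _ ≤ Real.exp (s + -(l / 4)) := Real.exp_le_exp.2 (by linarith)
      _ = _ := Real.exp_add _ _
  refine h4.trans (h6.trans (le_of_eq ?_))
  rw [← h5]
  field_simp

theorem Rg.x0_facts (h : Rg θ δ η K L l q x y W Z P0) : P0 ≤ x0 η L l ∧ x0 η L l ≤ x ∧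
    (x0 η L l : ℝ) ≤ x * Real.exp (-(3 * (η * l))) ∧ L - (3 * (η * l) + 1) ≤ Real.log (x0 η L l) ∧
    2 ≤ x0 η L l := by
  have hl := h.l_ge
  have hL := h.L_ge
  have hη := h.hη0
  have hη' := h.η_le
  have hq := h.q_ge
  have hll := h.l_le
  have h0 : 0 ≤ η * l := by positivity
  have h1 : η * l ≤ 1 / 320000 * L := mul_le_mul hη' (by linarith) (by linarith) (by norm_num)
  have h2 := floor_bounds (t := L - 3 * (η * l)) (by linarith)
  have h4 : (x0 η L l : ℝ) ≤ x * Real.exp (-(3 * (η * l))) := by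
    rw [h.x_eq, ← Real.exp_add]
    exact h2.1
  refine ⟨?_, ?_, h4, ?_, h2.2.2.2.2⟩
  · rw [h.hP]
    unfold x0
    apply Nat.floor_mono
    apply Real.exp_le_exp.2
    have h3 : η * l ≤ 1 * (l * q) := by
      have : η * l ≤ q * l := mul_le_mul_of_nonneg_right (by linarith) (by linarith)
      linarith
    have h5 : 0 ≤ l * q := by
      have := h.lq_ge.1
      linarith
    linarith
  · have h5 : (x : ℝ) * Real.exp (-(3 * (η * l))) ≤ x * 1 := by
      apply mul_le_mul_of_nonneg_left _ h.xR.le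
      rw [Real.exp_le_one_iff]
      linarith
    rw [mul_one] at h5
    exact_mod_cast h4.trans h5
  · have := h2.2.2.1
    unfold x0
    linarith

end Pool.MP42e49e.R
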