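import Pool.Agent.H.MP_42e49e_nt.Stage

/-!
# The covering theorem with explicit parameters
-/

set_option autoImplicit false

open Finset

namespace Pool.MP42e49e

open Pool.Agent.H.MP_3e6494_nt (prm mem_prm)

/-- primes in `(W, Z]` -/
def pw (W Z : ℕ) : Finset ℕ := (prm Z).filter fun p => W < p

theorem mem_pw {W Z p : ℕ} : p ∈ pw W Z ↔ p.Prime ∧ W < p ∧ p ≤ Z := by
  unfold pw
  rw [mem_filter, mem_prm]
  tauto

theorem sum_pw {W Z : ℕ} (h : W ≤ Z) : ∑ p ∈ pw W Z, 1 / (p : ℝ) = FF Z - FF W := by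
  have h1 : prm W ⊆ prm Z := by
    intro p hp
    rw [mem_prm] at hp ⊢
    exact ⟨hp.1, hp.2.trans h⟩
  have h2 : pw W Z = prm Z \ prm W := by
    ext p
    rw [mem_pw, mem_sdiff, mem_prm, mem_prm]
    constructor
    · rintro ⟨h3, h4, h5⟩
      exact ⟨⟨h3, h5⟩, fun h6 => by omega⟩
    · rintro ⟨⟨h3, h4⟩, h5⟩
      refine ⟨h3, ?_, h4⟩
      by_contra h6
      exact h5 ⟨h3, by omega⟩
  unfold FF
  rw [h2, ← sum_sdiff h1]
  ring

/-- the covering property: for some choice of classes for the primes `p ≤ x` outside `(W, Z]`, all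
`n ≤ y` with `m + n` prime to the modulus are covered -/
def Cov (x y W Z m : ℕ) : Prop := ∃ a : ℕ → ℤ, ∀ n ∈ Icc 1 y,
  Nat.Coprime (m + n) (∏ p ∈ pw W Z, p) → ∃ p : ℕ, p.Prime ∧ p ≤ x ∧ p ∉ pw W Z ∧ (p : ℤ) ∣ n - a p

section

variable {x y W Z P0 r k1 : ℕ} {δ κ : ℝ}

/-- small primes, as a list -/
noncomputable def lS (W : ℕ) : List ℕ := (prm (W ^ 2)).toList

/-- large primes, as a list -/
noncomputable def lL (W Z : ℕ) : List ℕ := (pw (W ^ 2) Z).toList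

theorem mem_lS {q : ℕ} : q ∈ lS W ↔ q.Prime ∧ q ≤ W ^ 2 := by
  unfold lS
  rw [mem_toList, mem_prm]

theorem mem_lL {q : ℕ} : q ∈ lL W Z ↔ q.Prime ∧ W ^ 2 < q ∧ q ≤ Z := by
  unfold lL
  rw [mem_toList, mem_pw]

theorem lL_prod : (lL W Z).prod = ∏ p ∈ pw (W ^ 2) Z, p := by
  unfold lL
  rw [← Finset.prod_map_toList, List.map_id']

theorem prod_eq (hW : 1 ≤ W) (hWZ : W ^ 2 ≤ Z) :
    (∏ p ∈ pw W (W ^ 2), p) * (lL W Z).prod = ∏ p ∈ pw W Z, p := by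
  have hW2 : W ≤ W ^ 2 := by nlinarith
  rw [lL_prod, ← prod_union]
  · congr 1
    ext p
    rw [mem_union, mem_pw, mem_pw, mem_pw]
    constructor
    · rintro (⟨h1, h2, h3⟩ | ⟨h1, h2, h3⟩)
      · exact ⟨h1, h2, h3.trans hWZ⟩
      · exact ⟨h1, by omega, h3⟩
    · rintro ⟨h1, h2, h3⟩
      rcases le_or_gt p (W ^ 2) with h4 | h4
      · exact Or.inl ⟨h1, h2, h4⟩
      · exact Or.inr ⟨h1, h4, h3⟩
  · rw [disjoint_left]
    intro p h1 h2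
    rw [mem_pw] at h1 h2
    omega

theorem prod_pos' (W Z : ℕ) : 0 < ∏ p ∈ pw W Z, p :=
  prod_pos fun p hp => (mem_pw.1 hp).1.pos

theorem cop_prod : Nat.Coprime (∏ p ∈ pw W (W ^ 2), p) (lL W Z).prod := by
  rw [lL_prod]
  refine Nat.Coprime.prod_left fun p hp => Nat.Coprime.prod_right fun q hq => ?_
  rw [mem_pw] at hp hq
  exact (Nat.coprime_primes hp.1 hq.1).2 (by omega)

theorem lS_len : (((lS W).length : ℕ) : ℝ) ≤ (W ^ 2 : ℕ) := by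
  unfold lS
  rw [length_toList]
  have : (prm (W ^ 2)).card ≤ (Icc 1 (W ^ 2)).card := by
    unfold prm
    exact card_filter_le _ _
  rw [Nat.card_Icc, Nat.add_sub_cancel] at this
  exact_mod_cast this

/-- parameters of the theorem -/
structure Par (x y W Z P0 r k1 : ℕ) (δ κ : ℝ) : Prop where
  hδ0 : 0 < δ
  hδ1 : δ ≤ 1 / 8
  hκ0 : 0 < κ
  hκ1 : κ ≤ 1
  hW : 1 ≤ W
  hWZ : W ^ 2 ≤ Z
  hZP : Z ≤ P0
  hPx : P0 ≤ x
  hxy : x ≤ y
  hk1 : 1 ≤ k1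
  H1 : (((W ^ 2 : ℕ) : ℝ) + 1) ^ (r + 1) * (P0 / y) + Real.exp (-r) ≤ δ * PP (lS W)
  H2 : Real.exp 2 * rs (lS W) ≤ r
  H3 : κ * rs (lL W Z) ≤ δ / 16
  H3' : rs2 (lL W Z) ≤ δ / 16
  H4 : 16 * k1 * (1 / (W : ℝ) ^ 2 + P0 / y) ≤ κ * (PP (lS W) * PP (lL W Z))

/-- parameters for the largest primes -/
structure Par3 (x y W Z P0 : ℕ) (δ E0 : ℝ) (u : ℕ → ℕ) (N3 τ3 : ℕ → ℝ) : Prop where
  U1 : ∀ p ∈ pw P0 x, u p ≤ W
  U2 : ∀ p ∈ pw P0 x, ∀ (b : ℕ → ℕ) (c : ℕ),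
    ((sv b (prm (u p)).toList (cls y p c)).card : ℝ) ≤ N3 p
  U34 : ∀ p ∈ pw P0 x, N3 p ≤ τ3 p ∨ (2 * Real.exp 1 * PP (lL W Z) * N3 p ≤ τ3 p ∧
    E0 + u p * Real.log 4 ≤ τ3 p / (2 * Real.exp 1 * ((y : ℝ) / p / (W : ℝ) ^ 2 + 1)))
  U5 : (1 + δ) ^ 2 * y * PP (lS W) * PP (lL W Z) * (FF P0 - FF Z) + ∑ p ∈ pw P0 x, τ3 p <
    (1 - δ) ^ 2 * y * PP (lS W) * PP (lL W Z)

theorem PPS_pos : 0 < PP (lS W) :=
  (Real.exp_pos _).trans_le (PP_ge _ fun _ hq => (mem_lS.1 hq).1.two_le)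

theorem PPL_pos : 0 < PP (lL W Z) :=
  (Real.exp_pos _).trans_le (PP_ge _ fun _ hq => (mem_lL.1 hq).1.two_le)

/-- the first stage, by Brun's sieve -/
theorem stage_one (h : Par x y W Z P0 r k1 δ κ) (b : ℕ → ℕ) {d : ℕ} (c : ℕ) (hd : 0 < d)
    (hdP : d ≤ P0) (hdc : ∀ q ∈ lS W, Nat.Coprime d q) :
    (1 - δ) * (y / d) * PP (lS W) ≤ (sv b (lS W) (cls y d c)).card ∧
    ((sv b (lS W) (cls y d c)).card : ℝ) ≤ (1 + δ) * (y / d) * PP (lS W) := by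
  have hpos : ∀ q ∈ lS W, 0 < q := fun q hq => (mem_lS.1 hq).1.pos
  have hcop : (lS W).Pairwise Nat.Coprime := pairwise_toList fun p hp => (mem_prm.1 hp).1
  have h1 := brun b y hpos hcop c hd hdc h.H2
  have hd' : (0 : ℝ) < d := by exact_mod_cast hd
  have hy0 : 0 < y := by
    have := h.hZP; have := h.hPx; have := h.hxy; have := h.hWZ; have := h.hW
    omega
  have hy : (0 : ℝ) < y := by exact_mod_cast hy0
  have hyd : 0 < (y : ℝ) / d := by positivity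
  have h2 : (((lS W).length : ℝ) + 1) ^ (r + 1) ≤
      (y : ℝ) / d * ((((W ^ 2 : ℕ) : ℝ) + 1) ^ (r + 1) * (P0 / y)) := by
    have h3 : (((lS W).length : ℝ) + 1) ^ (r + 1) ≤ (((W ^ 2 : ℕ) : ℝ) + 1) ^ (r + 1) :=
      pow_le_pow_left₀ (by positivity) (by linarith [lS_len (W := W)]) _
    refine h3.trans ?_
    have h4 : (1 : ℝ) ≤ (P0 : ℝ) / d := by
      rw [one_le_div hd']
      exact_mod_cast hdP
    have h5 : (y : ℝ) / d * ((((W ^ 2 : ℕ) : ℝ) + 1) ^ (r + 1) * (P0 / y)) =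
        (((W ^ 2 : ℕ) : ℝ) + 1) ^ (r + 1) * ((P0 : ℝ) / d) := by
      field_simp
    rw [h5]
    exact le_mul_of_one_le_right (by positivity) h4
  have h6 : (y : ℝ) / d * ((((W ^ 2 : ℕ) : ℝ) + 1) ^ (r + 1) * (P0 / y) + Real.exp (-r)) ≤
      (y : ℝ) / d * (δ * PP (lS W)) := mul_le_mul_of_nonneg_left h.H1 hyd.le
  rw [mul_add] at h6
  rw [abs_le] at h1
  have e1 : (1 - δ) * (y / d) * PP (lS W) = (y : ℝ) / d * PP (lS W) -
      (y : ℝ) / d * (δ * PP (lS W)) := by ring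
  have e2 : (1 + δ) * (y / d) * PP (lS W) = (y : ℝ) / d * PP (lS W) +
      (y : ℝ) / d * (δ * PP (lS W)) := by ring
  rw [e1, e2]
  constructor <;> linarith [h1.1, h1.2]

end

end Pool.MP42e49e
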