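import Pool.Agent.H.MP_42e49e_nt.Core2

/-!
# A shift with a covering is bad
-/

set_option autoImplicit false

open Finset

namespace Pool.MP42e49e

open Pool.Agent.H.MP_3e6494_nt (prm mem_prm)

variable {x y W Z P0 r k1 : ℕ} {δ κ E0 : ℝ} {u : ℕ → ℕ} {N3 τ3 : ℕ → ℝ}

theorem mem_cls {y d c n : ℕ} : n ∈ cls y d c ↔ n ∈ Icc 1 y ∧ d ∣ c + n := by
  unfold cls
  rw [mem_filter]

theorem mem_sv {b : ℕ → ℕ} {l : List ℕ} {T : Finset ℕ} {n : ℕ} :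
    n ∈ sv b l T ↔ n ∈ T ∧ ∀ q ∈ l, ¬ q ∣ b q + n := by
  unfold sv
  rw [mem_filter]

theorem mem_srv {m : ℕ} {l : List ℕ} {T : Finset ℕ} {n : ℕ} :
    n ∈ srv l m T ↔ n ∈ T ∧ ∀ q ∈ l, ¬ q ∣ m + n := by
  unfold srv
  rw [mem_filter]

theorem cov_bad (h : Par x y W Z P0 r k1 δ κ) (hh : Par3 x y W Z P0 δ E0 u N3 τ3) {m : ℕ}
    (hm : Cov x y W Z m) : Bad x y W Z P0 δ u τ3 m := by
  by_contra hbad
  obtain ⟨a, ha⟩ := hm
  obtain ⟨B, hB, hBp⟩ := exists_class W a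
  unfold Bad at hbad
  push Not at hbad
  obtain ⟨h1, h2, h3⟩ := hbad
  obtain ⟨hy, hW, hP, hP'⟩ := par_pos h
  have hS := PPS_pos (W := W)
  have hL := PPL_pos (W := W) (Z := Z)
  obtain ⟨U, hU⟩ : ∃ U, U = srv (lL W Z) m (sv (bb W B m) (lS W) (cls y 1 0)) := ⟨_, rfl⟩
  have hU1 := h1 B hB
  rw [← hU] at hU1
  have hWW : W ≤ W ^ 2 := by
    have := h.hW
    nlinarith
  -- every element of `U` is covered by a large prime
  have hcov : ∀ n ∈ U, ∃ p ∈ pw Z x, (p : ℤ) ∣ n - a p := by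
    intro n hn
    rw [hU, mem_srv, mem_sv, mem_cls] at hn
    obtain ⟨⟨⟨hn1, -⟩, hn2⟩, hn3⟩ := hn
    have hcop : Nat.Coprime (m + n) (∏ p ∈ pw W Z, p) := by
      refine Nat.Coprime.prod_right fun q hq => ?_
      rw [mem_pw] at hq
      rw [Nat.coprime_comm]
      refine (Nat.Prime.coprime_iff_not_dvd hq.1).2 ?_
      rcases le_or_gt q (W ^ 2) with h4 | h4
      · have h5 := hn2 q (mem_lS.2 ⟨hq.1, h4⟩)
        unfold bb at h5
        rwa [if_neg (by omega)] at h5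
      · exact hn3 q (mem_lL.2 ⟨hq.1, h4, hq.2.2⟩)
    obtain ⟨p, hp, hpx, hpQ, hdvd⟩ := ha n hn1 hcop
    refine ⟨p, ?_, hdvd⟩
    rw [mem_pw]
    refine ⟨hp, ?_, hpx⟩
    by_contra h4
    have h5 : p ≤ W := by
      by_contra h6
      exact hpQ (mem_pw.2 ⟨hp, by omega, by omega⟩)
    have h6 := hn2 p (mem_lS.2 ⟨hp, h5.trans hWW⟩)
    unfold bb at h6
    rw [if_pos h5] at h6
    exact h6 ((hBp p hp h5 n).2 hdvd)
  have hsub : U ⊆ (pw Z x).biUnion fun p => U.filter fun n : ℕ => (p : ℤ) ∣ (n : ℤ) - a p := by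
    intro n hn
    obtain ⟨p, hp, hd⟩ := hcov n hn
    exact mem_biUnion.2 ⟨p, hp, mem_filter.2 ⟨hn, hd⟩⟩
  have hcard := (card_le_card hsub).trans card_biUnion_le
  have hcardR : (U.card : ℝ) ≤ ∑ p ∈ pw Z x,
      ((U.filter fun n : ℕ => (p : ℤ) ∣ (n : ℤ) - a p).card : ℝ) := by
    exact_mod_cast hcard
  have hsplit : pw Z x = pw Z P0 ∪ pw P0 x := by
    ext p
    rw [mem_union, mem_pw, mem_pw, mem_pw]
    have := h.hZP
    have := h.hPx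
    constructor
    · rintro ⟨h4, h5, h6⟩
      rcases le_or_gt p P0 with h7 | h7
      · exact Or.inl ⟨h4, h5, h7⟩
      · exact Or.inr ⟨h4, h7, h6⟩
    · rintro (⟨h4, h5, h6⟩ | ⟨h4, h5, h6⟩)
      · exact ⟨h4, h5, by omega⟩
      · exact ⟨h4, by omega, h6⟩
  have hdisj : Disjoint (pw Z P0) (pw P0 x) := by
    rw [disjoint_left]
    intro p h4 h5
    rw [mem_pw] at h4 h5
    omega
  rw [hsplit, sum_union hdisj] at hcardR
  have s1 : ∑ p ∈ pw Z P0, ((U.filter fun n : ℕ => (p : ℤ) ∣ (n : ℤ) - a p).card : ℝ) ≤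
      (1 + δ) ^ 2 * y * PP (lS W) * PP (lL W Z) * (FF P0 - FF Z) := by
    rw [← sum_pw h.hZP, mul_sum]
    refine sum_le_sum fun p hp => ?_
    have hp' := mem_pw.1 hp
    obtain ⟨c, hc, hcd⟩ := exists_class_one hp'.1.pos (a p)
    have hcx : c < x := by
      have := h.hPx
      omega
    have h4 := h2 p hp c hcx B hB
    have h5 : (U.filter fun n : ℕ => (p : ℤ) ∣ (n : ℤ) - a p) ⊆
        srv (lL W Z) m (sv (bb W B m) (lS W) (cls y p c)) := by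
      intro n hn
      rw [mem_filter, hU, mem_srv, mem_sv, mem_cls] at hn
      obtain ⟨⟨⟨⟨hn1, -⟩, hn2⟩, hn3⟩, hn4⟩ := hn
      rw [mem_srv, mem_sv, mem_cls]
      exact ⟨⟨⟨hn1, (hcd n).2 hn4⟩, hn2⟩, hn3⟩
    have h6 : ((U.filter fun n : ℕ => (p : ℤ) ∣ (n : ℤ) - a p).card : ℝ) ≤
        ((srv (lL W Z) m (sv (bb W B m) (lS W) (cls y p c))).card : ℝ) := by
      exact_mod_cast card_le_card h5
    refine (h6.trans h4).trans (le_of_eq ?_)
    ring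
  have s2 : ∑ p ∈ pw P0 x, ((U.filter fun n : ℕ => (p : ℤ) ∣ (n : ℤ) - a p).card : ℝ) ≤
      ∑ p ∈ pw P0 x, τ3 p := by
    refine sum_le_sum fun p hp => ?_
    have hp' := mem_pw.1 hp
    obtain ⟨c, hc, hcd⟩ := exists_class_one hp'.1.pos (a p)
    obtain ⟨B', hB', hBp'⟩ := exists_class (u p) a
    have hcx : c < x := by
      have := hp'.2.2
      omega
    have h4 := h3 p hp c hcx B' hB'
    have h5 : (U.filter fun n : ℕ => (p : ℤ) ∣ (n : ℤ) - a p) ⊆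
        srv (lL W Z) m (sv (bb W B' m) (prm (u p)).toList (cls y p c)) := by
      intro n hn
      rw [mem_filter, hU, mem_srv, mem_sv, mem_cls] at hn
      obtain ⟨⟨⟨⟨hn1, -⟩, hn2⟩, hn3⟩, hn4⟩ := hn
      rw [mem_srv, mem_sv, mem_cls]
      refine ⟨⟨⟨hn1, (hcd n).2 hn4⟩, ?_⟩, hn3⟩
      intro q hq
      rw [mem_toList, mem_prm] at hq
      have hqW : q ≤ W := hq.2.trans (hh.U1 p hp)
      have h6 := hn2 q (mem_lS.2 ⟨hq.1, hqW.trans hWW⟩)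
      unfold bb at h6 ⊢
      rw [if_pos hqW] at h6 ⊢
      rw [hBp' q hq.1 hq.2 n]
      rwa [hBp q hq.1 hqW n] at h6
    have h6 : ((U.filter fun n : ℕ => (p : ℤ) ∣ (n : ℤ) - a p).card : ℝ) ≤
        ((srv (lL W Z) m (sv (bb W B' m) (prm (u p)).toList (cls y p c))).card : ℝ) := by
      exact_mod_cast card_le_card h5
    exact h6.trans h4
  have h8 := hh.U5
  have e1 : (1 - δ) * ((1 - δ) * ((y : ℝ) / (1 : ℕ)) * PP (lS W)) * PP (lL W Z) =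
      (1 - δ) ^ 2 * y * PP (lS W) * PP (lL W Z) := by
    rw [Nat.cast_one, div_one]
    ring
  rw [e1] at hU1
  linarith

/-- **The covering theorem, explicit parameters.** -/
theorem core (h : Par x y W Z P0 r k1 δ κ) (h3 : Par3 x y W Z P0 δ E0 u N3 τ3) :
    (({m | m < ∏ p ∈ pw W Z, p ∧ Cov x y W Z m} : Set ℕ).ncard : ℝ) ≤
      ((∏ p ∈ pw W Z, p : ℕ) : ℝ) * (((4 ^ W : ℕ) : ℝ) * Real.exp (-(k1 * δ / 2)) +
        ((x * x * 4 ^ W : ℕ) : ℝ) * Real.exp (-(k1 * δ / 4)) +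
        ((x * x : ℕ) : ℝ) * Real.exp (-E0)) := by
  classical
  refine le_trans ?_ (bad_count h h3)
  have h1 : ({m | m < ∏ p ∈ pw W Z, p ∧ Cov x y W Z m} : Set ℕ) ⊆
      (((range (∏ p ∈ pw W Z, p)).filter (Bad x y W Z P0 δ u τ3) : Finset ℕ) : Set ℕ) := by
    rintro m ⟨h2, h4⟩
    rw [mem_coe, mem_filter, mem_range]
    exact ⟨h2, cov_bad h h3 h4⟩
  have h2 := Set.ncard_le_ncard h1 (finite_toSet _)
  rw [Set.ncard_coe_finset] at h2
  exact_mod_cast h2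

end Pool.MP42e49e
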