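import Pool.Agent.H.MP_42e49e_nt.TailB

/-!
# Brun's pure sieve on residue classes
-/

set_option autoImplicit false

open Finset

namespace Pool.MP42e49e

/-- elements of `[1, y]` in a residue class modulo `d` -/
def cls (y d c : ℕ) : Finset ℕ := (Icc 1 y).filter fun n => d ∣ c + n

theorem cls_succ (y d c : ℕ) :
    (cls (y + 1) d c).card = (cls y d c).card + if d ∣ c + (y + 1) then 1 else 0 := by
  unfold cls
  rw [card_filter, card_filter, sum_Icc_succ_top (by omega)]

theorem cls_card_nat {d : ℕ} (hd : 0 < d) (y c : ℕ) :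
    (cls y d c).card + c / d = (c + y) / d := by
  induction y with
  | zero =>
    have : (cls 0 d c).card = 0 := by
      unfold cls
      rw [card_eq_zero, Icc_eq_empty (by omega), filter_empty]
    rw [this, zero_add, add_zero]
  | succ y ih =>
    rw [cls_succ, ← add_assoc c y 1, Nat.succ_div, ← ih]
    ring_nf

theorem cls_card {d : ℕ} (hd : 0 < d) (y c : ℕ) : |((cls y d c).card : ℝ) - y / d| ≤ 1 := by
  have h := cls_card_nat hd y c
  have hd' : (0 : ℝ) < d := by exact_mod_cast hd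
  have h1 : ((cls y d c).card : ℝ) + ((c / d : ℕ) : ℝ) = (((c + y) / d : ℕ) : ℝ) := by
    exact_mod_cast h
  have h2 : ((c / d : ℕ) : ℝ) ≤ (c : ℝ) / d := Nat.cast_div_le
  have h3 : (((c + y) / d : ℕ) : ℝ) ≤ ((c + y : ℕ) : ℝ) / d := Nat.cast_div_le
  have h4 : (c : ℝ) / d < ((c / d : ℕ) : ℝ) + 1 := by
    rw [div_lt_iff₀ hd']
    have := Nat.lt_mul_div_succ c hd
    have h5 : (c : ℝ) < ((d * (c / d + 1) : ℕ) : ℝ) := by exact_mod_cast this
    rw [Nat.cast_mul, Nat.cast_add, Nat.cast_one] at h5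
    linarith
  have h6 : ((c + y : ℕ) : ℝ) / d < (((c + y) / d : ℕ) : ℝ) + 1 := by
    rw [div_lt_iff₀ hd']
    have := Nat.lt_mul_div_succ (c + y) hd
    have h5 : ((c + y : ℕ) : ℝ) < ((d * ((c + y) / d + 1) : ℕ) : ℝ) := by exact_mod_cast this
    rw [Nat.cast_mul, Nat.cast_add ((c + y) / d), Nat.cast_one] at h5
    linarith
  have h7 : ((c + y : ℕ) : ℝ) / d = (c : ℝ) / d + (y : ℝ) / d := by
    rw [Nat.cast_add, add_div]
  rw [abs_le]
  constructor <;> linarith

theorem cls_inter {d q : ℕ} (h : Nat.Coprime d q) (y c b : ℕ) :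
    ∃ c', (cls y d c).filter (fun n => q ∣ b + n) = cls y (d * q) c' := by
  obtain ⟨c', h1, h2⟩ := Nat.chineseRemainder h c b
  refine ⟨c', ?_⟩
  unfold cls
  rw [filter_filter]
  refine filter_congr fun n _ => ?_
  have e1 : d ∣ c + n ↔ d ∣ c' + n := by
    have := Nat.ModEq.add_right n h1
    rw [← Nat.modEq_zero_iff_dvd, ← Nat.modEq_zero_iff_dvd]
    exact ⟨fun h3 => this.trans h3, fun h3 => this.symm.trans h3⟩
  have e2 : q ∣ b + n ↔ q ∣ c' + n := by
    have := Nat.ModEq.add_right n h2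
    rw [← Nat.modEq_zero_iff_dvd, ← Nat.modEq_zero_iff_dvd]
    exact ⟨fun h3 => this.trans h3, fun h3 => this.symm.trans h3⟩
  rw [e1, e2]
  constructor
  · rintro ⟨h3, h4⟩
    exact h.mul_dvd_of_dvd_of_dvd h3 h4
  · intro h3
    exact ⟨(Nat.dvd_mul_right d q).trans h3, (Nat.dvd_mul_left q d).trans h3⟩

/-- survivors with one class for every modulus of the list -/
def sv (b : ℕ → ℕ) (l : List ℕ) (T : Finset ℕ) : Finset ℕ :=
  T.filter fun n => ∀ q ∈ l, ¬ q ∣ b q + n

/-- truncated inclusion-exclusion -/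
noncomputable def NN (b : ℕ → ℕ) : List ℕ → ℕ → Finset ℕ → ℝ
  | _, 0, _ => 0
  | [], _ + 1, T => (T.card : ℝ)
  | q :: l, r + 1, T => NN b l (r + 1) T - NN b l r (T.filter fun n => q ∣ b q + n)

theorem sv_nil (b : ℕ → ℕ) (T : Finset ℕ) : sv b [] T = T := by
  unfold sv
  exact filter_true_of_mem fun n _ q hq => absurd hq (List.not_mem_nil)

theorem sv_cons_card (b : ℕ → ℕ) (q : ℕ) (l : List ℕ) (T : Finset ℕ) :
    ((sv b (q :: l) T).card : ℝ) =
      (sv b l T).card - (sv b l (T.filter fun n => q ∣ b q + n)).card := by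
  have h1 : sv b (q :: l) T = (sv b l T).filter fun n => ¬ q ∣ b q + n := by
    unfold sv
    rw [filter_filter]
    refine filter_congr fun n _ => ?_
    simp only [List.mem_cons, forall_eq_or_imp]
    exact and_comm
  have h2 : sv b l (T.filter fun n => q ∣ b q + n) = (sv b l T).filter fun n => q ∣ b q + n := by
    unfold sv
    rw [filter_filter, filter_filter]
    exact filter_congr fun n _ => and_comm
  rw [h1, h2, card_split]

theorem NN_sign (b : ℕ → ℕ) : ∀ (l : List ℕ) (r : ℕ) (T : Finset ℕ),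
    0 ≤ (-1 : ℝ) ^ r * ((sv b l T).card - NN b l r T) := by
  intro l
  induction l with
  | nil =>
    intro r T
    cases r with
    | zero =>
      rw [pow_zero, one_mul, NN, sub_zero]
      positivity
    | succ r => rw [NN, sv_nil, sub_self, mul_zero]
  | cons q l ih =>
    intro r T
    cases r with
    | zero =>
      rw [pow_zero, one_mul, NN, sub_zero]
      positivity
    | succ r =>
      have h1 := ih (r + 1) T
      have h2 := ih r (T.filter fun n => q ∣ b q + n)
      rw [NN, sv_cons_card]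
      have e : (-1 : ℝ) ^ (r + 1) * (((sv b l T).card : ℝ) -
          (sv b l (T.filter fun n => q ∣ b q + n)).card -
          (NN b l (r + 1) T - NN b l r (T.filter fun n => q ∣ b q + n))) =
          (-1 : ℝ) ^ (r + 1) * ((sv b l T).card - NN b l (r + 1) T) +
          (-1 : ℝ) ^ r * ((sv b l (T.filter fun n => q ∣ b q + n)).card -
            NN b l r (T.filter fun n => q ∣ b q + n)) := by
        rw [pow_succ]
        ring
      rw [e]
      exact add_nonneg h1 h2

/-- truncated product -/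
noncomputable def TT : List ℕ → ℕ → ℝ
  | _, 0 => 0
  | [], _ + 1 => 1
  | q :: l, r + 1 => TT l (r + 1) - 1 / (q : ℝ) * TT l r

/-- elementary symmetric function -/
noncomputable def EE : List ℕ → ℕ → ℝ
  | _, 0 => 1
  | [], _ + 1 => 0
  | q :: l, r + 1 => EE l (r + 1) + 1 / (q : ℝ) * EE l r

/-- number of terms -/
noncomputable def EC : List ℕ → ℕ → ℝ
  | _, 0 => 0
  | [], _ + 1 => 1
  | _ :: l, r + 1 => EC l (r + 1) + EC l r

/-- the product of `1 - 1 / q` -/
noncomputable def PP : List ℕ → ℝ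
  | [] => 1
  | q :: l => (1 - 1 / (q : ℝ)) * PP l

theorem inv_le_one_of_pos {q : ℕ} (hq : 0 < q) : 1 / (q : ℝ) ≤ 1 := by
  have h : (1 : ℝ) ≤ q := by exact_mod_cast hq
  rw [div_le_one (by linarith)]
  exact h

theorem PP_bound : ∀ l : List ℕ, (∀ q ∈ l, 0 < q) → 0 ≤ PP l ∧ PP l ≤ 1 := by
  intro l
  induction l with
  | nil =>
    intro _
    exact ⟨zero_le_one, le_rfl⟩
  | cons q l ih =>
    intro h
    obtain ⟨h1, h2⟩ := ih fun x hx => h x (List.mem_cons_of_mem _ hx)
    have h3 := inv_le_one_of_pos (h q List.mem_cons_self)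
    have h4 : 0 ≤ 1 / (q : ℝ) := by positivity
    rw [PP]
    constructor
    · exact mul_nonneg (by linarith) h1
    · nlinarith

theorem TT_sign : ∀ (l : List ℕ), (∀ q ∈ l, 0 < q) → ∀ r : ℕ,
    0 ≤ (-1 : ℝ) ^ r * (PP l - TT l r) ∧ (-1 : ℝ) ^ r * (PP l - TT l r) ≤ EE l r := by
  intro l
  induction l with
  | nil =>
    intro _ r
    cases r with
    | zero => rw [pow_zero, one_mul, TT, EE, PP]; norm_num
    | succ r => rw [TT, EE, PP, sub_self, mul_zero]; exact ⟨le_rfl, le_rfl⟩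
  | cons q l ih =>
    intro h r
    have hl : ∀ x ∈ l, 0 < x := fun x hx => h x (List.mem_cons_of_mem _ hx)
    cases r with
    | zero =>
      rw [pow_zero, one_mul, TT, EE, sub_zero]
      exact PP_bound _ h
    | succ r =>
      obtain ⟨h1, h2⟩ := ih hl (r + 1)
      obtain ⟨h3, h4⟩ := ih hl r
      have h5 : 0 ≤ 1 / (q : ℝ) := by positivity
      rw [TT, EE, PP]
      have e : (-1 : ℝ) ^ (r + 1) * ((1 - 1 / (q : ℝ)) * PP l -
          (TT l (r + 1) - 1 / (q : ℝ) * TT l r)) =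
          (-1 : ℝ) ^ (r + 1) * (PP l - TT l (r + 1)) +
          1 / (q : ℝ) * ((-1 : ℝ) ^ r * (PP l - TT l r)) := by
        rw [pow_succ]
        ring
      rw [e]
      exact ⟨add_nonneg h1 (mul_nonneg h5 h3), add_le_add h2 (mul_le_mul_of_nonneg_left h4 h5)⟩

theorem pow_add_ge {a t : ℝ} (ha : 0 ≤ a) (ht : 0 ≤ t) (n : ℕ) :
    a ^ (n + 1) + (n + 1) * t * a ^ n ≤ (a + t) ^ (n + 1) := by
  induction n with
  | zero => simp
  | succ n ih =>
    have h1 : (a + t) * (a ^ (n + 1) + (n + 1) * t * a ^ n) ≤ (a + t) * (a + t) ^ (n + 1) :=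
      mul_le_mul_of_nonneg_left ih (by positivity)
    rw [pow_succ' (a + t) (n + 1)]
    refine le_trans ?_ h1
    push_cast
    have h2 : (a + t) * (a ^ (n + 1) + (n + 1) * t * a ^ n) =
        a ^ (n + 1 + 1) + (n + 1 + 1) * t * a ^ (n + 1) + (n + 1) * t ^ 2 * a ^ n := by
      rw [pow_succ a (n + 1), pow_succ a n]
      ring
    rw [h2]
    have : 0 ≤ ((n : ℝ) + 1) * t ^ 2 * a ^ n := by positivity
    linarith

theorem EE_le : ∀ (l : List ℕ) (r : ℕ), 0 ≤ EE l r ∧ EE l r ≤ rs l ^ r / r.factorial := by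
  intro l
  induction l with
  | nil =>
    intro r
    cases r with
    | zero => rw [EE, pow_zero, Nat.factorial_zero]; norm_num
    | succ r =>
      rw [EE, rs_nil]
      exact ⟨le_rfl, by positivity⟩
  | cons q l ih =>
    intro r
    cases r with
    | zero => rw [EE, pow_zero, Nat.factorial_zero]; norm_num
    | succ r =>
      obtain ⟨h1, h2⟩ := ih (r + 1)
      obtain ⟨h3, h4⟩ := ih r
      have h5 : 0 ≤ 1 / (q : ℝ) := by positivity
      have hrs := rs_nonneg l
      rw [EE, rs_cons]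
      refine ⟨add_nonneg h1 (mul_nonneg h5 h3), ?_⟩
      have h6 := pow_add_ge hrs h5 r
      have h7 : (0 : ℝ) < r.factorial := by positivity
      have h8 : ((r + 1).factorial : ℝ) = (r + 1) * r.factorial := by
        rw [Nat.factorial_succ]
        push_cast
        ring
      calc EE l (r + 1) + 1 / (q : ℝ) * EE l r
          ≤ rs l ^ (r + 1) / (r + 1).factorial + 1 / (q : ℝ) * (rs l ^ r / r.factorial) :=
            add_le_add h2 (mul_le_mul_of_nonneg_left h4 h5)
        _ = (rs l ^ (r + 1) + (r + 1) * (1 / (q : ℝ)) * rs l ^ r) / (r + 1).factorial := by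
            rw [h8]
            field_simp
        _ ≤ (rs l + 1 / (q : ℝ)) ^ (r + 1) / (r + 1).factorial :=
            div_le_div_of_nonneg_right h6 (by positivity)
        _ = _ := by rw [add_comm]

theorem EC_le : ∀ (l : List ℕ) (r : ℕ), 0 ≤ EC l r ∧ EC l r ≤ ((l.length : ℝ) + 1) ^ r := by
  intro l
  induction l with
  | nil =>
    intro r
    cases r with
    | zero => rw [EC, pow_zero]; norm_num
    | succ r => rw [EC, List.length_nil]; simp
  | cons q l ih =>
    intro r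
    cases r with
    | zero => rw [EC, pow_zero]; norm_num
    | succ r =>
      obtain ⟨h1, h2⟩ := ih (r + 1)
      obtain ⟨h3, h4⟩ := ih r
      rw [EC, List.length_cons]
      refine ⟨add_nonneg h1 h3, ?_⟩
      push_cast
      have h5 : ((l.length : ℝ) + 1) ^ r ≤ ((l.length : ℝ) + 1 + 1) ^ r :=
        pow_le_pow_left₀ (by positivity) (by linarith) r
      calc EC l (r + 1) + EC l r ≤ ((l.length : ℝ) + 1) ^ (r + 1) + ((l.length : ℝ) + 1) ^ r :=
            add_le_add h2 h4
        _ = ((l.length : ℝ) + 1 + 1) * ((l.length : ℝ) + 1) ^ r := by rw [pow_succ]; ring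
        _ ≤ ((l.length : ℝ) + 1 + 1) * ((l.length : ℝ) + 1 + 1) ^ r :=
            mul_le_mul_of_nonneg_left h5 (by positivity)
        _ = _ := by rw [pow_succ]; ring

theorem NN_main (b : ℕ → ℕ) (y : ℕ) : ∀ (l : List ℕ), (∀ q ∈ l, 0 < q) → l.Pairwise Nat.Coprime →
    ∀ (r d c : ℕ), 0 < d → (∀ q ∈ l, Nat.Coprime d q) →
    |NN b l r (cls y d c) - (y : ℝ) / d * TT l r| ≤ EC l r := by
  intro l
  induction l with
  | nil =>
    intro _ _ r d c hd _
    cases r with
    | zero => rw [NN, TT, EC, mul_zero, sub_zero, abs_zero]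
    | succ r =>
      rw [NN, TT, EC, mul_one]
      exact cls_card hd y c
  | cons q l ih =>
    intro hpos hcop r d c hd hdc
    rw [List.pairwise_cons] at hcop
    have hl : ∀ x ∈ l, 0 < x := fun x hx => hpos x (List.mem_cons_of_mem _ hx)
    have hq : 0 < q := hpos q List.mem_cons_self
    have hq' : (0 : ℝ) < q := by exact_mod_cast hq
    have hd' : (0 : ℝ) < d := by exact_mod_cast hd
    cases r with
    | zero => rw [NN, TT, EC, mul_zero, sub_zero, abs_zero]
    | succ r =>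
      obtain ⟨c', hc'⟩ := cls_inter (hdc q List.mem_cons_self) y c (b q)
      have h1 := ih hl hcop.2 (r + 1) d c hd fun x hx => hdc x (List.mem_cons_of_mem _ hx)
      have h2 := ih hl hcop.2 r (d * q) c' (Nat.mul_pos hd hq) fun x hx =>
        Nat.Coprime.mul_left (hdc x (List.mem_cons_of_mem _ hx)) (hcop.1 x hx)
      rw [NN, TT, EC, hc']
      have e : NN b l (r + 1) (cls y d c) - NN b l r (cls y (d * q) c') -
          (y : ℝ) / d * (TT l (r + 1) - 1 / (q : ℝ) * TT l r) =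
          (NN b l (r + 1) (cls y d c) - (y : ℝ) / d * TT l (r + 1)) -
          (NN b l r (cls y (d * q) c') - (y : ℝ) / ((d * q : ℕ) : ℝ) * TT l r) := by
        rw [Nat.cast_mul]
        field_simp
        ring
      rw [e]
      exact (abs_sub _ _).trans (add_le_add h1 h2)

theorem brun_aux (b : ℕ → ℕ) (y : ℕ) {l : List ℕ} (hpos : ∀ q ∈ l, 0 < q)
    (hcop : l.Pairwise Nat.Coprime) (r : ℕ) {d : ℕ} (c : ℕ) (hd : 0 < d)
    (hdc : ∀ q ∈ l, Nat.Coprime d q) :
    -(EC l r + (y : ℝ) / d * EE l r) ≤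
      (-1 : ℝ) ^ r * (((sv b l (cls y d c)).card : ℝ) - (y : ℝ) / d * PP l) ∧
    (-1 : ℝ) ^ r * (((sv b l (cls y d c)).card : ℝ) - (y : ℝ) / d * PP l) ≤
      EC l (r + 1) + (y : ℝ) / d * EE l (r + 1) := by
  have hyd : (0 : ℝ) ≤ (y : ℝ) / d := by positivity
  have hsg : |(-1 : ℝ) ^ r| = 1 := by rw [abs_pow, abs_neg, abs_one, one_pow]
  have a1 := NN_sign b l r (cls y d c)
  have a2 := NN_sign b l (r + 1) (cls y d c)
  have b1 := TT_sign l hpos r
  have b2 := TT_sign l hpos (r + 1)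
  have c1 := NN_main b y l hpos hcop r d c hd hdc
  have c2 := NN_main b y l hpos hcop (r + 1) d c hd hdc
  have d1 : |(-1 : ℝ) ^ r * (NN b l r (cls y d c) - (y : ℝ) / d * TT l r)| ≤ EC l r := by
    rw [abs_mul, hsg, one_mul]
    exact c1
  have d2 : |(-1 : ℝ) ^ r * (NN b l (r + 1) (cls y d c) - (y : ℝ) / d * TT l (r + 1))| ≤
      EC l (r + 1) := by
    rw [abs_mul, hsg, one_mul]
    exact c2
  rw [abs_le] at d1 d2
  rw [pow_succ] at a2 b2
  constructor
  · have e : (-1 : ℝ) ^ r * (((sv b l (cls y d c)).card : ℝ) - (y : ℝ) / d * PP l) =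
        (-1 : ℝ) ^ r * ((sv b l (cls y d c)).card - NN b l r (cls y d c)) +
        (-1 : ℝ) ^ r * (NN b l r (cls y d c) - (y : ℝ) / d * TT l r) -
        (y : ℝ) / d * ((-1 : ℝ) ^ r * (PP l - TT l r)) := by ring
    rw [e]
    have h1 := mul_le_mul_of_nonneg_left b1.2 hyd
    linarith [d1.1]
  · have e : (-1 : ℝ) ^ r * (((sv b l (cls y d c)).card : ℝ) - (y : ℝ) / d * PP l) =
        -((-1 : ℝ) ^ r * (-1) * ((sv b l (cls y d c)).card - NN b l (r + 1) (cls y d c))) +
        (-1 : ℝ) ^ r * (NN b l (r + 1) (cls y d c) - (y : ℝ) / d * TT l (r + 1)) +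
        (y : ℝ) / d * ((-1 : ℝ) ^ r * (-1) * (PP l - TT l (r + 1))) := by ring
    rw [e]
    have h1 := mul_le_mul_of_nonneg_left b2.2 hyd
    linarith [d2.2]

theorem pow_div_fact {lam : ℝ} {r : ℕ} (h0 : 0 ≤ lam) (h : Real.exp 2 * lam ≤ r) :
    lam ^ r / r.factorial ≤ Real.exp (-r) := by
  have h1 := Real.pow_div_factorial_le_exp (Real.exp 2 * lam) (by positivity) r
  rw [mul_pow, ← Real.exp_nat_mul] at h1
  have h2 : Real.exp (Real.exp 2 * lam) ≤ Real.exp r := Real.exp_le_exp.2 h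
  have h3 : Real.exp ((r : ℝ) * 2) * (lam ^ r / r.factorial) ≤ Real.exp r := by
    rw [← mul_div_assoc]
    exact h1.trans h2
  have h4 : Real.exp (-(r : ℝ)) = Real.exp (-((r : ℝ) * 2)) * Real.exp r := by
    rw [← Real.exp_add]
    congr 1
    ring
  rw [h4]
  calc lam ^ r / r.factorial = Real.exp (-((r : ℝ) * 2)) *
        (Real.exp ((r : ℝ) * 2) * (lam ^ r / r.factorial)) := by
        rw [← mul_assoc, ← Real.exp_add, neg_add_cancel, Real.exp_zero, one_mul]
    _ ≤ _ := mul_le_mul_of_nonneg_left h3 (Real.exp_pos _).le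

/-- **Brun's pure sieve.** -/
theorem brun (b : ℕ → ℕ) (y : ℕ) {l : List ℕ} (hpos : ∀ q ∈ l, 0 < q)
    (hcop : l.Pairwise Nat.Coprime) {r : ℕ} {d : ℕ} (c : ℕ) (hd : 0 < d)
    (hdc : ∀ q ∈ l, Nat.Coprime d q) (hr : Real.exp 2 * rs l ≤ r) :
    |((sv b l (cls y d c)).card : ℝ) - (y : ℝ) / d * PP l| ≤
      ((l.length : ℝ) + 1) ^ (r + 1) + (y : ℝ) / d * Real.exp (-r) := by
  have hyd : (0 : ℝ) ≤ (y : ℝ) / d := by positivity
  obtain ⟨h1, h2⟩ := brun_aux b y hpos hcop r c hd hdc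
  have hrs := rs_nonneg l
  have e1 : EE l r ≤ Real.exp (-r) := (EE_le l r).2.trans (pow_div_fact hrs hr)
  have e2 : EE l (r + 1) ≤ Real.exp (-r) := by
    refine (EE_le l (r + 1)).2.trans ((pow_div_fact hrs ?_).trans ?_)
    · push_cast
      linarith
    · apply Real.exp_le_exp.2
      push_cast
      linarith
  have f1 : EC l r ≤ ((l.length : ℝ) + 1) ^ (r + 1) := by
    refine (EC_le l r).2.trans ?_
    exact pow_le_pow_right₀ (by linarith [(Nat.cast_nonneg l.length : (0 : ℝ) ≤ l.length)])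
      (Nat.le_succ r)
  have f2 : EC l (r + 1) ≤ ((l.length : ℝ) + 1) ^ (r + 1) := (EC_le l (r + 1)).2
  have hsg : |(-1 : ℝ) ^ r| = 1 := by rw [abs_pow, abs_neg, abs_one, one_pow]
  have h3 : |((sv b l (cls y d c)).card : ℝ) - (y : ℝ) / d * PP l| =
      |(-1 : ℝ) ^ r * (((sv b l (cls y d c)).card : ℝ) - (y : ℝ) / d * PP l)| := by
    rw [abs_mul, hsg, one_mul]
  rw [h3, abs_le]
  have g1 := mul_le_mul_of_nonneg_left e1 hyd
  have g2 := mul_le_mul_of_nonneg_left e2 hyd
  constructor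
  · linarith
  · linarith

end Pool.MP42e49e
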