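import Pool.Agent.H.MP_42e49e_nt.Mer

/-!
# Exponential moments of the number of survivors
-/

set_option autoImplicit false

open Finset

namespace Pool.MP42e49e

/-- the exponent -/
noncomputable def Lam (K t : ℝ) : List ℕ → ℝ
  | [] => t
  | q :: l => Lam K t l * (1 - (1 - Lam K t l * K / 2) / q)

theorem Lam_nonneg {K t : ℝ} (hK : 0 ≤ K) (ht : 0 ≤ t) : ∀ l : List ℕ, (∀ q ∈ l, 0 < q) →
    0 ≤ Lam K t l := by
  intro l
  induction l with
  | nil => exact fun _ => ht
  | cons q l ih =>
    intro h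
    have h1 := ih fun x hx => h x (List.mem_cons_of_mem _ hx)
    have h2 := inv_le_one_of_pos (h q List.mem_cons_self)
    have h3 : 0 ≤ 1 / (q : ℝ) := by positivity
    rw [Lam]
    refine mul_nonneg h1 ?_
    have e : 1 - (1 - Lam K t l * K / 2) / (q : ℝ) =
        (1 - 1 / (q : ℝ)) + (Lam K t l * K / 2) * (1 / (q : ℝ)) := by ring
    rw [e]
    have : 0 ≤ (Lam K t l * K / 2) * (1 / (q : ℝ)) := by positivity
    linarith

/-- the increment bound: `Λ ≤ t · PP · exp (1 - PP)` -/
theorem Lam_le {K t : ℝ} (hK : 0 ≤ K) (ht : 0 ≤ t) (htK : Real.exp 1 * (t * K) ≤ 1) :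
    ∀ l : List ℕ, (∀ q ∈ l, 2 ≤ q) → Lam K t l ≤ t * PP l * Real.exp (1 - PP l) := by
  intro l
  induction l with
  | nil =>
    intro _
    rw [Lam, PP, sub_self, Real.exp_zero, mul_one, mul_one]
  | cons q l ih =>
    intro h
    have hl : ∀ x ∈ l, 2 ≤ x := fun x hx => h x (List.mem_cons_of_mem _ hx)
    have hl' : ∀ x ∈ l, 0 < x := fun x hx => by have := hl x hx; omega
    have h1 := ih hl
    have h2 : (2 : ℝ) ≤ q := by exact_mod_cast h q List.mem_cons_self
    have hq : (0 : ℝ) < q := by linarith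
    have hP := PP_bound l hl'
    have hL0 := Lam_nonneg hK ht l hl'
    obtain ⟨v, hv⟩ : ∃ v : ℝ, v = 1 / (q : ℝ) := ⟨_, rfl⟩
    have hv0 : 0 < v := by rw [hv]; positivity
    have hv2 : v ≤ 1 / 2 := by
      rw [hv]
      exact one_div_le_one_div_of_le (by norm_num) h2
    have hLP : Lam K t l ≤ Real.exp 1 * t * PP l := by
      refine h1.trans ?_
      have h3 : Real.exp (1 - PP l) ≤ Real.exp 1 := Real.exp_le_exp.2 (by linarith)
      have h4 : 0 ≤ t * PP l := mul_nonneg ht hP.1
      calc t * PP l * Real.exp (1 - PP l) ≤ t * PP l * Real.exp 1 :=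
            mul_le_mul_of_nonneg_left h3 h4
        _ = _ := by ring
    have hLK : Lam K t l * K ≤ PP l := by
      calc Lam K t l * K ≤ Real.exp 1 * t * PP l * K := mul_le_mul_of_nonneg_right hLP hK
        _ = (Real.exp 1 * (t * K)) * PP l := by ring
        _ ≤ 1 * PP l := mul_le_mul_of_nonneg_right htK hP.1
        _ = PP l := one_mul _
    rw [Lam, PP, ← hv]
    have e1 : 1 - (1 - Lam K t l * K / 2) / (q : ℝ) = (1 - v) + v * (Lam K t l * K / 2) := by
      rw [hv]
      ring
    rw [e1]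
    have h5 : (1 - v) + v * (Lam K t l * K / 2) ≤ (1 - v) * (1 + v * PP l) := by
      have h6 : v * (Lam K t l * K / 2) ≤ v * (PP l / 2) :=
        mul_le_mul_of_nonneg_left (by linarith) hv0.le
      have h7 : 0 ≤ v * PP l := mul_nonneg hv0.le hP.1
      nlinarith
    have h8 : 1 + v * PP l ≤ Real.exp (v * PP l) := by
      have := Real.add_one_le_exp (v * PP l)
      linarith
    have h1v : 0 ≤ 1 - v := by linarith
    calc Lam K t l * ((1 - v) + v * (Lam K t l * K / 2))
        ≤ Lam K t l * ((1 - v) * Real.exp (v * PP l)) :=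
          mul_le_mul_of_nonneg_left (h5.trans (mul_le_mul_of_nonneg_left h8 h1v)) hL0
      _ ≤ (t * PP l * Real.exp (1 - PP l)) * ((1 - v) * Real.exp (v * PP l)) :=
          mul_le_mul_of_nonneg_right h1 (mul_nonneg h1v (Real.exp_pos _).le)
      _ = t * ((1 - v) * PP l) * Real.exp (1 - (1 - v) * PP l) := by
          have e2 : Real.exp (1 - (1 - v) * PP l) =
              Real.exp (1 - PP l) * Real.exp (v * PP l) := by
            rw [← Real.exp_add]
            congr 1
            ring
          rw [e2]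
          ring

theorem exp_neg_le {s : ℝ} (hs : 0 ≤ s) : Real.exp (-s) ≤ 1 - s + s ^ 2 / 2 := by
  rw [Real.exp_neg]
  have h5 : 1 + s + s ^ 2 / 2 ≤ Real.exp s := Real.quadratic_le_exp_of_nonneg hs
  have h6 : (Real.exp s)⁻¹ ≤ (1 + s + s ^ 2 / 2)⁻¹ := inv_anti₀ (by positivity) h5
  refine h6.trans ?_
  rw [inv_le_iff_one_le_mul₀ (by positivity)]
  nlinarith [pow_nonneg hs 4]

/-- **Exponential moment.** -/
theorem exp_moment {K t : ℝ} (hK : 0 ≤ K) (ht : 0 ≤ t) : ∀ l : List ℕ, (∀ q ∈ l, 0 < q) →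
    l.Pairwise Nat.Coprime → ∀ T : Finset ℕ,
    (∀ q ∈ l, ∀ c, ((T.filter fun n => q ∣ c + n).card : ℝ) ≤ K) →
    ∑ m ∈ range l.prod, Real.exp (t * (srv l m T).card) ≤
      l.prod * Real.exp (Lam K t l * T.card) := by
  intro l
  induction l with
  | nil =>
    intro _ _ T _
    rw [List.prod_nil, sum_range_one, srv_nil, Lam, Nat.cast_one, one_mul]
  | cons q l ih =>
    intro hpos hcop T hKT
    rw [List.pairwise_cons] at hcop
    have hl : ∀ x ∈ l, 0 < x := fun x hx => hpos x (List.mem_cons_of_mem _ hx)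
    have hq : 0 < q := hpos q (List.mem_cons_self)
    have hq' : (0 : ℝ) < q := by exact_mod_cast hq
    have hlp : 0 < l.prod := List.prod_pos fun x hx => hl x hx
    have hc : Nat.Coprime q l.prod := coprime_prod hcop.1
    obtain ⟨lam, hlam⟩ : ∃ lam : ℝ, lam = Lam K t l := ⟨_, rfl⟩
    have hlam0 : 0 ≤ lam := by rw [hlam]; exact Lam_nonneg hK ht l hl
    have e0 : ∑ m ∈ range (q :: l).prod, Real.exp (t * (srv (q :: l) m T).card) =
        ∑ c ∈ range q, ∑ m ∈ range l.prod,
          Real.exp (t * (srv l m (T.filter fun n => ¬ q ∣ c + n)).card) := by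
      rw [List.prod_cons, ← crt_sum hq hlp hc
        (fun c m => Real.exp (t * (srv l m (T.filter fun n => ¬ q ∣ c + n)).card))]
      refine sum_congr rfl fun m _ => ?_
      rw [srv_cons, srv_mod dvd_rfl]
      have : (T.filter fun n => ¬ q ∣ m % q + n) = T.filter fun n => ¬ q ∣ m + n :=
        filter_congr fun n _ => by rw [dvd_mod_add dvd_rfl]
      rw [this]
    rw [e0]
    have h1 : ∀ c ∈ range q, ∑ m ∈ range l.prod,
          Real.exp (t * (srv l m (T.filter fun n => ¬ q ∣ c + n)).card) ≤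
        l.prod * Real.exp (lam * T.card) * (1 - lam * (1 - lam * K / 2) *
          (T.filter fun n => q ∣ c + n).card) := by
      intro c _
      have h2 := ih hl hcop.2 (T.filter fun n => ¬ q ∣ c + n) (fun x hx c' => by
        refine le_trans ?_ (hKT x (List.mem_cons_of_mem _ hx) c')
        exact_mod_cast card_le_card (filter_subset_filter _ (filter_subset _ _)))
      rw [← hlam, card_split] at h2
      refine h2.trans ?_
      rw [mul_assoc]
      refine mul_le_mul_of_nonneg_left ?_ (Nat.cast_nonneg _)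
      rw [mul_sub, sub_eq_add_neg, Real.exp_add]
      refine mul_le_mul_of_nonneg_left ?_ (Real.exp_pos _).le
      have hY : ((T.filter fun n => q ∣ c + n).card : ℝ) ≤ K := hKT q List.mem_cons_self c
      have hY0 : (0 : ℝ) ≤ (T.filter fun n => q ∣ c + n).card := Nat.cast_nonneg _
      have h3 := exp_neg_le (mul_nonneg hlam0 hY0)
      refine h3.trans ?_
      have h4 : lam ^ 2 * ((T.filter fun n => q ∣ c + n).card : ℝ) *
          ((T.filter fun n => q ∣ c + n).card : ℝ) ≤
          lam ^ 2 * ((T.filter fun n => q ∣ c + n).card : ℝ) * K :=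
        mul_le_mul_of_nonneg_left hY (by positivity)
      nlinarith
    refine (sum_le_sum h1).trans ?_
    rw [← mul_sum]
    have h5 : ∑ c ∈ range q, (1 - lam * (1 - lam * K / 2) *
        ((T.filter fun n => q ∣ c + n).card : ℝ)) = q - lam * (1 - lam * K / 2) * T.card := by
      rw [sum_sub_distrib, ← mul_sum]
      have h6 : ∑ c ∈ range q, ((T.filter fun n => q ∣ c + n).card : ℝ) = T.card := by
        exact_mod_cast sum_del hq T
      rw [h6, sum_const, card_range]
      simp
    rw [h5, List.prod_cons, Nat.cast_mul, Lam, ← hlam]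
    have h7 : (q : ℝ) - lam * (1 - lam * K / 2) * T.card ≤
        q * Real.exp (-(lam * ((1 - lam * K / 2) / q) * T.card)) := by
      have h8 := Real.one_sub_le_exp_neg (lam * ((1 - lam * K / 2) / q) * T.card)
      have h9 := mul_le_mul_of_nonneg_left h8 hq'.le
      refine le_trans (le_of_eq ?_) h9
      field_simp
    refine (mul_le_mul_of_nonneg_left h7 (by positivity)).trans (le_of_eq ?_)
    have e2 : Real.exp (lam * (1 - (1 - lam * K / 2) / q) * T.card) =
        Real.exp (lam * T.card) * Real.exp (-(lam * ((1 - lam * K / 2) / q) * T.card)) := by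
      rw [← Real.exp_add]
      congr 1
      ring
    rw [e2]
    ring

/-- **Upper tail from the exponential moment.** -/
theorem exp_tail {K N τ : ℝ} {l : List ℕ} {T : Finset ℕ} (hK : 0 < K) (hl : ∀ q ∈ l, 2 ≤ q)
    (hcop : l.Pairwise Nat.Coprime) (hT : (T.card : ℝ) ≤ N)
    (hKT : ∀ q ∈ l, ∀ c, ((T.filter fun n => q ∣ c + n).card : ℝ) ≤ K)
    (hτ : 2 * Real.exp 1 * PP l * N ≤ τ) :
    (cnt (fun s => τ < (s : ℝ)) l T : ℝ) ≤ l.prod * Real.exp (-(τ / (2 * Real.exp 1 * K))) := by
  obtain ⟨t, ht⟩ : ∃ t : ℝ, t = 1 / (Real.exp 1 * K) := ⟨_, rfl⟩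
  have he : 0 < Real.exp 1 := Real.exp_pos 1
  have ht0 : 0 < t := by rw [ht]; positivity
  have htK : Real.exp 1 * (t * K) ≤ 1 := by
    rw [ht]
    have : Real.exp 1 * (1 / (Real.exp 1 * K) * K) = 1 := by field_simp
    rw [this]
  have hpos : ∀ q ∈ l, 0 < q := fun q hq => by have := hl q hq; omega
  have h1 := exp_moment hK.le ht0.le l hpos hcop T hKT
  have hP := PP_bound l hpos
  have hP0 : 0 < PP l := (Real.exp_pos _).trans_le (PP_ge l hl)
  have h2 : Lam K t l ≤ Real.exp 1 * t * PP l := by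
    refine (Lam_le hK.le ht0.le htK l hl).trans ?_
    have h3 : Real.exp (1 - PP l) ≤ Real.exp 1 := Real.exp_le_exp.2 (by linarith)
    have h4 : 0 ≤ t * PP l := by positivity
    calc t * PP l * Real.exp (1 - PP l) ≤ t * PP l * Real.exp 1 :=
          mul_le_mul_of_nonneg_left h3 h4
      _ = _ := by ring
  have h3 : Lam K t l * T.card ≤ t * τ / 2 := by
    have h4 : Lam K t l * T.card ≤ Real.exp 1 * t * PP l * N :=
      mul_le_mul h2 hT (Nat.cast_nonneg _) (by positivity)
    have h5 : t * (2 * Real.exp 1 * PP l * N) ≤ t * τ := mul_le_mul_of_nonneg_left hτ ht0.le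
    linarith
  have h4 : (cnt (fun s => τ < (s : ℝ)) l T : ℝ) * Real.exp (t * τ) ≤
      ∑ m ∈ range l.prod, Real.exp (t * (srv l m T).card) := by
    unfold cnt
    rw [Nat.cast_sum, sum_mul]
    refine sum_le_sum fun m _ => ?_
    split_ifs with h
    · rw [Nat.cast_one, one_mul]
      exact Real.exp_le_exp.2 (mul_le_mul_of_nonneg_left h.le ht0.le)
    · rw [Nat.cast_zero, zero_mul]
      exact (Real.exp_pos _).le
  have h5 : (cnt (fun s => τ < (s : ℝ)) l T : ℝ) * Real.exp (t * τ) ≤
      l.prod * Real.exp (t * τ / 2) := by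
    refine (h4.trans h1).trans ?_
    exact mul_le_mul_of_nonneg_left (Real.exp_le_exp.2 h3) (Nat.cast_nonneg _)
  have h6 : Real.exp (-(τ / (2 * Real.exp 1 * K))) = Real.exp (t * τ / 2) / Real.exp (t * τ) := by
    rw [← Real.exp_sub]
    congr 1
    rw [ht]
    field_simp
    ring
  rw [h6, ← mul_div_assoc, le_div_iff₀ (Real.exp_pos _)]
  exact h5

end Pool.MP42e49e
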