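import Pool.Agent.H.MP_42e49e_nt.Core
import Pool.Agent.H.MP_42e49e_nt.Exp

/-!
# The bad events, and the covering theorem with explicit parameters
-/

set_option autoImplicit false

open Finset

namespace Pool.MP42e49e

open Pool.Agent.H.MP_3e6494_nt (prm mem_prm)

variable {x y W Z P0 r k1 : ℕ} {δ κ E0 : ℝ} {u : ℕ → ℕ} {N3 τ3 : ℕ → ℝ}

theorem par_pos (h : Par x y W Z P0 r k1 δ κ) :
    (0 : ℝ) < y ∧ (0 : ℝ) < W ∧ (1 : ℝ) ≤ P0 ∧ 1 ≤ P0 := by
  have h1 := h.hZP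
  have h2 := h.hPx
  have h3 := h.hxy
  have h4 := h.hWZ
  have h5 := h.hW
  have h6 : 1 ≤ W ^ 2 := Nat.one_le_pow _ _ h5
  refine ⟨?_, ?_, ?_, ?_⟩
  · exact_mod_cast (show 0 < y by omega)
  · exact_mod_cast (show 0 < W by omega)
  · exact_mod_cast (show 1 ≤ P0 by omega)
  · omega

theorem event_one (h : Par x y W Z P0 r k1 δ κ) (B m1 : ℕ) :
    (cnt (fun s => (s : ℝ) < (1 - δ) * ((1 - δ) * ((y : ℝ) / (1 : ℕ)) * PP (lS W)) * PP (lL W Z))
      (lL W Z) (sv (bb W B m1) (lS W) (cls y 1 0)) : ℝ) ≤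
      (lL W Z).prod * Real.exp (-(k1 * δ / 2)) := by
  obtain ⟨hy, hW, hP, hP'⟩ := par_pos h
  have hδ0 := h.hδ0
  have hδ1 := h.hδ1
  have hS := PPS_pos (W := W)
  have hL := PPL_pos (W := W) (Z := Z)
  have hs := (stage_one h (bb W B m1) (d := 1) 0 Nat.one_pos hP'
    (fun q _ => Nat.coprime_one_left q)).1
  have hN : 0 < (1 - δ) * ((y : ℝ) / (1 : ℕ)) * PP (lS W) := by
    have : 0 < 1 - δ := by linarith
    positivity
  have h1 := lt' (κ := κ) (β := δ) (a := 1 - δ) (N := (1 - δ) * ((y : ℝ) / (1 : ℕ)) * PP (lS W))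
    (K := (y : ℝ) / (1 : ℕ) / (W : ℝ) ^ 2 + 1) (k := k1) (l := lL W Z)
    (T := sv (bb W B m1) (lS W) (cls y 1 0)) h.hκ0.le h.hκ1 h.hk1
    (fun q hq => (mem_lL.1 hq).1.two_le) (pairwise_toList fun p hp => (mem_pw.1 hp).1)
    hN hs (by linarith) (Real.one_sub_le_exp_neg δ)
    (fun q hq c => sv_filter_le (cls_filter_le Nat.one_pos (by positivity)
      (by
        have := (mem_lL.1 hq).2.1
        exact_mod_cast this.le) (Nat.coprime_one_left q) y 0 c))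
    (by
      have h2 := mul_le_mul_of_nonneg_left h.H4 hy.le
      have e : (y : ℝ) * (16 * k1 * (1 / (W : ℝ) ^ 2 + P0 / y)) =
          16 * (k1 * ((y : ℝ) / (W : ℝ) ^ 2 + P0)) := by
        field_simp
      rw [e] at h2
      have h3 : (k1 : ℝ) * ((y : ℝ) / (W : ℝ) ^ 2 + 1) ≤ k1 * ((y : ℝ) / (W : ℝ) ^ 2 + P0) :=
        mul_le_mul_of_nonneg_left (by linarith) (Nat.cast_nonneg k1)
      have hκ0 := h.hκ0
      have h4 : 0 < κ * (y * (PP (lS W) * PP (lL W Z))) := by positivity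
      have h5 : (1 / 2 : ℝ) ≤ (1 - δ) ^ 2 := by nlinarith
      have h6 := mul_le_mul_of_nonneg_right h5 h4.le
      rw [Nat.cast_one, div_one]
      nlinarith)
  refine h1.trans ?_
  refine mul_le_mul_of_nonneg_left ?_ (Nat.cast_nonneg _)
  apply Real.exp_le_exp.2
  have h2 := h.H3
  have hk : (0 : ℝ) ≤ k1 := Nat.cast_nonneg k1
  have h3 : (k1 : ℝ) * (δ / 2) ≤ k1 * (δ - κ * rs (lL W Z)) :=
    mul_le_mul_of_nonneg_left (by linarith) hk
  linarith

theorem exp_half_le {t : ℝ} (h0 : 0 < t) (h1 : t ≤ 1) : Real.exp (t / 2) ≤ 1 + t := by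
  have h2 := Real.exp_bound_div_one_sub_of_interval (x := t / 2) (by linarith) (by linarith)
  refine h2.trans ?_
  rw [div_le_iff₀ (by linarith)]
  nlinarith

theorem event_two (h : Par x y W Z P0 r k1 δ κ) {p : ℕ} (hp : p.Prime) (hZ : Z < p)
    (hpP : p ≤ P0) (c B m1 : ℕ) :
    (cnt (fun s => (1 + δ) * ((1 + δ) * ((y : ℝ) / p) * PP (lS W)) * PP (lL W Z) < (s : ℝ))
      (lL W Z) (sv (bb W B m1) (lS W) (cls y p c)) : ℝ) ≤
      (lL W Z).prod * Real.exp (-(k1 * δ / 4)) := by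
  obtain ⟨hy, hW, hP, hP'⟩ := par_pos h
  have hδ0 := h.hδ0
  have hδ1 := h.hδ1
  have hS := PPS_pos (W := W)
  have hL := PPL_pos (W := W) (Z := Z)
  have hp0 : (0 : ℝ) < p := by exact_mod_cast hp.pos
  have hs := (stage_one h (bb W B m1) (d := p) c hp.pos hpP
    (fun q hq => (Nat.coprime_primes hp (mem_lS.1 hq).1).2 (by
      have h1 := (mem_lS.1 hq).2
      have h2 := h.hWZ
      omega))).2
  have hN : 0 < (1 + δ) * ((y : ℝ) / p) * PP (lS W) := by positivity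
  have h1 := ut (κ := κ) (β := δ / 2) (a := 1 + δ) (N := (1 + δ) * ((y : ℝ) / p) * PP (lS W))
    (K := (y : ℝ) / p / (W : ℝ) ^ 2 + 1) (k := k1) (l := lL W Z)
    (T := sv (bb W B m1) (lS W) (cls y p c)) h.hκ0.le h.hκ1
    (fun q hq => (mem_lL.1 hq).1.two_le) (pairwise_toList fun p hp => (mem_pw.1 hp).1)
    hN hs (exp_half_le hδ0 (by linarith))
    (fun q hq c' => sv_filter_le (cls_filter_le hp.pos (by positivity)
      (by
        have := (mem_lL.1 hq).2.1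
        exact_mod_cast this.le) ((Nat.coprime_primes hp (mem_lL.1 hq).1).2 (by
          have := (mem_lL.1 hq).2.2
          omega)) y c c'))
    (by
      have h2 := mul_le_mul_of_nonneg_left h.H4 (by positivity : 0 ≤ (y : ℝ) / p)
      have e : (y : ℝ) / p * (16 * k1 * (1 / (W : ℝ) ^ 2 + P0 / y)) =
          16 * (k1 * ((y : ℝ) / p / (W : ℝ) ^ 2 + P0 / p)) := by
        field_simp
      rw [e] at h2
      have h4 : (1 : ℝ) ≤ (P0 : ℝ) / p := by
        rw [one_le_div hp0]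
        exact_mod_cast hpP
      have h3 : (k1 : ℝ) * ((y : ℝ) / p / (W : ℝ) ^ 2 + 1) ≤
          k1 * ((y : ℝ) / p / (W : ℝ) ^ 2 + P0 / p) :=
        mul_le_mul_of_nonneg_left (by linarith) (Nat.cast_nonneg k1)
      have hκ0 := h.hκ0
      have h5 : 0 < κ * (((y : ℝ) / p) * (PP (lS W) * PP (lL W Z))) := by positivity
      have h6 : (1 : ℝ) ≤ (1 + δ) ^ 2 := by nlinarith
      have h7 := mul_le_mul_of_nonneg_right h6 h5.le
      have h8 : 0 ≤ (k1 : ℝ) * ((y : ℝ) / p / (W : ℝ) ^ 2 + 1) := by positivity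
      nlinarith)
  refine h1.trans ?_
  refine mul_le_mul_of_nonneg_left ?_ (Nat.cast_nonneg _)
  apply Real.exp_le_exp.2
  have h2 := h.H3
  have h2' := h.H3'
  have hk : (0 : ℝ) ≤ k1 := Nat.cast_nonneg k1
  have h3 : (k1 : ℝ) * (δ / 4) ≤ k1 * (δ / 2 - rs2 (lL W Z) - κ * rs (lL W Z)) :=
    mul_le_mul_of_nonneg_left (by linarith) hk
  linarith

theorem event_three (h : Par x y W Z P0 r k1 δ κ) (h3 : Par3 x y W Z P0 δ E0 u N3 τ3) {p : ℕ}
    (hp : p ∈ pw P0 x) (c B m1 : ℕ) :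
    (cnt (fun s => τ3 p < (s : ℝ))
      (lL W Z) (sv (bb W B m1) (prm (u p)).toList (cls y p c)) : ℝ) ≤
      (lL W Z).prod * Real.exp (-(E0 + u p * Real.log 4)) := by
  obtain ⟨hy, hW, hP, hP'⟩ := par_pos h
  have hp' := mem_pw.1 hp
  have hp0 : (0 : ℝ) < p := by exact_mod_cast hp'.1.pos
  rcases h3.U34 p hp with hdet | ⟨hU3, hU4⟩
  · rw [cnt_eq_zero ((h3.U2 p hp _ c).trans hdet), Nat.cast_zero]
    positivity
  have h1 := exp_tail (K := (y : ℝ) / p / (W : ℝ) ^ 2 + 1) (N := N3 p) (τ := τ3 p) (l := lL W Z)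
    (T := sv (bb W B m1) (prm (u p)).toList (cls y p c)) (by positivity)
    (fun q hq => (mem_lL.1 hq).1.two_le) (pairwise_toList fun p hp => (mem_pw.1 hp).1)
    (h3.U2 p hp _ c)
    (fun q hq c' => sv_filter_le (cls_filter_le hp'.1.pos (by positivity)
      (by
        have := (mem_lL.1 hq).2.1
        exact_mod_cast this.le) ((Nat.coprime_primes hp'.1 (mem_lL.1 hq).1).2 (by
          have := (mem_lL.1 hq).2.2
          have := h.hZP
          omega)) y c c'))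
    hU3
  refine h1.trans ?_
  refine mul_le_mul_of_nonneg_left ?_ (Nat.cast_nonneg _)
  apply Real.exp_le_exp.2
  linarith

/-- `m` is bad -/
def Bad (x y W Z P0 : ℕ) (δ : ℝ) (u : ℕ → ℕ) (τ3 : ℕ → ℝ) (m : ℕ) : Prop :=
  (∃ B < 4 ^ W, ((srv (lL W Z) m (sv (bb W B m) (lS W) (cls y 1 0))).card : ℝ) <
    (1 - δ) * ((1 - δ) * ((y : ℝ) / (1 : ℕ)) * PP (lS W)) * PP (lL W Z)) ∨
  (∃ p ∈ pw Z P0, ∃ c < x, ∃ B < 4 ^ W,
    (1 + δ) * ((1 + δ) * ((y : ℝ) / p) * PP (lS W)) * PP (lL W Z) <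
      ((srv (lL W Z) m (sv (bb W B m) (lS W) (cls y p c))).card : ℝ)) ∨
  (∃ p ∈ pw P0 x, ∃ c < x, ∃ B < 4 ^ u p, τ3 p <
      ((srv (lL W Z) m (sv (bb W B m) (prm (u p)).toList (cls y p c))).card : ℝ))

theorem card_pw_le (A B : ℕ) : (pw A B).card ≤ B := by
  have h1 : (pw A B).card ≤ (prm B).card := card_filter_le _ _
  have h2 : (prm B).card ≤ (Icc 1 B).card := by
    unfold prm
    exact card_filter_le _ _
  rw [Nat.card_Icc, Nat.add_sub_cancel] at h2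
  exact h1.trans h2

theorem mul_exp_le {A B : ℕ} {E : ℝ} (hE : 0 ≤ E) (h : A ≤ B) (M : ℕ) :
    (A : ℝ) * (M * E) ≤ M * (B * E) := by
  have h1 : (A : ℝ) ≤ B := by exact_mod_cast h
  have h2 : (0 : ℝ) ≤ M * E := by positivity
  nlinarith

theorem four_pow_mul (k : ℕ) (E0 : ℝ) :
    ((4 ^ k : ℕ) : ℝ) * Real.exp (-(E0 + k * Real.log 4)) = Real.exp (-E0) := by
  have h1 : ((4 ^ k : ℕ) : ℝ) = Real.exp (k * Real.log 4) := by
    rw [Real.exp_nat_mul, Real.exp_log (by norm_num)]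
    push_cast
    rfl
  rw [h1, ← Real.exp_add]
  congr 1
  ring

open Classical in
theorem bad_count (h : Par x y W Z P0 r k1 δ κ) (h3 : Par3 x y W Z P0 δ E0 u N3 τ3) :
    (((range (∏ p ∈ pw W Z, p)).filter (Bad x y W Z P0 δ u τ3)).card : ℝ) ≤
      ((∏ p ∈ pw W Z, p : ℕ) : ℝ) * (((4 ^ W : ℕ) : ℝ) * Real.exp (-(k1 * δ / 2)) +
        ((x * x * 4 ^ W : ℕ) : ℝ) * Real.exp (-(k1 * δ / 4)) +
        ((x * x : ℕ) : ℝ) * Real.exp (-E0)) := by
  have hM := prod_eq h.hW h.hWZ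
  have hM1 : 0 < ∏ p ∈ pw W (W ^ 2), p := prod_pos' W (W ^ 2)
  have hM2 : 0 < (lL W Z).prod := by
    rw [lL_prod]
    exact prod_pos' _ _
  have hdv : ∀ q ∈ lS W, W < q → q ∣ ∏ p ∈ pw W (W ^ 2), p := fun q hq hWq =>
    dvd_prod_of_mem (fun p => p) (mem_pw.2 ⟨(mem_lS.1 hq).1, hWq, (mem_lS.1 hq).2⟩)
  obtain ⟨M, hMdef⟩ : ∃ M, M = ∏ p ∈ pw W Z, p := ⟨_, rfl⟩
  rw [← hMdef] at hM ⊢
  have b1 : ∀ B : ℕ, (((range M).filter fun m =>
      ((srv (lL W Z) m (sv (bb W B m) (lS W) (cls y 1 0))).card : ℝ) <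
        (1 - δ) * ((1 - δ) * ((y : ℝ) / (1 : ℕ)) * PP (lS W)) * PP (lL W Z)).card : ℝ) ≤
      (M : ℝ) * Real.exp (-(k1 * δ / 2)) := by
    intro B
    have := two_stage_le (fun s => (s : ℝ) <
      (1 - δ) * ((1 - δ) * ((y : ℝ) / (1 : ℕ)) * PP (lS W)) * PP (lL W Z)) hM1 hM2 cop_prod hdv B
      (cls y 1 0) (fun m1 => event_one h B m1)
    rw [hM] at this
    convert this
  have b2 : ∀ p ∈ pw Z P0, ∀ c B : ℕ, (((range M).filter fun m =>
      (1 + δ) * ((1 + δ) * ((y : ℝ) / p) * PP (lS W)) * PP (lL W Z) <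
      ((srv (lL W Z) m (sv (bb W B m) (lS W) (cls y p c))).card : ℝ)).card : ℝ) ≤
      (M : ℝ) * Real.exp (-(k1 * δ / 4)) := by
    intro p hp c B
    rw [mem_pw] at hp
    have := two_stage_le (fun s =>
      (1 + δ) * ((1 + δ) * ((y : ℝ) / p) * PP (lS W)) * PP (lL W Z) < (s : ℝ)) hM1 hM2 cop_prod hdv
      B (cls y p c) (fun m1 => event_two h hp.1 hp.2.1 hp.2.2 c B m1)
    rw [hM] at this
    convert this
  have b3 : ∀ p ∈ pw P0 x, ∀ c B : ℕ, (((range M).filter fun m => τ3 p <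
      ((srv (lL W Z) m (sv (bb W B m) (prm (u p)).toList (cls y p c))).card : ℝ)).card : ℝ) ≤
      (M : ℝ) * Real.exp (-(E0 + u p * Real.log 4)) := by
    intro p hp c B
    have hdv' : ∀ q ∈ (prm (u p)).toList, W < q → q ∣ ∏ p ∈ pw W (W ^ 2), p := by
      intro q hq hWq
      rw [mem_toList, mem_prm] at hq
      have := h3.U1 p hp
      omega
    have := two_stage_le (fun s => τ3 p < (s : ℝ)) hM1 hM2
      cop_prod hdv' B (cls y p c) (fun m1 => event_three h h3 hp c B m1)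
    rw [hM] at this
    convert this
  have hsub : (range M).filter (Bad x y W Z P0 δ u τ3) ⊆
      ((range (4 ^ W)).biUnion fun B => (range M).filter fun m =>
        ((srv (lL W Z) m (sv (bb W B m) (lS W) (cls y 1 0))).card : ℝ) <
        (1 - δ) * ((1 - δ) * ((y : ℝ) / (1 : ℕ)) * PP (lS W)) * PP (lL W Z)) ∪
      (((pw Z P0) ×ˢ (range x ×ˢ range (4 ^ W))).biUnion fun t => (range M).filter fun m =>
        (1 + δ) * ((1 + δ) * ((y : ℝ) / t.1) * PP (lS W)) * PP (lL W Z) <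
        ((srv (lL W Z) m (sv (bb W t.2.2 m) (lS W) (cls y t.1 t.2.1))).card : ℝ)) ∪
      (((pw P0 x) ×ˢ range x).biUnion fun t => (range (4 ^ u t.1)).biUnion fun B =>
        (range M).filter fun m => τ3 t.1 <
        ((srv (lL W Z) m (sv (bb W B m) (prm (u t.1)).toList (cls y t.1 t.2))).card : ℝ)) := by
    intro m hm
    rw [mem_filter] at hm
    obtain ⟨hm0, hm1⟩ := hm
    rw [mem_union, mem_union, mem_biUnion, mem_biUnion, mem_biUnion]
    rcases hm1 with ⟨B, hB, h1⟩ | ⟨p, hp, c, hc, B, hB, h1⟩ | ⟨p, hp, c, hc, B, hB, h1⟩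
    · exact Or.inl (Or.inl ⟨B, mem_range.2 hB, mem_filter.2 ⟨hm0, h1⟩⟩)
    · exact Or.inl (Or.inr ⟨(p, c, B), mem_product.2 ⟨hp, mem_product.2
        ⟨mem_range.2 hc, mem_range.2 hB⟩⟩, mem_filter.2 ⟨hm0, h1⟩⟩)
    · exact Or.inr ⟨(p, c), mem_product.2 ⟨hp, mem_range.2 hc⟩, mem_biUnion.2
        ⟨B, mem_range.2 hB, mem_filter.2 ⟨hm0, h1⟩⟩⟩
  have hc := (card_le_card hsub).trans ((card_union_le _ _).trans
    (Nat.add_le_add_right (card_union_le _ _) _))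
  have hc1 := card_biUnion_le (s := range (4 ^ W)) (t := fun B => (range M).filter fun m =>
        ((srv (lL W Z) m (sv (bb W B m) (lS W) (cls y 1 0))).card : ℝ) <
        (1 - δ) * ((1 - δ) * ((y : ℝ) / (1 : ℕ)) * PP (lS W)) * PP (lL W Z))
  have hc2 := card_biUnion_le (s := (pw Z P0) ×ˢ (range x ×ˢ range (4 ^ W)))
    (t := fun t => (range M).filter fun m =>
        (1 + δ) * ((1 + δ) * ((y : ℝ) / t.1) * PP (lS W)) * PP (lL W Z) <
        ((srv (lL W Z) m (sv (bb W t.2.2 m) (lS W) (cls y t.1 t.2.1))).card : ℝ))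
  have hc3 := card_biUnion_le (s := (pw P0 x) ×ˢ range x) (t := fun t =>
        (range (4 ^ u t.1)).biUnion fun B => (range M).filter fun m => τ3 t.1 <
        ((srv (lL W Z) m (sv (bb W B m) (prm (u t.1)).toList (cls y t.1 t.2))).card : ℝ))
  have hcR := (Nat.cast_le (α := ℝ)).2 (hc.trans (add_le_add (add_le_add hc1 hc2) hc3))
  refine hcR.trans ?_
  rw [Nat.cast_add, Nat.cast_add, Nat.cast_sum, Nat.cast_sum, Nat.cast_sum, mul_add, mul_add]
  refine add_le_add (add_le_add ?_ ?_) ?_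
  · refine (sum_le_sum fun B _ => b1 B).trans ?_
    rw [sum_const, nsmul_eq_mul]
    exact mul_exp_le (Real.exp_pos _).le (by rw [card_range]) M
  · refine (sum_le_sum fun t ht => b2 t.1 (mem_product.1 ht).1 t.2.1 t.2.2).trans ?_
    rw [sum_const, nsmul_eq_mul]
    refine mul_exp_le (Real.exp_pos _).le ?_ M
    rw [card_product, card_product, card_range, card_range, ← mul_assoc]
    exact Nat.mul_le_mul_right _ (Nat.mul_le_mul_right _ ((card_pw_le Z P0).trans h.hPx))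
  · have b4 : ∀ t ∈ (pw P0 x) ×ˢ range x, (((range (4 ^ u t.1)).biUnion fun B =>
        (range M).filter fun m => τ3 t.1 <
        ((srv (lL W Z) m (sv (bb W B m) (prm (u t.1)).toList (cls y t.1 t.2))).card : ℝ)).card :
          ℝ) ≤ (M : ℝ) * Real.exp (-E0) := by
      intro t ht
      have hp := (mem_product.1 ht).1
      have e1 := (Nat.cast_le (α := ℝ)).2 (card_biUnion_le (s := range (4 ^ u t.1))
        (t := fun B => (range M).filter fun m => τ3 t.1 <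
        ((srv (lL W Z) m (sv (bb W B m) (prm (u t.1)).toList (cls y t.1 t.2))).card : ℝ)))
      rw [Nat.cast_sum] at e1
      refine e1.trans ((sum_le_sum fun B _ => b3 t.1 hp t.2 B).trans (le_of_eq ?_))
      rw [sum_const, nsmul_eq_mul, card_range, ← four_pow_mul (u t.1) E0]
      ring
    refine (sum_le_sum b4).trans ?_
    rw [sum_const, nsmul_eq_mul]
    refine mul_exp_le (Real.exp_pos _).le ?_ M
    rw [card_product, card_range]
    exact Nat.mul_le_mul_right _ (card_pw_le P0 x)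

end Pool.MP42e49e
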