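import Pool.Agent.H.MP_3e6494_nt.PrimeSum
import Pool.Agent.H.MP_42e49e_nt.Brun

/-!
# Mertens' second theorem on short ranges, and products over primes
-/

set_option autoImplicit false

open Finset

namespace Pool.MP42e49e

open Pool.Agent.H.MP_3e6494_nt (prm mem_prm mert mert_lower mert_upper)

/-- sum of the reciprocals of the primes up to `N` -/
noncomputable def FF (N : ℕ) : ℝ := ∑ p ∈ prm N, 1 / (p : ℝ)

theorem sum_prm_succ (x : ℕ) (f : ℕ → ℝ) :
    ∑ p ∈ prm (x + 1), f p = (∑ p ∈ prm x, f p) + if (x + 1).Prime then f (x + 1) else 0 := by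
  unfold prm
  rw [sum_filter, sum_Icc_succ_top (by omega), ← sum_filter]

theorem mert_upper' {x : ℕ} (hx : 1 ≤ x) : mert x ≤ Real.log x + 2 := by
  have h1 := mert_upper hx
  have h2 : Real.log 4 = 2 * Real.log 2 := by
    rw [show (4 : ℝ) = 2 ^ 2 by norm_num, Real.log_pow]
    norm_num
  have := Real.log_two_lt_d9
  linarith

/-- Summation by parts, as an induction. -/
theorem window_aux {v : ℕ} (hv : 2 ≤ v) (x : ℕ) (hx : v ≤ x) :
    Real.log (Real.log x) - Real.log (Real.log v) - 10 * (1 / Real.log v - 1 / Real.log x) ≤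
      (FF x - mert x / Real.log x) - (FF v - mert v / Real.log v) ∧
    (FF x - mert x / Real.log x) - (FF v - mert v / Real.log v) ≤
      Real.log (Real.log x) - Real.log (Real.log v) + 2 * (1 / Real.log v - 1 / Real.log x) := by
  induction x, hx using Nat.le_induction with
  | base => constructor <;> linarith
  | succ x hx ih =>
    have hx1 : (2 : ℝ) ≤ x := by exact_mod_cast hv.trans hx
    have hl0 : 0 < Real.log x := Real.log_pos (by linarith)
    have hl1 : 0 < Real.log ((x + 1 : ℕ) : ℝ) := Real.log_pos (by push_cast; linarith)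
    obtain ⟨A, hA⟩ : ∃ A, A = mert x := ⟨_, rfl⟩
    obtain ⟨F, hF⟩ : ∃ F, F = FF x := ⟨_, rfl⟩
    obtain ⟨G, hG⟩ : ∃ G, G = FF v - mert v / Real.log v := ⟨_, rfl⟩
    obtain ⟨l, hl⟩ : ∃ l, l = Real.log x := ⟨_, rfl⟩
    obtain ⟨l', hl'⟩ : ∃ l', l' = Real.log ((x + 1 : ℕ) : ℝ) := ⟨_, rfl⟩
    obtain ⟨lv, hlv⟩ : ∃ lv, lv = Real.log v := ⟨_, rfl⟩
    have hll : l ≤ l' := by
      rw [hl, hl']
      exact Real.log_le_log (by linarith) (by push_cast; linarith)
    have hstep : FF (x + 1) - mert (x + 1) / l' = (F - A / l) + A * (1 / l - 1 / l') := by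
      have e1 : FF (x + 1) = F + if (x + 1).Prime then 1 / ((x + 1 : ℕ) : ℝ) else 0 := by
        rw [hF]
        exact sum_prm_succ x fun p => 1 / (p : ℝ)
      have e2 : mert (x + 1) = A + if (x + 1).Prime then
          Real.log ((x + 1 : ℕ) : ℝ) / ((x + 1 : ℕ) : ℝ) else 0 := by
        rw [hA]
        exact sum_prm_succ x fun p => Real.log p / (p : ℝ)
      have h0 : ((x + 1 : ℕ) : ℝ) ≠ 0 := by push_cast; linarith
      rw [e1, e2, ← hl']
      rw [← hl'] at hl1
      split_ifs with hp
      · field_simp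
        ring
      · rw [add_zero, add_zero]
        ring
    rw [← hG, ← hl', ← hlv, hstep]
    rw [← hG, ← hl, ← hlv, ← hF, ← hA] at ih
    have hAu : A ≤ l + 2 := by rw [hA, hl]; exact mert_upper' (by omega)
    have hAl : l - 9 ≤ A := by rw [hA, hl]; exact mert_lower (by omega)
    have hδ : l' - l ≤ 1 := by
      rw [hl, hl', ← Real.log_div (by push_cast; linarith) (by linarith)]
      have h3 : ((x + 1 : ℕ) : ℝ) / x ≤ 2 := by
        rw [div_le_iff₀ (by linarith)]
        push_cast
        linarith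
      have h4 := Real.log_le_sub_one_of_pos (show 0 < ((x + 1 : ℕ) : ℝ) / x by
        push_cast
        apply div_pos <;> linarith)
      linarith
    rw [← hl] at hl0
    rw [← hl'] at hl1
    have hbb : 0 ≤ 1 / l - 1 / l' := by
      have := one_div_le_one_div_of_le hl0 hll
      linarith
    have hup : (l' - l) / l' ≤ Real.log l' - Real.log l := by
      rw [← Real.log_div hl1.ne' hl0.ne']
      have h5 := Real.one_sub_inv_le_log_of_pos (show 0 < l' / l from div_pos hl1 hl0)
      refine le_trans (le_of_eq ?_) h5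
      field_simp
    have hlo : Real.log l' - Real.log l ≤ (l' - l) / l := by
      rw [← Real.log_div hl1.ne' hl0.ne']
      have h5 := Real.log_le_sub_one_of_pos (show 0 < l' / l from div_pos hl1 hl0)
      refine h5.trans (le_of_eq ?_)
      field_simp
    have e1 : l * (1 / l - 1 / l') = (l' - l) / l' := by
      field_simp
    have e2 : (l' - l) / l - (l' - l) / l' = (l' - l) * (1 / l - 1 / l') := by
      field_simp
    have h6 : (l' - l) * (1 / l - 1 / l') ≤ 1 / l - 1 / l' := by
      nlinarith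
    have h7 : A * (1 / l - 1 / l') ≤ (l + 2) * (1 / l - 1 / l') :=
      mul_le_mul_of_nonneg_right hAu hbb
    have h8 : (l - 9) * (1 / l - 1 / l') ≤ A * (1 / l - 1 / l') :=
      mul_le_mul_of_nonneg_right hAl hbb
    have e3 : (l + 2) * (1 / l - 1 / l') = l * (1 / l - 1 / l') + 2 * (1 / l - 1 / l') := by ring
    have e4 : (l - 9) * (1 / l - 1 / l') = l * (1 / l - 1 / l') - 9 * (1 / l - 1 / l') := by ring
    rw [e3, e1] at h7
    rw [e4, e1] at h8
    constructor
    · linarith [ih.1]
    · linarith [ih.2]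

/-- **Mertens' second theorem on `(v, x]`** -/
theorem window {v x : ℕ} (hv : 2 ≤ v) (hx : v ≤ x) :
    FF x - FF v ≤ Real.log (Real.log x) - Real.log (Real.log v) + 12 / Real.log v ∧
    Real.log (Real.log x) - Real.log (Real.log v) - 12 / Real.log v ≤ FF x - FF v := by
  obtain ⟨h1, h2⟩ := window_aux hv x hx
  have hv1 : (2 : ℝ) ≤ v := by exact_mod_cast hv
  have hx1 : (v : ℝ) ≤ x := by exact_mod_cast hx
  have hlv : 0 < Real.log v := Real.log_pos (by linarith)
  have hlx : 0 < Real.log x := Real.log_pos (by linarith)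
  have hvx : Real.log v ≤ Real.log x := Real.log_le_log (by linarith) hx1
  have a1 : mert x / Real.log x ≤ 1 + 2 / Real.log x := by
    rw [div_le_iff₀ hlx]
    have := mert_upper' (x := x) (by omega)
    have e : (1 + 2 / Real.log x) * Real.log x = Real.log x + 2 := by field_simp
    linarith
  have a2 : 1 - 9 / Real.log x ≤ mert x / Real.log x := by
    rw [le_div_iff₀ hlx]
    have := mert_lower (N := x) (by omega)
    have e : (1 - 9 / Real.log x) * Real.log x = Real.log x - 9 := by field_simp
    linarith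
  have b1 : mert v / Real.log v ≤ 1 + 2 / Real.log v := by
    rw [div_le_iff₀ hlv]
    have := mert_upper' (x := v) (by omega)
    have e : (1 + 2 / Real.log v) * Real.log v = Real.log v + 2 := by field_simp
    linarith
  have b2 : 1 - 9 / Real.log v ≤ mert v / Real.log v := by
    rw [le_div_iff₀ hlv]
    have := mert_lower (N := v) (by omega)
    have e : (1 - 9 / Real.log v) * Real.log v = Real.log v - 9 := by field_simp
    linarith
  have c0 : 0 ≤ 1 / Real.log x := by positivity
  have c1 : 1 / Real.log x ≤ 1 / Real.log v := one_div_le_one_div_of_le hlv hvx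
  have d1 : ∀ a b : ℝ, a / b = a * (1 / b) := fun a b => by ring
  rw [d1 2 (Real.log x)] at a1
  rw [d1 9 (Real.log x)] at a2
  rw [d1 2 (Real.log v)] at b1
  rw [d1 9 (Real.log v)] at b2
  rw [d1 12 (Real.log v)]
  constructor <;> nlinarith

/-- Mertens: upper bound from `2` -/
theorem FF_le {x : ℕ} (hx : 2 ≤ x) : FF x ≤ Real.log (Real.log x) + 20 := by
  have h := (window (v := 2) le_rfl hx).1
  have h2 : FF 2 = 1 / 2 := by
    have : prm 2 = {2} := by decide
    unfold FF
    rw [this, sum_singleton]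
    norm_num
  have hl2 := Real.log_two_gt_d9
  have h3 : 12 / Real.log 2 ≤ 18 := by
    rw [div_le_iff₀ (by linarith)]
    linarith
  have h5 : -1 ≤ Real.log (Real.log 2) := by
    rw [Real.le_log_iff_exp_le (by linarith)]
    have := Real.exp_neg_one_lt_d9
    linarith
  rw [h2] at h
  push_cast at h
  linarith

/-- sum of `1 / (q (q - 1))` -/
noncomputable def rs2 : List ℕ → ℝ
  | [] => 0
  | q :: l => 1 / ((q : ℝ) * (q - 1)) + rs2 l

theorem PP_ge : ∀ l : List ℕ, (∀ q ∈ l, 2 ≤ q) → Real.exp (-(rs l + rs2 l)) ≤ PP l := by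
  intro l
  induction l with
  | nil =>
    intro _
    rw [rs, rs2, PP, add_zero, neg_zero, Real.exp_zero]
  | cons q l ih =>
    intro h
    have h1 := ih fun x hx => h x (List.mem_cons_of_mem _ hx)
    have h2 : (2 : ℝ) ≤ q := by exact_mod_cast h q List.mem_cons_self
    have h3 : (0 : ℝ) < (q : ℝ) - 1 := by linarith
    have h4 : (0 : ℝ) < q := by linarith
    rw [rs, rs2, PP]
    have e : -(1 / (q : ℝ) + rs l + (1 / ((q : ℝ) * (q - 1)) + rs2 l)) =
        -(1 / ((q : ℝ) - 1)) + -(rs l + rs2 l) := by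
      have : 1 / (q : ℝ) + 1 / ((q : ℝ) * (q - 1)) = 1 / ((q : ℝ) - 1) := by
        field_simp
        ring
      linarith
    rw [e, Real.exp_add]
    refine mul_le_mul ?_ h1 (Real.exp_pos _).le ?_
    · rw [Real.exp_neg]
      have h5 : (q : ℝ) / (q - 1) ≤ Real.exp (1 / ((q : ℝ) - 1)) := by
        have h6 := Real.add_one_le_exp (1 / ((q : ℝ) - 1))
        have h7 : 1 / ((q : ℝ) - 1) + 1 = (q : ℝ) / (q - 1) := by
          field_simp
          ring
        linarith
      have h8 : 1 - 1 / (q : ℝ) = ((q : ℝ) / (q - 1))⁻¹ := by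
        field_simp
      rw [h8]
      exact inv_anti₀ (by positivity) h5
    · have : 1 / (q : ℝ) ≤ 1 := by
        rw [div_le_one h4]
        linarith
      linarith

theorem PP_le : ∀ l : List ℕ, (∀ q ∈ l, 2 ≤ q) → PP l ≤ Real.exp (-(rs l)) := by
  intro l
  induction l with
  | nil =>
    intro _
    rw [rs, PP, neg_zero, Real.exp_zero]
  | cons q l ih =>
    intro h
    have h1 := ih fun x hx => h x (List.mem_cons_of_mem _ hx)
    have h2 : (2 : ℝ) ≤ q := by exact_mod_cast h q List.mem_cons_self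
    have h4 : (0 : ℝ) < q := by linarith
    have h5 : 1 / (q : ℝ) ≤ 1 := by
      rw [div_le_one h4]
      linarith
    rw [rs, PP, neg_add, Real.exp_add]
    have h6 := PP_bound l fun x hx => by
      have := h x (List.mem_cons_of_mem _ hx)
      omega
    exact mul_le_mul (Real.one_sub_le_exp_neg _) h1 h6.1 (Real.exp_pos _).le

theorem rs2_nonneg : ∀ l : List ℕ, (∀ q ∈ l, 2 ≤ q) → 0 ≤ rs2 l := by
  intro l
  induction l with
  | nil => exact fun _ => le_rfl
  | cons q l ih =>
    intro h
    have h1 := ih fun x hx => h x (List.mem_cons_of_mem _ hx)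
    have h2 : (2 : ℝ) ≤ q := by exact_mod_cast h q List.mem_cons_self
    rw [rs2]
    have : 0 ≤ 1 / ((q : ℝ) * (q - 1)) := by
      apply div_nonneg zero_le_one
      apply mul_nonneg <;> linarith
    linarith

theorem rs2_le {w : ℝ} (hw : 0 < w) : ∀ l : List ℕ, (∀ q ∈ l, w + 1 ≤ (q : ℝ)) →
    rs2 l ≤ rs l / w := by
  intro l
  induction l with
  | nil =>
    intro _
    rw [rs, rs2, zero_div]
  | cons q l ih =>
    intro h
    have h1 := ih fun x hx => h x (List.mem_cons_of_mem _ hx)
    have h2 := h q List.mem_cons_self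
    rw [rs, rs2, add_div]
    refine add_le_add ?_ h1
    rw [div_div, one_div, one_div]
    have hq : 0 < (q : ℝ) := by linarith
    apply inv_anti₀ (by positivity)
    exact mul_le_mul_of_nonneg_left (by linarith) hq.le

theorem rs_toList (s : Finset ℕ) : rs s.toList = ∑ q ∈ s, 1 / (q : ℝ) := by
  rw [← Finset.sum_map_toList]
  induction s.toList with
  | nil => rfl
  | cons q l ih => rw [rs, List.map_cons, List.sum_cons, ih]

theorem rs2_toList (s : Finset ℕ) : rs2 s.toList = ∑ q ∈ s, 1 / ((q : ℝ) * (q - 1)) := by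
  rw [← Finset.sum_map_toList]
  induction s.toList with
  | nil => rfl
  | cons q l ih => rw [rs2, List.map_cons, List.sum_cons, ih]

theorem rs2_prm (R : ℕ) : rs2 (prm R).toList ≤ 1 := by
  rw [rs2_toList]
  have h1 : ∀ n : ℕ, ∑ k ∈ Icc 2 (n + 1), 1 / ((k : ℝ) * (k - 1)) = 1 - 1 / ((n : ℝ) + 1) := by
    intro n
    induction n with
    | zero => simp
    | succ n ih =>
      rw [sum_Icc_succ_top (by omega), ih]
      push_cast
      have h2 : (n : ℝ) + 1 ≠ 0 := by positivity
      have h3 : (n : ℝ) + 1 + 1 ≠ 0 := by positivity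
      field_simp
      ring
  calc ∑ p ∈ prm R, 1 / ((p : ℝ) * (p - 1)) ≤ ∑ k ∈ Icc 2 (R + 1), 1 / ((k : ℝ) * (k - 1)) := by
        apply sum_le_sum_of_subset_of_nonneg
        · intro p hp
          rw [mem_prm] at hp
          rw [mem_Icc]
          exact ⟨hp.1.two_le, by omega⟩
        · intro k hk _
          rw [mem_Icc] at hk
          have : (2 : ℝ) ≤ k := by exact_mod_cast hk.1
          apply div_nonneg zero_le_one
          apply mul_nonneg <;> linarith
    _ = 1 - 1 / ((R : ℝ) + 1) := h1 R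
    _ ≤ 1 := by
        have : 0 ≤ 1 / ((R : ℝ) + 1) := by positivity
        linarith

theorem pairwise_toList {s : Finset ℕ} (h : ∀ p ∈ s, p.Prime) : s.toList.Pairwise Nat.Coprime := by
  refine s.nodup_toList.pairwise_of_forall_ne ?_
  intro a ha b hb hab
  rw [mem_toList] at ha hb
  exact (Nat.coprime_primes (h a ha) (h b hb)).2 hab

end Pool.MP42e49e
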