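import Pool.Agent.H.MP_42e49e_nt.Core

/-!
# The small sieve in short progressions, and a sum over primes
-/

set_option autoImplicit false

open Finset Filter

namespace Pool.MP42e49e

open Pool.Agent.H.MP_3e6494_nt (prm mem_prm)

theorem FF_ge {x : ℕ} (hx : 2 ≤ x) : Real.log (Real.log x) - 18 ≤ FF x := by
  have h := (window (v := 2) le_rfl hx).2
  have h2 : FF 2 = 1 / 2 := by
    have : prm 2 = {2} := by decide
    unfold FF
    rw [this, sum_singleton]
    norm_num
  have hl2 := Real.log_two_gt_d9
  have h3 : 12 / Real.log 2 ≤ 18 := by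
    rw [div_le_iff₀ (by linarith)]
    linarith
  have h6 : Real.log (Real.log 2) ≤ 0 := by
    apply Real.log_nonpos (by linarith)
    have := Real.log_two_lt_d9
    linarith
  rw [h2] at h
  push_cast at h
  linarith

theorem ev_log_pow (K : ℝ) (k : ℕ) : ∀ᶠ s : ℝ in atTop, K * Real.log s ^ k ≤ s := by
  have h1 := (Real.isLittleO_pow_log_id_atTop (n := k)).def
    (show 0 < 1 / (|K| + 1) by positivity)
  filter_upwards [h1, eventually_ge_atTop 1] with s hs hs1
  have hl : 0 ≤ Real.log s := Real.log_nonneg hs1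
  rw [Real.norm_of_nonneg (pow_nonneg hl k), id, Real.norm_of_nonneg (by linarith)] at hs
  have h2 : (|K| + 1) * Real.log s ^ k ≤ s := by
    have := mul_le_mul_of_nonneg_left hs (by positivity : 0 ≤ |K| + 1)
    have e : (|K| + 1) * (1 / (|K| + 1) * s) = s := by field_simp
    linarith
  have h3 : K * Real.log s ^ k ≤ (|K| + 1) * Real.log s ^ k :=
    mul_le_mul_of_nonneg_right (by linarith [le_abs_self K]) (pow_nonneg hl k)
  linarith

theorem exp_two_le : Real.exp 2 ≤ 8 := by
  have h1 := Real.exp_one_lt_d9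
  have h2 : Real.exp 2 = Real.exp 1 * Real.exp 1 := by
    rw [← Real.exp_add]
    norm_num
  rw [h2]
  nlinarith [Real.exp_pos 1]

/-- the sieving level in a progression of length `exp s` -/
noncomputable def lev (s : ℝ) : ℕ := ⌊Real.exp (s / (256 * Real.log s))⌋₊

theorem small_sieve : ∃ s0 : ℝ, 1 ≤ s0 ∧ ∀ (y p : ℕ) (s : ℝ), p.Prime → 0 < y →
    s = Real.log ((y : ℝ) / p) → s0 ≤ s → lev s < p → ∀ (b : ℕ → ℕ) (c : ℕ),
    ((sv b (prm (lev s)).toList (cls y p c)).card : ℝ) ≤
      (512 * Real.exp 18 + 2) * ((y : ℝ) / p * (Real.log s / s)) := by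
  obtain ⟨s0, hs0⟩ := eventually_atTop.1 ((ev_log_pow 1000 1).and (eventually_ge_atTop
    (Real.exp 20)))
  refine ⟨max s0 1, le_max_right _ _, ?_⟩
  intro y p s hp hy hs hss hu b c
  obtain ⟨h1, h2⟩ := hs0 s ((le_max_left _ _).trans hss)
  rw [pow_one] at h1
  have hlog20 : 20 ≤ Real.log s := by
    rw [Real.le_log_iff_exp_le ((Real.exp_pos _).trans_le h2)]
    exact h2
  have hspos : 0 < s := by linarith
  have hp0 : (0 : ℝ) < p := by exact_mod_cast hp.pos
  have hy0 : (0 : ℝ) < y := by exact_mod_cast hy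
  have hyp : (y : ℝ) / p = Real.exp s := by
    rw [hs, Real.exp_log (by positivity)]
  obtain ⟨v, hv⟩ : ∃ v : ℝ, v = s / (256 * Real.log s) := ⟨_, rfl⟩
  have hv2 : 2 ≤ v := by
    rw [hv, le_div_iff₀ (by positivity)]
    linarith
  have hvs : v ≤ s / 5120 := by
    rw [hv, div_le_div_iff₀ (by positivity) (by norm_num)]
    nlinarith
  obtain ⟨u, hu'⟩ : ∃ u : ℕ, u = lev s := ⟨_, rfl⟩
  rw [← hu'] at hu ⊢
  have huv : (u : ℝ) ≤ Real.exp v := by
    rw [hu', lev, ← hv]
    exact Nat.floor_le (Real.exp_pos _).le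
  have huv' : Real.exp v / 2 ≤ u := by
    have h3 : Real.exp v < (u : ℝ) + 1 := by
      rw [hu', lev, ← hv]
      exact Nat.lt_floor_add_one _
    have h4 : 2 ≤ Real.exp v := by
      have := Real.add_one_le_exp v
      linarith
    linarith
  have hu2 : 2 ≤ u := by
    have h3 : Real.exp v < (u : ℝ) + 1 := by
      rw [hu', lev, ← hv]
      exact Nat.lt_floor_add_one _
    have h4 : v + 1 ≤ Real.exp v := Real.add_one_le_exp v
    have h5 : (2 : ℝ) < u + 1 := by linarith
    have h6 : 2 < u + 1 := by exact_mod_cast h5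
    omega
  have hu2' : (2 : ℝ) ≤ u := by exact_mod_cast hu2
  have hupos : (0 : ℝ) < u := by linarith
  have hlogu1 : Real.log u ≤ v := by
    have := Real.log_le_log hupos huv
    rwa [Real.log_exp] at this
  have hlogu2 : v / 2 ≤ Real.log u := by
    have h3 := Real.log_le_log (by positivity) huv'
    rw [Real.log_div (Real.exp_pos _).ne' (by norm_num), Real.log_exp] at h3
    have := Real.log_two_lt_d9
    linarith
  have hlogu0 : 0 < Real.log u := by linarith
  have hrs : rs (prm u).toList = FF u := rs_toList _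
  have hFle := FF_le hu2
  have hFge := FF_ge hu2
  have hll : Real.log (Real.log u) ≤ Real.log s := Real.log_le_log hlogu0 (by linarith)
  have hlam : rs (prm u).toList ≤ 2 * Real.log s := by
    rw [hrs]
    linarith
  have hlam0 := rs_nonneg (prm u).toList
  obtain ⟨r, hr⟩ : ∃ r : ℕ, r = ⌈16 * Real.log s⌉₊ := ⟨_, rfl⟩
  have hr1 : 16 * Real.log s ≤ r := by
    rw [hr]
    exact Nat.le_ceil _
  have hr2 : (r : ℝ) ≤ 16 * Real.log s + 1 := by
    rw [hr]
    exact (Nat.ceil_lt_add_one (by positivity)).le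
  have hre : Real.exp 2 * rs (prm u).toList ≤ r := by
    have := exp_two_le
    nlinarith
  have hpos : ∀ q ∈ (prm u).toList, 0 < q := fun q hq => by
    rw [mem_toList, mem_prm] at hq
    exact hq.1.pos
  have hB := brun b y hpos (pairwise_toList fun p hp => (mem_prm.1 hp).1) c hp.pos
    (fun q hq => by
      rw [mem_toList, mem_prm] at hq
      exact (Nat.coprime_primes hp hq.1).2 (by omega)) hre
  have hlen : (((prm u).toList.length : ℕ) : ℝ) ≤ u := by
    rw [length_toList]
    have : (prm u).card ≤ (Icc 1 u).card := by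
      unfold prm
      exact card_filter_le _ _
    rw [Nat.card_Icc, Nat.add_sub_cancel] at this
    exact_mod_cast this
  -- the first error term
  have t1 : (((prm u).toList.length : ℝ) + 1) ^ (r + 1) ≤ Real.exp (s / 4) := by
    have h3 : ((prm u).toList.length : ℝ) + 1 ≤ Real.exp (v + 1) := by
      rw [Real.exp_add]
      have h4 : (2 : ℝ) ≤ Real.exp 1 := by
        have := Real.add_one_le_exp (1 : ℝ)
        linarith
      have h5 : (1 : ℝ) ≤ Real.exp v := Real.one_le_exp (by linarith)
      nlinarith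
    have h4 : (((prm u).toList.length : ℝ) + 1) ^ (r + 1) ≤ Real.exp ((r + 1 : ℕ) * (v + 1)) := by
      rw [Real.exp_nat_mul]
      exact pow_le_pow_left₀ (by positivity) h3 _
    refine h4.trans (Real.exp_le_exp.2 ?_)
    push_cast
    have h5 : (r : ℝ) + 1 ≤ 17 * Real.log s := by linarith
    have h6 : ((r : ℝ) + 1) * (v + 1) ≤ 17 * Real.log s * (v + 1) :=
      mul_le_mul_of_nonneg_right h5 (by linarith)
    have h7 : Real.log s * v = s / 256 := by
      rw [hv]
      field_simp
    nlinarith
  have t2 : Real.exp (s / 4) ≤ (y : ℝ) / p * (Real.log s / s) := by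
    rw [hyp]
    have h3 : 1 / s ≤ Real.log s / s := div_le_div_of_nonneg_right (by linarith) hspos.le
    have h4 : Real.exp (s / 4) ≤ Real.exp s * (1 / s) := by
      rw [mul_one_div, le_div_iff₀ hspos]
      have h5 : s ≤ Real.exp (3 * s / 4) := by
        have h6 := Real.add_one_le_exp (s / 4)
        have h7 : Real.exp (3 * s / 4) = Real.exp (s / 4) ^ 3 := by
          rw [← Real.exp_nat_mul]
          congr 1
          push_cast
          ring
        rw [h7]
        have h8 : s / 4 ≤ Real.exp (s / 4) := by linarith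
        have h9 : (s / 4) ^ 3 ≤ Real.exp (s / 4) ^ 3 := pow_le_pow_left₀ (by positivity) h8 3
        have h10 : (8 : ℝ) ≤ s := by linarith
        have h10' : (1 : ℝ) ≤ s ^ 2 / 64 := by nlinarith
        have h11 : s ≤ (s / 4) ^ 3 := by
          calc s = s * 1 := (mul_one s).symm
            _ ≤ s * (s ^ 2 / 64) := mul_le_mul_of_nonneg_left h10' hspos.le
            _ = (s / 4) ^ 3 := by ring
        linarith
      calc Real.exp (s / 4) * s ≤ Real.exp (s / 4) * Real.exp (3 * s / 4) :=
            mul_le_mul_of_nonneg_left h5 (Real.exp_pos _).le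
        _ = Real.exp s := by
            rw [← Real.exp_add]
            congr 1
            ring
    exact h4.trans (mul_le_mul_of_nonneg_left h3 (Real.exp_pos _).le)
  have t3 : Real.exp (-(r : ℝ)) ≤ Real.log s / s := by
    have h3 : Real.exp (-(r : ℝ)) ≤ Real.exp (-Real.log s) := Real.exp_le_exp.2 (by linarith)
    have h3' : Real.exp (-Real.log s) = s⁻¹ := by rw [Real.exp_neg, Real.exp_log hspos]
    rw [h3'] at h3
    refine h3.trans ?_
    rw [inv_eq_one_div]
    exact div_le_div_of_nonneg_right (by linarith) hspos.le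
  have t4 : PP (prm u).toList ≤ 512 * Real.exp 18 * (Real.log s / s) := by
    have h3 := PP_le (prm u).toList fun q hq => by
      rw [mem_toList, mem_prm] at hq
      exact hq.1.two_le
    rw [hrs] at h3
    have h4 : Real.exp (-FF u) ≤ Real.exp (18 - Real.log (Real.log u)) :=
      Real.exp_le_exp.2 (by linarith)
    rw [Real.exp_sub, Real.exp_log hlogu0] at h4
    refine (h3.trans h4).trans ?_
    have h5 : Real.exp 18 / Real.log u ≤ Real.exp 18 / (v / 2) :=
      div_le_div_of_nonneg_left (Real.exp_pos _).le (by linarith) hlogu2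
    refine h5.trans (le_of_eq ?_)
    rw [hv]
    field_simp
    norm_num
  have hyp0 : 0 < (y : ℝ) / p := by positivity
  have hfin := (abs_le.1 hB).2
  have t5 := mul_le_mul_of_nonneg_left t3 hyp0.le
  have t6 := mul_le_mul_of_nonneg_left t4 hyp0.le
  have e : (512 * Real.exp 18 + 2) * ((y : ℝ) / p * (Real.log s / s)) =
      (y : ℝ) / p * (512 * Real.exp 18 * (Real.log s / s)) +
      (y : ℝ) / p * (Real.log s / s) + (y : ℝ) / p * (Real.log s / s) := by ring
  rw [e]
  linarith

theorem sum_harm (n : ℕ) : ∑ j ∈ Icc 1 n, 1 / (j : ℝ) ≤ 1 + Real.log n := by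
  induction n with
  | zero => simp
  | succ n ih =>
    rw [sum_Icc_succ_top (by omega)]
    rcases Nat.eq_zero_or_pos n with h0 | h0
    · rw [h0]
      simp
    · have hn : (0 : ℝ) < n := by exact_mod_cast h0
      have h1 : 1 / ((n + 1 : ℕ) : ℝ) ≤ Real.log ((n + 1 : ℕ) : ℝ) - Real.log n := by
        rw [← Real.log_div (by positivity) hn.ne']
        have h2 := Real.one_sub_inv_le_log_of_pos (show 0 < ((n + 1 : ℕ) : ℝ) / n by positivity)
        refine le_trans (le_of_eq ?_) h2
        push_cast
        field_simp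
        ring
      linarith

/-- sum over the primes of `(P0, x]` of `1 / (p log (y / p))` -/
theorem sum_inv_s {x y P0 : ℕ} {L : ℝ} (hL : 1 ≤ L) (hP : L / 2 + 2 ≤ Real.log P0)
    (hP5 : 8 ≤ P0) (hxy : 1 ≤ Real.log ((y : ℝ) / x)) (hx0 : 0 < x) (hy0 : 0 < y)
    (hyP : Real.log ((y : ℝ) / P0) ≤ L) :
    ∑ p ∈ pw P0 x, 1 / ((p : ℝ) * Real.log ((y : ℝ) / p)) ≤ 28 / L * (1 + Real.log L) := by
  have hxR : (0 : ℝ) < x := by exact_mod_cast hx0
  have hyR : (0 : ℝ) < y := by exact_mod_cast hy0
  have hPR : (8 : ℝ) ≤ P0 := by exact_mod_cast hP5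
  have key : ∀ p ∈ pw P0 x, 1 ≤ Real.log ((y : ℝ) / p) ∧ Real.log ((y : ℝ) / p) ≤ L := by
    intro p hp
    rw [mem_pw] at hp
    have hp0 : (0 : ℝ) < p := by exact_mod_cast hp.1.pos
    have hpx : (p : ℝ) ≤ x := by exact_mod_cast hp.2.2
    have hpP : (P0 : ℝ) ≤ p := by exact_mod_cast hp.2.1.le
    constructor
    · refine hxy.trans (Real.log_le_log (by positivity) ?_)
      exact div_le_div_of_nonneg_left hyR.le hp0 hpx
    · refine le_trans (Real.log_le_log (by positivity) ?_) hyP
      exact div_le_div_of_nonneg_left hyR.le (by linarith) hpP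
  have hmap : ∀ p ∈ pw P0 x, ⌊Real.log ((y : ℝ) / p)⌋₊ ∈ Icc 1 ⌊L⌋₊ := by
    intro p hp
    obtain ⟨h1, h2⟩ := key p hp
    rw [mem_Icc]
    exact ⟨Nat.le_floor (by exact_mod_cast h1), Nat.floor_mono h2⟩
  rw [← sum_fiberwise_of_maps_to hmap]
  have hfib : ∀ j ∈ Icc 1 ⌊L⌋₊, ∑ p ∈ (pw P0 x).filter (fun p : ℕ => ⌊Real.log ((y : ℝ) / p)⌋₊ = j),
      1 / ((p : ℝ) * Real.log ((y : ℝ) / p)) ≤ 28 / L * (1 / (j : ℝ)) := by
    intro j hj
    rw [mem_Icc] at hj
    have hj0 : (0 : ℝ) < j := by exact_mod_cast (show 0 < j by omega)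
    rcases ((pw P0 x).filter fun p : ℕ => ⌊Real.log ((y : ℝ) / p)⌋₊ = j).eq_empty_or_nonempty with
      he | ⟨p0, hp0⟩
    · rw [he, sum_empty]
      positivity
    · have hmem : ∀ p ∈ (pw P0 x).filter fun p : ℕ => ⌊Real.log ((y : ℝ) / p)⌋₊ = j,
          (p : ℝ) ≤ y * Real.exp (-j) ∧ y * Real.exp (-j) * Real.exp (-1) < p := by
        intro p hp
        rw [mem_filter] at hp
        obtain ⟨h1, h2⟩ := key p hp.1
        have hp0 : (0 : ℝ) < p := by exact_mod_cast (mem_pw.1 hp.1).1.pos
        have h3 : (j : ℝ) ≤ Real.log ((y : ℝ) / p) := by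
          rw [← hp.2]
          exact Nat.floor_le (by linarith)
        have h4 : Real.log ((y : ℝ) / p) < j + 1 := by
          rw [← hp.2]
          exact Nat.lt_floor_add_one _
        rw [Real.le_log_iff_exp_le (by positivity), le_div_iff₀ hp0] at h3
        rw [Real.log_lt_iff_lt_exp (by positivity), div_lt_iff₀ hp0] at h4
        constructor
        · rw [Real.exp_neg, ← div_eq_mul_inv, le_div_iff₀ (Real.exp_pos _)]
          linarith
        · rw [mul_assoc, ← Real.exp_add, show -(j : ℝ) + -1 = -(j + 1) by ring, Real.exp_neg,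
            ← div_eq_mul_inv, div_lt_iff₀ (Real.exp_pos _)]
          linarith
      obtain ⟨X, hX⟩ : ∃ X : ℝ, X = y * Real.exp (-j) := ⟨_, rfl⟩
      rw [← hX] at hmem
      have hX0 : 0 < X := by rw [hX]; positivity
      have hPX : (P0 : ℝ) < X := by
        have h1 := (hmem p0 hp0).1
        have h2 := (mem_pw.1 (mem_filter.1 hp0).1).2.1
        have h3 : (P0 : ℝ) < p0 := by exact_mod_cast h2
        linarith
      have he1 : Real.exp (-1) < 1 / 2 := by
        have := Real.exp_neg_one_lt_d9
        linarith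
      have he2 : (0.36 : ℝ) < Real.exp (-1) := by
        have := Real.exp_neg_one_gt_d9
        linarith
      obtain ⟨a, ha⟩ : ∃ a : ℕ, a = ⌊X * Real.exp (-1)⌋₊ := ⟨_, rfl⟩
      obtain ⟨d, hd⟩ : ∃ d : ℕ, d = ⌊X⌋₊ := ⟨_, rfl⟩
      have ha1 : X * Real.exp (-1) < a + 1 := by
        rw [ha]
        exact Nat.lt_floor_add_one _
      have hdX : (d : ℝ) ≤ X := by
        rw [hd]
        exact Nat.floor_le hX0.le
      have haX : X * Real.exp (-2) ≤ a := by
        have e3 : Real.exp (-2) = Real.exp (-1) * Real.exp (-1) := by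
          rw [← Real.exp_add]
          norm_num
        rw [e3]
        nlinarith
      have haX' : X * Real.exp (-1) - 1 ≤ a := by linarith
      have ha2 : (1 : ℝ) < a := by nlinarith
      have ha2' : 2 ≤ a := by
        have : 1 < a := by exact_mod_cast ha2
        omega
      have had : a ≤ d := by
        rw [ha, hd]
        apply Nat.floor_mono
        nlinarith
      have hloga : Real.log X - 2 ≤ Real.log a := by
        have h1 := Real.log_le_log (by positivity) haX
        rw [Real.log_mul hX0.ne' (Real.exp_pos _).ne', Real.log_exp] at h1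
        linarith
      have hlogX : Real.log P0 ≤ Real.log X := Real.log_le_log (by linarith) hPX.le
      have hlogaL : L / 2 ≤ Real.log a := by linarith
      have hlogd : Real.log d ≤ Real.log X := by
        apply Real.log_le_log _ hdX
        have : (a : ℝ) ≤ d := by exact_mod_cast had
        linarith
      have hloga0 : 0 < Real.log a := by linarith
      have hlogd0 : 0 < Real.log d := by
        have : Real.log a ≤ Real.log d := Real.log_le_log (by linarith) (by exact_mod_cast had)
        linarith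
      have hw := (window ha2' had).1
      have hll : Real.log (Real.log d) - Real.log (Real.log a) ≤ 2 / Real.log a := by
        rw [← Real.log_div hlogd0.ne' hloga0.ne']
        have h5 := Real.log_le_sub_one_of_pos (show 0 < Real.log d / Real.log a by positivity)
        refine h5.trans ?_
        rw [div_sub_one hloga0.ne']
        exact div_le_div_of_nonneg_right (by linarith) hloga0.le
      have hFF : FF d - FF a ≤ 28 / L := by
        have h1 : 2 / Real.log a + 12 / Real.log a ≤ 28 / L := by
          rw [← add_div, div_le_div_iff₀ hloga0 (by linarith)]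
          linarith
        linarith
      have hsub : ((pw P0 x).filter fun p : ℕ => ⌊Real.log ((y : ℝ) / p)⌋₊ = j) ⊆ pw a d := by
        intro p hp
        obtain ⟨h1, h2⟩ := hmem p hp
        have hp' := mem_pw.1 (mem_filter.1 hp).1
        rw [mem_pw]
        refine ⟨hp'.1, ?_, ?_⟩
        · rw [ha]
          exact (Nat.floor_lt (by positivity)).2 h2
        · rw [hd]
          exact Nat.le_floor h1
      calc ∑ p ∈ (pw P0 x).filter (fun p : ℕ => ⌊Real.log ((y : ℝ) / p)⌋₊ = j),
            1 / ((p : ℝ) * Real.log ((y : ℝ) / p))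
          ≤ ∑ p ∈ (pw P0 x).filter (fun p : ℕ => ⌊Real.log ((y : ℝ) / p)⌋₊ = j), 1 / (j : ℝ) * (1 / (p : ℝ)) := by
            refine sum_le_sum fun p hp => ?_
            have hp' := mem_filter.1 hp
            obtain ⟨h1, h2⟩ := key p hp'.1
            have hp0 : (0 : ℝ) < p := by exact_mod_cast (mem_pw.1 hp'.1).1.pos
            have h3 : (j : ℝ) ≤ Real.log ((y : ℝ) / p) := by
              rw [← hp'.2]
              exact Nat.floor_le (by linarith)
            rw [one_div_mul_one_div, mul_comm (j : ℝ) (p : ℝ)]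
            exact one_div_le_one_div_of_le (by positivity) (mul_le_mul_of_nonneg_left h3 hp0.le)
        _ ≤ ∑ p ∈ pw a d, 1 / (j : ℝ) * (1 / (p : ℝ)) :=
            sum_le_sum_of_subset_of_nonneg hsub fun p _ _ => by positivity
        _ = 1 / (j : ℝ) * (FF d - FF a) := by rw [← mul_sum, sum_pw had]
        _ ≤ 1 / (j : ℝ) * (28 / L) := mul_le_mul_of_nonneg_left hFF (by positivity)
        _ = 28 / L * (1 / (j : ℝ)) := mul_comm _ _
  refine (sum_le_sum hfib).trans ?_
  rw [← mul_sum]
  refine mul_le_mul_of_nonneg_left ?_ (by positivity)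
  refine (sum_harm _).trans ?_
  have h1 : 1 ≤ ⌊L⌋₊ := Nat.le_floor (by exact_mod_cast hL)
  have h2 : Real.log (⌊L⌋₊ : ℝ) ≤ Real.log L :=
    Real.log_le_log (by exact_mod_cast h1) (Nat.floor_le (by linarith))
  linarith

end Pool.MP42e49e
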