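import Pool.Agent.H.MP_42e49e_nt.RegPar

/-!
# The parameters satisfy the conditions of the third event
-/

set_option autoImplicit false

open Finset Filter

namespace Pool.MP42e49e

open Pool.Agent.H.MP_3e6494_nt (prm mem_prm)

variable {θ A δ c C K L l q : ℝ} {x y W Z P0 : ℕ}

/-- logarithm of the length of the progression -/
noncomputable def sp (y p : ℕ) : ℝ := Real.log ((y : ℝ) / p)

/-- bound of the first stage -/
noncomputable def N3 (y p : ℕ) : ℝ := CN * ((y : ℝ) / p * (Real.log (sp y p) / sp y p))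

/-- bound of the second stage -/
noncomputable def τ3 (A L : ℝ) (y W Z p : ℕ) : ℝ :=
  2 * Real.exp 1 * PP (lL W Z) * N3 y p + C1 A * (L + lev (sp y p))

theorem CN_ge : 1 ≤ CN := by
  unfold CN
  have := Real.exp_pos 18
  linarith

theorem C1_ge (hA : 0 ≤ A) : 0 < C1 A := by
  unfold C1
  have := Real.exp_pos 1
  positivity

theorem Reg.xR (h : Reg θ A δ c C K L l q x y W Z P0) : (0 : ℝ) < x := by
  rw [h.x_eq]
  exact Real.exp_pos _

theorem Reg.yR (h : Reg θ A δ c C K L l q x y W Z P0) : (0 : ℝ) < y := by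
  have h1 := h.xR
  have h2 : (x : ℝ) ≤ y := by exact_mod_cast h.x_le_y
  linarith

theorem Reg.sx (h : Reg θ A δ c C K L l q x y W Z P0) : l ≤ Real.log ((y : ℝ) / x) := by
  have h1 := h.xR
  have h2 := h.yR
  have h3 := h.L_pos
  rw [h.hl]
  apply Real.log_le_log h3
  rw [le_div_iff₀ h1]
  have h4 := h.hy1
  have h5 : 1 * (x * L) ≤ C * (x * L) := mul_le_mul_of_nonneg_right h.hC1 (by positivity)
  linarith

theorem Reg.sP (h : Reg θ A δ c C K L l q x y W Z P0) :
    Real.log ((y : ℝ) / P0) ≤ 61 * (l * q) := by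
  have h1 := h.xR
  have h2 := h.yR
  have h3 := h.L_pos
  have hP := h.P_facts
  have hP0 : (2 : ℝ) ≤ P0 := by exact_mod_cast hP.2.2.2.2
  have hC := h.hC1
  have h4 : (y : ℝ) / P0 ≤ 4 * C * L * Real.exp (60 * (l * q)) := by
    rw [div_le_iff₀ (by linarith)]
    have e1 : Real.exp L ≤ 2 * P0 * Real.exp (60 * (l * q)) := by
      have e2 : Real.exp L = Real.exp (L - 60 * (l * q)) * Real.exp (60 * (l * q)) := by
        rw [← Real.exp_add]
        congr 1
        ring
      rw [e2]
      exact mul_le_mul_of_nonneg_right hP.2.1 (Real.exp_pos _).le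
    calc (y : ℝ) ≤ 2 * C * (x * L) := h.hy2
      _ = 2 * C * L * Real.exp L := by rw [h.x_eq]; ring
      _ ≤ 2 * C * L * (2 * P0 * Real.exp (60 * (l * q))) :=
          mul_le_mul_of_nonneg_left e1 (by positivity)
      _ = _ := by ring
  have h5 := Real.log_le_log (by positivity) h4
  rw [Real.log_mul (by positivity) (Real.exp_pos _).ne', Real.log_exp,
    Real.log_mul (by positivity) h3.ne', ← h.hl] at h5
  have h6 : Real.log (4 * C) ≤ 4 * C := by
    have := Real.log_le_sub_one_of_pos (show 0 < 4 * C by linarith)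
    linarith
  have h7 := h.hK4
  have h8 := h.hKl
  have h9 := h.lq_ge
  have h10 := h.l_ge
  linarith

theorem Reg.sp_bounds (h : Reg θ A δ c C K L l q x y W Z P0) {p : ℕ} (hp : p ∈ pw P0 x) :
    l ≤ sp y p ∧ sp y p ≤ 61 * (l * q) ∧ sp y p ≤ L := by
  have hp' := mem_pw.1 hp
  have hp0 : (0 : ℝ) < p := by exact_mod_cast hp'.1.pos
  have h1 : (p : ℝ) ≤ x := by exact_mod_cast hp'.2.2
  have h2 : (P0 : ℝ) ≤ p := by exact_mod_cast hp'.2.1.le
  have hy := h.yR
  have hx := h.xR
  have hP0 : (2 : ℝ) ≤ P0 := by exact_mod_cast h.P_facts.2.2.2.2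
  have h3 : Real.log ((y : ℝ) / x) ≤ sp y p :=
    Real.log_le_log (by positivity) (div_le_div_of_nonneg_left hy.le hp0 h1)
  have h4 : sp y p ≤ Real.log ((y : ℝ) / P0) :=
    Real.log_le_log (by positivity) (div_le_div_of_nonneg_left hy.le (by linarith) h2)
  have h5 := h.sx
  have h6 := h.sP
  have h7 := h.lq_le2
  have h8 := h.L_ge
  refine ⟨by linarith, by linarith, ?_⟩
  have h9 : 61 * (l * q) ≤ 2 * (60 * (l * q)) := by
    have := h.lq_ge.1
    have := h.l_ge
    linarith
  linarith

theorem Reg.exp_half (h : Reg θ A δ c C K L l q x y W Z P0) : Real.exp (l / 2) ≤ q := by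
  have h1 := h.hL2
  have h2 := h.l_ge
  have hc := h.hc0
  have e1 : Real.exp (l / 2) ^ 2 = L := by
    rw [← Real.exp_nat_mul, ← h.exp_l]
    congr 1
    push_cast
    ring
  have e2 : (l ^ 2) ^ 2 ≤ (c * Real.exp (l / 2)) ^ 2 := by
    rw [mul_pow, e1]
    calc (l ^ 2) ^ 2 = l ^ 4 := by ring
      _ ≤ _ := h1
  have e3 : l ^ 2 ≤ c * Real.exp (l / 2) :=
    le_of_pow_le_pow_left₀ (n := 2) (by norm_num) (by positivity) e2
  rw [h.hq, le_div_iff₀ (by positivity)]
  calc Real.exp (l / 2) * l ^ 2 ≤ Real.exp (l / 2) * (c * Real.exp (l / 2)) :=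
        mul_le_mul_of_nonneg_left e3 (Real.exp_pos _).le
    _ = c * Real.exp (l / 2) ^ 2 := by ring
    _ = c * L := by rw [e1]

theorem Reg.lev_le (h : Reg θ A δ c C K L l q x y W Z P0) {p : ℕ} (hp : p ∈ pw P0 x) :
    lev (sp y p) ≤ W := by
  obtain ⟨h1, h2, h3⟩ := h.sp_bounds hp
  have hl := h.l_ge
  have hlog : 1 ≤ Real.log (sp y p) := by
    rw [Real.le_log_iff_exp_le (by linarith)]
    have := Real.exp_one_lt_d9
    linarith
  rw [h.hW]
  unfold lev
  apply Nat.floor_mono
  apply Real.exp_le_exp.2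
  rcases le_or_gt (sp y p) (Real.exp (l / 2)) with h4 | h4
  · have h5 : sp y p / (256 * Real.log (sp y p)) ≤ sp y p := by
      apply div_le_self (by linarith)
      linarith
    exact h5.trans (h4.trans h.exp_half)
  · have h5 : l / 2 ≤ Real.log (sp y p) := by
      rw [Real.le_log_iff_exp_le (by linarith)]
      exact h4.le
    have hq := h.q_ge
    rw [div_le_iff₀ (by linarith)]
    have h6 : q * (256 * (l / 2)) ≤ q * (256 * Real.log (sp y p)) :=
      mul_le_mul_of_nonneg_left (by linarith) (by linarith)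
    have h7 : 0 ≤ l * q := by
      have := h.lq_ge.1
      linarith
    nlinarith

theorem card_pw_log (P0 x : ℕ) (hP : 1 ≤ P0) :
    ((pw P0 x).card : ℝ) * Real.log P0 ≤ x * Real.log 4 := by
  have h1 : P0 ^ (pw P0 x).card ≤ ∏ p ∈ pw P0 x, p := by
    rw [← prod_const]
    exact prod_le_prod (fun _ _ => Nat.zero_le _) fun p hp => (mem_pw.1 hp).2.1.le
  have h2 : ∏ p ∈ pw P0 x, p ≤ primorial x := by
    unfold primorial
    apply prod_le_prod_of_subset_of_one_le'
    · intro p hp
      have := mem_pw.1 hp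
      rw [mem_filter, mem_range]
      exact ⟨by omega, this.1⟩
    · intro p hp _
      exact (mem_filter.1 hp).2.one_lt.le
  have h3 := h1.trans (h2.trans (primorial_le_four_pow x))
  have h4 : ((P0 ^ (pw P0 x).card : ℕ) : ℝ) ≤ ((4 ^ x : ℕ) : ℝ) := by exact_mod_cast h3
  have hP' : (0 : ℝ) < P0 := by exact_mod_cast (show 0 < P0 by omega)
  have h5 := Real.log_le_log (by positivity) h4
  push_cast at h5
  rwa [Real.log_pow, Real.log_pow] at h5

theorem Reg.sum_ps (h : Reg θ A δ c C K L l q x y W Z P0) :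
    ∑ p ∈ pw P0 x, 1 / ((p : ℝ) * sp y p) ≤ 56 * l / L := by
  have hl := h.l_ge
  have hL := h.L_ge
  have hP := h.P_facts
  have hlq := h.lq_le2
  have hP8 : 8 ≤ P0 := by
    have h1 : L / 2 ≤ Real.log P0 := by linarith
    have h2 : (3 : ℝ) ≤ Real.log P0 := by linarith
    have hP0 : (2 : ℝ) ≤ P0 := by exact_mod_cast hP.2.2.2.2
    rw [Real.le_log_iff_exp_le (by linarith)] at h2
    have h3 : (8 : ℝ) ≤ Real.exp 3 := by
      have h4 : Real.exp 3 = Real.exp 1 ^ 3 := by
        rw [← Real.exp_nat_mul]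
        norm_num
      rw [h4]
      have h5 : (2 : ℝ) ≤ Real.exp 1 := by
        have := Real.add_one_le_exp (1 : ℝ)
        linarith
      calc (8 : ℝ) = 2 ^ 3 := by norm_num
        _ ≤ _ := pow_le_pow_left₀ (by norm_num) h5 3
    exact_mod_cast h3.trans h2
  have hx0 : 0 < x := by exact_mod_cast h.xR
  have hy0 : 0 < y := by exact_mod_cast h.yR
  have h1 := sum_inv_s (x := x) (y := y) (P0 := P0) (L := L) (by linarith) (by linarith) hP8
    (by linarith [h.sx]) hx0 hy0 (by
      have := h.sP
      have := h.lq_ge.1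
      linarith)
  refine h1.trans ?_
  rw [← h.hl, div_mul_eq_mul_div]
  apply div_le_div_of_nonneg_right _ (by linarith)
  linarith

theorem Reg.mertens (h : Reg θ A δ c C K L l q x y W Z P0) : FF P0 - FF Z ≤ 1 - 15 * δ := by
  have hZ := h.Z_facts
  have hP := h.P_facts
  have hL := h.L_ge
  have hθ := h.theta_ge
  have hL0 : 0 < L := by linarith
  have h1 := (window hZ.2.2.2.2 h.Z_le_P).1
  have hθL : 300 ≤ θ * L := by nlinarith
  have hlogZ : 0 < θ * L - 1 := by linarith
  have hlogZ' : 0 < Real.log Z := by linarith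
  have hlogP0 : 0 < Real.log P0 := by
    have := h.lq_le2
    linarith
  have h2 : Real.log (Real.log P0) ≤ l := by
    rw [h.hl]
    apply Real.log_le_log hlogP0
    have := h.lq_ge.1
    have := h.l_ge
    linarith
  have h3 : Real.log (θ * L - 1) ≤ Real.log (Real.log Z) := Real.log_le_log hlogZ hZ.2.2.1
  have h4 : Real.log θ + l - 2 / (θ * L) ≤ Real.log (θ * L - 1) := by
    have e1 : θ * L - 1 = θ * L * (1 - 1 / (θ * L)) := by field_simp
    have hθL0 : 0 < θ * L := by linarith
    have e2 : 1 / (θ * L) ≤ 1 / 300 := one_div_le_one_div_of_le (by norm_num) hθL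
    rw [e1, Real.log_mul hθL0.ne' (by linarith), Real.log_mul (by linarith) hL0.ne', ← h.hl]
    have h5 := Real.one_sub_inv_le_log_of_pos (show 0 < 1 - 1 / (θ * L) by linarith)
    have h6 : -(2 / (θ * L)) ≤ 1 - (1 - 1 / (θ * L))⁻¹ := by
      have h7 : (1 - 1 / (θ * L))⁻¹ ≤ 1 + 2 * (1 / (θ * L)) := by
        rw [inv_le_iff_one_le_mul₀ (by linarith)]
        have : 0 ≤ 1 / (θ * L) := by positivity
        nlinarith
      have h8 : 2 / (θ * L) = 2 * (1 / (θ * L)) := by ring
      linarith
    linarith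
  have h5 : 12 / Real.log Z ≤ 24 / (θ * L) := by
    rw [div_le_div_iff₀ hlogZ' (by linarith)]
    linarith
  have h6 : 2 / (θ * L) + 24 / (θ * L) ≤ δ := by
    rw [← add_div, div_le_iff₀ (by linarith)]
    have h7 := h.Kδ.1
    have h8 : (1 : ℝ) ≤ Real.exp 22 := Real.one_le_exp (by norm_num)
    have h9 := h.hKl
    have h10 := h.l_le
    have h11 := h.hδ0
    have h12 : K * δ ≤ L * δ := mul_le_mul_of_nonneg_right (by linarith) h11.le
    have h13 : L * δ / 3 ≤ δ * (θ * L) := by
      have : 0 ≤ L * δ := by positivity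
      nlinarith
    linarith
  have h7 := h.hδ
  linarith

theorem Reg.u_le (h : Reg θ A δ c C K L l q x y W Z P0) {p : ℕ} (hp : p ∈ pw P0 x) :
    (lev (sp y p) : ℝ) ≤ y * Real.exp (-(l / 4)) * (1 / ((p : ℝ) * sp y p)) := by
  obtain ⟨h1, h2, h3⟩ := h.sp_bounds hp
  have hl := h.l_ge
  have hp' := mem_pw.1 hp
  have hp0 : (0 : ℝ) < p := by exact_mod_cast hp'.1.pos
  have hy := h.yR
  obtain ⟨s, hs⟩ : ∃ s, s = sp y p := ⟨_, rfl⟩
  rw [← hs] at h1 h2 h3 ⊢
  have hlog : 1 ≤ Real.log s := by
    rw [Real.le_log_iff_exp_le (by linarith)]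
    have := Real.exp_one_lt_d9
    linarith
  have h4 : (lev s : ℝ) ≤ Real.exp (s / 2) := by
    have h5 : (lev s : ℝ) ≤ Real.exp (s / (256 * Real.log s)) := Nat.floor_le (Real.exp_pos _).le
    refine h5.trans (Real.exp_le_exp.2 ?_)
    apply div_le_div_of_nonneg_left (by linarith) (by norm_num) (by linarith)
  have h5 : (y : ℝ) / p = Real.exp s := by
    rw [hs, sp, Real.exp_log (by positivity)]
  have h6 : Real.exp (s / 2) ≤ Real.exp s * Real.exp (-(l / 4)) * (1 / s) := by
    have h7 : s ≤ Real.exp (s / 4) := by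
      have h8 := Real.add_one_le_exp (s / 8)
      have h9 : Real.exp (s / 4) = Real.exp (s / 8) ^ 2 := by
        rw [← Real.exp_nat_mul]
        congr 1
        push_cast
        ring
      rw [h9]
      have h10 : (s / 8) ^ 2 ≤ Real.exp (s / 8) ^ 2 :=
        pow_le_pow_left₀ (by linarith) (by linarith) 2
      nlinarith
    rw [mul_one_div, le_div_iff₀ (by linarith)]
    calc Real.exp (s / 2) * s ≤ Real.exp (s / 2) * Real.exp (s / 4) :=
          mul_le_mul_of_nonneg_left h7 (Real.exp_pos _).le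
      _ = Real.exp (s / 2 + s / 4) := by rw [Real.exp_add]
      _ ≤ Real.exp (s + -(l / 4)) := Real.exp_le_exp.2 (by linarith)
      _ = _ := Real.exp_add _ _
  refine h4.trans (h6.trans (le_of_eq ?_))
  rw [← h5]
  field_simp

theorem Reg.tau_sum (h : Reg θ A δ c C K L l q x y W Z P0) :
    ∑ p ∈ pw P0 x, τ3 A L y W Z p ≤ 3 * (δ * (y * (PP (lS W) * PP (lL W Z)))) := by
  have hl := h.l_ge
  have hL := h.L_ge
  have hL0 : 0 < L := by linarith
  have hy := h.yR
  have hx := h.xR
  have hV1 := PPL_pos (W := W) (Z := Z)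
  have hV2 := PPS_pos (W := W)
  have hδ0 := h.hδ0
  have hCN := CN_ge
  have hC1 := C1_ge h.hA
  have hc0 := h.hc0
  have hsum := h.sum_ps
  have e0 : ∑ p ∈ pw P0 x, τ3 A L y W Z p =
      ∑ p ∈ pw P0 x, 2 * Real.exp 1 * PP (lL W Z) * N3 y p +
      (C1 A * L * (pw P0 x).card + C1 A * ∑ p ∈ pw P0 x, (lev (sp y p) : ℝ)) := by
    unfold τ3
    rw [sum_add_distrib, ← mul_sum (pw P0 x) (fun p => L + (lev (sp y p) : ℝ)),
      sum_add_distrib, sum_const, nsmul_eq_mul]
    ring
  have hVV := h.VV
  have hyVV : δ * (y * (Real.exp (-22) / L)) ≤ δ * (y * (PP (lS W) * PP (lL W Z))) :=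
    mul_le_mul_of_nonneg_left (mul_le_mul_of_nonneg_left hVV hy.le) hδ0.le
  -- first term
  have t1 : ∑ p ∈ pw P0 x, 2 * Real.exp 1 * PP (lL W Z) * N3 y p ≤
      δ * (y * (PP (lS W) * PP (lL W Z))) := by
    have a1 : ∀ p ∈ pw P0 x, 2 * Real.exp 1 * PP (lL W Z) * N3 y p ≤
        2 * Real.exp 1 * PP (lL W Z) * CN * y * l * (1 / ((p : ℝ) * sp y p)) := by
      intro p hp
      obtain ⟨h1, h2, h3⟩ := h.sp_bounds hp
      have hp0 : (0 : ℝ) < p := by exact_mod_cast (mem_pw.1 hp).1.pos
      have hs0 : 0 < sp y p := by linarith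
      have hlog : Real.log (sp y p) ≤ l := by
        rw [h.hl]
        exact Real.log_le_log hs0 h3
      have b1 : N3 y p ≤ CN * y * l * (1 / ((p : ℝ) * sp y p)) := by
        unfold N3
        have b2 : (y : ℝ) / p * (Real.log (sp y p) / sp y p) ≤
            y * l * (1 / ((p : ℝ) * sp y p)) := by
          have b3 : (y : ℝ) / p * (Real.log (sp y p) / sp y p) =
              y * Real.log (sp y p) * (1 / ((p : ℝ) * sp y p)) := by
            field_simp
          rw [b3]
          apply mul_le_mul_of_nonneg_right _ (by positivity)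
          exact mul_le_mul_of_nonneg_left hlog hy.le
        calc CN * ((y : ℝ) / p * (Real.log (sp y p) / sp y p))
            ≤ CN * (y * l * (1 / ((p : ℝ) * sp y p))) :=
              mul_le_mul_of_nonneg_left b2 (by linarith)
          _ = _ := by ring
      have b4 : 0 ≤ 2 * Real.exp 1 * PP (lL W Z) := by
        have := Real.exp_pos 1
        positivity
      calc 2 * Real.exp 1 * PP (lL W Z) * N3 y p
          ≤ 2 * Real.exp 1 * PP (lL W Z) * (CN * y * l * (1 / ((p : ℝ) * sp y p))) :=
            mul_le_mul_of_nonneg_left b1 b4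
        _ = _ := by ring
    refine (sum_le_sum a1).trans ?_
    rw [← mul_sum]
    have he := Real.exp_pos 1
    have a2 : 0 ≤ 2 * Real.exp 1 * PP (lL W Z) * CN * y * l := by positivity
    refine (mul_le_mul_of_nonneg_left hsum a2).trans ?_
    have hV := h.V2_ge'
    have a3 : δ * (y * (Real.exp (-21) / (2 * q) * PP (lL W Z))) ≤
        δ * (y * (PP (lS W) * PP (lL W Z))) := by
      apply mul_le_mul_of_nonneg_left _ hδ0.le
      apply mul_le_mul_of_nonneg_left _ hy.le
      exact mul_le_mul_of_nonneg_right hV hV1.le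
    refine le_trans (le_of_eq ?_) a3
    have hc := h.hc
    have h22 : Real.exp 22 * Real.exp (-21) = Real.exp 1 := by
      rw [← Real.exp_add]
      norm_num
    have e3 : δ * (y * (Real.exp (-21) / (2 * q) * PP (lL W Z))) =
        112 * (Real.exp 22 * Real.exp (-21)) * CN * l ^ 2 / L * y * PP (lL W Z) := by
      rw [← hc, h.hq]
      field_simp
      norm_num
    rw [e3, h22]
    ring
  -- second term
  have t2 : C1 A * L * (pw P0 x).card ≤ δ * (y * (PP (lS W) * PP (lL W Z))) := by
    refine le_trans ?_ hyVV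
    have hP := h.P_facts
    have hlogP : L / 2 ≤ Real.log P0 := by
      have := h.lq_le2
      linarith
    have b1 := card_pw_log P0 x (by have := hP.2.2.2.2; omega)
    have hlog4 : Real.log 4 ≤ 3 / 2 := by
      have h1 : Real.log 4 = 2 * Real.log 2 := by
        rw [show (4 : ℝ) = 2 ^ 2 by norm_num, Real.log_pow]
        norm_num
      have := Real.log_two_lt_d9
      linarith
    have hn : (0 : ℝ) ≤ (pw P0 x).card := Nat.cast_nonneg _
    have b2 : ((pw P0 x).card : ℝ) * (L / 2) ≤ x * (3 / 2) := by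
      calc ((pw P0 x).card : ℝ) * (L / 2) ≤ (pw P0 x).card * Real.log P0 :=
            mul_le_mul_of_nonneg_left hlogP hn
        _ ≤ x * Real.log 4 := b1
        _ ≤ x * (3 / 2) := mul_le_mul_of_nonneg_left hlog4 hx.le
    have b3 : L * ((pw P0 x).card : ℝ) ≤ 3 * x := by linarith
    have b4 : C1 A * L * (pw P0 x).card ≤ 3 * C1 A * x := by
      calc C1 A * L * (pw P0 x).card = C1 A * (L * (pw P0 x).card) := by ring
        _ ≤ C1 A * (3 * x) := mul_le_mul_of_nonneg_left b3 hC1.le
        _ = _ := by ring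
    refine b4.trans ?_
    have hC := h.hC
    have h22 : Real.exp (-22) * Real.exp 22 = 1 := by
      rw [← Real.exp_add]
      norm_num
    have b5 : δ * (C * (x * L) * (Real.exp (-22) / L)) ≤ δ * (y * (Real.exp (-22) / L)) := by
      apply mul_le_mul_of_nonneg_left _ hδ0.le
      exact mul_le_mul_of_nonneg_right h.hy1 (by have := Real.exp_pos (-22); positivity)
    refine le_trans (le_of_eq ?_) b5
    have e4 : δ * (C * (x * L) * (Real.exp (-22) / L)) = (C * δ) * x * Real.exp (-22) := by
      field_simp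
    rw [e4, hC]
    calc 3 * C1 A * x = 3 * C1 A * x * 1 := by ring
      _ = 3 * C1 A * x * (Real.exp (-22) * Real.exp 22) := by rw [h22]
      _ = _ := by ring
  -- third term
  have t3 : C1 A * ∑ p ∈ pw P0 x, (lev (sp y p) : ℝ) ≤ δ * (y * (PP (lS W) * PP (lL W Z))) := by
    refine le_trans ?_ hyVV
    have b1 : ∑ p ∈ pw P0 x, (lev (sp y p) : ℝ) ≤ y * Real.exp (-(l / 4)) * (56 * l / L) := by
      refine (sum_le_sum fun p hp => h.u_le hp).trans ?_
      rw [← mul_sum]
      exact mul_le_mul_of_nonneg_left hsum (by have := Real.exp_pos (-(l / 4)); positivity)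
    have b2 : 56 * C1 A * Real.exp 22 * l ≤ δ * Real.exp (l / 4) := by
      apply le_of_pow_le_pow_left₀ (n := 4) (by norm_num)
        (by have := Real.exp_pos (l / 4); positivity)
      have e5 : (δ * Real.exp (l / 4)) ^ 4 = δ ^ 4 * L := by
        rw [mul_pow, ← Real.exp_nat_mul, ← h.exp_l]
        congr 2
        push_cast
        ring
      rw [e5]
      exact h.hL3
    have h22 : Real.exp 22 * Real.exp (-22) = 1 := by
      rw [← Real.exp_add]
      norm_num
    have h4 : Real.exp (l / 4) * Real.exp (-(l / 4)) = 1 := by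
      rw [← Real.exp_add, add_neg_cancel, Real.exp_zero]
    have b3 : C1 A * (56 * l) * Real.exp (-(l / 4)) ≤ δ * Real.exp (-22) := by
      have hm : 0 < Real.exp (-(l / 4)) * Real.exp (-22) := by
        have := Real.exp_pos (-(l / 4))
        have := Real.exp_pos (-22)
        positivity
      have b4 := mul_le_mul_of_nonneg_right b2 hm.le
      have e6 : 56 * C1 A * Real.exp 22 * l * (Real.exp (-(l / 4)) * Real.exp (-22)) =
          C1 A * (56 * l) * Real.exp (-(l / 4)) * (Real.exp 22 * Real.exp (-22)) := by ring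
      have e7 : δ * Real.exp (l / 4) * (Real.exp (-(l / 4)) * Real.exp (-22)) =
          δ * Real.exp (-22) * (Real.exp (l / 4) * Real.exp (-(l / 4))) := by ring
      rw [e6, e7, h22, h4, mul_one, mul_one] at b4
      exact b4
    calc C1 A * ∑ p ∈ pw P0 x, (lev (sp y p) : ℝ)
        ≤ C1 A * (y * Real.exp (-(l / 4)) * (56 * l / L)) :=
          mul_le_mul_of_nonneg_left b1 hC1.le
      _ = (C1 A * (56 * l) * Real.exp (-(l / 4))) * (y / L) := by ring
      _ ≤ (δ * Real.exp (-22)) * (y / L) := mul_le_mul_of_nonneg_right b3 (by positivity)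
      _ = _ := by ring
  rw [e0]
  linarith

theorem Reg.par3 (h : Reg θ A δ c C K L l q x y W Z P0) {s0 : ℝ} (hs0 : s0 ≤ K)
    (hsm : ∀ (y p : ℕ) (s : ℝ), p.Prime → 0 < y →
    s = Real.log ((y : ℝ) / p) → s0 ≤ s → lev s < p → ∀ (b : ℕ → ℕ) (c : ℕ),
    ((sv b (prm (lev s)).toList (cls y p c)).card : ℝ) ≤
      (512 * Real.exp 18 + 2) * ((y : ℝ) / p * (Real.log s / s))) :
    Par3 x y W Z P0 δ ((A + 3) * L) (fun p => lev (sp y p)) (fun p => N3 y p)
      (fun p => τ3 A L y W Z p) := by
  have hl := h.l_ge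
  have hL := h.L_ge
  have hL0 : 0 < L := by linarith
  have hy := h.yR
  have hV1 := PPL_pos (W := W) (Z := Z)
  have hV2 := PPS_pos (W := W)
  have hδ0 := h.hδ0
  have hδ1 := h.hδ1
  have hCN := CN_ge
  have hC1 := C1_ge h.hA
  have he := Real.exp_pos 1
  have hA := h.hA
  have hW := h.W_facts
  have hW0 : (2 : ℝ) ≤ W := by exact_mod_cast hW.2.2.1
  have hN0 : ∀ p ∈ pw P0 x, 0 ≤ N3 y p := by
    intro p hp
    obtain ⟨h1, h2, h3⟩ := h.sp_bounds hp
    have hs0 : 1 ≤ sp y p := by linarith
    have := Real.log_nonneg hs0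
    unfold N3
    positivity
  refine ⟨fun p hp => h.lev_le hp, ?_, ?_, ?_, ?_⟩
  · intro p hp b c'
    obtain ⟨h1, h2, h3⟩ := h.sp_bounds hp
    have hp' := mem_pw.1 hp
    have h4 := h.lev_le hp
    have h5 := h.W2_le_Z
    have h6 := h.Z_le_P
    have h7 : W ≤ W ^ 2 := by
      have := hW.2.2.1
      nlinarith
    exact hsm y p (sp y p) hp'.1 (by exact_mod_cast hy) rfl (by linarith [h.hKl]) (by omega) b c'
  · intro p hp
    show _ ≤ τ3 A L y W Z p
    unfold τ3
    have : 0 ≤ C1 A * (L + (lev (sp y p) : ℝ)) := by positivity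
    linarith
  · intro p hp
    show _ ≤ τ3 A L y W Z p / _
    obtain ⟨h1, h2, h3⟩ := h.sp_bounds hp
    have hp' := mem_pw.1 hp
    have hp0 : (0 : ℝ) < p := by exact_mod_cast hp'.1.pos
    have hlog4 : Real.log 4 ≤ 3 / 2 := by
      have h1 : Real.log 4 = 2 * Real.log 2 := by
        rw [show (4 : ℝ) = 2 ^ 2 by norm_num, Real.log_pow]
        norm_num
      have := Real.log_two_lt_d9
      linarith
    obtain ⟨X, hX⟩ : ∃ X : ℝ, X = (y : ℝ) / p := ⟨_, rfl⟩
    have hX0 : 0 < X := by rw [hX]; positivity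
    have hu0 : (0 : ℝ) ≤ lev (sp y p) := Nat.cast_nonneg _
    rw [← hX]
    have hK0 : 0 < 2 * Real.exp 1 * (X / (W : ℝ) ^ 2 + 1) := by positivity
    rw [le_div_iff₀ hK0]
    rcases le_or_gt X ((W : ℝ) ^ 2) with h4 | h4
    · have h5 : X / (W : ℝ) ^ 2 ≤ 1 := by
        rw [div_le_one (by positivity)]
        exact h4
      have h6 : 2 * Real.exp 1 * (X / (W : ℝ) ^ 2 + 1) ≤ 4 * Real.exp 1 := by nlinarith
      have h7 : 0 ≤ (A + 3) * L + (lev (sp y p) : ℝ) * Real.log 4 := by
        have := Real.log_nonneg (show (1 : ℝ) ≤ 4 by norm_num)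
        positivity
      have h8 := mul_le_mul_of_nonneg_left h6 h7
      refine h8.trans ?_
      have h9 : (A + 3) * L + (lev (sp y p) : ℝ) * Real.log 4 ≤
          (A + 3) * (L + lev (sp y p)) := by
        have : (lev (sp y p) : ℝ) * Real.log 4 ≤ (lev (sp y p) : ℝ) * (A + 3) :=
          mul_le_mul_of_nonneg_left (by linarith) hu0
        linarith
      have h10 := mul_le_mul_of_nonneg_right h9 (show 0 ≤ 4 * Real.exp 1 by positivity)
      have h11 : 0 ≤ 2 * Real.exp 1 * PP (lL W Z) * N3 y p := by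
        have := hN0 p hp
        positivity
      have e1 : (A + 3) * (L + lev (sp y p)) * (4 * Real.exp 1) =
          C1 A * (L + lev (sp y p)) := by
        unfold C1
        ring
      rw [e1] at h10
      unfold τ3
      linarith
    · have h5 : 1 ≤ X / (W : ℝ) ^ 2 := by
        rw [one_le_div (by positivity)]
        exact h4.le
      have h6 : 2 * Real.exp 1 * (X / (W : ℝ) ^ 2 + 1) ≤
          4 * Real.exp 1 * (X / (W : ℝ) ^ 2) := by nlinarith
      have h7 : (A + 3) * L + (lev (sp y p) : ℝ) * Real.log 4 ≤ (A + 3) * L + 2 * W := by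
        have h8 : (lev (sp y p) : ℝ) ≤ W := by exact_mod_cast h.lev_le hp
        have h9 : (0 : ℝ) ≤ W := by linarith
        have := Real.log_nonneg (show (1 : ℝ) ≤ 4 by norm_num)
        nlinarith
      have h8 : ((A + 3) * L + (lev (sp y p) : ℝ) * Real.log 4) *
          (2 * Real.exp 1 * (X / (W : ℝ) ^ 2 + 1)) ≤
          ((A + 3) * L + 2 * W) * (4 * Real.exp 1 * (X / (W : ℝ) ^ 2)) :=
        mul_le_mul h7 h6 hK0.le (by positivity)
      refine h8.trans ?_
      have h9 : X / L ≤ N3 y p := by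
        unfold N3
        rw [← hX]
        have hlog : 1 ≤ Real.log (sp y p) := by
          rw [Real.le_log_iff_exp_le (by linarith)]
          have := Real.exp_one_lt_d9
          linarith
        have h10 : 1 / L ≤ Real.log (sp y p) / sp y p := by
          rw [div_le_div_iff₀ hL0 (by linarith)]
          nlinarith
        have h11 : X * (1 / L) ≤ X * (Real.log (sp y p) / sp y p) :=
          mul_le_mul_of_nonneg_left h10 hX0.le
        have h12 : 0 ≤ X * (Real.log (sp y p) / sp y p) := by
          refine le_trans ?_ h11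
          positivity
        calc X / L = X * (1 / L) := by ring
          _ ≤ X * (Real.log (sp y p) / sp y p) := h11
          _ = 1 * (X * (Real.log (sp y p) / sp y p)) := by ring
          _ ≤ _ := mul_le_mul_of_nonneg_right hCN h12
      have h10 : 2 * Real.exp 1 * PP (lL W Z) * (X / L) ≤
          2 * Real.exp 1 * PP (lL W Z) * N3 y p := mul_le_mul_of_nonneg_left h9 (by positivity)
      have h11 : ((A + 3) * L + 2 * W) * (4 * Real.exp 1 * (X / (W : ℝ) ^ 2)) ≤
          2 * Real.exp 1 * PP (lL W Z) * (X / L) := by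
        have h12 : ((A + 3) * L + 2 * W) * 2 / (W : ℝ) ^ 2 ≤ PP (lL W Z) / L := by
          have hV := h.V1_ge
          have h13 : ((A + 3) * L + 2 * W) * 2 / (W : ℝ) ^ 2 ≤ Real.exp (-22) / L / L := by
            rw [div_div, div_le_div_iff₀ (by positivity) (by positivity)]
            have h14 : (A + 3) * L + 2 * W ≤ (A + 5) * W := by
              have h15 : L ≤ W := by
                have h16 : L ≤ K * L ^ 5 := by
                  have h17 : (1 : ℝ) ≤ K * L ^ 4 := by
                    have := h.hK1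
                    have h18 : (1 : ℝ) ≤ L ^ 4 := one_le_pow₀ (by linarith)
                    nlinarith
                  calc L = L * 1 := (mul_one L).symm
                    _ ≤ L * (K * L ^ 4) := mul_le_mul_of_nonneg_left h17 hL0.le
                    _ = K * L ^ 5 := by ring
                linarith [hW.2.2.2]
              nlinarith
            have h15 : (A + 5) * W * 2 * (L * L) ≤ Real.exp (-22) * (W : ℝ) ^ 2 := by
              have h22 : Real.exp (-22) * Real.exp 22 = 1 := by
                rw [← Real.exp_add]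
                norm_num
              have h16 : 2 * (A + 5) * L ^ 2 * Real.exp 22 ≤ W := by
                have h17 := h.hK2
                have h18 : K * δ ≤ K := by
                  have := h.hK1
                  nlinarith
                have h19 : 2 * (A + 5) * Real.exp 22 ≤ K := by
                  have : 0 ≤ Real.exp 22 * (A + 5) := by positivity
                  linarith
                have h20 : L ^ 2 ≤ L ^ 5 := pow_le_pow_right₀ (by linarith) (by norm_num)
                calc 2 * (A + 5) * L ^ 2 * Real.exp 22 = (2 * (A + 5) * Real.exp 22) * L ^ 2 := by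
                      ring
                  _ ≤ K * L ^ 5 := mul_le_mul h19 h20 (by positivity) (by linarith [h.hK1])
                  _ ≤ W := hW.2.2.2
              have h17 : 2 * (A + 5) * L ^ 2 ≤ Real.exp (-22) * W := by
                have h18 := mul_le_mul_of_nonneg_left h16 (Real.exp_pos (-22)).le
                have e2 : Real.exp (-22) * (2 * (A + 5) * L ^ 2 * Real.exp 22) =
                    2 * (A + 5) * L ^ 2 * (Real.exp (-22) * Real.exp 22) := by ring
                rw [e2, h22, mul_one] at h18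
                exact h18
              have h18 := mul_le_mul_of_nonneg_right h17 (show (0 : ℝ) ≤ W by linarith)
              calc (A + 5) * W * 2 * (L * L) = 2 * (A + 5) * L ^ 2 * W := by ring
                _ ≤ Real.exp (-22) * W * W := h18
                _ = _ := by ring
            have h16 : ((A + 3) * L + 2 * W) * 2 * (L * L) ≤ (A + 5) * W * 2 * (L * L) := by
              have : 0 ≤ L * L := by positivity
              nlinarith
            linarith
          have h14 : Real.exp (-22) / L / L ≤ PP (lL W Z) / L :=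
            div_le_div_of_nonneg_right hV hL0.le
          linarith
        have h13 := mul_le_mul_of_nonneg_left h12 (show 0 ≤ 2 * Real.exp 1 * X by positivity)
        calc ((A + 3) * L + 2 * W) * (4 * Real.exp 1 * (X / (W : ℝ) ^ 2))
            = 2 * Real.exp 1 * X * (((A + 3) * L + 2 * W) * 2 / (W : ℝ) ^ 2) := by ring
          _ ≤ 2 * Real.exp 1 * X * (PP (lL W Z) / L) := h13
          _ = _ := by ring
      have h12 : 0 ≤ C1 A * (L + (lev (sp y p) : ℝ)) := by positivity
      unfold τ3
      linarith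
  · have h1 := h.tau_sum
    have h2 := h.mertens
    obtain ⟨G, hG⟩ : ∃ G : ℝ, G = y * (PP (lS W) * PP (lL W Z)) := ⟨_, rfl⟩
    have hG0 : 0 < G := by rw [hG]; positivity
    rw [← hG] at h1
    show (1 + δ) ^ 2 * y * PP (lS W) * PP (lL W Z) * (FF P0 - FF Z) +
      ∑ p ∈ pw P0 x, τ3 A L y W Z p < (1 - δ) ^ 2 * y * PP (lS W) * PP (lL W Z)
    have e1 : (1 + δ) ^ 2 * y * PP (lS W) * PP (lL W Z) * (FF P0 - FF Z) =
        G * ((1 + δ) ^ 2 * (FF P0 - FF Z)) := by rw [hG]; ring
    have e2 : (1 - δ) ^ 2 * y * PP (lS W) * PP (lL W Z) = G * (1 - δ) ^ 2 := by rw [hG]; ring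
    rw [e1, e2]
    have h3 : (1 + δ) ^ 2 * (FF P0 - FF Z) ≤ (1 + δ) ^ 2 * (1 - 15 * δ) :=
      mul_le_mul_of_nonneg_left h2 (by positivity)
    have h4 : (1 + δ) ^ 2 * (1 - 15 * δ) + 3 * δ < (1 - δ) ^ 2 := by nlinarith [pow_pos hδ0 3]
    have h5 := mul_le_mul_of_nonneg_left h3 hG0.le
    have h6 := mul_lt_mul_of_pos_left h4 hG0
    nlinarith

end Pool.MP42e49e
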