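import Pool.Agent.H.MP_42e49e_nt.RegPar
import Pool.Agent.H.MP_42e49e_nt.RegPar3

/-!
# The final count
-/

set_option autoImplicit false

open Finset Filter

namespace Pool.MP42e49e

open Pool.Agent.H.MP_3e6494_nt (prm mem_prm)

variable {θ A δ c C K L l q : ℝ} {x y W Z P0 : ℕ}

theorem Reg.sum_le (h : Reg θ A δ c C K L l q x y W Z P0) :
    ((4 ^ W : ℕ) : ℝ) * Real.exp (-(((W * ⌈L⌉₊ : ℕ) : ℝ) * δ / 2)) +
      ((x * x * 4 ^ W : ℕ) : ℝ) * Real.exp (-(((W * ⌈L⌉₊ : ℕ) : ℝ) * δ / 4)) +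
      ((x * x : ℕ) : ℝ) * Real.exp (-((A + 3) * L)) ≤ Real.exp (-(A * L)) := by
  have hl := h.l_ge
  have hL := h.L_ge
  have hδ0 := h.hδ0
  have hA := h.hA
  have hW := h.W_facts
  have hKδ := h.Kδ
  have hK1 := h.hK1
  have hK2 := h.hK2
  have hll := h.l_le
  have hKl := h.hKl
  have hW0 : (2 : ℝ) ≤ W := by exact_mod_cast hW.2.2.1
  have hCL1 : L ≤ (⌈L⌉₊ : ℝ) := Nat.le_ceil _
  have he : (1 : ℝ) ≤ Real.exp 22 := Real.one_le_exp (by norm_num)
  have hKA : 4096 * (A + 5) ≤ K * δ := by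
    have h1 : (0 : ℝ) ≤ 4096 * (A + 5) := by linarith
    have h2 := mul_le_mul_of_nonneg_left he h1
    linarith
  have hLδ : 4096 * (A + 5) ≤ L * δ := by
    have h1 : K * δ ≤ L * δ := mul_le_mul_of_nonneg_right (by linarith) hδ0.le
    linarith
  have hWK : K ≤ W := by
    have h1 : (1 : ℝ) ≤ L ^ 5 := one_le_pow₀ (by linarith)
    have h2 : K * 1 ≤ K * L ^ 5 := mul_le_mul_of_nonneg_left h1 (by linarith)
    linarith [hW.2.2.2]
  have hWδ : 4096 * (A + 5) ≤ W * δ := by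
    have h1 : K * δ ≤ W * δ := mul_le_mul_of_nonneg_right hWK hδ0.le
    linarith
  have hk : (W : ℝ) * L * δ ≤ ((W * ⌈L⌉₊ : ℕ) : ℝ) * δ := by
    rw [Nat.cast_mul]
    exact mul_le_mul_of_nonneg_right (mul_le_mul_of_nonneg_left hCL1 (by linarith)) hδ0.le
  have h4 : ((4 ^ W : ℕ) : ℝ) ≤ Real.exp (2 * W) := by
    rw [Nat.cast_pow, mul_comm (2 : ℝ), Real.exp_nat_mul]
    refine pow_le_pow_left₀ (by norm_num) ?_ W
    have := Real.add_one_le_exp (1 : ℝ)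
    have e2 : Real.exp 2 = Real.exp 1 * Real.exp 1 := by
      rw [← Real.exp_add]
      norm_num
    rw [e2]
    push_cast
    nlinarith
  have hxx : ((x * x : ℕ) : ℝ) = Real.exp (2 * L) := by
    rw [Nat.cast_mul, h.x_eq, ← Real.exp_add]
    congr 1
    ring
  have hkey : 2 * (W : ℝ) + 2 * L + (A + 1) * L ≤ W * L * δ / 4 := by
    have h1 : (W : ℝ) * (4096 * (A + 5)) ≤ W * (L * δ) :=
      mul_le_mul_of_nonneg_left hLδ (by linarith)
    have h2 : L * (4096 * (A + 5)) ≤ L * (W * δ) := mul_le_mul_of_nonneg_left hWδ (by linarith)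
    have h3 : 0 ≤ (W : ℝ) * A := mul_nonneg (by linarith) hA
    have h5 : 0 ≤ L * A := mul_nonneg (by linarith) hA
    nlinarith
  have hexp : Real.exp (-((A + 1) * L)) * 3 ≤ Real.exp (-(A * L)) := by
    have h1 : (3 : ℝ) ≤ Real.exp L := by
      have := Real.add_one_le_exp L
      linarith
    have h2 : Real.exp (-(A * L)) = Real.exp (-((A + 1) * L)) * Real.exp L := by
      rw [← Real.exp_add]
      congr 1
      ring
    rw [h2]
    exact mul_le_mul_of_nonneg_left h1 (Real.exp_pos _).le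
  have hAL : 0 ≤ A * L := mul_nonneg hA (by linarith)
  have t1 : ((4 ^ W : ℕ) : ℝ) * Real.exp (-(((W * ⌈L⌉₊ : ℕ) : ℝ) * δ / 2)) ≤
      Real.exp (-((A + 1) * L)) := by
    refine (mul_le_mul_of_nonneg_right h4 (Real.exp_pos _).le).trans ?_
    rw [← Real.exp_add]
    apply Real.exp_le_exp.2
    nlinarith
  have t2 : ((x * x * 4 ^ W : ℕ) : ℝ) * Real.exp (-(((W * ⌈L⌉₊ : ℕ) : ℝ) * δ / 4)) ≤
      Real.exp (-((A + 1) * L)) := by
    rw [Nat.cast_mul (x * x), hxx]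
    refine (mul_le_mul_of_nonneg_right (mul_le_mul_of_nonneg_left h4 (Real.exp_pos _).le)
      (Real.exp_pos _).le).trans ?_
    rw [← Real.exp_add, ← Real.exp_add]
    apply Real.exp_le_exp.2
    nlinarith
  have t3 : ((x * x : ℕ) : ℝ) * Real.exp (-((A + 3) * L)) ≤ Real.exp (-((A + 1) * L)) := by
    rw [hxx, ← Real.exp_add]
    apply Real.exp_le_exp.2
    nlinarith
  linarith

theorem Reg.final (h : Reg θ A δ c C K L l q x y W Z P0) {s0 : ℝ} (hs0 : s0 ≤ K)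
    (hsm : ∀ (y p : ℕ) (s : ℝ), p.Prime → 0 < y →
    s = Real.log ((y : ℝ) / p) → s0 ≤ s → lev s < p → ∀ (b : ℕ → ℕ) (c : ℕ),
    ((sv b (prm (lev s)).toList (cls y p c)).card : ℝ) ≤
      (512 * Real.exp 18 + 2) * ((y : ℝ) / p * (Real.log s / s))) :
    (({m | m < ∏ p ∈ pw W Z, p ∧ Cov x y W Z m} : Set ℕ).ncard : ℝ) ≤
      ((∏ p ∈ pw W Z, p : ℕ) : ℝ) * Real.exp (-(A * L)) :=
  (core h.par (h.par3 hs0 hsm)).trans (mul_le_mul_of_nonneg_left h.sum_le (Nat.cast_nonneg _))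

end Pool.MP42e49e
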