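import Pool.Agent.H.MP_42e49e_nt.Fin

/-!
# The theorem
-/

set_option autoImplicit false

open Finset Filter

namespace Pool.MP42e49e

open Pool.Agent.H.MP_3e6494_nt (prm mem_prm)

theorem exists_reg {θ A : ℝ} (h0 : Real.exp (-1) < θ) (h1 : θ < 1) (hA : 0 ≤ A) (s0 : ℝ) :
    ∃ δ c C K : ℝ, 0 < c ∧ 1 ≤ C ∧ s0 ≤ K ∧ ∀ᶠ x : ℕ in atTop, ∀ y : ℕ,
      C * (x * Real.log x) ≤ y → (y : ℝ) ≤ 2 * C * (x * Real.log x) →
      Reg θ A δ c C K (Real.log x) (Real.log (Real.log x))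
        (c * Real.log x / Real.log (Real.log x) ^ 2) x y
        ⌊Real.exp (c * Real.log x / Real.log (Real.log x) ^ 2)⌋₊
        ⌊Real.exp (θ * Real.log x)⌋₊
        ⌊Real.exp (Real.log x - 60 * (Real.log (Real.log x) *
          (c * Real.log x / Real.log (Real.log x) ^ 2)))⌋₊ := by
  have hθpos : 0 < θ := (Real.exp_pos _).trans h0
  have hlog1 : -1 < Real.log θ := by
    rw [Real.lt_log_iff_exp_lt hθpos]
    exact h0
  have hlog2 : Real.log θ < 0 := Real.log_neg hθpos h1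
  obtain ⟨δ, hδ⟩ : ∃ δ : ℝ, δ = (1 + Real.log θ) / 16 := ⟨_, rfl⟩
  have hδ0 : 0 < δ := by
    rw [hδ]
    linarith
  have hδ1 : δ ≤ 1 / 16 := by
    rw [hδ]
    linarith
  have he22 : (1 : ℝ) ≤ Real.exp 22 := Real.one_le_exp (by norm_num)
  have hCN := CN_ge
  have hC1 := C1_ge hA
  have he1 : (1 : ℝ) ≤ Real.exp 1 := Real.one_le_exp (by norm_num)
  have hC1' : 12 ≤ C1 A := by
    unfold C1
    nlinarith
  have hD : 1 ≤ 224 * Real.exp 22 * CN := by nlinarith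
  obtain ⟨c, hc⟩ : ∃ c : ℝ, c = δ / (224 * Real.exp 22 * CN) := ⟨_, rfl⟩
  have hc0 : 0 < c := by
    rw [hc]
    positivity
  have hc1 : c ≤ 1 := by
    rw [hc, div_le_one (by linarith)]
    linarith
  have hcD : c * (224 * Real.exp 22 * CN) = δ := by
    rw [hc]
    exact div_mul_cancel₀ _ (by linarith)
  obtain ⟨C, hC⟩ : ∃ C : ℝ, C = 3 * C1 A * Real.exp 22 / δ := ⟨_, rfl⟩
  have hCδ : C * δ = 3 * C1 A * Real.exp 22 := by
    rw [hC]
    exact div_mul_cancel₀ _ hδ0.ne'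
  have hC1C : 1 ≤ C := by
    rw [hC, le_div_iff₀ hδ0]
    nlinarith
  obtain ⟨K, hK⟩ : ∃ K : ℝ, K = 1000 + 4096 * Real.exp 22 * (A + 5) / δ + 60 / (1 - θ) + 4 * C + |s0| :=
    ⟨_, rfl⟩
  have k1 : 0 ≤ 4096 * Real.exp 22 * (A + 5) / δ := by positivity
  have k2 : 0 ≤ 60 / (1 - θ) := div_nonneg (by norm_num) (by linarith)
  have k3 : 0 ≤ |s0| := abs_nonneg _
  have k4 := le_abs_self s0
  have hK2 : 4096 * Real.exp 22 * (A + 5) ≤ K * δ := by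
    rw [← div_le_iff₀ hδ0]
    linarith
  have hK3 : 60 ≤ K * (1 - θ) := by
    rw [← div_le_iff₀ (by linarith)]
    linarith
  refine ⟨δ, c, C, K, hc0, hC1C, by linarith, ?_⟩
  obtain ⟨Bc, hBc⟩ : ∃ B : ℝ, B = 56 * C1 A * Real.exp 22 := ⟨_, rfl⟩
  have tL : Tendsto (fun x : ℕ => Real.log (x : ℝ)) atTop atTop :=
    Real.tendsto_log_atTop.comp tendsto_natCast_atTop_atTop
  have tl : Tendsto (fun x : ℕ => Real.log (Real.log (x : ℝ))) atTop atTop :=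
    Real.tendsto_log_atTop.comp tL
  filter_upwards [eventually_ge_atTop 1, tl.eventually_ge_atTop K,
    tL.eventually (ev_log_pow (100 / c) 3), tL.eventually (ev_log_pow (1 / c ^ 2) 4),
    tL.eventually (ev_log_pow (Bc ^ 4 / δ ^ 4) 4)] with x hx e1 e2 e3 e4
  intro y hy1 hy2
  refine
    { hθ0 := h0
      hθ1 := h1
      hA := hA
      hδ := by rw [hδ]; ring
      hδ0 := hδ0
      hδ1 := hδ1
      hc := hcD
      hc0 := hc0
      hc1 := hc1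
      hC := hCδ
      hC1 := hC1C
      hx := hx
      hL := rfl
      hl := rfl
      hq := rfl
      hK1 := by linarith
      hK2 := hK2
      hK3 := hK3
      hK4 := by linarith
      hKl := e1
      hL1 := ?_
      hL2 := ?_
      hL3 := ?_
      hW := rfl
      hZ := rfl
      hP := rfl
      hy1 := hy1
      hy2 := hy2 }
  · rw [div_mul_eq_mul_div, div_le_iff₀ hc0] at e2
    linarith
  · rw [div_mul_eq_mul_div, div_le_iff₀ (by positivity), one_mul] at e3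
    linarith
  · rw [div_mul_eq_mul_div, div_le_iff₀ (by positivity)] at e4
    rw [← hBc, mul_pow]
    linarith

theorem Cov.mono {x y y' W Z m : ℕ} (h : Cov x y W Z m) (hy : y' ≤ y) : Cov x y' W Z m := by
  obtain ⟨a, ha⟩ := h
  exact ⟨a, fun n hn => ha n (Icc_subset_Icc_right hy hn)⟩

/-- The theorem, counting shifts. -/
theorem main_shift {θ A : ℝ} (h0 : Real.exp (-1) < θ) (h1 : θ < 1) (hA : 0 ≤ A) :
    ∃ c C x₀ : ℝ, 0 < c ∧ 0 < C ∧ ∀ x y : ℕ, x₀ ≤ x → C * (x * Real.log x) ≤ y →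
      ∀ Q : Finset ℕ, (∀ p, p ∈ Q ↔ p.Prime ∧
        Real.exp (c * Real.log x / Real.log (Real.log x) ^ 2) < p ∧ (p : ℝ) ≤ (x : ℝ) ^ θ) →
      ∃ W Z : ℕ, Q = pw W Z ∧ (({m | m < ∏ p ∈ Q, p ∧ Cov x y W Z m} : Set ℕ).ncard : ℝ) ≤
        (x : ℝ) ^ (-A) * ((∏ p ∈ Q, p : ℕ) : ℝ) := by
  obtain ⟨s0, hs0, hsm⟩ := small_sieve
  obtain ⟨δ, c, C, K, hc0, hC1, hK, hev⟩ := exists_reg h0 h1 hA s0
  obtain ⟨N, hN⟩ := eventually_atTop.1 (hev.and (eventually_ge_atTop 3))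
  refine ⟨c, C, N, hc0, by linarith, ?_⟩
  intro x y hx hy Q hQ
  obtain ⟨hreg, hx3⟩ := hN x (by exact_mod_cast hx)
  have hx0 : (3 : ℝ) ≤ x := by exact_mod_cast hx3
  have hL1 : 1 ≤ Real.log x := by
    rw [Real.le_log_iff_exp_le (by linarith)]
    have := Real.exp_one_lt_d9
    linarith
  have hCx : 1 ≤ C * (x * Real.log x) := by
    have h2 : 1 ≤ (x : ℝ) * Real.log x := by nlinarith
    nlinarith
  obtain ⟨y0, hy0⟩ : ∃ y0 : ℕ, y0 = ⌈C * (x * Real.log x)⌉₊ := ⟨_, rfl⟩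
  have hy01 : C * (x * Real.log x) ≤ y0 := by
    rw [hy0]
    exact Nat.le_ceil _
  have hy02 : (y0 : ℝ) ≤ 2 * C * (x * Real.log x) := by
    have h2 := (Nat.ceil_lt_add_one (show 0 ≤ C * (x * Real.log x) by linarith)).le
    rw [← hy0] at h2
    linarith
  have hy03 : y0 ≤ y := by
    rw [hy0]
    exact Nat.ceil_le.2 hy
  have hR := hreg y0 hy01 hy02
  have hfin := hR.final hK hsm
  obtain ⟨W, hW⟩ : ∃ W : ℕ, W = ⌊Real.exp (c * Real.log x / Real.log (Real.log x) ^ 2)⌋₊ :=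
    ⟨_, rfl⟩
  obtain ⟨Z, hZ⟩ : ∃ Z : ℕ, Z = ⌊Real.exp (θ * Real.log x)⌋₊ := ⟨_, rfl⟩
  rw [← hW, ← hZ] at hfin
  have hQeq : Q = pw W Z := by
    ext p
    rw [hQ, mem_pw, hW, hZ, Nat.floor_lt (Real.exp_pos _).le, Nat.le_floor_iff (Real.exp_pos _).le,
      Real.rpow_def_of_pos (by linarith : (0 : ℝ) < x), mul_comm θ]
  refine ⟨W, Z, hQeq, ?_⟩
  rw [hQeq]
  have hsub : ({m | m < ∏ p ∈ pw W Z, p ∧ Cov x y W Z m} : Set ℕ) ⊆
      {m | m < ∏ p ∈ pw W Z, p ∧ Cov x y0 W Z m} := fun m hm => ⟨hm.1, hm.2.mono hy03⟩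
  have hfinite : ({m | m < ∏ p ∈ pw W Z, p ∧ Cov x y0 W Z m} : Set ℕ).Finite :=
    (Set.finite_lt_nat _).subset fun m hm => hm.1
  have h5 : (({m | m < ∏ p ∈ pw W Z, p ∧ Cov x y W Z m} : Set ℕ).ncard : ℝ) ≤
      (({m | m < ∏ p ∈ pw W Z, p ∧ Cov x y0 W Z m} : Set ℕ).ncard : ℝ) := by
    exact_mod_cast Set.ncard_le_ncard hsub hfinite
  refine (h5.trans hfin).trans (le_of_eq ?_)
  rw [mul_comm, Real.rpow_def_of_pos (by linarith : (0 : ℝ) < x)]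
  congr 2
  ring

end Pool.MP42e49e
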