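import Pool.Agent.H.MP_42e49e_nt.Core

/-!
# The fundamental lemma of the sieve, for arbitrary residue classes
-/

set_option autoImplicit false

open Finset

namespace Pool.MP42e49e

open Pool.Agent.H.MP_3e6494_nt (prm mem_prm)

/-- sum of the reciprocals of the products of fewer than `r` elements -/
noncomputable def AA : List ℕ → ℕ → ℝ
  | _, 0 => 0
  | [], _ + 1 => 1
  | q :: l, r + 1 => AA l (r + 1) + 1 / (q : ℝ) * AA l r

theorem AA_le : ∀ (l : List ℕ) (r : ℕ), 0 ≤ AA l r ∧ AA l r ≤ Real.exp (rs l) := by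
  intro l
  induction l with
  | nil =>
    intro r
    cases r with
    | zero => rw [AA]; exact ⟨le_rfl, (Real.exp_pos _).le⟩
    | succ r => rw [AA, rs_nil, Real.exp_zero]; exact ⟨zero_le_one, le_rfl⟩
  | cons q l ih =>
    intro r
    cases r with
    | zero => rw [AA]; exact ⟨le_rfl, (Real.exp_pos _).le⟩
    | succ r =>
      obtain ⟨h1, h2⟩ := ih (r + 1)
      obtain ⟨h3, h4⟩ := ih r
      have h5 : 0 ≤ 1 / (q : ℝ) := by positivity
      rw [AA, rs_cons]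
      refine ⟨add_nonneg h1 (mul_nonneg h5 h3), ?_⟩
      have h6 : 1 / (q : ℝ) + 1 ≤ Real.exp (1 / (q : ℝ)) := Real.add_one_le_exp _
      rw [Real.exp_add]
      have h7 := Real.exp_pos (rs l)
      calc AA l (r + 1) + 1 / (q : ℝ) * AA l r ≤ Real.exp (rs l) + 1 / (q : ℝ) * Real.exp (rs l) :=
            add_le_add h2 (mul_le_mul_of_nonneg_left h4 h5)
        _ = (1 / (q : ℝ) + 1) * Real.exp (rs l) := by ring
        _ ≤ _ := mul_le_mul_of_nonneg_right h6 h7.le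

/-- one block, main recursion -/
theorem block_main (b : ℕ → ℕ) (y : ℕ) {l0 : List ℕ} {z' : ℕ} {D V δ : ℝ} (hV : 0 ≤ V)
    (hδ : 0 ≤ δ) (hz : 1 ≤ z')
    (base : ∀ d c : ℕ, 0 < d → (∀ q ∈ l0, Nat.Coprime d q) → (d : ℝ) ≤ D →
      |((sv b l0 (cls y d c)).card : ℝ) - (y : ℝ) / d * V| ≤ δ * ((y : ℝ) / d * V)) :
    ∀ l : List ℕ, (∀ q ∈ l, 0 < q ∧ q ≤ z') → l.Pairwise Nat.Coprime →
    (∀ q ∈ l, ∀ q' ∈ l0, Nat.Coprime q q') →
    ∀ (r d c : ℕ), 0 < d → (∀ q ∈ l0, Nat.Coprime d q) → (∀ q ∈ l, Nat.Coprime d q) →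
      (d : ℝ) * (z' : ℝ) ^ r ≤ D →
    |NN b l (r + 1) (sv b l0 (cls y d c)) - (y : ℝ) / d * V * TT l (r + 1)| ≤
      δ * ((y : ℝ) / d * V) * AA l (r + 1) := by
  intro l
  induction l with
  | nil =>
    intro _ _ _ r d c hd hd0 _ hD
    rw [NN, TT, AA, mul_one, mul_one]
    refine base d c hd hd0 (le_trans ?_ hD)
    have h1 : (1 : ℝ) ≤ (z' : ℝ) ^ r := one_le_pow₀ (by exact_mod_cast hz)
    exact le_mul_of_one_le_right (Nat.cast_nonneg _) h1
  | cons q l ih =>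
    intro hpos hcop hcop0 r d c hd hd0 hdc hD
    rw [List.pairwise_cons] at hcop
    have hl : ∀ x ∈ l, 0 < x ∧ x ≤ z' := fun x hx => hpos x (List.mem_cons_of_mem _ hx)
    have hl0 : ∀ x ∈ l, ∀ q' ∈ l0, Nat.Coprime x q' := fun x hx =>
      hcop0 x (List.mem_cons_of_mem _ hx)
    obtain ⟨hq, hqz⟩ := hpos q List.mem_cons_self
    have hq' : (0 : ℝ) < q := by exact_mod_cast hq
    have hd' : (0 : ℝ) < d := by exact_mod_cast hd
    have h1 := ih hl hcop.2 hl0 r d c hd hd0 (fun x hx => hdc x (List.mem_cons_of_mem _ hx)) hD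
    cases r with
    | zero =>
      rw [NN, TT, AA]
      have e0 : ∀ T : Finset ℕ, NN b l 0 T = 0 := fun T => by cases l <;> rfl
      have e1 : TT l 0 = 0 := by cases l <;> rfl
      have e2 : AA l 0 = 0 := by cases l <;> rfl
      rw [e0, e1, e2]
      simp only [mul_zero, sub_zero, add_zero]
      exact h1
    | succ r =>
      obtain ⟨c', hc'⟩ := cls_inter (hdc q List.mem_cons_self) y c (b q)
      have hflt : (sv b l0 (cls y d c)).filter (fun n => q ∣ b q + n) =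
          sv b l0 (cls y (d * q) c') := by
        rw [← hc']
        unfold sv
        rw [filter_filter, filter_filter]
        exact filter_congr fun n _ => and_comm
      have h2 := ih hl hcop.2 hl0 r (d * q) c' (Nat.mul_pos hd hq)
        (fun x hx => Nat.Coprime.mul_left (hd0 x hx) (hcop0 q List.mem_cons_self x hx))
        (fun x hx => Nat.Coprime.mul_left (hdc x (List.mem_cons_of_mem _ hx)) (hcop.1 x hx)) (by
          refine le_trans ?_ hD
          rw [pow_succ, Nat.cast_mul]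
          have h3 : (q : ℝ) ≤ z' := by exact_mod_cast hqz
          have h4 : (0 : ℝ) ≤ (d : ℝ) * (z' : ℝ) ^ r := by positivity
          calc (d : ℝ) * q * (z' : ℝ) ^ r = (d : ℝ) * (z' : ℝ) ^ r * q := by ring
            _ ≤ (d : ℝ) * (z' : ℝ) ^ r * z' := mul_le_mul_of_nonneg_left h3 h4
            _ = _ := by ring)
      rw [NN, TT, AA, hflt]
      have e : NN b l (r + 1 + 1) (sv b l0 (cls y d c)) - NN b l (r + 1) (sv b l0 (cls y (d * q) c')) -
          (y : ℝ) / d * V * (TT l (r + 1 + 1) - 1 / (q : ℝ) * TT l (r + 1)) =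
          (NN b l (r + 1 + 1) (sv b l0 (cls y d c)) - (y : ℝ) / d * V * TT l (r + 1 + 1)) -
          (NN b l (r + 1) (sv b l0 (cls y (d * q) c')) -
            (y : ℝ) / ((d * q : ℕ) : ℝ) * V * TT l (r + 1)) := by
        rw [Nat.cast_mul]
        field_simp
        ring
      rw [e]
      refine (abs_sub _ _).trans ((add_le_add h1 h2).trans (le_of_eq ?_))
      rw [Nat.cast_mul]
      field_simp

theorem sv_append (b : ℕ → ℕ) (l l0 : List ℕ) (T : Finset ℕ) :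
    sv b (l ++ l0) T = sv b l (sv b l0 T) := by
  unfold sv
  rw [filter_filter]
  refine filter_congr fun n _ => ?_
  simp only [List.mem_append]
  constructor
  · intro h
    exact ⟨fun q hq => h q (Or.inr hq), fun q hq => h q (Or.inl hq)⟩
  · rintro ⟨h1, h2⟩ q (hq | hq)
    · exact h2 q hq
    · exact h1 q hq

/-- one block -/
theorem block (b : ℕ → ℕ) (y : ℕ) {l0 : List ℕ} {z' : ℕ} {D V δ : ℝ} (hV : 0 ≤ V)
    (hδ : 0 ≤ δ) (hz : 1 ≤ z')
    (base : ∀ d c : ℕ, 0 < d → (∀ q ∈ l0, Nat.Coprime d q) → (d : ℝ) ≤ D →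
      |((sv b l0 (cls y d c)).card : ℝ) - (y : ℝ) / d * V| ≤ δ * ((y : ℝ) / d * V))
    {l : List ℕ} (hpos : ∀ q ∈ l, 0 < q ∧ q ≤ z') (hcop : l.Pairwise Nat.Coprime)
    (hcop0 : ∀ q ∈ l, ∀ q' ∈ l0, Nat.Coprime q q') (hS : rs l ≤ 1)
    {r d : ℕ} (c : ℕ) (hd : 0 < d) (hd0 : ∀ q ∈ l0, Nat.Coprime d q)
    (hdc : ∀ q ∈ l, Nat.Coprime d q) (hD : (d : ℝ) * (z' : ℝ) ^ (r + 1) ≤ D) :
    |((sv b l (sv b l0 (cls y d c))).card : ℝ) - (y : ℝ) / d * (V * PP l)| ≤
      (Real.exp 1 * δ + 1 / (r + 1).factorial) * ((y : ℝ) / d * V) := by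
  have hyd : (0 : ℝ) ≤ (y : ℝ) / d * V := by positivity
  have hz' : (1 : ℝ) ≤ z' := by exact_mod_cast hz
  have hD' : (d : ℝ) * (z' : ℝ) ^ r ≤ D := by
    refine le_trans ?_ hD
    exact mul_le_mul_of_nonneg_left (pow_le_pow_right₀ hz' (Nat.le_succ r)) (Nat.cast_nonneg _)
  have hrs := rs_nonneg l
  have hP : ∀ q ∈ l, 0 < q := fun q hq => (hpos q hq).1
  obtain ⟨T, hT⟩ : ∃ T, T = sv b l0 (cls y d c) := ⟨_, rfl⟩
  have c1 := block_main b y hV hδ hz base l hpos hcop hcop0 r d c hd hd0 hdc hD'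
  have c2 := block_main b y hV hδ hz base l hpos hcop hcop0 (r + 1) d c hd hd0 hdc hD
  rw [← hT] at c1 c2 ⊢
  obtain ⟨Y, hY⟩ : ∃ Y, Y = (y : ℝ) / d * V := ⟨_, rfl⟩
  rw [← hY] at c1 c2 hyd
  have eY : (y : ℝ) / d * (V * PP l) = Y * PP l := by rw [hY]; ring
  rw [eY, ← hY]
  have a1 := NN_sign b l (r + 1) T
  have a2 := NN_sign b l (r + 1 + 1) T
  have b1 := TT_sign l hP (r + 1)
  have b2 := TT_sign l hP (r + 1 + 1)
  have hsg : |(-1 : ℝ) ^ (r + 1)| = 1 := by rw [abs_pow, abs_neg, abs_one, one_pow]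
  have hexp : Real.exp (rs l) ≤ Real.exp 1 := Real.exp_le_exp.2 hS
  have hA : ∀ k : ℕ, δ * Y * AA l k ≤ Real.exp 1 * δ * Y := by
    intro k
    have h1 : AA l k ≤ Real.exp 1 := (AA_le l k).2.trans hexp
    calc δ * Y * AA l k ≤ δ * Y * Real.exp 1 := mul_le_mul_of_nonneg_left h1 (by positivity)
      _ = _ := by ring
  have hE : ∀ k : ℕ, EE l k ≤ 1 / k.factorial := by
    intro k
    refine (EE_le l k).2.trans ?_
    apply div_le_div_of_nonneg_right _ (by positivity)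
    exact pow_le_one₀ hrs hS
  have hfac : (1 : ℝ) / (r + 1 + 1).factorial ≤ 1 / (r + 1).factorial := by
    apply one_div_le_one_div_of_le (by positivity)
    exact_mod_cast Nat.factorial_le (Nat.le_succ (r + 1))
  have d1 : |(-1 : ℝ) ^ (r + 1) * (NN b l (r + 1) T - Y * TT l (r + 1))| ≤
      Real.exp 1 * δ * Y := by
    rw [abs_mul, hsg, one_mul]
    exact c1.trans (hA _)
  have d2 : |(-1 : ℝ) ^ (r + 1) * (NN b l (r + 1 + 1) T - Y * TT l (r + 1 + 1))| ≤
      Real.exp 1 * δ * Y := by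
    rw [abs_mul, hsg, one_mul]
    exact c2.trans (hA _)
  rw [abs_le] at d1 d2
  rw [pow_succ] at a2 b2
  have f1 := mul_le_mul_of_nonneg_left (b1.2.trans (hE (r + 1))) hyd
  have f2 := mul_le_mul_of_nonneg_left ((b2.2.trans (hE (r + 1 + 1))).trans hfac) hyd
  have h3 : |((sv b l T).card : ℝ) - Y * PP l| =
      |(-1 : ℝ) ^ (r + 1) * (((sv b l T).card : ℝ) - Y * PP l)| := by
    rw [abs_mul, hsg, one_mul]
  rw [h3, abs_le]
  constructor
  · have e : (-1 : ℝ) ^ (r + 1) * (((sv b l T).card : ℝ) - Y * PP l) =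
        (-1 : ℝ) ^ (r + 1) * ((sv b l T).card - NN b l (r + 1) T) +
        (-1 : ℝ) ^ (r + 1) * (NN b l (r + 1) T - Y * TT l (r + 1)) -
        Y * ((-1 : ℝ) ^ (r + 1) * (PP l - TT l (r + 1))) := by ring
    rw [e]
    linarith [d1.1]
  · have e : (-1 : ℝ) ^ (r + 1) * (((sv b l T).card : ℝ) - Y * PP l) =
        -((-1 : ℝ) ^ (r + 1) * (-1) * ((sv b l T).card - NN b l (r + 1 + 1) T)) +
        (-1 : ℝ) ^ (r + 1) * (NN b l (r + 1 + 1) T - Y * TT l (r + 1 + 1)) +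
        Y * ((-1 : ℝ) ^ (r + 1) * (-1) * (PP l - TT l (r + 1 + 1))) := by ring
    rw [e]
    linarith [d2.2]

end Pool.MP42e49e
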