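import Pool.Agent.H.MP_42e49e_nt.Fund

/-!
# The fundamental lemma of the sieve: induction over the blocks
-/

set_option autoImplicit false

open Finset

namespace Pool.MP42e49e

open Pool.Agent.H.MP_3e6494_nt (prm mem_prm)

theorem pow_le_factorial {n : ℕ} (hn : 115 ≤ n) : 42 ^ n ≤ n.factorial := by
  induction n, hn using Nat.le_induction with
  | base => decide
  | succ n hn ih =>
    rw [pow_succ, Nat.factorial_succ, mul_comm]
    exact Nat.mul_le_mul (by omega) ih

theorem PP_toList (s : Finset ℕ) : PP s.toList = ∏ q ∈ s, (1 - 1 / (q : ℝ)) := by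
  rw [← Finset.prod_map_toList]
  induction s.toList with
  | nil => rfl
  | cons q l ih => rw [PP, List.map_cons, List.prod_cons, ih]

theorem sqrt_iter_le (J w : ℕ) : Nat.sqrt^[J] w ≤ w := by
  induction J generalizing w with
  | zero => exact le_rfl
  | succ J ih =>
    rw [Function.iterate_succ_apply]
    exact (ih _).trans (Nat.sqrt_le_self w)

theorem prm_split {v z : ℕ} (h : v ≤ z) : prm z = pw v z ∪ prm v ∧ Disjoint (pw v z) (prm v) := by
  constructor
  · ext p
    rw [mem_union, mem_pw, mem_prm, mem_prm]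
    constructor
    · rintro ⟨h1, h2⟩
      rcases le_or_gt p v with h3 | h3
      · exact Or.inr ⟨h1, h3⟩
      · exact Or.inl ⟨h1, h3, h2⟩
    · rintro (⟨h1, h2, h3⟩ | ⟨h1, h2⟩)
      · exact ⟨h1, h3⟩
      · exact ⟨h1, by omega⟩
  · rw [disjoint_left]
    intro p h1 h2
    rw [mem_pw] at h1
    rw [mem_prm] at h2
    omega

theorem block_sum {z : ℕ} (h : Real.exp 50 ≤ (Nat.sqrt z : ℝ)) : FF z - FF (Nat.sqrt z) ≤ 1 := by
  obtain ⟨v, hv⟩ : ∃ v, v = Nat.sqrt z := ⟨_, rfl⟩
  rw [← hv] at h ⊢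
  have h50 : (51 : ℝ) ≤ Real.exp 50 := by
    have := Real.add_one_le_exp (50 : ℝ)
    linarith
  have hv0 : (51 : ℝ) ≤ v := h50.trans h
  have hv1 : 2 ≤ v := by
    have : (2 : ℝ) ≤ v := by linarith
    exact_mod_cast this
  have hvz : v ≤ z := by
    rw [hv]
    exact Nat.sqrt_le_self z
  have hlv : 50 ≤ Real.log v := by
    rw [Real.le_log_iff_exp_le (by linarith)]
    exact h
  have hz : z < (v + 1) * (v + 1) := by
    rw [hv]
    exact Nat.lt_succ_sqrt z
  have hzR : (z : ℝ) ≤ ((v : ℝ) + 1) ^ 2 := by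
    have : (z : ℝ) < ((v : ℝ) + 1) * ((v : ℝ) + 1) := by exact_mod_cast hz
    nlinarith
  have hz0 : (51 : ℝ) ≤ z := hv0.trans (by exact_mod_cast hvz)
  have h1 : Real.log z ≤ 2 * Real.log v + 1 := by
    have h2 := Real.log_le_log (by linarith) hzR
    rw [Real.log_pow] at h2
    have h3 : Real.log ((v : ℝ) + 1) ≤ Real.log v + 1 / v := by
      have e : (v : ℝ) + 1 = v * (1 + 1 / v) := by field_simp
      have h4 : 0 < 1 + 1 / (v : ℝ) := by positivity
      rw [e, Real.log_mul (by linarith) h4.ne']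
      have := Real.log_le_sub_one_of_pos h4
      linarith
    have h5 : 1 / (v : ℝ) ≤ 1 / 2 := by
      apply one_div_le_one_div_of_le (by norm_num)
      linarith
    push_cast at h2
    linarith
  have h2 := (window hv1 hvz).1
  have h3 : Real.log (Real.log z) - Real.log (Real.log v) ≤ 1 - 24 / 100 := by
    rw [← Real.log_div (by
      have : 0 < Real.log z := Real.log_pos (by linarith)
      exact this.ne') (by linarith)]
    have h4 : Real.log z / Real.log v ≤ 2 * (1 + 1 / 100) := by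
      rw [div_le_iff₀ (by linarith)]
      linarith
    have h5 : 0 < Real.log z / Real.log v := by
      have : 0 < Real.log z := Real.log_pos (by linarith)
      positivity
    have h6 := Real.log_le_log h5 h4
    rw [Real.log_mul (by norm_num) (by norm_num)] at h6
    have h7 := Real.log_two_lt_d9
    have h8 := Real.log_le_sub_one_of_pos (show (0 : ℝ) < 1 + 1 / 100 by norm_num)
    linarith
  have h4 : 12 / Real.log v ≤ 24 / 100 := by
    rw [div_le_iff₀ (by linarith)]
    linarith
  linarith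

/-- **The fundamental lemma**, induction over the blocks. -/
theorem fund_aux (b : ℕ → ℕ) (y : ℕ) {R v : ℕ} {D0 δ0 : ℝ} (hR : 115 ≤ R) (hδ0 : 0 ≤ δ0)
    (hv : Real.exp 50 ≤ (v : ℝ))
    (base : ∀ d c : ℕ, 0 < d → (∀ q ∈ prm v, Nat.Coprime d q) → (d : ℝ) ≤ D0 →
      |((sv b (prm v).toList (cls y d c)).card : ℝ) - (y : ℝ) / d * PP (prm v).toList| ≤
        δ0 * ((y : ℝ) / d * PP (prm v).toList)) :
    ∀ (J s z : ℕ), Nat.sqrt^[J] z = v → ∀ d c : ℕ, 0 < d → (∀ q ∈ prm z, Nat.Coprime d q) →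
      (d : ℝ) * (z : ℝ) ^ (2 * s + 2 * R + 4) ≤ D0 →
      |((sv b (prm z).toList (cls y d c)).card : ℝ) - (y : ℝ) / d * PP (prm z).toList| ≤
        (21 ^ J * δ0 + 30 / 42 ^ (R + s)) * ((y : ℝ) / d * PP (prm z).toList) := by
  intro J
  induction J with
  | zero =>
    intro s z hz d c hd hdc hD
    rw [Function.iterate_zero, id] at hz
    subst hz
    have hz1 : (1 : ℝ) ≤ z := (Real.one_le_exp (by norm_num)).trans hv
    have h1 : (1 : ℝ) ≤ (z : ℝ) ^ (2 * s + 2 * R + 4) := one_le_pow₀ hz1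
    have h2 : (d : ℝ) ≤ D0 := le_trans (le_mul_of_one_le_right (Nat.cast_nonneg _) h1) hD
    refine (base d c hd hdc h2).trans ?_
    have h3 : 0 ≤ PP (prm z).toList := (PP_bound _ fun q hq => (mem_prm.1 (mem_toList.1 hq)).1.pos).1
    apply mul_le_mul_of_nonneg_right _ (by positivity)
    have h4 : (0 : ℝ) ≤ 30 / 42 ^ (R + s) := by positivity
    rw [pow_zero, one_mul]
    linarith
  | succ J ih =>
    intro s z hz d c hd hdc hD
    rw [Function.iterate_succ_apply] at hz
    obtain ⟨z', hz'⟩ : ∃ z', z' = Nat.sqrt z := ⟨_, rfl⟩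
    rw [← hz'] at hz
    have ih' := ih (s + 1) z' hz
    have hvz' : v ≤ z' := by
      rw [← hz]
      exact sqrt_iter_le J z'
    have hz'z : z' ≤ z := by
      rw [hz']
      exact Nat.sqrt_le_self z
    have hz'e : Real.exp 50 ≤ (z' : ℝ) := hv.trans (by exact_mod_cast hvz')
    have hz'1 : (1 : ℝ) ≤ z' := (Real.one_le_exp (by norm_num)).trans hz'e
    have hz1 : (1 : ℝ) ≤ z := hz'1.trans (by exact_mod_cast hz'z)
    have hsq : (z' : ℝ) ^ 2 ≤ z := by
      have := Nat.sqrt_le' z
      rw [← hz'] at this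
      exact_mod_cast this
    obtain ⟨hsplit, hdisj⟩ := prm_split hz'z
    obtain ⟨δ1, hδ1⟩ : ∃ δ1 : ℝ, δ1 = 21 ^ J * δ0 + 30 / 42 ^ (R + (s + 1)) := ⟨_, rfl⟩
    have hδ1' : 0 ≤ δ1 := by rw [hδ1]; positivity
    rw [← hδ1] at ih'
    obtain ⟨V, hV⟩ : ∃ V, V = PP (prm z').toList := ⟨_, rfl⟩
    rw [← hV] at ih'
    have hV0 : 0 ≤ V := by
      rw [hV]
      exact (PP_bound _ fun q hq => (mem_prm.1 (mem_toList.1 hq)).1.pos).1
    obtain ⟨D, hDd⟩ : ∃ D : ℝ, D = D0 / (z' : ℝ) ^ (2 * (s + 1) + 2 * R + 4) := ⟨_, rfl⟩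
    have hzp : 0 < (z' : ℝ) ^ (2 * (s + 1) + 2 * R + 4) := by positivity
    have hbase : ∀ d c : ℕ, 0 < d → (∀ q ∈ (prm z').toList, Nat.Coprime d q) → (d : ℝ) ≤ D →
        |((sv b (prm z').toList (cls y d c)).card : ℝ) - (y : ℝ) / d * V| ≤
          δ1 * ((y : ℝ) / d * V) := by
      intro d c hd hdc hdD
      refine ih' d c hd (fun q hq => hdc q (mem_toList.2 hq)) ?_
      rw [hDd, le_div_iff₀ hzp] at hdD
      exact hdD
    have hPl : ∀ q ∈ (pw z' z).toList, q.Prime ∧ z' < q ∧ q ≤ z := by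
      intro q hq
      rw [mem_toList, mem_pw] at hq
      exact hq
    have hS : rs (pw z' z).toList ≤ 1 := by
      rw [rs_toList, sum_pw hz'z, hz']
      apply block_sum
      rw [← hz']
      exact hz'e
    have hr : R + s - 1 + 1 = R + s := by omega
    have hbl := block b y (l0 := (prm z').toList) (z' := z) (D := D) (V := V) (δ := δ1) hV0 hδ1'
      (by exact_mod_cast hz1) hbase (l := (pw z' z).toList)
      (fun q hq => ⟨(hPl q hq).1.pos, (hPl q hq).2.2⟩)
      (pairwise_toList fun p hp => (mem_pw.1 hp).1)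
      (fun q hq q' hq' => by
        have h1 := hPl q hq
        rw [mem_toList, mem_prm] at hq'
        exact (Nat.coprime_primes h1.1 hq'.1).2 (by omega))
      hS (r := R + s - 1) (d := d) c hd
      (fun q hq => hdc q (by
        rw [mem_toList, mem_prm] at hq
        rw [mem_prm]
        exact ⟨hq.1, hq.2.trans hz'z⟩))
      (fun q hq => hdc q (by
        have := hPl q hq
        rw [mem_prm]
        exact ⟨this.1, this.2.2⟩))
      (by
        rw [hr, hDd, le_div_iff₀ hzp]
        refine le_trans ?_ hD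
        have e1 : (z' : ℝ) ^ (2 * (s + 1) + 2 * R + 4) = ((z' : ℝ) ^ 2) ^ (s + R + 3) := by
          rw [← pow_mul]
          congr 1
          ring
        have e2 : ((z' : ℝ) ^ 2) ^ (s + R + 3) ≤ (z : ℝ) ^ (s + R + 3) :=
          pow_le_pow_left₀ (by positivity) hsq _
        rw [e1]
        calc (d : ℝ) * (z : ℝ) ^ (R + s) * ((z' : ℝ) ^ 2) ^ (s + R + 3)
            ≤ (d : ℝ) * (z : ℝ) ^ (R + s) * (z : ℝ) ^ (s + R + 3) :=
              mul_le_mul_of_nonneg_left e2 (by positivity)
          _ = (d : ℝ) * (z : ℝ) ^ (2 * s + 2 * R + 3) := by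
              rw [mul_assoc, ← pow_add]
              congr 2
              ring
          _ ≤ (d : ℝ) * (z : ℝ) ^ (2 * s + 2 * R + 4) :=
              mul_le_mul_of_nonneg_left (pow_le_pow_right₀ hz1 (Nat.le_succ _))
                (Nat.cast_nonneg _))
    rw [hr] at hbl
    -- the lists
    have hsv : sv b (prm z).toList (cls y d c) =
        sv b (pw z' z).toList (sv b (prm z').toList (cls y d c)) := by
      rw [← sv_append]
      unfold sv
      refine filter_congr fun n _ => ?_
      simp only [List.mem_append, mem_toList]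
      rw [hsplit]
      simp only [mem_union]
    have hPP : PP (prm z).toList = V * PP (pw z' z).toList := by
      rw [hV, PP_toList, PP_toList, PP_toList, hsplit, prod_union hdisj, mul_comm]
    have hPl1 := PP_ge (pw z' z).toList fun q hq => (hPl q hq).1.two_le
    have hrs2 : rs2 (pw z' z).toList ≤ 1 := by
      have h1 := rs2_le (w := (z' : ℝ)) (by linarith) (pw z' z).toList (fun q hq => by
        have := (hPl q hq).2.1
        exact_mod_cast this)
      refine h1.trans ?_
      rw [div_le_one (by linarith)]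
      linarith
    have hPl2 : Real.exp (-2) ≤ PP (pw z' z).toList :=
      (Real.exp_le_exp.2 (by linarith)).trans hPl1
    have hV2 : V ≤ Real.exp 2 * PP (prm z).toList := by
      rw [hPP]
      have h1 : Real.exp 2 * Real.exp (-2) = 1 := by
        rw [← Real.exp_add]
        norm_num
      have h2 : 1 ≤ Real.exp 2 * PP (pw z' z).toList := by
        rw [← h1]
        exact mul_le_mul_of_nonneg_left hPl2 (Real.exp_pos _).le
      calc V = V * 1 := (mul_one V).symm
        _ ≤ V * (Real.exp 2 * PP (pw z' z).toList) := mul_le_mul_of_nonneg_left h2 hV0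
        _ = _ := by ring
    rw [hsv, hPP, ← hPP]
    rw [← hPP] at hbl
    refine hbl.trans ?_
    have hyd : (0 : ℝ) ≤ (y : ℝ) / d := by positivity
    have hfac : (1 : ℝ) / (R + s).factorial ≤ 1 / 42 ^ (R + s) := by
      apply one_div_le_one_div_of_le (by positivity)
      exact_mod_cast pow_le_factorial (show 115 ≤ R + s by omega)
    have hco : 0 ≤ Real.exp 1 * δ1 + 1 / ((R + s).factorial : ℝ) := by positivity
    have he1 : Real.exp 1 * Real.exp 2 ≤ 21 := by
      rw [← Real.exp_add]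
      have h3 : Real.exp (1 + 2) = Real.exp 1 ^ 3 := by
        rw [← Real.exp_nat_mul]
        norm_num
      rw [h3]
      have h4 := Real.exp_one_lt_d9
      have h5 : Real.exp 1 ^ 3 ≤ (2.7182818286 : ℝ) ^ 3 :=
        pow_le_pow_left₀ (Real.exp_pos _).le h4.le 3
      refine h5.trans ?_
      norm_num
    have he2 : Real.exp 2 ≤ 15 := by
      have h3 : Real.exp 2 = Real.exp 1 ^ 2 := by
        rw [← Real.exp_nat_mul]
        norm_num
      rw [h3]
      have h4 := Real.exp_one_lt_d9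
      have h5 : Real.exp 1 ^ 2 ≤ (2.7182818286 : ℝ) ^ 2 :=
        pow_le_pow_left₀ (Real.exp_pos _).le h4.le 2
      refine h5.trans ?_
      norm_num
    have hP0 : 0 ≤ PP (prm z).toList := (PP_bound _ fun q hq => (mem_prm.1 (mem_toList.1 hq)).1.pos).1
    have h9 : (Real.exp 1 * δ1 + 1 / ((R + s).factorial : ℝ)) * Real.exp 2 ≤
        21 ^ (J + 1) * δ0 + 30 / 42 ^ (R + s) := by
      have a1 : Real.exp 1 * Real.exp 2 * δ1 ≤ 21 * δ1 := mul_le_mul_of_nonneg_right he1 hδ1'
      have a2 : 1 / ((R + s).factorial : ℝ) * Real.exp 2 ≤ 1 / 42 ^ (R + s) * 15 :=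
        mul_le_mul hfac he2 (Real.exp_pos _).le (by positivity)
      have a3 : 21 * δ1 = 21 ^ (J + 1) * δ0 + 15 / 42 ^ (R + s) := by
        rw [hδ1]
        have e3 : (42 : ℝ) ^ (R + (s + 1)) = 42 ^ (R + s) * 42 := by
          rw [← pow_succ]
          rfl
        rw [e3]
        field_simp
        ring
      have a4 : (30 : ℝ) / 42 ^ (R + s) = 15 / 42 ^ (R + s) + 1 / 42 ^ (R + s) * 15 := by ring
      calc (Real.exp 1 * δ1 + 1 / ((R + s).factorial : ℝ)) * Real.exp 2 =
          Real.exp 1 * Real.exp 2 * δ1 + 1 / ((R + s).factorial : ℝ) * Real.exp 2 := by ring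
        _ ≤ _ := by linarith
    calc (Real.exp 1 * δ1 + 1 / ((R + s).factorial : ℝ)) * ((y : ℝ) / d * V)
        ≤ (Real.exp 1 * δ1 + 1 / ((R + s).factorial : ℝ)) *
          ((y : ℝ) / d * (Real.exp 2 * PP (prm z).toList)) :=
          mul_le_mul_of_nonneg_left (mul_le_mul_of_nonneg_left hV2 hyd) hco
      _ = (Real.exp 1 * δ1 + 1 / ((R + s).factorial : ℝ)) * Real.exp 2 *
          ((y : ℝ) / d * PP (prm z).toList) := by ring
      _ ≤ _ := mul_le_mul_of_nonneg_right h9 (by positivity)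

end Pool.MP42e49e
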