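import Pool.Agent.H.MP_42e49e_nt.Core
import Pool.Agent.H.MP_711652_nt.Selberg

/-!
# Upper bound sieve for a progression, one class for each prime
-/

set_option autoImplicit false

open Finset Filter

namespace Pool.MP42e49e

open Pool.Agent.H.MP_3e6494_nt (prm mem_prm)
open Pool.Agent.H.MP_711652_nt (Gsum selberg_bound Gsum_pos)

theorem memDiv {s : BoundingSieve} {l : ℕ} : l ∈ s.prodPrimes.divisors ↔ l ∣ s.prodPrimes :=
  Pool.Agent.H.MP_711652_nt.mem_div

theorem sum_inv_sq_le (n : ℕ) : ∑ k ∈ Icc 1 n, 1 / (k : ℝ) ^ 2 ≤ 2 - 1 / (n : ℝ) := by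
  induction n with
  | zero => norm_num
  | succ n ih =>
    rw [sum_Icc_succ_top (by omega)]
    rcases Nat.eq_zero_or_pos n with h0 | h0
    · subst h0
      norm_num
    · have hn : (0 : ℝ) < n := by exact_mod_cast h0
      have h1 : 1 / (((n + 1 : ℕ) : ℝ)) ^ 2 ≤ 1 / (n : ℝ) - 1 / ((n + 1 : ℕ) : ℝ) := by
        push_cast
        rw [div_sub_div _ _ hn.ne' (by positivity), div_le_div_iff₀ (by positivity) (by positivity)]
        nlinarith
      linarith

theorem log_le_harm (n : ℕ) : Real.log ((n : ℝ) + 1) ≤ ∑ k ∈ Icc 1 n, 1 / (k : ℝ) := by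
  induction n with
  | zero => simp
  | succ n ih =>
    rw [sum_Icc_succ_top (by omega)]
    have h1 : Real.log (((n + 1 : ℕ) : ℝ) + 1) - Real.log ((n : ℝ) + 1) ≤
        1 / ((n + 1 : ℕ) : ℝ) := by
      rw [← Real.log_div (by positivity) (by positivity)]
      have h2 := Real.log_le_sub_one_of_pos (show 0 < (((n + 1 : ℕ) : ℝ) + 1) / ((n : ℝ) + 1) by
        positivity)
      refine h2.trans (le_of_eq ?_)
      push_cast
      field_simp
      ring
    linarith

/-- the sum of `1 / l` over the squarefree `l ≤ n` -/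
theorem sum_sqf (n : ℕ) :
    Real.log ((n : ℝ) + 1) / 2 ≤ ∑ l ∈ (Icc 1 n).filter Squarefree, 1 / (l : ℝ) := by
  classical
  choose f g hfg hf using Nat.sq_mul_squarefree
  have hpos : ∀ m ∈ Icc 1 n, 0 < f m ∧ 0 < g m := by
    intro m hm
    rw [mem_Icc] at hm
    have h1 := hfg m
    constructor
    · rcases Nat.eq_zero_or_pos (f m) with h0 | h0
      · rw [h0, mul_zero] at h1
        omega
      · exact h0
    · rcases Nat.eq_zero_or_pos (g m) with h0 | h0
      · rw [h0, zero_pow (by norm_num), zero_mul] at h1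
        omega
      · exact h0
  have hmem : ∀ m ∈ Icc 1 n, (f m, g m) ∈ ((Icc 1 n).filter Squarefree) ×ˢ Icc 1 n := by
    intro m hm
    obtain ⟨h1, h2⟩ := hpos m hm
    have h3 := hfg m
    rw [mem_Icc] at hm
    rw [mem_product, mem_filter, mem_Icc, mem_Icc]
    have h4 : f m ≤ m := by
      calc f m = 1 * f m := (one_mul _).symm
        _ ≤ g m ^ 2 * f m := Nat.mul_le_mul_right _ (Nat.one_le_pow _ _ h2)
        _ = m := h3
    have h5 : g m ≤ m := by
      calc g m = g m * 1 := (mul_one _).symm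
        _ ≤ g m * g m := Nat.mul_le_mul_left _ h2
        _ = g m ^ 2 * 1 := by ring
        _ ≤ g m ^ 2 * f m := Nat.mul_le_mul_left _ h1
        _ = m := h3
    exact ⟨⟨⟨h1, by omega⟩, hf m⟩, h2, by omega⟩
  have hinj : Set.InjOn (fun m => (f m, g m)) (Icc 1 n : Finset ℕ) := by
    intro m _ m' _ h
    have h1 := congrArg Prod.fst h
    have h2 := congrArg Prod.snd h
    simp only at h1 h2
    rw [← hfg m, ← hfg m', h1, h2]
  have h1 : ∑ m ∈ Icc 1 n, 1 / (m : ℝ) ≤
      (∑ l ∈ (Icc 1 n).filter Squarefree, 1 / (l : ℝ)) * ∑ k ∈ Icc 1 n, 1 / (k : ℝ) ^ 2 := by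
    rw [sum_mul_sum, ← sum_product']
    have h2 : ∑ m ∈ Icc 1 n, 1 / (m : ℝ) = ∑ t ∈ (Icc 1 n).image (fun m => (f m, g m)),
        1 / (t.1 : ℝ) * (1 / (t.2 : ℝ) ^ 2) := by
      rw [sum_image hinj]
      refine sum_congr rfl fun m hm => ?_
      have h3 := hfg m
      have h4 : (m : ℝ) = (g m : ℝ) ^ 2 * f m := by exact_mod_cast h3.symm
      simp only
      rw [one_div_mul_one_div, h4, mul_comm]
    rw [h2]
    refine sum_le_sum_of_subset_of_nonneg ?_ fun t _ _ => by positivity
    intro t ht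
    obtain ⟨m, hm, rfl⟩ := mem_image.1 ht
    exact hmem m hm
  have h2 := log_le_harm n
  have h3 : ∑ k ∈ Icc 1 n, 1 / (k : ℝ) ^ 2 ≤ 2 := by
    have := sum_inv_sq_le n
    have h4 : 0 ≤ 1 / (n : ℝ) := by positivity
    linarith
  have h4 : 0 ≤ ∑ l ∈ (Icc 1 n).filter Squarefree, 1 / (l : ℝ) :=
    sum_nonneg fun l _ => by positivity
  have h5 := mul_le_mul_of_nonneg_left h3 h4
  linarith

/-- `1 / d` as an arithmetic function -/
noncomputable def nuI : ArithmeticFunction ℝ := ⟨fun d => ((d : ℝ))⁻¹, by simp⟩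

theorem nuI_apply (d : ℕ) : nuI d = ((d : ℝ))⁻¹ := rfl

theorem nuI_mult : nuI.IsMultiplicative := by
  refine ⟨by rw [nuI_apply, Nat.cast_one, inv_one], ?_⟩
  intro m n _
  rw [nuI_apply, nuI_apply, nuI_apply, Nat.cast_mul, mul_inv]

theorem sqf_prod {s : Finset ℕ} (hs : ∀ p ∈ s, p.Prime) : Squarefree (∏ p ∈ s, p) := by
  classical
  induction s using Finset.induction_on with
  | empty => simp
  | insert a s ha ih =>
    rw [prod_insert ha]
    have h1 : Nat.Coprime a (∏ p ∈ s, p) :=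
      Nat.Coprime.prod_right fun p hp => (Nat.coprime_primes (hs a (mem_insert_self a s))
        (hs p (mem_insert_of_mem hp))).2 (fun h => ha (h ▸ hp))
    rw [Nat.squarefree_mul h1]
    exact ⟨(hs a (mem_insert_self a s)).prime.squarefree,
      ih fun p hp => hs p (mem_insert_of_mem hp)⟩

/-- the sieve problem -/
noncomputable def sieveP (y p c u B : ℕ) : BoundingSieve where
  support := (cls y p c).image fun n => B + n
  prodPrimes := ∏ q ∈ prm u, q
  prodPrimes_squarefree := sqf_prod fun q hq => (mem_prm.1 hq).1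
  weights := fun _ => 1
  weights_nonneg := fun _ => zero_le_one
  totalMass := (y : ℝ) / p
  nu := nuI
  nu_mult := nuI_mult
  nu_pos_of_prime := fun q hq _ => by
    rw [nuI_apply]
    have : (0 : ℝ) < q := by exact_mod_cast hq.pos
    positivity
  nu_lt_one_of_prime := fun q hq _ => by
    rw [nuI_apply]
    exact inv_lt_one_of_one_lt₀ (by exact_mod_cast hq.one_lt)

theorem sieveP_sifted (y p c u B : ℕ) : (sieveP y p c u B).siftedSum =
    (((cls y p c).filter fun n => Nat.Coprime (∏ q ∈ prm u, q) (B + n)).card : ℝ) := by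
  unfold BoundingSieve.siftedSum sieveP
  simp only
  rw [sum_image (fun a _ b _ h => Nat.add_left_cancel h), card_filter]
  push_cast
  rfl

theorem sieveP_rem {y p c u B : ℕ} (hp : p.Prime) (hup : u < p) {d : ℕ}
    (hd : d ∣ (sieveP y p c u B).prodPrimes) : |(sieveP y p c u B).rem d| ≤ d := by
  have hd' : d ∣ ∏ q ∈ prm u, q := hd
  have hd0 : 0 < d := Nat.pos_of_dvd_of_pos hd' (prod_pos fun q hq => (mem_prm.1 hq).1.pos)
  have hcop : Nat.Coprime p d := by
    refine Nat.Coprime.coprime_dvd_right hd' (Nat.Coprime.prod_right fun q hq => ?_)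
    have := mem_prm.1 hq
    exact (Nat.coprime_primes hp this.1).2 (by omega)
  obtain ⟨e, he⟩ := cls_inter hcop y c B
  have h1 : (sieveP y p c u B).multSum d = ((cls y (p * d) e).card : ℝ) := by
    unfold BoundingSieve.multSum sieveP
    simp only
    rw [sum_image (fun a _ b _ h => Nat.add_left_cancel h), ← he, card_filter]
    push_cast
    rfl
  have h2 := cls_card (Nat.mul_pos hp.pos hd0) y e
  have h3 : (sieveP y p c u B).rem d = ((cls y (p * d) e).card : ℝ) - y / ((p * d : ℕ) : ℝ) := by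
    rw [BoundingSieve.rem, h1]
    change _ - nuI d * ((y : ℝ) / p) = _
    rw [nuI_apply, Nat.cast_mul]
    congr 1
    have hp0 : (0 : ℝ) < p := by exact_mod_cast hp.pos
    have hd1 : (0 : ℝ) < d := by exact_mod_cast hd0
    field_simp
  rw [h3]
  refine h2.trans ?_
  exact_mod_cast hd0

theorem sieveP_G {y p c u B : ℕ} :
    Real.log ((u : ℝ) + 1) / 2 ≤ Gsum (sieveP y p c u B) u := by
  classical
  refine (sum_sqf u).trans ?_
  unfold Gsum
  have hsub : (Icc 1 u).filter Squarefree ⊆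
      ((sieveP y p c u B).prodPrimes.divisors.filter fun l => l ≤ u) := by
    intro l hl
    rw [mem_filter, mem_Icc] at hl
    rw [mem_filter, memDiv]
    refine ⟨?_, hl.1.2⟩
    change l ∣ ∏ q ∈ prm u, q
    rw [← Nat.prod_primeFactors_of_squarefree hl.2]
    refine prod_dvd_prod_of_subset _ _ _ ?_
    intro q hq
    rw [mem_prm]
    exact ⟨Nat.prime_of_mem_primeFactors hq,
      (Nat.le_of_dvd (by omega) (Nat.dvd_of_mem_primeFactors hq)).trans hl.1.2⟩
  refine le_trans ?_ (sum_le_sum_of_subset_of_nonneg hsub fun l hl _ => ?_)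
  · refine sum_le_sum fun l hl => ?_
    have hl' := hsub hl
    rw [mem_filter, memDiv] at hl'
    rw [BoundingSieve.selbergTerms_apply]
    have h1 : (sieveP y p c u B).nu l = 1 / (l : ℝ) := by
      change nuI l = _
      rw [nuI_apply, one_div]
    rw [h1]
    refine le_mul_of_one_le_right (by positivity) ?_
    refine Finset.prod_induction _ (fun t : ℝ => 1 ≤ t)
      (fun a b ha hb => one_le_mul_of_one_le_of_one_le ha hb) le_rfl ?_
    intro q hq
    have hqp := Nat.prime_of_mem_primeFactors hq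
    change 1 ≤ (1 - nuI q)⁻¹
    rw [nuI_apply]
    have h2 : (1 : ℝ) < q := by exact_mod_cast hqp.one_lt
    have h3 : ((q : ℝ))⁻¹ < 1 := inv_lt_one_of_one_lt₀ h2
    have h4 : 0 < ((q : ℝ))⁻¹ := by positivity
    exact (one_le_inv₀ (by linarith)).2 (by linarith)
  · rw [mem_filter, memDiv] at hl
    exact (BoundingSieve.selbergTerms_pos hl.1).le

theorem exists_B (u : ℕ) (b : ℕ → ℕ) : ∃ B : ℕ, ∀ q ∈ prm u, ∀ n : ℕ, q ∣ b q + n ↔ q ∣ B + n := by
  classical
  have hs : ∀ i ∈ prm u, (fun p : ℕ => p) i ≠ 0 := fun i hi => (mem_prm.1 hi).1.pos.ne'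
  have pp : Set.Pairwise (prm u : Set ℕ) (Function.onFun Nat.Coprime (fun p : ℕ => p)) := by
    intro p hp q hq hpq
    exact (Nat.coprime_primes (mem_prm.1 hp).1 (mem_prm.1 hq).1).2 hpq
  obtain ⟨B, hB⟩ := Nat.chineseRemainderOfFinset b (fun p => p) (prm u) hs pp
  refine ⟨B, fun q hq n => ?_⟩
  have h1 : B + n ≡ b q + n [MOD q] := Nat.ModEq.add_right n (hB q hq)
  rw [← Nat.modEq_zero_iff_dvd, ← Nat.modEq_zero_iff_dvd]
  exact ⟨fun h2 => h1.trans h2, fun h2 => h1.symm.trans h2⟩

/-- **Upper bound sieve** for a progression with one class for each prime `≤ exp t`. -/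
theorem sel_small {y p : ℕ} {t : ℝ} (hp : p.Prime) (hy : 0 < y) (ht : 1 ≤ t)
    (h14 : 14 * t ≤ Real.log ((y : ℝ) / p)) (hup : ⌊Real.exp t⌋₊ < p) (b : ℕ → ℕ) (c : ℕ) :
    ((sv b (prm ⌊Real.exp t⌋₊).toList (cls y p c)).card : ℝ) ≤ 3 * ((y : ℝ) / p / t) := by
  obtain ⟨u, hu⟩ : ∃ u : ℕ, u = ⌊Real.exp t⌋₊ := ⟨_, rfl⟩
  rw [← hu] at hup ⊢
  have hu0 : 1 ≤ u := by
    rw [hu]
    exact Nat.le_floor (by
      rw [Nat.cast_one]
      exact Real.one_le_exp (by linarith))
  obtain ⟨B, hB⟩ := exists_B u b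
  have h1 : sv b (prm u).toList (cls y p c) =
      (cls y p c).filter fun n => Nat.Coprime (∏ q ∈ prm u, q) (B + n) := by
    unfold sv
    refine filter_congr fun n _ => ?_
    constructor
    · intro h2
      refine Nat.Coprime.prod_left fun q hq => ?_
      rw [Nat.Prime.coprime_iff_not_dvd (mem_prm.1 hq).1, ← hB q hq n]
      exact h2 q (mem_toList.2 hq)
    · intro h2 q hq
      rw [mem_toList] at hq
      rw [hB q hq n, ← Nat.Prime.coprime_iff_not_dvd (mem_prm.1 hq).1]
      exact Nat.Coprime.coprime_dvd_left (dvd_prod_of_mem _ hq) h2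
  have h2 := selberg_bound (s := sieveP y p c u B) (z := u) hu0
    (fun d hd => by
      change (nuI d)⁻¹ ≤ d
      rw [nuI_apply, inv_inv])
    (fun d hd => sieveP_rem hp hup hd)
  rw [sieveP_sifted, ← h1] at h2
  have hp0 : (0 : ℝ) < p := by exact_mod_cast hp.pos
  have hy0 : (0 : ℝ) < y := by exact_mod_cast hy
  obtain ⟨X, hX⟩ : ∃ X : ℝ, X = (y : ℝ) / p := ⟨_, rfl⟩
  have hX0 : 0 < X := by rw [hX]; positivity
  have hXe : Real.exp (14 * t) ≤ X := by
    rw [← hX] at h14
    rwa [Real.le_log_iff_exp_le hX0] at h14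
  have hmass : (sieveP y p c u B).totalMass = X := by rw [hX]; rfl
  rw [hmass] at h2
  rw [← hX]
  have hlog : t ≤ Real.log ((u : ℝ) + 1) := by
    rw [Real.le_log_iff_exp_le (by positivity), hu]
    exact (Nat.lt_floor_add_one _).le
  have hG : t / 2 ≤ Gsum (sieveP y p c u B) u :=
    le_trans (by linarith) (sieveP_G (y := y) (p := p) (c := c) (B := B))
  have h3 : X * (Gsum (sieveP y p c u B) u)⁻¹ ≤ X * (2 / t) := by
    apply mul_le_mul_of_nonneg_left _ hX0.le
    rw [inv_le_comm₀ (by linarith) (by positivity), inv_div]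
    exact hG
  have h4 : (u : ℝ) ^ 6 ≤ X / t := by
    have h5 : (u : ℝ) ≤ Real.exp t := by
      rw [hu]
      exact Nat.floor_le (Real.exp_pos _).le
    have h6 : (u : ℝ) ^ 6 ≤ Real.exp (6 * t) := by
      have e : Real.exp (6 * t) = Real.exp t ^ 6 := by
        rw [← Real.exp_nat_mul]
        norm_num
      rw [e]
      exact pow_le_pow_left₀ (Nat.cast_nonneg _) h5 6
    rw [le_div_iff₀ (by linarith)]
    have h7 : t ≤ Real.exp (8 * t) := by
      have := Real.add_one_le_exp (8 * t)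
      linarith
    calc (u : ℝ) ^ 6 * t ≤ Real.exp (6 * t) * Real.exp (8 * t) :=
          mul_le_mul h6 h7 (by linarith) (Real.exp_pos _).le
      _ = Real.exp (14 * t) := by
          rw [← Real.exp_add]
          congr 1
          ring
      _ ≤ X := hXe
  calc _ ≤ X * (Gsum (sieveP y p c u B) u)⁻¹ + (u : ℝ) ^ 6 := h2
    _ ≤ X * (2 / t) + X / t := add_le_add h3 h4
    _ = 3 * (X / t) := by ring

end Pool.MP42e49e
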