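import Pool.Agent.H.MP_42e49e_nt.Fund3
import Pool.Agent.H.MP_42e49e_nt.SelSmall
import Pool.Agent.H.MP_42e49e_nt.Small
import Pool.Agent.H.MP_42e49e_nt.Core3

/-!
# The sums over the largest primes, with cut-off
-/

set_option autoImplicit false

open Finset

namespace Pool.MP42e49e.M

open Pool.Agent.H.MP_3e6494_nt (prm mem_prm)

theorem fib {x y P0 : ℕ} {L : ℝ} (hL : 1 ≤ L) (hP : L / 2 + 2 ≤ Real.log P0)
    (hP5 : 8 ≤ P0) (hxy : x ≤ y) (hx0 : 0 < x) (j : ℕ) :
    ∑ p ∈ (pw P0 x).filter (fun p : ℕ => ⌊Real.log ((y : ℝ) / p)⌋₊ = j), 1 / (p : ℝ) ≤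
      28 / L := by
  have hxR : (0 : ℝ) < x := by exact_mod_cast hx0
  have hyR : (0 : ℝ) < y := by exact_mod_cast (show 0 < y by omega)
  have hxyR : (x : ℝ) ≤ y := by exact_mod_cast hxy
  have hPR : (8 : ℝ) ≤ P0 := by exact_mod_cast hP5
  have key : ∀ p ∈ pw P0 x, 0 ≤ Real.log ((y : ℝ) / p) := by
    intro p hp
    rw [mem_pw] at hp
    have hp0 : (0 : ℝ) < p := by exact_mod_cast hp.1.pos
    have hpx : (p : ℝ) ≤ x := by exact_mod_cast hp.2.2
    apply Real.log_nonneg
    rw [le_div_iff₀ hp0]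
    linarith
  rcases ((pw P0 x).filter fun p : ℕ => ⌊Real.log ((y : ℝ) / p)⌋₊ = j).eq_empty_or_nonempty with
    he | ⟨p0, hp0⟩
  · rw [he, sum_empty]
    positivity
  · have hmem : ∀ p ∈ (pw P0 x).filter fun p : ℕ => ⌊Real.log ((y : ℝ) / p)⌋₊ = j,
        (p : ℝ) ≤ y * Real.exp (-j) ∧ y * Real.exp (-j) * Real.exp (-1) < p := by
      intro p hp
      rw [mem_filter] at hp
      have h1 := key p hp.1
      have hp0 : (0 : ℝ) < p := by exact_mod_cast (mem_pw.1 hp.1).1.pos
      have h3 : (j : ℝ) ≤ Real.log ((y : ℝ) / p) := by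
        rw [← hp.2]
        exact Nat.floor_le (by linarith)
      have h4 : Real.log ((y : ℝ) / p) < j + 1 := by
        rw [← hp.2]
        exact Nat.lt_floor_add_one _
      rw [Real.le_log_iff_exp_le (by positivity), le_div_iff₀ hp0] at h3
      rw [Real.log_lt_iff_lt_exp (by positivity), div_lt_iff₀ hp0] at h4
      constructor
      · rw [Real.exp_neg, ← div_eq_mul_inv, le_div_iff₀ (Real.exp_pos _)]
        linarith
      · rw [mul_assoc, ← Real.exp_add, show -(j : ℝ) + -1 = -(j + 1) by ring, Real.exp_neg,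
          ← div_eq_mul_inv, div_lt_iff₀ (Real.exp_pos _)]
        linarith
    obtain ⟨X, hX⟩ : ∃ X : ℝ, X = y * Real.exp (-j) := ⟨_, rfl⟩
    rw [← hX] at hmem
    have hX0 : 0 < X := by rw [hX]; positivity
    have hPX : (P0 : ℝ) < X := by
      have h1 := (hmem p0 hp0).1
      have h2 := (mem_pw.1 (mem_filter.1 hp0).1).2.1
      have h3 : (P0 : ℝ) < p0 := by exact_mod_cast h2
      linarith
    have he1 : Real.exp (-1) < 1 / 2 := by
      have := Real.exp_neg_one_lt_d9
      linarith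
    have he2 : (0.36 : ℝ) < Real.exp (-1) := by
      have := Real.exp_neg_one_gt_d9
      linarith
    obtain ⟨a, ha⟩ : ∃ a : ℕ, a = ⌊X * Real.exp (-1)⌋₊ := ⟨_, rfl⟩
    obtain ⟨d, hd⟩ : ∃ d : ℕ, d = ⌊X⌋₊ := ⟨_, rfl⟩
    have ha1 : X * Real.exp (-1) < a + 1 := by
      rw [ha]
      exact Nat.lt_floor_add_one _
    have hdX : (d : ℝ) ≤ X := by
      rw [hd]
      exact Nat.floor_le hX0.le
    have haX : X * Real.exp (-2) ≤ a := by
      have e3 : Real.exp (-2) = Real.exp (-1) * Real.exp (-1) := by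
        rw [← Real.exp_add]
        norm_num
      rw [e3]
      nlinarith
    have haX' : X * Real.exp (-1) - 1 ≤ a := by linarith
    have ha2 : (1 : ℝ) < a := by nlinarith
    have ha2' : 2 ≤ a := by
      have : 1 < a := by exact_mod_cast ha2
      omega
    have had : a ≤ d := by
      rw [ha, hd]
      apply Nat.floor_mono
      nlinarith
    have hloga : Real.log X - 2 ≤ Real.log a := by
      have h1 := Real.log_le_log (by positivity) haX
      rw [Real.log_mul hX0.ne' (Real.exp_pos _).ne', Real.log_exp] at h1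
      linarith
    have hlogX : Real.log P0 ≤ Real.log X := Real.log_le_log (by linarith) hPX.le
    have hlogaL : L / 2 ≤ Real.log a := by linarith
    have hlogd : Real.log d ≤ Real.log X := by
      apply Real.log_le_log _ hdX
      have : (a : ℝ) ≤ d := by exact_mod_cast had
      linarith
    have hloga0 : 0 < Real.log a := by linarith
    have hlogd0 : 0 < Real.log d := by
      have : Real.log a ≤ Real.log d := Real.log_le_log (by linarith) (by exact_mod_cast had)
      linarith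
    have hw := (window ha2' had).1
    have hll : Real.log (Real.log d) - Real.log (Real.log a) ≤ 2 / Real.log a := by
      rw [← Real.log_div hlogd0.ne' hloga0.ne']
      have h5 := Real.log_le_sub_one_of_pos (show 0 < Real.log d / Real.log a by positivity)
      refine h5.trans ?_
      rw [div_sub_one hloga0.ne']
      exact div_le_div_of_nonneg_right (by linarith) hloga0.le
    have hFF : FF d - FF a ≤ 28 / L := by
      have h1 : 2 / Real.log a + 12 / Real.log a ≤ 28 / L := by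
        rw [← add_div, div_le_div_iff₀ hloga0 (by linarith)]
        linarith
      linarith
    have hsub : ((pw P0 x).filter fun p : ℕ => ⌊Real.log ((y : ℝ) / p)⌋₊ = j) ⊆ pw a d := by
      intro p hp
      obtain ⟨h1, h2⟩ := hmem p hp
      have hp' := mem_pw.1 (mem_filter.1 hp).1
      rw [mem_pw]
      refine ⟨hp'.1, ?_, ?_⟩
      · rw [ha]
        exact (Nat.floor_lt (by positivity)).2 h2
      · rw [hd]
        exact Nat.le_floor h1
    refine le_trans (sum_le_sum_of_subset_of_nonneg hsub fun p _ _ => by positivity) ?_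
    rwa [sum_pw had]

/-- harmonic sums -/
theorem harm {a : ℕ} (ha : 1 ≤ a) (n : ℕ) (han : a ≤ n) :
    ∑ j ∈ Icc a n, 1 / (j : ℝ) ≤ 1 + Real.log n - Real.log a := by
  induction n, han using Nat.le_induction with
  | base =>
    rw [Icc_self, sum_singleton]
    have h1 : (1 : ℝ) ≤ a := by exact_mod_cast ha
    have : 1 / (a : ℝ) ≤ 1 := by
      rw [div_le_one (by linarith)]
      exact h1
    linarith
  | succ n han ih =>
    rw [sum_Icc_succ_top (by omega)]
    have hn : (0 : ℝ) < n := by exact_mod_cast (show 0 < n by omega)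
    have h1 : 1 / ((n + 1 : ℕ) : ℝ) ≤ Real.log ((n + 1 : ℕ) : ℝ) - Real.log n := by
      rw [← Real.log_div (by positivity) hn.ne']
      have h2 := Real.one_sub_inv_le_log_of_pos (show 0 < ((n + 1 : ℕ) : ℝ) / n by positivity)
      refine le_trans (le_of_eq ?_) h2
      push_cast
      field_simp
      ring
    linarith

/-- the sum of `1 / max 1 j` over `j0 ≤ j ≤ 14 q` -/
theorem harm_sum {q L H : ℝ} (hq : 1 ≤ q) (hqL : q ≤ L) (hH : 0 ≤ H) (hHL : max 1 H ≤ L) :
    ∑ j ∈ (Icc ⌊H⌋₊ ⌊14 * q⌋₊), 1 / (max 1 (j : ℝ)) ≤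
      6 + Real.log (L / max 1 H) := by
  have hE : 1 ≤ max 1 H := le_max_left _ _
  have hE0 : 0 < max 1 H := by linarith
  have hB : 0 ≤ Real.log (L / max 1 H) := by
    apply Real.log_nonneg
    rw [le_div_iff₀ hE0]
    linarith
  have h28 : Real.log 28 ≤ 4 := by
    rw [Real.log_le_iff_le_exp (by norm_num)]
    have h2 : (2.7 : ℝ) ≤ Real.exp 1 := by
      have := Real.exp_one_gt_d9
      linarith
    have h4 : Real.exp 4 = Real.exp 1 ^ 4 := by
      rw [← Real.exp_nat_mul]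
      norm_num
    rw [h4]
    calc (28 : ℝ) ≤ 2.7 ^ 4 := by norm_num
      _ ≤ _ := pow_le_pow_left₀ (by norm_num) h2 4
  rcases lt_or_ge H 1 with h1 | h1
  · have e0 : ⌊H⌋₊ = 0 := Nat.floor_eq_zero.2 h1
    have e1 : max 1 H = 1 := max_eq_left h1.le
    rw [e0, e1, div_one]
    have e2 : Icc 0 ⌊14 * q⌋₊ = insert 0 (Icc 1 ⌊14 * q⌋₊) := by
      ext j
      rw [mem_Icc, mem_insert, mem_Icc]
      omega
    rw [e2, sum_insert (by simp)]
    have e3 : ∑ j ∈ Icc 1 ⌊14 * q⌋₊, 1 / max 1 (j : ℝ) = ∑ j ∈ Icc 1 ⌊14 * q⌋₊, 1 / (j : ℝ) := by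
      refine sum_congr rfl fun j hj => ?_
      rw [max_eq_right]
      exact_mod_cast (mem_Icc.1 hj).1
    rw [e3]
    have h14 : 1 ≤ ⌊14 * q⌋₊ := Nat.le_floor (by push_cast; linarith)
    have h2 := harm le_rfl _ h14
    have h3 : Real.log (⌊14 * q⌋₊ : ℝ) ≤ Real.log 28 + Real.log L := by
      rw [← Real.log_mul (by norm_num) (by linarith)]
      apply Real.log_le_log (by exact_mod_cast h14)
      refine (Nat.floor_le (by linarith)).trans ?_
      linarith
    rw [Nat.cast_one, Real.log_one] at h2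
    have e4 : 1 / max 1 (((0 : ℕ) : ℝ)) = 1 := by simp
    rw [e4]
    linarith
  · have e1 : max 1 H = H := max_eq_right h1
    have hH1 : 1 ≤ ⌊H⌋₊ := Nat.le_floor (by exact_mod_cast h1)
    have e3 : ∑ j ∈ Icc ⌊H⌋₊ ⌊14 * q⌋₊, 1 / max 1 (j : ℝ) =
        ∑ j ∈ Icc ⌊H⌋₊ ⌊14 * q⌋₊, 1 / (j : ℝ) := by
      refine sum_congr rfl fun j hj => ?_
      rw [max_eq_right]
      exact_mod_cast hH1.trans (mem_Icc.1 hj).1
    rw [e3]
    rcases lt_or_ge ⌊14 * q⌋₊ ⌊H⌋₊ with h2 | h2
    · rw [Icc_eq_empty (by omega), sum_empty]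
      linarith
    · have h3 := harm hH1 _ h2
      have h4 : Real.log (⌊14 * q⌋₊ : ℝ) ≤ Real.log 14 + Real.log L := by
        rw [← Real.log_mul (by norm_num) (by linarith)]
        apply Real.log_le_log (by exact_mod_cast hH1.trans h2)
        refine (Nat.floor_le (by linarith)).trans ?_
        linarith
      have h5 : Real.log H - Real.log 2 ≤ Real.log (⌊H⌋₊ : ℝ) := by
        rw [← Real.log_div (by linarith) (by norm_num)]
        apply Real.log_le_log (by linarith)
        have h6 := Nat.lt_floor_add_one H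
        have h7 : (1 : ℝ) ≤ ⌊H⌋₊ := by exact_mod_cast hH1
        linarith
      have h6 : Real.log 14 + Real.log 2 = Real.log 28 := by
        rw [← Real.log_mul (by norm_num) (by norm_num)]
        norm_num
      rw [e1, Real.log_div (by linarith) (by linarith)]
      linarith

theorem g_sum {q L H S : ℝ} (hq : 1 ≤ q) (hqL : q ≤ L) (hH : 0 ≤ H) (hHL : max 1 H ≤ L)
    (hS : 0 ≤ S) :
    ∑ j ∈ (Icc ⌊H⌋₊ ⌊S⌋₊), 1 / (max 1 (min (j : ℝ) (14 * q))) ≤
      6 + Real.log (L / max 1 H) + (S + 1) / (14 * q) := by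
  have h1 : ∀ j ∈ Icc ⌊H⌋₊ ⌊S⌋₊, 1 / (max 1 (min (j : ℝ) (14 * q))) ≤
      (if j ≤ ⌊14 * q⌋₊ then 1 / (max 1 (j : ℝ)) else 0) + 1 / (14 * q) := by
    intro j _
    have hp : 0 < 1 / (14 * q) := by positivity
    split_ifs with h
    · have h2 : (j : ℝ) ≤ 14 * q := (Nat.le_floor_iff (by linarith)).1 h
      rw [min_eq_left h2]
      linarith
    · have h2 : 14 * q < (j : ℝ) := (Nat.floor_lt (by linarith)).1 (by omega)
      rw [min_eq_right h2.le, max_eq_right (by linarith), zero_add]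
  refine (sum_le_sum h1).trans ?_
  rw [sum_add_distrib, sum_const, nsmul_eq_mul, ← sum_filter]
  have h3 : ∑ a ∈ (Icc ⌊H⌋₊ ⌊S⌋₊).filter (fun j => j ≤ ⌊14 * q⌋₊), 1 / max 1 (a : ℝ) ≤
      ∑ j ∈ (Icc ⌊H⌋₊ ⌊14 * q⌋₊), 1 / (max 1 (j : ℝ)) := by
    apply sum_le_sum_of_subset_of_nonneg
    · intro j hj
      rw [mem_filter, mem_Icc] at hj
      rw [mem_Icc]
      exact ⟨hj.1.1, hj.2⟩
    · intro j _ _
      positivity
  have h4 := harm_sum hq hqL hH hHL
  have h5 : (((Icc ⌊H⌋₊ ⌊S⌋₊).card : ℕ) : ℝ) ≤ S + 1 := by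
    rw [Nat.card_Icc]
    have h6 : ((⌊S⌋₊ + 1 - ⌊H⌋₊ : ℕ) : ℝ) ≤ ((⌊S⌋₊ + 1 : ℕ) : ℝ) := by
      exact_mod_cast Nat.sub_le _ _
    have h7 := Nat.floor_le hS
    push_cast at h6
    linarith
  have h8 : (((Icc ⌊H⌋₊ ⌊S⌋₊).card : ℕ) : ℝ) * (1 / (14 * q)) ≤ (S + 1) / (14 * q) := by
    rw [mul_one_div]
    exact div_le_div_of_nonneg_right h5 (by linarith)
  linarith

/-- hits by one of the largest primes -/
theorem top_count {x y W P0 p : ℕ} {q : ℝ} (hq : 1 ≤ q) (hW1 : 2 ≤ W) (hW2 : Real.exp q ≤ 2 * W)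
    (hWP : W ^ 2 ≤ P0) (hp : p ∈ pw P0 x) (hxy : x ≤ y) (b : ℕ → ℕ) (c : ℕ) :
    ((sv b (lS W) (cls y p c)).card : ℝ) ≤
      42 * (1 / (p : ℝ)) * y * (1 / (max 1 (min (⌊Real.log ((y : ℝ) / p)⌋₊ : ℝ) (14 * q)))) := by
  rw [mem_pw] at hp
  obtain ⟨hpp, hPp, hpx⟩ := hp
  have hp0 : (0 : ℝ) < p := by exact_mod_cast hpp.pos
  have hy0 : 0 < y := by
    have := hpp.pos
    omega
  have hyR : (0 : ℝ) < y := by exact_mod_cast hy0
  have hpy : (p : ℝ) ≤ y := by exact_mod_cast hpx.trans hxy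
  obtain ⟨s, hs⟩ : ∃ s : ℝ, s = Real.log ((y : ℝ) / p) := ⟨_, rfl⟩
  rw [← hs]
  have hyp : 1 ≤ (y : ℝ) / p := by
    rw [le_div_iff₀ hp0]
    linarith
  have hs0 : 0 ≤ s := by
    rw [hs]
    exact Real.log_nonneg hyp
  have hfl : (⌊s⌋₊ : ℝ) ≤ s := Nat.floor_le hs0
  have hmono : 1 / (max 1 (min s (14 * q))) ≤ 1 / (max 1 (min (⌊s⌋₊ : ℝ) (14 * q))) := by
    apply one_div_le_one_div_of_le (by positivity)
    exact max_le_max le_rfl (min_le_min hfl le_rfl)
  have hgoal : ((sv b (lS W) (cls y p c)).card : ℝ) ≤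
      42 * (1 / (p : ℝ)) * y * (1 / (max 1 (min s (14 * q)))) → ((sv b (lS W) (cls y p c)).card : ℝ) ≤
      42 * (1 / (p : ℝ)) * y * (1 / (max 1 (min (⌊s⌋₊ : ℝ) (14 * q)))) := by
    intro h
    exact h.trans (mul_le_mul_of_nonneg_left hmono (by positivity))
  apply hgoal
  rcases lt_or_ge s 14 with h14 | h14
  · have h1 : ((sv b (lS W) (cls y p c)).card : ℝ) ≤ ((cls y p c).card : ℝ) := by
      unfold sv
      exact_mod_cast card_filter_le _ _
    have h2 := (abs_le.1 (cls_card hpp.pos y c)).2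
    have h3 : (max 1 (min s (14 * q))) ≤ 14 :=
      max_le (by norm_num) ((min_le_left _ _).trans h14.le)
    have h4 : 1 / 14 ≤ 1 / (max 1 (min s (14 * q))) :=
      one_div_le_one_div_of_le (by positivity) h3
    have h5 : 42 * (1 / (p : ℝ)) * y * (1 / 14) ≤
        42 * (1 / (p : ℝ)) * y * (1 / (max 1 (min s (14 * q)))) :=
      mul_le_mul_of_nonneg_left h4 (by positivity)
    have h6 : 42 * (1 / (p : ℝ)) * y * (1 / 14) = 3 * ((y : ℝ) / p) := by ring
    linarith
  · obtain ⟨t, ht⟩ : ∃ t : ℝ, t = min (s / 14) q := ⟨_, rfl⟩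
    have ht1 : 1 ≤ t := by
      rw [ht]
      exact le_min (by linarith) hq
    have hts : 14 * t ≤ s := by
      have := min_le_left (s / 14) q
      rw [← ht] at this
      linarith
    have htq : t ≤ q := by
      rw [ht]
      exact min_le_right _ _
    have hW0 : (0 : ℝ) < W := by exact_mod_cast (show 0 < W by omega)
    have hWW : ((⌊Real.exp t⌋₊ : ℕ) : ℝ) ≤ ((W ^ 2 : ℕ) : ℝ) := by
      refine (Nat.floor_le (Real.exp_pos _).le).trans ?_
      refine (Real.exp_le_exp.2 htq).trans (hW2.trans ?_)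
      push_cast
      have : (2 : ℝ) ≤ W := by exact_mod_cast hW1
      nlinarith
    have hWW' : ⌊Real.exp t⌋₊ ≤ W ^ 2 := by exact_mod_cast hWW
    have h1 := sel_small (t := t) hpp hy0 ht1 (by rw [← hs]; exact hts) (by omega) b c
    have h2 : ((sv b (lS W) (cls y p c)).card : ℝ) ≤
        ((sv b (prm ⌊Real.exp t⌋₊).toList (cls y p c)).card : ℝ) := by
      have : sv b (lS W) (cls y p c) ⊆ sv b (prm ⌊Real.exp t⌋₊).toList (cls y p c) := by
        intro n hn
        rw [mem_sv] at hn ⊢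
        refine ⟨hn.1, fun r hr => hn.2 r ?_⟩
        rw [mem_toList, mem_prm] at hr
        rw [mem_lS]
        exact ⟨hr.1, hr.2.trans hWW'⟩
      exact_mod_cast card_le_card this
    have h3 : max 1 (min s (14 * q)) = 14 * t := by
      have e : 14 * t = min s (14 * q) := by
        rw [ht, mul_min_of_nonneg _ _ (by norm_num : (0 : ℝ) ≤ 14)]
        congr 1
        ring
      rw [← e]
      exact max_eq_right (by linarith)
    rw [h3]
    have h4 : 42 * (1 / (p : ℝ)) * y * (1 / (14 * t)) = 3 * ((y : ℝ) / p / t) := by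
      field_simp
      ring
    rw [h4]
    exact h2.trans h1

end Pool.MP42e49e.M
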