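import Pool.Agent.H.MP_42e49e_nt.Mul1

/-!
# Few residue classes: the main estimate
-/

set_option autoImplicit false

open Finset

namespace Pool.MP42e49e.M

open Pool.Agent.H.MP_3e6494_nt (prm mem_prm)

/-- number of the classes of the primes `≤ x` which contain `n` -/
def hits (b : ℕ → ℕ) (x n : ℕ) : ℕ := ((prm x).filter fun p => p ∣ b p + n).card

theorem filter_sv (b : ℕ → ℕ) (l : List ℕ) (y p : ℕ) :
    (sv b l (cls y 1 0)).filter (fun n => p ∣ b p + n) = sv b l (cls y p (b p)) := by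
  ext n
  rw [mem_filter, mem_sv, mem_sv, mem_cls, mem_cls]
  have : 1 ∣ 0 + n := one_dvd _
  tauto

theorem sum_hits (b : ℕ → ℕ) (W x y : ℕ) :
    ∑ n ∈ sv b (lS W) (cls y 1 0), ((pw (W ^ 2) x).filter fun p => p ∣ b p + n).card =
      ∑ p ∈ pw (W ^ 2) x, (sv b (lS W) (cls y p (b p))).card := by
  simp_rw [← filter_sv, card_filter]
  exact sum_comm

theorem hits_eq {b : ℕ → ℕ} {W x y n : ℕ} (hn : n ∈ sv b (lS W) (cls y 1 0)) :
    hits b x n = ((pw (W ^ 2) x).filter fun p => p ∣ b p + n).card := by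
  unfold hits
  congr 1
  ext p
  rw [mem_sv] at hn
  rw [mem_filter, mem_filter, mem_pw, mem_prm]
  constructor
  · rintro ⟨⟨h1, h2⟩, h3⟩
    refine ⟨⟨h1, ?_, h2⟩, h3⟩
    by_contra h4
    exact hn.2 p (mem_lS.2 ⟨h1, by omega⟩) h3
  · rintro ⟨⟨h1, h2, h3⟩, h4⟩
    exact ⟨⟨h1, h3⟩, h4⟩

/-- the parameters -/
structure Pr (x y r W P0 : ℕ) (L H q : ℝ) : Prop where
  hx : 0 < x
  hxy : x ≤ y
  hL : L = Real.log x
  hH : H = Real.log ((y : ℝ) / x)
  hq : q * Real.exp (40 + r) = L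
  hq1 : 300 * (1000 + 2 * (65 + r)) ≤ q
  hB : Real.log (L / max 1 H) ≤ Real.exp r
  hW : W = ⌊Real.exp q⌋₊
  hP0 : P0 = ⌊(y : ℝ) * Real.exp (-((4 * ((115 + r : ℕ) : ℝ) + 28) * q))⌋₊

variable {x y r W P0 : ℕ} {L H q : ℝ}

theorem exp40 (r : ℕ) : 10 ^ 5 * (1 + (r : ℝ)) ≤ Real.exp (40 + r) := by
  have h1 : (1 : ℝ) + r ≤ Real.exp r := by
    have := Real.add_one_le_exp (r : ℝ)
    linarith
  have h2 : (10 : ℝ) ^ 5 ≤ Real.exp 40 := by
    have h3 : Real.exp 40 = Real.exp 1 ^ 40 := by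
      rw [← Real.exp_nat_mul]
      norm_num
    have h4 : (2 : ℝ) ≤ Real.exp 1 := by
      have := Real.add_one_le_exp (1 : ℝ)
      linarith
    rw [h3]
    calc (10 : ℝ) ^ 5 ≤ 2 ^ 40 := by norm_num
      _ ≤ _ := pow_le_pow_left₀ (by norm_num) h4 40
  rw [Real.exp_add]
  exact mul_le_mul h2 h1 (by positivity) (by positivity)

theorem Pr.q_big (h : Pr x y r W P0 L H q) : 339000 ≤ q := by
  have h1 := h.hq1
  have h2 : (0 : ℝ) ≤ r := Nat.cast_nonneg r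
  linarith

theorem Pr.q_L (h : Pr x y r W P0 L H q) : 10 ^ 5 * (1 + (r : ℝ)) * q ≤ L := by
  have h1 := exp40 r
  have h2 := h.q_big
  have h3 := mul_le_mul_of_nonneg_right h1 (show 0 ≤ q by linarith)
  rw [← h.hq]
  linarith

theorem Pr.L_big (h : Pr x y r W P0 L H q) : 10 ^ 5 * q ≤ L := by
  have h1 := h.q_L
  have h2 := h.q_big
  have h3 : (0 : ℝ) ≤ r := Nat.cast_nonneg r
  nlinarith

theorem Pr.xR (h : Pr x y r W P0 L H q) : (x : ℝ) = Real.exp L := by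
  rw [h.hL, Real.exp_log (by exact_mod_cast h.hx)]

theorem Pr.yR (h : Pr x y r W P0 L H q) : Real.exp L ≤ y := by
  rw [← h.xR]
  exact_mod_cast h.hxy

theorem Pr.W_facts (h : Pr x y r W P0 L H q) : (W : ℝ) ≤ Real.exp q ∧ Real.exp q ≤ 2 * W ∧
    2 ≤ W ∧ q ≤ Real.log ((W ^ 2 : ℕ) : ℝ) ∧ Real.log ((W ^ 2 : ℕ) : ℝ) ≤ 2 * q := by
  have hq := h.q_big
  have h1 : (W : ℝ) ≤ Real.exp q := by
    rw [h.hW]
    exact Nat.floor_le (Real.exp_pos _).le
  have h2 : Real.exp q < W + 1 := by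
    rw [h.hW]
    exact Nat.lt_floor_add_one _
  have h3 : q + 1 ≤ Real.exp q := Real.add_one_le_exp q
  have h4 : (2 : ℝ) ≤ W := by linarith
  have h5 : 2 ≤ W := by exact_mod_cast h4
  have h6 : q - 1 ≤ Real.log W := by
    rw [Real.le_log_iff_exp_le (by linarith), Real.exp_sub, div_le_iff₀ (Real.exp_pos _)]
    have h7 : (2 : ℝ) ≤ Real.exp 1 := by
      have := Real.add_one_le_exp (1 : ℝ)
      linarith
    have h8 : (W : ℝ) * 2 ≤ W * Real.exp 1 := mul_le_mul_of_nonneg_left h7 (by linarith)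
    linarith
  have h9 : Real.log W ≤ q := by
    rw [Real.log_le_iff_le_exp (by linarith)]
    exact h1
  refine ⟨h1, by linarith, h5, ?_, ?_⟩
  · rw [Nat.cast_pow, Real.log_pow]
    push_cast
    linarith
  · rw [Nat.cast_pow, Real.log_pow]
    push_cast
    linarith

theorem Pr.S_le (h : Pr x y r W P0 L H q) :
    (4 * ((115 + r : ℕ) : ℝ) + 28) * q ≤ L / 100 := by
  have h1 := h.q_L
  have h2 := h.q_big
  have h3 : (0 : ℝ) ≤ r := Nat.cast_nonneg r
  push_cast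
  have h4 : (4 * (115 + (r : ℝ)) + 28) * q ≤ 488 * (1 + r) * q :=
    mul_le_mul_of_nonneg_right (by linarith) (by linarith)
  have h5 : 0 ≤ (1 + (r : ℝ)) * q := by positivity
  nlinarith

theorem Pr.P_facts (h : Pr x y r W P0 L H q) :
    (P0 : ℝ) * Real.exp ((4 * ((115 + r : ℕ) : ℝ) + 28) * q) ≤ y ∧
    (y : ℝ) * Real.exp (-((4 * ((115 + r : ℕ) : ℝ) + 28) * q)) < P0 + 1 ∧
    L / 2 + 2 ≤ Real.log P0 ∧ 8 ≤ P0 ∧ W ^ 2 ≤ P0 := by
  have hS := h.S_le
  have hq := h.q_big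
  have hL := h.L_big
  have hy := h.yR
  obtain ⟨S, hSd⟩ : ∃ S : ℝ, S = (4 * ((115 + r : ℕ) : ℝ) + 28) * q := ⟨_, rfl⟩
  have hP0 := h.hP0
  rw [← hSd] at hP0 hS ⊢
  have h0 : (0 : ℝ) < y := (Real.exp_pos _).trans_le hy
  have h1 : (P0 : ℝ) ≤ y * Real.exp (-S) := by
    rw [hP0]
    exact Nat.floor_le (by positivity)
  have h2 : (y : ℝ) * Real.exp (-S) < P0 + 1 := by
    rw [hP0]
    exact Nat.lt_floor_add_one _
  have h3 : Real.exp (L / 2 + 3) ≤ (y : ℝ) * Real.exp (-S) := by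
    have h4 : Real.exp L * Real.exp (-S) ≤ y * Real.exp (-S) :=
      mul_le_mul_of_nonneg_right hy (Real.exp_pos _).le
    rw [← Real.exp_add] at h4
    refine le_trans (Real.exp_le_exp.2 ?_) h4
    linarith
  have h5 : (2 : ℝ) ≤ Real.exp 1 := by
    have := Real.add_one_le_exp (1 : ℝ)
    linarith
  have h6 : Real.exp (L / 2 + 2) ≤ P0 := by
    have e : Real.exp (L / 2 + 3) = Real.exp (L / 2 + 2) * Real.exp 1 := by
      rw [← Real.exp_add]
      congr 1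
      ring
    have h7 : 1 ≤ Real.exp (L / 2 + 2) := Real.one_le_exp (by linarith)
    have h8 : Real.exp (L / 2 + 2) * 2 ≤ Real.exp (L / 2 + 2) * Real.exp 1 :=
      mul_le_mul_of_nonneg_left h5 (by linarith)
    linarith
  have h9 : L / 2 + 2 + 1 ≤ Real.exp (L / 2 + 2) := Real.add_one_le_exp _
  refine ⟨?_, h2, ?_, ?_, ?_⟩
  · have h10 : (P0 : ℝ) * Real.exp S ≤ y * Real.exp (-S) * Real.exp S :=
      mul_le_mul_of_nonneg_right h1 (Real.exp_pos _).le
    rw [mul_assoc, ← Real.exp_add, neg_add_cancel, Real.exp_zero, mul_one] at h10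
    exact h10
  · rw [Real.le_log_iff_exp_le (by linarith)]
    exact h6
  · have h11 : (8 : ℝ) ≤ P0 := by linarith
    exact_mod_cast h11
  · have h12 : ((W ^ 2 : ℕ) : ℝ) ≤ P0 := by
      push_cast
      have h13 := h.W_facts.1
      have h14 : (W : ℝ) ^ 2 ≤ Real.exp q ^ 2 := pow_le_pow_left₀ (Nat.cast_nonneg _) h13 2
      refine h14.trans (le_trans ?_ h6)
      rw [← Real.exp_nat_mul]
      apply Real.exp_le_exp.2
      push_cast
      linarith
    exact_mod_cast h12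

theorem Pr.fund (h : Pr x y r W P0 L H q) (b : ℕ → ℕ) {d : ℕ} (c : ℕ) (hd : 0 < d)
    (hdP : d ≤ P0) (hdc : ∀ q ∈ lS W, Nat.Coprime d q) :
    |((sv b (lS W) (cls y d c)).card : ℝ) - (y : ℝ) / d * PP (lS W)| ≤
      1 / (65 + (r : ℝ)) * ((y : ℝ) / d * PP (lS W)) := by
  have hq := h.hq1
  have hW := h.W_facts
  have hr : (0 : ℝ) ≤ r := Nat.cast_nonneg r
  refine MP42e49e.fund (l := q / 300) (L := Real.exp (q / 300)) (R := 115 + r) (P0 := P0)
    ?_ rfl ?_ ?_ hW.1 hW.2.1 (by positivity) ?_ (by omega) ?_ h.P_facts.1 b c hd hdP hdc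
  · linarith
  · linarith
  · have h1 := Real.quadratic_le_exp_of_nonneg (show 0 ≤ q / 300 by linarith)
    nlinarith
  · rw [one_div, inv_mul_eq_div, le_div_iff₀ (by positivity)]
    linarith
  · rw [one_div, inv_mul_eq_div, le_div_iff₀ (by positivity), pow_add]
    have h1 := one_add_mul_le_pow (show (-2 : ℝ) ≤ 41 by norm_num) r
    have h2 : (1 : ℝ) + 41 = 42 := by norm_num
    rw [h2] at h1
    have h3 : (42 : ℝ) ^ 3 ≤ 42 ^ 115 := pow_le_pow_right₀ (by norm_num) (by norm_num)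
    have h4 : (0 : ℝ) < 42 ^ r := by positivity
    have h5 := mul_le_mul_of_nonneg_right h3 h4.le
    nlinarith

end Pool.MP42e49e.M
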