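import Pool.Agent.H.MP_42e49e_nt.Mul2

/-!
# Few residue classes: conclusion
-/

set_option autoImplicit false

open Finset

namespace Pool.MP42e49e.M

open Pool.Agent.H.MP_3e6494_nt (prm mem_prm)

variable {x y r W P0 : ℕ} {L H q : ℝ}

theorem two_le_exp_one : (2 : ℝ) ≤ Real.exp 1 := by
  have := Real.add_one_le_exp (1 : ℝ)
  linarith

/-- lower bound for the number of survivors -/
theorem Pr.U_ge (h : Pr x y r W P0 L H q) (b : ℕ → ℕ) :
    0 < PP (lS W) ∧
    (1 - 1 / (65 + (r : ℝ))) * ((y : ℝ) * PP (lS W)) ≤ ((sv b (lS W) (cls y 1 0)).card : ℝ) ∧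
    (y : ℝ) / L * Real.exp (17 + r) ≤ ((sv b (lS W) (cls y 1 0)).card : ℝ) := by
  have hq := h.q_big
  have hW := h.W_facts
  have hr : (0 : ℝ) ≤ r := Nat.cast_nonneg r
  have hP := h.P_facts
  have hL := h.L_big
  have hy := (Real.exp_pos L).trans_le h.yR
  obtain ⟨V, hV⟩ : ∃ V : ℝ, V = PP (lS W) := ⟨_, rfl⟩
  have hVge : Real.exp (-21) / (2 * q) ≤ V := by
    have h1 := PP_ge (lS W) fun p hp => (mem_lS.1 hp).1.two_le
    rw [← hV] at h1
    refine le_trans ?_ h1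
    have h2 : rs (lS W) = FF (W ^ 2) := by
      unfold lS FF
      rw [rs_toList]
    have h3 : rs2 (lS W) ≤ 1 := by
      unfold lS
      exact rs2_prm _
    have h4 : FF (W ^ 2) ≤ Real.log (Real.log ((W ^ 2 : ℕ) : ℝ)) + 20 := FF_le (by nlinarith [hW.2.2.1])
    have h5 : Real.log (Real.log ((W ^ 2 : ℕ) : ℝ)) ≤ Real.log (2 * q) :=
      Real.log_le_log (by linarith [hW.2.2.2.1]) hW.2.2.2.2
    have h6 : Real.exp (-21) / (2 * q) = Real.exp (-(Real.log (2 * q) + 20 + 1)) := by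
      rw [show -(Real.log (2 * q) + 20 + 1) = -21 - Real.log (2 * q) by ring, Real.exp_sub,
        Real.exp_log (by linarith)]
    rw [h6, h2]
    apply Real.exp_le_exp.2
    linarith
  have hV0 : 0 < V := lt_of_lt_of_le (by positivity) hVge
  rw [← hV]
  have h1 := (abs_le.1 (h.fund b (d := 1) 0 one_pos (by omega) fun _ _ => Nat.coprime_one_left _)).1
  rw [Nat.cast_one, div_one, ← hV] at h1
  have h2 : (1 - 1 / (65 + (r : ℝ))) * ((y : ℝ) * V) ≤ ((sv b (lS W) (cls y 1 0)).card : ℝ) := by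
    have e : (1 - 1 / (65 + (r : ℝ))) * ((y : ℝ) * V) = y * V - 1 / (65 + (r : ℝ)) * (y * V) := by
      ring
    rw [e]
    linarith
  refine ⟨hV0, h2, le_trans ?_ h2⟩
  have h3 : 1 / (65 + (r : ℝ)) ≤ 1 / 2 := one_div_le_one_div_of_le (by norm_num) (by linarith)
  have h4 : (1 / 2 : ℝ) * (y * V) ≤ (1 - 1 / (65 + (r : ℝ))) * ((y : ℝ) * V) :=
    mul_le_mul_of_nonneg_right (by linarith) (by positivity)
  refine le_trans ?_ h4
  have h5 : (1 / 2 : ℝ) * (y * (Real.exp (-21) / (2 * q))) ≤ 1 / 2 * (y * V) := by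
    apply mul_le_mul_of_nonneg_left _ (by norm_num)
    exact mul_le_mul_of_nonneg_left hVge hy.le
  refine le_trans ?_ h5
  have hq0 : 0 < q := by linarith
  have h6 : (1 / 2 : ℝ) * (y * (Real.exp (-21) / (2 * q))) =
      y / L * (Real.exp (-21) * Real.exp (40 + r) / 4) := by
    rw [← h.hq]
    have := Real.exp_pos (40 + (r : ℝ))
    field_simp
    ring
  rw [h6]
  apply mul_le_mul_of_nonneg_left _ (by
    apply div_nonneg hy.le
    linarith)
  rw [le_div_iff₀ (by norm_num), ← Real.exp_add]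
  have h7 : Real.exp (-21 + (40 + (r : ℝ))) = Real.exp (17 + r) * (Real.exp 1 * Real.exp 1) := by
    rw [← Real.exp_add, ← Real.exp_add]
    congr 1
    ring
  rw [h7]
  apply mul_le_mul_of_nonneg_left _ (Real.exp_pos _).le
  have := two_le_exp_one
  nlinarith

/-- the hits by the primes of `(W ^ 2, P0]` -/
theorem Pr.low (h : Pr x y r W P0 L H q) (b : ℕ → ℕ) :
    ((∑ p ∈ (pw (W ^ 2) x).filter fun p => p ≤ P0,
      (sv b (lS W) (cls y p (b p))).card : ℕ) : ℝ) ≤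
      (44 + r) * ((sv b (lS W) (cls y 1 0)).card : ℝ) := by
  have hq := h.q_big
  have hW := h.W_facts
  have hr : (0 : ℝ) ≤ r := Nat.cast_nonneg r
  have hP := h.P_facts
  have hL := h.L_big
  have hy := (Real.exp_pos L).trans_le h.yR
  obtain ⟨hV0, hU, -⟩ := h.U_ge b
  obtain ⟨V, hV⟩ : ∃ V : ℝ, V = PP (lS W) := ⟨_, rfl⟩
  obtain ⟨U, hUd⟩ : ∃ U : ℝ, U = ((sv b (lS W) (cls y 1 0)).card : ℝ) := ⟨_, rfl⟩
  obtain ⟨δ, hδ⟩ : ∃ δ : ℝ, δ = 1 / (65 + (r : ℝ)) := ⟨_, rfl⟩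
  rw [← hV, ← hUd, ← hδ] at hU
  rw [← hV] at hV0
  rw [← hUd]
  have hδ0 : 0 < δ := by rw [hδ]; positivity
  have hδr : δ * (65 + r) = 1 := by
    rw [hδ]
    field_simp
  have hδ1 : δ ≤ 1 / 65 := by
    rw [hδ]
    exact one_div_le_one_div_of_le (by norm_num) (by linarith)
  push_cast
  have h1 : ∀ p ∈ (pw (W ^ 2) x).filter (fun p => p ≤ P0),
      ((sv b (lS W) (cls y p (b p))).card : ℝ) ≤ (1 + δ) * (y * V) * (1 / (p : ℝ)) := by
    intro p hp
    rw [mem_filter, mem_pw] at hp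
    have h2 := (abs_le.1 (h.fund b (d := p) (b p) hp.1.1.pos hp.2 fun t ht => by
      rw [mem_lS] at ht
      exact (Nat.coprime_primes hp.1.1 ht.1).2 (by omega))).2
    rw [← hV, ← hδ] at h2
    have e : (1 + δ) * (y * V) * (1 / (p : ℝ)) = (y : ℝ) / p * V + δ * ((y : ℝ) / p * V) := by ring
    rw [e]
    linarith
  refine (sum_le_sum h1).trans ?_
  rw [← mul_sum]
  have hWx : W ^ 2 ≤ x := by
    have h2 : ((W ^ 2 : ℕ) : ℝ) ≤ x := by
      rw [h.xR]
      push_cast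
      have h14 : (W : ℝ) ^ 2 ≤ Real.exp q ^ 2 := pow_le_pow_left₀ (Nat.cast_nonneg _) hW.1 2
      refine h14.trans ?_
      rw [← Real.exp_nat_mul]
      apply Real.exp_le_exp.2
      push_cast
      linarith
    exact_mod_cast h2
  have hW4 : 2 ≤ W ^ 2 := by nlinarith [hW.2.2.1]
  have h3 : ∑ p ∈ (pw (W ^ 2) x).filter (fun p => p ≤ P0), 1 / (p : ℝ) ≤ 41 + r := by
    have h4 : ∑ p ∈ (pw (W ^ 2) x).filter (fun p => p ≤ P0), 1 / (p : ℝ) ≤
        ∑ p ∈ pw (W ^ 2) x, 1 / (p : ℝ) :=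
      sum_le_sum_of_subset_of_nonneg (filter_subset _ _) fun p _ _ => by positivity
    refine h4.trans ?_
    rw [sum_pw hWx]
    refine (window hW4 hWx).1.trans ?_
    rw [← h.hL]
    have h5 : Real.log q ≤ Real.log (Real.log ((W ^ 2 : ℕ) : ℝ)) :=
      Real.log_le_log (by linarith) hW.2.2.2.1
    have h6 : 12 / Real.log ((W ^ 2 : ℕ) : ℝ) ≤ 1 := by
      rw [div_le_one (by linarith [hW.2.2.2.1])]
      linarith [hW.2.2.2.1]
    have h7 : Real.log L = Real.log q + (40 + r) := by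
      rw [← h.hq, Real.log_mul (by linarith) (Real.exp_pos _).ne', Real.log_exp]
    linarith
  have h5 : (1 + δ) * (y * V) ≤ (1 + 3 * δ) * U := by
    have h6 : (1 + 3 * δ) * ((1 - δ) * (y * V)) ≤ (1 + 3 * δ) * U :=
      mul_le_mul_of_nonneg_left hU (by linarith)
    refine le_trans ?_ h6
    have e : (1 + 3 * δ) * ((1 - δ) * (y * V)) = ((1 + 3 * δ) * (1 - δ)) * (y * V) := by ring
    rw [e]
    apply mul_le_mul_of_nonneg_right _ (by positivity)
    nlinarith
  have hU0 : 0 ≤ U := by rw [hUd]; positivity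
  calc (1 + δ) * (y * V) * ∑ p ∈ (pw (W ^ 2) x).filter (fun p => p ≤ P0), 1 / (p : ℝ)
      ≤ (1 + 3 * δ) * U * (41 + r) := mul_le_mul h5 h3 (sum_nonneg fun p _ => by positivity)
        (by positivity)
    _ = (1 + 3 * δ) * (41 + r) * U := by ring
    _ ≤ (44 + r) * U := by
        apply mul_le_mul_of_nonneg_right _ hU0
        nlinarith

/-- the hits by the primes of `(P0, x]` -/
theorem Pr.top (h : Pr x y r W P0 L H q) (b : ℕ → ℕ) :
    ((∑ p ∈ pw P0 x, (sv b (lS W) (cls y p (b p))).card : ℕ) : ℝ) ≤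
      (sv b (lS W) (cls y 1 0)).card := by
  have hq := h.q_big
  have hW := h.W_facts
  have hr : (0 : ℝ) ≤ r := Nat.cast_nonneg r
  have hP := h.P_facts
  have hL := h.L_big
  have hy := (Real.exp_pos L).trans_le h.yR
  have hx0 : (0 : ℝ) < x := by exact_mod_cast h.hx
  have hxyR : (x : ℝ) ≤ y := by exact_mod_cast h.hxy
  obtain ⟨-, -, hU⟩ := h.U_ge b
  refine le_trans ?_ hU
  have hH0 : 0 ≤ H := by
    rw [h.hH]
    apply Real.log_nonneg
    rw [le_div_iff₀ hx0]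
    linarith
  obtain ⟨S, hSd⟩ : ∃ S : ℝ, S = (4 * ((115 + r : ℕ) : ℝ) + 28) * q := ⟨_, rfl⟩
  have hPS := hP.2.1
  rw [← hSd] at hPS
  have hS0 : 0 ≤ S := by
    rw [hSd]
    positivity
  rcases (pw P0 x).eq_empty_or_nonempty with he | ⟨p0, hp0⟩
  · rw [he, sum_empty, Nat.cast_zero]
    have : 0 ≤ (y : ℝ) / L := div_nonneg hy.le (by linarith)
    positivity
  have key : ∀ p ∈ pw P0 x, Real.log ((y : ℝ) / p) ≤ S := by
    intro p hp
    rw [mem_pw] at hp
    have hpp : (0 : ℝ) < p := by exact_mod_cast hp.1.pos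
    have h1 : (P0 : ℝ) + 1 ≤ p := by exact_mod_cast hp.2.1
    rw [Real.log_le_iff_le_exp (by positivity), div_le_iff₀ hpp]
    have h2 : (y : ℝ) * Real.exp (-S) ≤ p := by linarith
    have h3 := mul_le_mul_of_nonneg_left h2 (Real.exp_pos S).le
    rw [mul_comm (y : ℝ), ← mul_assoc, ← Real.exp_add, add_neg_cancel, Real.exp_zero, one_mul] at h3
    exact h3
  have hHL : H ≤ S := by
    refine le_trans ?_ (key p0 hp0)
    rw [h.hH]
    have hp0' := mem_pw.1 hp0
    have hpp : (0 : ℝ) < p0 := by exact_mod_cast hp0'.1.pos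
    apply Real.log_le_log (by positivity)
    exact div_le_div_of_nonneg_left hy.le hpp (by exact_mod_cast hp0'.2.2)
  have hmap : ∀ p ∈ pw P0 x, ⌊Real.log ((y : ℝ) / p)⌋₊ ∈ Icc ⌊H⌋₊ ⌊S⌋₊ := by
    intro p hp
    rw [mem_Icc]
    refine ⟨Nat.floor_mono ?_, Nat.floor_mono (key p hp)⟩
    rw [h.hH]
    have hp' := mem_pw.1 hp
    have hpp : (0 : ℝ) < p := by exact_mod_cast hp'.1.pos
    apply Real.log_le_log (by positivity)
    exact div_le_div_of_nonneg_left hy.le hpp (by exact_mod_cast hp'.2.2)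
  push_cast
  have h1 : ∀ p ∈ pw P0 x, ((sv b (lS W) (cls y p (b p))).card : ℝ) ≤
      42 * (1 / (p : ℝ)) * y * (1 / (max 1 (min (⌊Real.log ((y : ℝ) / p)⌋₊ : ℝ) (14 * q)))) :=
    fun p hp => top_count (by linarith) hW.2.2.1 hW.2.1 hP.2.2.2.2 hp h.hxy b (b p)
  refine (sum_le_sum h1).trans ?_
  rw [← sum_fiberwise_of_maps_to hmap]
  have h2 : ∀ j ∈ Icc ⌊H⌋₊ ⌊S⌋₊, ∑ p ∈ (pw P0 x).filter (fun p : ℕ => ⌊Real.log ((y : ℝ) / p)⌋₊ = j),
      42 * (1 / (p : ℝ)) * y * (1 / (max 1 (min (⌊Real.log ((y : ℝ) / p)⌋₊ : ℝ) (14 * q)))) ≤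
      42 * (28 / L) * y * (1 / (max 1 (min (j : ℝ) (14 * q)))) := by
    intro j _
    have h3 : ∑ p ∈ (pw P0 x).filter (fun p : ℕ => ⌊Real.log ((y : ℝ) / p)⌋₊ = j),
        42 * (1 / (p : ℝ)) * y * (1 / (max 1 (min (⌊Real.log ((y : ℝ) / p)⌋₊ : ℝ) (14 * q)))) =
        42 * y * (1 / (max 1 (min (j : ℝ) (14 * q)))) *
          ∑ p ∈ (pw P0 x).filter (fun p : ℕ => ⌊Real.log ((y : ℝ) / p)⌋₊ = j), 1 / (p : ℝ) := by
      rw [mul_sum]
      refine sum_congr rfl fun p hp => ?_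
      rw [(mem_filter.1 hp).2]
      ring
    rw [h3]
    have h4 := fib (L := L) (by linarith) hP.2.2.1 hP.2.2.2.1 h.hxy h.hx j
    have h5 : 0 ≤ 42 * (y : ℝ) * (1 / (max 1 (min (j : ℝ) (14 * q)))) := by positivity
    refine (mul_le_mul_of_nonneg_left h4 h5).trans (le_of_eq ?_)
    ring
  refine (sum_le_sum h2).trans ?_
  rw [← mul_sum]
  have hSL : S ≤ L / 100 := by
    rw [hSd]
    exact h.S_le
  have h3 := g_sum (q := q) (L := L) (H := H) (S := S) (by linarith) (by linarith) hH0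
    (max_le (by linarith) (by linarith)) hS0
  have h4 : (S + 1) / (14 * q) ≤ 36 + r := by
    rw [div_le_iff₀ (by linarith), hSd]
    push_cast
    nlinarith
  have h5 : (r : ℝ) + 1 ≤ Real.exp r := Real.add_one_le_exp _
  have h6 := h.hB
  have h7 : ∑ j ∈ Icc ⌊H⌋₊ ⌊S⌋₊, 1 / (max 1 (min (j : ℝ) (14 * q))) ≤ 44 * Real.exp r := by
    linarith
  have hyL : 0 ≤ (y : ℝ) / L := div_nonneg hy.le (by linarith)
  calc 42 * (28 / L) * y * ∑ j ∈ Icc ⌊H⌋₊ ⌊S⌋₊, 1 / (max 1 (min (j : ℝ) (14 * q)))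
      ≤ 42 * (28 / L) * y * (44 * Real.exp r) :=
        mul_le_mul_of_nonneg_left h7 (by
          have : 0 ≤ 28 / L := by
            apply div_nonneg (by norm_num)
            linarith
          positivity)
    _ = y / L * (51744 * Real.exp r) := by ring
    _ ≤ y / L * Real.exp (17 + r) := by
        apply mul_le_mul_of_nonneg_left _ hyL
        rw [Real.exp_add]
        apply mul_le_mul_of_nonneg_right _ (Real.exp_pos _).le
        have h8 : Real.exp 17 = Real.exp 1 ^ 17 := by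
          rw [← Real.exp_nat_mul]
          norm_num
        rw [h8]
        calc (51744 : ℝ) ≤ 2 ^ 17 := by norm_num
          _ ≤ _ := pow_le_pow_left₀ (by norm_num) two_le_exp_one 17

/-- **The main estimate.** -/
theorem Pr.main (h : Pr x y r W P0 L H q) (b : ℕ → ℕ) :
    (y : ℝ) / L ≤ (((Icc 1 y).filter fun n => hits b x n ≤ 45 + r).card : ℝ) := by
  classical
  have hr : (0 : ℝ) ≤ r := Nat.cast_nonneg r
  have hq := h.q_big
  have hL := h.L_big
  have hy := (Real.exp_pos L).trans_le h.yR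
  obtain ⟨-, -, hU⟩ := h.U_ge b
  have h1 := h.low b
  have h2 := h.top b
  obtain ⟨U, hUd⟩ : ∃ U : Finset ℕ, U = sv b (lS W) (cls y 1 0) := ⟨_, rfl⟩
  have hs := sum_hits b W x y
  have hh : ∀ n ∈ U, hits b x n = ((pw (W ^ 2) x).filter fun p => p ∣ b p + n).card := by
    intro n hn
    rw [hUd] at hn
    exact hits_eq hn
  rw [← hUd] at h1 h2 hU hs
  rw [← sum_congr rfl hh] at hs
  have hsplit : ∑ p ∈ pw (W ^ 2) x, (sv b (lS W) (cls y p (b p))).card ≤
      (∑ p ∈ (pw (W ^ 2) x).filter (fun p => p ≤ P0), (sv b (lS W) (cls y p (b p))).card) +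
      ∑ p ∈ pw P0 x, (sv b (lS W) (cls y p (b p))).card := by
    rw [← sum_filter_add_sum_filter_not (pw (W ^ 2) x) (fun p => p ≤ P0)]
    apply Nat.add_le_add_left
    apply sum_le_sum_of_subset
    intro p hp
    rw [mem_filter, mem_pw] at hp
    rw [mem_pw]
    exact ⟨hp.1.1, by omega, hp.1.2.2⟩
  rw [← hs] at hsplit
  have hsum : ((∑ n ∈ U, hits b x n : ℕ) : ℝ) ≤ (45 + r) * U.card := by
    have h3 : ((∑ n ∈ U, hits b x n : ℕ) : ℝ) ≤
        (((∑ p ∈ (pw (W ^ 2) x).filter (fun p => p ≤ P0), (sv b (lS W) (cls y p (b p))).card) +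
      ∑ p ∈ pw P0 x, (sv b (lS W) (cls y p (b p))).card : ℕ) : ℝ) := by exact_mod_cast hsplit
    rw [Nat.cast_add] at h3
    linarith
  have hbad : ((46 + r) * (U.filter fun n => ¬ hits b x n ≤ 45 + r).card : ℕ) ≤
      ∑ n ∈ U, hits b x n := by
    calc (46 + r) * (U.filter fun n => ¬ hits b x n ≤ 45 + r).card
        = ∑ n ∈ U.filter (fun n => ¬ hits b x n ≤ 45 + r), (46 + r) := by
          rw [sum_const, smul_eq_mul, mul_comm]
      _ ≤ ∑ n ∈ U.filter (fun n => ¬ hits b x n ≤ 45 + r), hits b x n := by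
          refine sum_le_sum fun n hn => ?_
          have := (mem_filter.1 hn).2
          omega
      _ ≤ _ := sum_le_sum_of_subset (filter_subset _ _)
  have hbad' : (46 + (r : ℝ)) * ((U.filter fun n => ¬ hits b x n ≤ 45 + r).card : ℝ) ≤
      (45 + r) * U.card := by
    have h3 : (((46 + r) * (U.filter fun n => ¬ hits b x n ≤ 45 + r).card : ℕ) : ℝ) ≤
        ((∑ n ∈ U, hits b x n : ℕ) : ℝ) := by exact_mod_cast hbad
    rw [Nat.cast_mul, Nat.cast_add] at h3
    push_cast at h3 hsum ⊢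
    linarith
  have hcard : ((U.filter fun n => hits b x n ≤ 45 + r).card : ℝ) +
      ((U.filter fun n => ¬ hits b x n ≤ 45 + r).card : ℝ) = U.card := by
    exact_mod_cast card_filter_add_card_filter_not (s := U) (fun n => hits b x n ≤ 45 + r)
  have hgood : (U.card : ℝ) ≤ (46 + r) * ((U.filter fun n => hits b x n ≤ 45 + r).card : ℝ) := by
    nlinarith
  have hsub : ((U.filter fun n => hits b x n ≤ 45 + r).card : ℝ) ≤
      (((Icc 1 y).filter fun n => hits b x n ≤ 45 + r).card : ℝ) := by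
    have : (U.filter fun n => hits b x n ≤ 45 + r) ⊆
        (Icc 1 y).filter fun n => hits b x n ≤ 45 + r := by
      intro n hn
      rw [mem_filter, hUd, mem_sv, mem_cls] at hn
      rw [mem_filter]
      exact ⟨hn.1.1.1, hn.2⟩
    exact_mod_cast card_le_card this
  refine le_trans ?_ hsub
  have hexp : 46 + (r : ℝ) ≤ Real.exp (17 + r) := by
    have h3 : (1 : ℝ) + r ≤ Real.exp r := by
      have := Real.add_one_le_exp (r : ℝ)
      linarith
    have h4 : (46 : ℝ) ≤ Real.exp 17 := by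
      have h8 : Real.exp 17 = Real.exp 1 ^ 17 := by
        rw [← Real.exp_nat_mul]
        norm_num
      rw [h8]
      calc (46 : ℝ) ≤ 2 ^ 17 := by norm_num
        _ ≤ _ := pow_le_pow_left₀ (by norm_num) two_le_exp_one 17
    rw [Real.exp_add]
    have h5 := mul_le_mul h4 h3 (by positivity) (by positivity)
    nlinarith
  have hyL : 0 ≤ (y : ℝ) / L := div_nonneg hy.le (by linarith)
  have h3 : (46 + (r : ℝ)) * ((y : ℝ) / L) ≤
      (46 + r) * ((U.filter fun n => hits b x n ≤ 45 + r).card : ℝ) := by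
    refine le_trans ?_ hgood
    refine le_trans ?_ hU
    rw [mul_comm]
    exact mul_le_mul_of_nonneg_left hexp hyL
  exact le_of_mul_le_mul_left h3 (by positivity)

end Pool.MP42e49e.M
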