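import Pool.Agent.H.MP_42e49e_nt.Mul3

/-!
# Few residue classes: the choice of the parameters
-/

set_option autoImplicit false

open Finset

namespace Pool.MP42e49e.M

open Pool.Agent.H.MP_3e6494_nt (prm mem_prm)

/-- the threshold for `log log x` -/
noncomputable def T0 : ℝ := 10 ^ 7 * Real.exp 40

theorem T0_ge : 10 ^ 7 ≤ T0 := by
  unfold T0
  have : 1 ≤ Real.exp 40 := Real.one_le_exp (by norm_num)
  nlinarith

theorem growth {t : ℝ} (ht : T0 ≤ t) :
    (339000 + 600 * (3 * t)) * (Real.exp 40 * (3 * t)) ≤ Real.exp t := by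
  have h0 := T0_ge
  have h1 : 1 ≤ t := by linarith
  have h2 := Real.pow_div_factorial_le_exp t (by linarith) 3
  have h3 : (Nat.factorial 3 : ℝ) = 6 := by norm_num [Nat.factorial]
  rw [h3] at h2
  refine le_trans ?_ h2
  rw [le_div_iff₀ (by norm_num)]
  have h4 : (10 : ℝ) ^ 7 * Real.exp 40 ≤ t := ht
  have h5 : (339000 + 600 * (3 * t)) ≤ 340800 * t := by linarith
  have h6 : 0 < Real.exp 40 := Real.exp_pos _
  calc (339000 + 600 * (3 * t)) * (Real.exp 40 * (3 * t)) * 6
      ≤ 340800 * t * (Real.exp 40 * (3 * t)) * 6 := by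
        apply mul_le_mul_of_nonneg_right _ (by norm_num)
        exact mul_le_mul_of_nonneg_right h5 (by positivity)
    _ = 6134400 * Real.exp 40 * t ^ 2 := by ring
    _ ≤ (10 : ℝ) ^ 7 * Real.exp 40 * t ^ 2 := by
        apply mul_le_mul_of_nonneg_right _ (by positivity)
        apply mul_le_mul_of_nonneg_right _ h6.le
        norm_num
    _ ≤ t * t ^ 2 := mul_le_mul_of_nonneg_right h4 (by positivity)
    _ = t ^ 3 := by ring

theorem large {x y r : ℕ} (hx : Real.exp (Real.exp T0) ≤ x)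
    (hy : (x : ℝ) ^ (1 + Real.exp (-Real.exp r)) ≤ y) (b : ℕ → ℕ) :
    (y : ℝ) / Real.log x ≤ (((Icc 1 y).filter fun n => hits b x n ≤ 45 + r).card : ℝ) := by
  have hT := T0_ge
  have hxR : (0 : ℝ) < x := (Real.exp_pos _).trans_le hx
  obtain ⟨L, hL⟩ : ∃ L : ℝ, L = Real.log x := ⟨_, rfl⟩
  obtain ⟨t, ht⟩ : ∃ t : ℝ, t = Real.log L := ⟨_, rfl⟩
  have hLT : Real.exp T0 ≤ L := by
    rw [hL, Real.le_log_iff_exp_le hxR]
    exact hx
  have hL0 : 0 < L := (Real.exp_pos _).trans_le hLT
  have htT : T0 ≤ t := by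
    rw [ht, Real.le_log_iff_exp_le hL0]
    exact hLT
  have ht1 : 1 ≤ t := by linarith
  have hLt : Real.exp t = L := by rw [ht, Real.exp_log hL0]
  have hxL : (x : ℝ) = Real.exp L := by rw [hL, Real.exp_log hxR]
  have hyL : Real.exp (L * (1 + Real.exp (-Real.exp r))) ≤ y := by
    rw [Real.rpow_def_of_pos hxR, ← hL] at hy
    exact hy
  have hy1 : Real.exp L ≤ y := by
    refine le_trans (Real.exp_le_exp.2 ?_) hyL
    have := Real.exp_pos (-Real.exp (r : ℝ))
    nlinarith
  have hyR : (0 : ℝ) < y := (Real.exp_pos _).trans_le hy1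
  have hxy : x ≤ y := by
    have : (x : ℝ) ≤ y := by rwa [hxL]
    exact_mod_cast this
  obtain ⟨H, hH⟩ : ∃ H : ℝ, H = Real.log ((y : ℝ) / x) := ⟨_, rfl⟩
  have hHge : L * Real.exp (-Real.exp r) ≤ H := by
    rw [hH, Real.le_log_iff_exp_le (by positivity), le_div_iff₀ hxR, hxL, ← Real.exp_add]
    refine le_trans (le_of_eq ?_) hyL
    congr 1
    ring
  have hB1 : Real.log (L / max 1 H) ≤ Real.exp r := by
    have h1 : 0 < max 1 H := by positivity
    rw [Real.log_le_iff_le_exp (by positivity), div_le_iff₀ h1]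
    have h2 : L * Real.exp (-Real.exp r) ≤ max 1 H := hHge.trans (le_max_right _ _)
    have h3 := mul_le_mul_of_nonneg_left h2 (Real.exp_pos (Real.exp (r : ℝ))).le
    rw [mul_left_comm, ← Real.exp_add, add_neg_cancel, Real.exp_zero, mul_one] at h3
    exact h3
  have hB2 : Real.log (L / max 1 H) ≤ t := by
    rw [ht]
    have h1 : 1 ≤ max 1 H := le_max_left _ _
    apply Real.log_le_log (by positivity)
    exact div_le_self hL0.le h1
  obtain ⟨s, hs1, hs2, hs3⟩ : ∃ s : ℕ, s ≤ r ∧ Real.exp s ≤ 3 * t ∧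
      Real.log (L / max 1 H) ≤ Real.exp s := by
    rcases le_or_gt (Real.exp r) (3 * t) with h1 | h1
    · exact ⟨r, le_rfl, h1, hB1⟩
    · refine ⟨⌈Real.log t⌉₊, ?_, ?_, ?_⟩
      · apply Nat.ceil_le.2
        rw [Real.log_le_iff_le_exp (by linarith)]
        linarith
      · have h2 := (Nat.ceil_lt_add_one (Real.log_nonneg ht1)).le
        refine (Real.exp_le_exp.2 h2).trans ?_
        rw [Real.exp_add, Real.exp_log (by linarith), mul_comm]
        apply mul_le_mul_of_nonneg_right _ (by linarith)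
        have := Real.exp_one_lt_d9
        linarith
      · refine hB2.trans ?_
        calc t = Real.exp (Real.log t) := (Real.exp_log (by linarith)).symm
          _ ≤ _ := Real.exp_le_exp.2 (Nat.le_ceil _)
  have hsR : (0 : ℝ) ≤ s := Nat.cast_nonneg s
  have hsexp : (s : ℝ) ≤ Real.exp s := by
    have := Real.add_one_le_exp (s : ℝ)
    linarith
  have hpr : Pr x y s ⌊Real.exp (L / Real.exp (40 + s))⌋₊
      ⌊(y : ℝ) * Real.exp (-((4 * ((115 + s : ℕ) : ℝ) + 28) * (L / Real.exp (40 + s))))⌋₊ L H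
      (L / Real.exp (40 + s)) := by
    refine ⟨?_, hxy, hL, hH, ?_, ?_, hs3, rfl, rfl⟩
    · exact_mod_cast hxR
    · exact div_mul_cancel₀ _ (Real.exp_pos _).ne'
    · rw [le_div_iff₀ (Real.exp_pos _), ← hLt, Real.exp_add]
      refine le_trans ?_ (growth htT)
      have h1 : 300 * (1000 + 2 * (65 + (s : ℝ))) ≤ 339000 + 600 * (3 * t) := by linarith
      apply mul_le_mul h1 _ (by positivity) (by positivity)
      exact mul_le_mul_of_nonneg_left hs2 (Real.exp_pos _).le
  have h1 := hpr.main b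
  rw [hL] at h1
  refine h1.trans ?_
  have h2 : ((Icc 1 y).filter fun n => hits b x n ≤ 45 + s) ⊆
      (Icc 1 y).filter fun n => hits b x n ≤ 45 + r := by
    intro n hn
    rw [mem_filter] at hn ⊢
    exact ⟨hn.1, by omega⟩
  exact_mod_cast card_le_card h2

/-- all `x ≥ 3` -/
theorem all : ∃ K : ℕ, ∀ x y r : ℕ, 3 ≤ x → (x : ℝ) ^ (1 + Real.exp (-Real.exp r)) ≤ y →
    ∀ b : ℕ → ℕ,
      (y : ℝ) / Real.log x ≤ (((Icc 1 y).filter fun n => hits b x n ≤ r + K).card : ℝ) := by
  obtain ⟨x0, hx0⟩ : ∃ x0 : ℕ, x0 = ⌈Real.exp (Real.exp T0)⌉₊ := ⟨_, rfl⟩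
  refine ⟨x0 + 45, ?_⟩
  intro x y r hx hy b
  rcases le_or_gt (Real.exp (Real.exp T0)) x with h1 | h1
  · refine (large h1 hy b).trans ?_
    have h2 : ((Icc 1 y).filter fun n => hits b x n ≤ 45 + r) ⊆
        (Icc 1 y).filter fun n => hits b x n ≤ r + (x0 + 45) := by
      intro n hn
      rw [mem_filter] at hn ⊢
      exact ⟨hn.1, by omega⟩
    exact_mod_cast card_le_card h2
  · have h2 : x < x0 := by
      rw [hx0]
      exact Nat.lt_ceil.2 h1
    have h3 : ((Icc 1 y).filter fun n => hits b x n ≤ r + (x0 + 45)) = Icc 1 y := by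
      apply filter_true_of_mem
      intro n _
      have h4 : hits b x n ≤ x := by
        unfold hits
        refine (card_filter_le _ _).trans ?_
        unfold prm
        refine (card_filter_le _ _).trans ?_
        rw [Nat.card_Icc]
        omega
      omega
    rw [h3, Nat.card_Icc, Nat.add_sub_cancel]
    have hx3 : (3 : ℝ) ≤ x := by exact_mod_cast hx
    have h5 : 1 ≤ Real.log x := by
      rw [Real.le_log_iff_exp_le (by linarith)]
      have := Real.exp_one_lt_d9
      linarith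
    exact div_le_self (Nat.cast_nonneg _) h5

end Pool.MP42e49e.M
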