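import Pool.Agent.H.MP_42e49e_nt.Small
import Pool.Agent.H.MP_42e49e_nt.Core3
import Pool.Agent.H.MP_42e49e_nt.SelSmall

/-!
# The regime of the parameters
-/

set_option autoImplicit false

open Finset Filter

namespace Pool.MP42e49e.R

open Pool.Agent.H.MP_3e6494_nt (prm mem_prm)

/-- the regime -/
structure Rg (θ δ η K L l q : ℝ) (x y W Z P0 : ℕ) : Prop where
  hθ0 : Real.exp (-1) < θ
  hθ1 : θ < 1
  hδ : 16 * δ = 1 + Real.log θ
  hδ0 : 0 < δ
  hδ1 : δ ≤ 1 / 16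
  hη0 : 0 < η
  hη : η * (20000 * Real.exp 22) ≤ δ
  hηθ : 100 * η ≤ 1 - θ
  hx : 1 ≤ x
  hL : L = Real.log x
  hl : l = Real.log L
  hq : q = η * L / l
  hK1 : 1000 ≤ K
  hK2 : 20480 * Real.exp 22 ≤ K * δ
  hKl : K ≤ l
  hL1 : 100 * l ^ 2 ≤ η * L
  hL3 : (10000 * Real.exp 22 * l) ^ 4 ≤ δ ^ 4 * L
  hL4 : 1000 * Real.exp 22 ≤ δ * Real.exp (η * l)
  hW : W = ⌊Real.exp q⌋₊
  hZ : Z = ⌊Real.exp (θ * L)⌋₊
  hP : P0 = ⌊Real.exp (L - 60 * (l * q))⌋₊
  hy1 : x * Real.exp ((1 - η) * l) ≤ y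
  hy2 : (y : ℝ) ≤ 2 * (x * Real.exp ((1 - η) * l))

variable {θ δ η K L l q : ℝ} {x y W Z P0 : ℕ}

theorem Rg.l_ge (h : Rg θ δ η K L l q x y W Z P0) : 1000 ≤ l := h.hK1.trans h.hKl

theorem Rg.L_pos (h : Rg θ δ η K L l q x y W Z P0) : 0 < L := by
  by_contra h1
  have h2 : L = 0 ∨ L < 0 := by
    rcases lt_or_eq_of_le (not_lt.1 h1) with h3 | h3
    · exact Or.inr h3
    · exact Or.inl h3
  have h4 := h.l_ge
  rcases h2 with h2 | h2
  · have h3 := h.hl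
    rw [h2, Real.log_zero] at h3
    linarith
  · have h3 := h.hL
    have h5 : (1 : ℝ) ≤ x := by exact_mod_cast h.hx
    have h6 := Real.log_nonneg h5
    linarith

theorem Rg.exp_l (h : Rg θ δ η K L l q x y W Z P0) : Real.exp l = L := by
  rw [h.hl, Real.exp_log h.L_pos]

theorem Rg.l_le (h : Rg θ δ η K L l q x y W Z P0) : l + 1 ≤ L := by
  have := Real.add_one_le_exp l
  rwa [h.exp_l] at this

theorem Rg.x_eq (h : Rg θ δ η K L l q x y W Z P0) : (x : ℝ) = Real.exp L := by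
  have h5 : (1 : ℝ) ≤ x := by exact_mod_cast h.hx
  rw [h.hL, Real.exp_log (by linarith)]

theorem Rg.q_ge (h : Rg θ δ η K L l q x y W Z P0) : 100 * l ≤ q := by
  have h1 := h.l_ge
  rw [h.hq, le_div_iff₀ (by positivity)]
  calc 100 * l * l = 100 * l ^ 2 := by ring
    _ ≤ η * L := h.hL1

theorem Rg.η_le (h : Rg θ δ η K L l q x y W Z P0) : η ≤ 1 / 320000 := by
  have h1 := h.hη
  have h2 : (1 : ℝ) ≤ Real.exp 22 := Real.one_le_exp (by norm_num)
  have h3 := h.hη0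
  have h4 := h.hδ1
  nlinarith

theorem Rg.q_le (h : Rg θ δ η K L l q x y W Z P0) : q ≤ L / 100 := by
  have h1 := h.l_ge
  have h2 := h.L_pos
  rw [h.hq, div_le_div_iff₀ (by positivity) (by norm_num)]
  have h3 : η * L ≤ 1 * L := mul_le_mul_of_nonneg_right (by linarith [h.η_le]) h2.le
  have h5 : L * 100 ≤ L * l := mul_le_mul_of_nonneg_left (by linarith) h2.le
  linarith

theorem Rg.lq (h : Rg θ δ η K L l q x y W Z P0) : l * q = η * L := by
  have h1 := h.l_ge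
  rw [h.hq]
  field_simp

theorem Rg.lq_le1 (h : Rg θ δ η K L l q x y W Z P0) : 60 * (l * q) ≤ (1 - θ) * L := by
  have h2 := h.L_pos
  rw [h.lq]
  have h3 : 60 * η ≤ 1 - θ := by linarith [h.hηθ, h.hη0]
  have h5 := mul_le_mul_of_nonneg_right h3 h2.le
  linarith

theorem Rg.lq_le2 (h : Rg θ δ η K L l q x y W Z P0) : 60 * (l * q) ≤ L / 8 := by
  have h2 := h.L_pos
  rw [h.lq]
  have h3 : 60 * η ≤ 1 / 8 := by linarith [h.η_le]
  have h5 := mul_le_mul_of_nonneg_right h3 h2.le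
  linarith

theorem floor_bounds {t : ℝ} (ht : 1 ≤ t) : ((⌊Real.exp t⌋₊ : ℕ) : ℝ) ≤ Real.exp t ∧
    Real.exp t ≤ 2 * ((⌊Real.exp t⌋₊ : ℕ) : ℝ) ∧ t - 1 ≤ Real.log ((⌊Real.exp t⌋₊ : ℕ) : ℝ) ∧
    Real.log ((⌊Real.exp t⌋₊ : ℕ) : ℝ) ≤ t ∧ 2 ≤ ⌊Real.exp t⌋₊ := by
  have h0 := Real.add_one_le_exp t
  have h1 : ((⌊Real.exp t⌋₊ : ℕ) : ℝ) ≤ Real.exp t := Nat.floor_le (Real.exp_pos _).le
  have h2 := Nat.lt_floor_add_one (Real.exp t)
  have h3 : Real.exp t ≤ 2 * ((⌊Real.exp t⌋₊ : ℕ) : ℝ) := by linarith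
  have h4 : 2 ≤ ⌊Real.exp t⌋₊ := by
    have h5 : Real.exp 1 ≤ Real.exp t := Real.exp_le_exp.2 ht
    have := Real.exp_one_gt_d9
    exact Nat.le_floor (by norm_num; linarith)
  have h5 : (0 : ℝ) < ((⌊Real.exp t⌋₊ : ℕ) : ℝ) := by
    have : (2 : ℝ) ≤ ((⌊Real.exp t⌋₊ : ℕ) : ℝ) := by exact_mod_cast h4
    linarith
  refine ⟨h1, h3, ?_, ?_, h4⟩
  · have h6 := Real.log_le_log (Real.exp_pos _) h3
    rw [Real.log_exp, Real.log_mul (by norm_num) h5.ne'] at h6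
    have := Real.log_two_lt_d9
    linarith
  · have h6 := Real.log_le_log h5 h1
    rwa [Real.log_exp] at h6

theorem Rg.W_facts (h : Rg θ δ η K L l q x y W Z P0) : (W : ℝ) ≤ Real.exp q ∧
    Real.exp q ≤ 2 * W ∧ 2 ≤ W ∧ K * L ^ 5 ≤ W := by
  have h1 := h.l_ge
  have h2 := h.q_ge
  have h3 := floor_bounds (t := q) (by linarith)
  rw [← h.hW] at h3
  refine ⟨h3.1, h3.2.1, h3.2.2.2.2, ?_⟩
  have h4 : Real.exp (7 * l) ≤ Real.exp q := Real.exp_le_exp.2 (by linarith)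
  have h5 : Real.exp (7 * l) = L ^ 7 := by
    rw [show (7 : ℝ) * l = (7 : ℕ) * l by norm_num, Real.exp_nat_mul, h.exp_l]
  rw [h5] at h4
  have h6 := h.l_le
  have h7 : K ≤ L := by linarith [h.hKl]
  have hL0 := h.L_pos
  have h8 : K * L ^ 5 ≤ L * L ^ 5 := mul_le_mul_of_nonneg_right h7 (by positivity)
  have h9 : 2 * L ^ 6 ≤ L * L ^ 6 := mul_le_mul_of_nonneg_right (by linarith) (by positivity)
  have h10 : L * L ^ 5 = L ^ 6 := by ring
  have h11 : L * L ^ 6 = L ^ 7 := by ring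
  linarith [h3.2.1]

theorem Rg.theta_ge (h : Rg θ δ η K L l q x y W Z P0) : 1 / 3 < θ := by
  have h1 := h.hθ0
  have := Real.exp_neg_one_gt_d9
  linarith

theorem Rg.L_ge (h : Rg θ δ η K L l q x y W Z P0) : 1000 ≤ L := by
  linarith [h.l_ge, h.l_le]

theorem Rg.Z_facts (h : Rg θ δ η K L l q x y W Z P0) : (Z : ℝ) ≤ Real.exp (θ * L) ∧
    Real.exp (θ * L) ≤ 2 * Z ∧ θ * L - 1 ≤ Real.log Z ∧ Real.log Z ≤ θ * L ∧ 2 ≤ Z := by
  have h1 := h.theta_ge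
  have h2 := h.L_ge
  have h3 := floor_bounds (t := θ * L) (by nlinarith)
  rw [← h.hZ] at h3
  exact h3

theorem Rg.P_facts (h : Rg θ δ η K L l q x y W Z P0) :
    (P0 : ℝ) ≤ Real.exp (L - 60 * (l * q)) ∧
    Real.exp (L - 60 * (l * q)) ≤ 2 * P0 ∧ L - 60 * (l * q) - 1 ≤ Real.log P0 ∧
    Real.log P0 ≤ L - 60 * (l * q) ∧ 2 ≤ P0 := by
  have h1 := h.lq_le2
  have h2 := h.L_ge
  have h3 := floor_bounds (t := L - 60 * (l * q)) (by linarith)
  rw [← h.hP] at h3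
  exact h3

theorem Rg.W2_le_Z (h : Rg θ δ η K L l q x y W Z P0) : W ^ 2 ≤ Z := by
  have h1 := h.W_facts.1
  have h2 := h.Z_facts.2.1
  have h3 := h.q_le
  have h4 := h.theta_ge
  have h5 := h.L_ge
  have h6 : ((W ^ 2 : ℕ) : ℝ) ≤ Real.exp (2 * q) := by
    rw [Nat.cast_pow, show (2 : ℝ) * q = (2 : ℕ) * q by norm_num, Real.exp_nat_mul]
    exact pow_le_pow_left₀ (Nat.cast_nonneg _) h1 2
  have h7 : Real.exp (2 * q) * 2 ≤ Real.exp (θ * L) := by
    have h8 : (2 : ℝ) ≤ Real.exp 1 := by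
      have := Real.add_one_le_exp (1 : ℝ)
      linarith
    calc Real.exp (2 * q) * 2 ≤ Real.exp (2 * q) * Real.exp 1 :=
          mul_le_mul_of_nonneg_left h8 (Real.exp_pos _).le
      _ = Real.exp (2 * q + 1) := by rw [Real.exp_add]
      _ ≤ Real.exp (θ * L) := Real.exp_le_exp.2 (by nlinarith)
  have h9 : ((W ^ 2 : ℕ) : ℝ) ≤ Z := by linarith
  exact_mod_cast h9

theorem Rg.Z_le_P (h : Rg θ δ η K L l q x y W Z P0) : Z ≤ P0 := by
  rw [h.hZ, h.hP]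
  apply Nat.floor_mono
  apply Real.exp_le_exp.2
  linarith [h.lq_le1]

theorem Rg.P_le_x (h : Rg θ δ η K L l q x y W Z P0) : P0 ≤ x := by
  have h1 := h.P_facts.1
  have h2 : Real.exp (L - 60 * (l * q)) ≤ Real.exp L := by
    apply Real.exp_le_exp.2
    have h3 := h.l_ge
    have h4 := h.q_ge
    have : 0 ≤ l * q := mul_nonneg (by linarith) (by linarith)
    linarith
  rw [← h.x_eq] at h2
  exact_mod_cast h1.trans h2

theorem Rg.x_le_y (h : Rg θ δ η K L l q x y W Z P0) : x ≤ y := by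
  have h1 := h.hy1
  have h2 := h.L_ge
  have h3 : (0 : ℝ) ≤ x := Nat.cast_nonneg x
  have h4 : (x : ℝ) ≤ x * Real.exp ((1 - η) * l) := by
    apply le_mul_of_one_le_right h3
    apply Real.one_le_exp
    have h5 := h.η_le
    have h6 := h.l_ge
    exact mul_nonneg (by linarith) (by linarith)
  exact_mod_cast h4.trans h1

theorem Rg.rsS (h : Rg θ δ η K L l q x y W Z P0) : rs (lS W) = FF (W ^ 2) := rs_toList _

theorem Rg.rsL (h : Rg θ δ η K L l q x y W Z P0) : rs (lL W Z) = FF Z - FF (W ^ 2) := by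
  unfold lL
  rw [rs_toList, sum_pw h.W2_le_Z]

theorem Rg.W2_ge (h : Rg θ δ η K L l q x y W Z P0) : 2 ≤ W ^ 2 := by
  have h1 := h.W_facts.2.2.1
  nlinarith

theorem Rg.logW2 (h : Rg θ δ η K L l q x y W Z P0) :
    Real.log ((W ^ 2 : ℕ) : ℝ) ≤ 2 * q := by
  have h1 := h.W_facts
  have h2 : (2 : ℝ) ≤ W := by exact_mod_cast h1.2.2.1
  have h3 := Real.log_le_log (by linarith) h1.1
  rw [Real.log_exp] at h3
  rw [Nat.cast_pow, Real.log_pow]
  push_cast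
  linarith

theorem Rg.FFW (h : Rg θ δ η K L l q x y W Z P0) :
    FF (W ^ 2) ≤ Real.log (2 * q) + 20 ∧ FF (W ^ 2) ≤ 2 * l := by
  have h1 := FF_le h.W2_ge
  have h2 := h.logW2
  have h3 : (2 : ℝ) ≤ ((W ^ 2 : ℕ) : ℝ) := by exact_mod_cast h.W2_ge
  have h4 : 0 < Real.log ((W ^ 2 : ℕ) : ℝ) := Real.log_pos (by linarith)
  have h5 := Real.log_le_log h4 h2
  refine ⟨by linarith, ?_⟩
  have h6 := h.q_le
  have h7 := h.l_ge
  have h8 := h.L_pos
  have h9 : Real.log (2 * q) ≤ l := by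
    rw [h.hl]
    exact Real.log_le_log (by linarith) (by linarith)
  linarith

theorem Rg.FFZ (h : Rg θ δ η K L l q x y W Z P0) : FF Z ≤ l + 20 := by
  have h1 := FF_le h.Z_facts.2.2.2.2
  have h3 : (2 : ℝ) ≤ (Z : ℝ) := by exact_mod_cast h.Z_facts.2.2.2.2
  have h4 : 0 < Real.log (Z : ℝ) := Real.log_pos (by linarith)
  have h5 : Real.log (Z : ℝ) ≤ L := by
    have := h.Z_facts.2.2.2.1
    have := h.hθ1
    have := h.L_pos
    nlinarith
  have h6 := Real.log_le_log h4 h5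
  rw [← h.hl] at h6
  linarith

theorem FF_nonneg (n : ℕ) : 0 ≤ FF n := by
  unfold FF
  exact sum_nonneg fun p _ => by positivity

theorem Rg.rsL_le (h : Rg θ δ η K L l q x y W Z P0) : rs (lL W Z) ≤ 2 * l := by
  rw [h.rsL]
  have h1 := h.FFZ
  have h2 := FF_nonneg (W ^ 2)
  have h3 := h.l_ge
  linarith

theorem Rg.rs2L_le (h : Rg θ δ η K L l q x y W Z P0) : rs2 (lL W Z) ≤ δ / 16 := by
  have hW := h.W_facts
  have h0 : (2 : ℝ) ≤ W := by exact_mod_cast hW.2.2.1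
  have h1 := rs2_le (w := (W : ℝ) ^ 2) (by positivity) (lL W Z) (fun q hq => by
    have := (mem_lL.1 hq).2.1
    have h2 : ((W ^ 2 + 1 : ℕ) : ℝ) ≤ q := by exact_mod_cast this
    push_cast at h2
    exact h2)
  refine h1.trans ?_
  have h2 := h.rsL_le
  have h3 := h.l_le
  have h4 := h.L_ge
  have h5 := hW.2.2.2
  have h6 := h.hK2
  have h7 := h.hδ0
  rw [div_le_iff₀ (by positivity)]
  have h8 : (32 : ℝ) ≤ K * δ := by
    have : (1 : ℝ) ≤ Real.exp 22 := Real.one_le_exp (by norm_num)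
    nlinarith
  have hK := h.hK1
  have h9 : K * L ≤ W := by
    have h10 : L ≤ L ^ 5 := by
      calc L = L * 1 := (mul_one L).symm
        _ ≤ L * L ^ 4 := mul_le_mul_of_nonneg_left (one_le_pow₀ (by linarith)) (by linarith)
        _ = L ^ 5 := by ring
    have h11 : K * L ≤ K * L ^ 5 := mul_le_mul_of_nonneg_left h10 (by linarith)
    linarith
  have h12 : δ * (K * L) ≤ δ * W := mul_le_mul_of_nonneg_left h9 h7.le
  have h13 : 32 * L ≤ K * δ * L := mul_le_mul_of_nonneg_right h8 (by linarith)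
  have h14 : δ * W ≤ δ * (W : ℝ) ^ 2 := mul_le_mul_of_nonneg_left (by nlinarith) h7.le
  nlinarith

theorem Rg.VV (h : Rg θ δ η K L l q x y W Z P0) :
    Real.exp (-22) / L ≤ PP (lS W) * PP (lL W Z) := by
  have h1 := PP_ge (lS W) fun q hq => (mem_lS.1 hq).1.two_le
  have h2 := PP_ge (lL W Z) fun q hq => (mem_lL.1 hq).1.two_le
  have h3 : rs2 (lS W) ≤ 1 := rs2_prm _
  have h4 := h.rs2L_le
  have h5 := h.hδ1
  have h6 : Real.exp (-22) / L = Real.exp (-22 - l) := by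
    rw [Real.exp_sub, h.exp_l]
  rw [h6]
  have h7 := h.rsS
  have h8 := h.rsL
  have h9 := h.FFZ
  calc Real.exp (-22 - l) ≤ Real.exp (-(rs (lS W) + rs2 (lS W)) + -(rs (lL W Z) + rs2 (lL W Z))) :=
        Real.exp_le_exp.2 (by linarith)
    _ = Real.exp (-(rs (lS W) + rs2 (lS W))) * Real.exp (-(rs (lL W Z) + rs2 (lL W Z))) :=
        Real.exp_add _ _
    _ ≤ _ := mul_le_mul h1 h2 (Real.exp_pos _).le PPS_pos.le

theorem Rg.V1_le (h : Rg θ δ η K L l q x y W Z P0) : PP (lL W Z) ≤ 1 :=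
  (PP_bound _ fun q hq => (mem_lL.1 hq).1.pos).2

theorem Rg.V2_le (h : Rg θ δ η K L l q x y W Z P0) : PP (lS W) ≤ 1 :=
  (PP_bound _ fun q hq => (mem_lS.1 hq).1.pos).2

theorem Rg.V2_ge (h : Rg θ δ η K L l q x y W Z P0) :
    Real.exp (-22) / L ≤ PP (lS W) := by
  have h1 := h.VV
  have h2 := h.V1_le
  have h3 := PPS_pos (W := W)
  nlinarith

theorem Rg.V1_ge (h : Rg θ δ η K L l q x y W Z P0) :
    Real.exp (-22) / L ≤ PP (lL W Z) := by
  have h1 := h.VV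
  have h2 := h.V2_le
  have h3 := PPL_pos (W := W) (Z := Z)
  nlinarith

theorem Rg.V2_ge' (h : Rg θ δ η K L l q x y W Z P0) :
    Real.exp (-21) / (2 * q) ≤ PP (lS W) := by
  have h1 := PP_ge (lS W) fun q hq => (mem_lS.1 hq).1.two_le
  have h3 : rs2 (lS W) ≤ 1 := rs2_prm _
  have h7 := h.rsS
  have h8 := h.FFW.1
  have h9 := h.q_ge
  have h10 := h.l_ge
  have hq : 0 < 2 * q := by linarith
  refine le_trans ?_ h1
  have h11 : Real.exp (-21) / (2 * q) = Real.exp (-21 - Real.log (2 * q)) := by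
    rw [Real.exp_sub, Real.exp_log hq]
  rw [h11]
  exact Real.exp_le_exp.2 (by linarith)

theorem Rg.Py (h : Rg θ δ η K L l q x y W Z P0) :
    (P0 : ℝ) / y ≤ Real.exp (-(60 * (l * q))) := by
  have h1 := h.P_facts.1
  have h2 : (x : ℝ) ≤ y := by exact_mod_cast h.x_le_y
  have h3 := h.x_eq
  have hx : (0 : ℝ) < x := by rw [h3]; exact Real.exp_pos _
  rw [div_le_iff₀ (by linarith)]
  calc (P0 : ℝ) ≤ Real.exp (L - 60 * (l * q)) := h1
    _ = Real.exp (-(60 * (l * q))) * x := by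
        rw [h3, ← Real.exp_add]
        congr 1
        ring
    _ ≤ _ := mul_le_mul_of_nonneg_left h2 (Real.exp_pos _).le

end Pool.MP42e49e.R
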