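import Pool.Agent.H.MP_42e49e_nt.R2Tau

/-!
# The final count
-/

set_option autoImplicit false

open Finset Filter

namespace Pool.MP42e49e.R

open Pool.Agent.H.MP_3e6494_nt (prm mem_prm)

variable {θ δ η K L l q : ℝ} {x y W Z P0 : ℕ}

theorem Rg.big (h : Rg θ δ η K L l q x y W Z P0) :
    Real.exp ((1 + η) * l) ≤ L ^ 2 ∧ 1000 * L ≤ Real.exp ((1 + η) * l) ∧
    20480 * Real.exp 22 * L ^ 5 ≤ W ∧ 20480 * L ≤ L * (L * δ) := by
  have hl := h.l_ge
  have hL := h.L_ge
  have hL0 : 0 < L := by linarith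
  have hη0 := h.hη0
  have hη1 := h.η_le
  have hδ0 := h.hδ0
  have hδ1 := h.hδ1
  have he : (1 : ℝ) ≤ Real.exp 22 := Real.one_le_exp (by norm_num)
  have hK : 20480 * Real.exp 22 ≤ K := by
    have h1 : K * δ ≤ K * 1 := mul_le_mul_of_nonneg_left (by linarith) (by linarith [h.hK1])
    linarith [h.hK2]
  refine ⟨?_, ?_, ?_, ?_⟩
  · have e1 : L ^ 2 = Real.exp (2 * l) := by
      rw [← h.exp_l, ← Real.exp_nat_mul]
      norm_num
    rw [e1]
    apply Real.exp_le_exp.2
    nlinarith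
  · have e1 : Real.exp ((1 + η) * l) = Real.exp (η * l) * L := by
      rw [← h.exp_l, ← Real.exp_add]
      congr 1
      ring
    rw [e1]
    apply mul_le_mul_of_nonneg_right _ hL0.le
    have h1 := h.hL4
    have h2 : δ * Real.exp (η * l) ≤ 1 * Real.exp (η * l) :=
      mul_le_mul_of_nonneg_right (by linarith) (Real.exp_pos _).le
    linarith
  · have h1 : 20480 * Real.exp 22 * L ^ 5 ≤ K * L ^ 5 :=
      mul_le_mul_of_nonneg_right hK (by positivity)
    linarith [h.W_facts.2.2.2]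
  · have h1 : 20480 * Real.exp 22 ≤ L * δ :=
      h.hK2.trans (mul_le_mul_of_nonneg_right (by linarith [h.hKl, h.l_le]) hδ0.le)
    nlinarith

theorem delta_ineq {δ : ℝ} (h : 0 < δ) : (1 + δ) ^ 2 * (1 - 15 * δ) + 4 * δ < (1 - δ) ^ 2 := by
  have h1 : 0 < δ ^ 3 := by positivity
  have h2 : 0 < δ ^ 2 := by positivity
  have h3 : (1 - δ) ^ 2 - ((1 + δ) ^ 2 * (1 - 15 * δ) + 4 * δ) = 7 * δ + 30 * δ ^ 2 + 15 * δ ^ 3 := by
    ring
  linarith

theorem Rg.par3 (h : Rg θ δ η K L l q x y W Z P0) :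
    Par3 x y W Z P0 δ (E0 η l) (fun p => up q y p) (fun p => N3 q y p)
      (fun p => τ3 η L l q y W Z p) := by
  have hl := h.l_ge
  have hL := h.L_ge
  have hL0 : 0 < L := by linarith
  have hy := h.yR
  have hV1 := PPL_pos (W := W) (Z := Z)
  have hV2 := PPS_pos (W := W)
  have hδ0 := h.hδ0
  have hδ1 := h.hδ1
  have he := Real.exp_pos 1
  have hW := h.W_facts
  have hW0 : (2 : ℝ) ≤ W := by exact_mod_cast hW.2.2.1
  have hbig := h.big
  have hN0 : ∀ p ∈ pw P0 x, 0 ≤ N3 q y p := by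
    intro p hp
    have hp0 : (0 : ℝ) < p := by exact_mod_cast (mem_pw.1 hp).1.pos
    have h1 := h.N3_ge hp
    have h2 : 0 ≤ (y : ℝ) / p / L := by positivity
    linarith
  have hE0 : 0 ≤ E0 η l := by
    unfold E0
    positivity
  refine ⟨fun p hp => h.up_le hp, ?_, ?_, ?_⟩
  · intro p hp b c'
    obtain ⟨h1, h2, h3⟩ := h.sp_bounds hp
    obtain ⟨h11, h12, h13, h14⟩ := h.tp_bounds hp
    have hp' := mem_pw.1 hp
    have h4 := h.up_le hp
    have h5 := h.W2_le_Z
    have h6 := h.Z_le_P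
    have h7 : W ≤ W ^ 2 := by
      have := hW.2.2.1
      nlinarith
    refine sel_small hp'.1 (by exact_mod_cast hy) (by linarith) ?_ ?_ b c'
    · have : sp y p = Real.log ((y : ℝ) / p) := rfl
      linarith
    · have : up q y p = ⌊Real.exp (tp q y p)⌋₊ := rfl
      omega
  · intro p hp
    show _ ≤ τ3 η L l q y W Z p ∨ (_ ≤ τ3 η L l q y W Z p ∧ _ ≤ τ3 η L l q y W Z p / _)
    rcases le_or_gt p (x0 η L l) with hpx | hpx
    swap
    · left
      unfold τ3
      rw [if_neg (by omega)]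
    right
    have hτ : τ3 η L l q y W Z p =
        2 * Real.exp 1 * PP (lL W Z) * N3 q y p + 11 * (E0 η l + 2 * up q y p) := by
      unfold τ3
      rw [if_pos hpx]
    have hu0 : (0 : ℝ) ≤ up q y p := Nat.cast_nonneg _
    have hN := hN0 p hp
    have hlog4 := log4_le
    have hlog40 : 0 ≤ Real.log 4 := Real.log_nonneg (by norm_num)
    rw [hτ]
    constructor
    · have : 0 ≤ 11 * (E0 η l + 2 * (up q y p : ℝ)) := by positivity
      linarith
    · have hp' := mem_pw.1 hp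
      have hp0 : (0 : ℝ) < p := by exact_mod_cast hp'.1.pos
      have hXL := h.N3_ge hp
      obtain ⟨X, hX⟩ : ∃ X : ℝ, X = (y : ℝ) / p := ⟨_, rfl⟩
      have hX0 : 0 < X := by rw [hX]; positivity
      rw [← hX] at hXL ⊢
      have hK0 : 0 < 2 * Real.exp 1 * (X / (W : ℝ) ^ 2 + 1) := by positivity
      rw [le_div_iff₀ hK0]
      have he11 : 4 * Real.exp 1 ≤ 11 := by
        have := Real.exp_one_lt_d9
        linarith
      have h11 : 0 ≤ 2 * Real.exp 1 * PP (lL W Z) * N3 q y p := by positivity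
      rcases le_or_gt X ((W : ℝ) ^ 2) with h4 | h4
      · have h5 : X / (W : ℝ) ^ 2 ≤ 1 := by
          rw [div_le_one (by positivity)]
          exact h4
        have h6 : 2 * Real.exp 1 * (X / (W : ℝ) ^ 2 + 1) ≤ 11 := by nlinarith
        have h7 : 0 ≤ E0 η l + (up q y p : ℝ) * Real.log 4 := by positivity
        have h8 := mul_le_mul_of_nonneg_left h6 h7
        refine h8.trans ?_
        have h9 : (up q y p : ℝ) * Real.log 4 ≤ (up q y p : ℝ) * (3 / 2) :=
          mul_le_mul_of_nonneg_left hlog4 hu0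
        linarith
      · have h5 : 1 ≤ X / (W : ℝ) ^ 2 := by
          rw [one_le_div (by positivity)]
          exact h4.le
        have h6 : 2 * Real.exp 1 * (X / (W : ℝ) ^ 2 + 1) ≤
            4 * Real.exp 1 * (X / (W : ℝ) ^ 2) := by nlinarith
        have h7 : E0 η l + (up q y p : ℝ) * Real.log 4 ≤ 3 * W := by
          have h8 : (up q y p : ℝ) ≤ W := by exact_mod_cast h.up_le hp
          have h9 : (up q y p : ℝ) * Real.log 4 ≤ (W : ℝ) * (3 / 2) :=
            mul_le_mul h8 hlog4 hlog40 (by linarith)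
          have h10 : E0 η l ≤ W := by
            unfold E0
            have h12 : L ^ 2 ≤ L ^ 5 := pow_le_pow_right₀ (by linarith) (by norm_num)
            have h13 : 20480 * L ^ 5 ≤ 20480 * Real.exp 22 * L ^ 5 := by
              apply mul_le_mul_of_nonneg_right _ (by positivity)
              have : (1 : ℝ) ≤ Real.exp 22 := Real.one_le_exp (by norm_num)
              linarith
            have h14 : 0 ≤ L ^ 2 := by positivity
            linarith [hbig.1, hbig.2.2.1]
          linarith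
        have h8 : (E0 η l + (up q y p : ℝ) * Real.log 4) *
            (2 * Real.exp 1 * (X / (W : ℝ) ^ 2 + 1)) ≤
            (3 * W) * (4 * Real.exp 1 * (X / (W : ℝ) ^ 2)) :=
          mul_le_mul h7 h6 hK0.le (by positivity)
        refine h8.trans ?_
        have h10 : 2 * Real.exp 1 * PP (lL W Z) * (X / L) ≤
            2 * Real.exp 1 * PP (lL W Z) * N3 q y p := mul_le_mul_of_nonneg_left hXL (by positivity)
        have h12 : 6 / (W : ℝ) ≤ PP (lL W Z) / L := by
          have hV := h.V1_ge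
          have h13 : 6 / (W : ℝ) ≤ Real.exp (-22) / L / L := by
            rw [div_div, div_le_div_iff₀ (by positivity) (by positivity)]
            have h15 := mul_le_mul_of_nonneg_left hbig.2.2.1 (Real.exp_pos (-22)).le
            have e2 : Real.exp (-22) * (20480 * Real.exp 22 * L ^ 5) =
                20480 * L ^ 5 * (Real.exp (-22) * Real.exp 22) := by ring
            rw [e2, exp22, mul_one] at h15
            have h20 : L ^ 2 ≤ L ^ 5 := pow_le_pow_right₀ (by linarith) (by norm_num)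
            have h21 : 0 ≤ L ^ 2 := by positivity
            nlinarith
          have h14 : Real.exp (-22) / L / L ≤ PP (lL W Z) / L :=
            div_le_div_of_nonneg_right hV hL0.le
          linarith
        have h13 := mul_le_mul_of_nonneg_left h12 (show 0 ≤ 2 * Real.exp 1 * X by positivity)
        have h15 : (3 * (W : ℝ)) * (4 * Real.exp 1 * (X / (W : ℝ) ^ 2)) =
            2 * Real.exp 1 * X * (6 / (W : ℝ)) := by
          field_simp
          norm_num
        have h16 : 2 * Real.exp 1 * X * (PP (lL W Z) / L) =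
            2 * Real.exp 1 * PP (lL W Z) * (X / L) := by ring
        have h17 : 0 ≤ 11 * (E0 η l + 2 * (up q y p : ℝ)) := by positivity
        rw [h15]
        linarith
  · have h1 := h.tau_sum
    have h2 := h.mertens
    obtain ⟨G, hG⟩ : ∃ G : ℝ, G = y * (PP (lS W) * PP (lL W Z)) := ⟨_, rfl⟩
    have hG0 : 0 < G := by rw [hG]; positivity
    rw [← hG] at h1
    show (1 + δ) ^ 2 * y * PP (lS W) * PP (lL W Z) * (FF P0 - FF Z) +
      ∑ p ∈ pw P0 x, τ3 η L l q y W Z p < (1 - δ) ^ 2 * y * PP (lS W) * PP (lL W Z)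
    have e1 : (1 + δ) ^ 2 * y * PP (lS W) * PP (lL W Z) * (FF P0 - FF Z) =
        G * ((1 + δ) ^ 2 * (FF P0 - FF Z)) := by rw [hG]; ring
    have e2 : (1 - δ) ^ 2 * y * PP (lS W) * PP (lL W Z) = G * (1 - δ) ^ 2 := by rw [hG]; ring
    rw [e1, e2]
    have h3 : (1 + δ) ^ 2 * (FF P0 - FF Z) ≤ (1 + δ) ^ 2 * (1 - 15 * δ) :=
      mul_le_mul_of_nonneg_left h2 (by positivity)
    have h4 := delta_ineq hδ0
    have h5 := mul_le_mul_of_nonneg_left h3 hG0.le
    have h6 := mul_lt_mul_of_pos_left h4 hG0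
    rw [mul_add] at h6
    have h7 : G * (4 * δ) = 4 * (δ * G) := by ring
    linarith

theorem Rg.sum_le (h : Rg θ δ η K L l q x y W Z P0) :
    ((4 ^ W : ℕ) : ℝ) * Real.exp (-(((W * ⌈L⌉₊ : ℕ) : ℝ) * δ / 2)) +
      ((x * x * 4 ^ W : ℕ) : ℝ) * Real.exp (-(((W * ⌈L⌉₊ : ℕ) : ℝ) * δ / 4)) +
      ((x * x : ℕ) : ℝ) * Real.exp (-(E0 η l)) ≤ Real.exp (-Real.exp ((1 + η) * l)) := by
  have hl := h.l_ge
  have hL := h.L_ge
  have hδ0 := h.hδ0
  have hW := h.W_facts
  have hbig := h.big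
  obtain ⟨F, hF⟩ : ∃ F : ℝ, F = Real.exp ((1 + η) * l) := ⟨_, rfl⟩
  rw [← hF] at hbig ⊢
  have hE : E0 η l = 2 * F := by rw [hF]; rfl
  rw [hE]
  obtain ⟨b1, b2, b3, b4⟩ := hbig
  have hW0 : (2 : ℝ) ≤ W := by exact_mod_cast hW.2.2.1
  have hCL1 : L ≤ (⌈L⌉₊ : ℝ) := Nat.le_ceil _
  have hk : (W : ℝ) * L * δ ≤ ((W * ⌈L⌉₊ : ℕ) : ℝ) * δ := by
    rw [Nat.cast_mul]
    exact mul_le_mul_of_nonneg_right (mul_le_mul_of_nonneg_left hCL1 (by linarith)) hδ0.le
  have h4 : ((4 ^ W : ℕ) : ℝ) ≤ Real.exp (2 * W) := by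
    rw [Nat.cast_pow, mul_comm (2 : ℝ), Real.exp_nat_mul]
    refine pow_le_pow_left₀ (by norm_num) ?_ W
    have := Real.add_one_le_exp (1 : ℝ)
    have e2 : Real.exp 2 = Real.exp 1 * Real.exp 1 := by
      rw [← Real.exp_add]
      norm_num
    rw [e2]
    push_cast
    nlinarith
  have hxx : ((x * x : ℕ) : ℝ) = Real.exp (2 * L) := by
    rw [Nat.cast_mul, h.x_eq, ← Real.exp_add]
    congr 1
    ring
  have hLδ : 20480 ≤ L * δ := by
    have h1 : 20480 * L ≤ (L * δ) * L := by linarith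
    exact le_of_mul_le_mul_right h1 (by linarith)
  have hWL : L ^ 2 + 2 * L + 2 ≤ W := by
    have h1 : L ^ 2 ≤ L ^ 5 := pow_le_pow_right₀ (by linarith) (by norm_num)
    have h2 : 20480 * L ^ 5 ≤ 20480 * Real.exp 22 * L ^ 5 := by
      apply mul_le_mul_of_nonneg_right _ (by positivity)
      have : (1 : ℝ) ≤ Real.exp 22 := Real.one_le_exp (by norm_num)
      linarith
    nlinarith
  have hkey : 2 * (W : ℝ) + 2 * L + F + 2 ≤ W * L * δ / 4 := by
    have h1 : (W : ℝ) * 20480 ≤ W * (L * δ) := mul_le_mul_of_nonneg_left hLδ (by linarith)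
    nlinarith
  have hexp : Real.exp (-(F + 2)) * 3 ≤ Real.exp (-F) := by
    have h1 : (3 : ℝ) ≤ Real.exp 2 := by
      have := Real.add_one_le_exp (2 : ℝ)
      linarith
    have h2 : Real.exp (-F) = Real.exp (-(F + 2)) * Real.exp 2 := by
      rw [← Real.exp_add]
      congr 1
      ring
    rw [h2]
    exact mul_le_mul_of_nonneg_left h1 (Real.exp_pos _).le
  have hWLδ : 0 ≤ (W : ℝ) * L * δ := by positivity
  have t1 : ((4 ^ W : ℕ) : ℝ) * Real.exp (-(((W * ⌈L⌉₊ : ℕ) : ℝ) * δ / 2)) ≤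
      Real.exp (-(F + 2)) := by
    refine (mul_le_mul_of_nonneg_right h4 (Real.exp_pos _).le).trans ?_
    rw [← Real.exp_add]
    apply Real.exp_le_exp.2
    linarith
  have t2 : ((x * x * 4 ^ W : ℕ) : ℝ) * Real.exp (-(((W * ⌈L⌉₊ : ℕ) : ℝ) * δ / 4)) ≤
      Real.exp (-(F + 2)) := by
    rw [Nat.cast_mul (x * x), hxx]
    refine (mul_le_mul_of_nonneg_right (mul_le_mul_of_nonneg_left h4 (Real.exp_pos _).le)
      (Real.exp_pos _).le).trans ?_
    rw [← Real.exp_add, ← Real.exp_add]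
    apply Real.exp_le_exp.2
    linarith
  have t3 : ((x * x : ℕ) : ℝ) * Real.exp (-(2 * F)) ≤ Real.exp (-(F + 2)) := by
    rw [hxx, ← Real.exp_add]
    apply Real.exp_le_exp.2
    linarith
  linarith

theorem Rg.final (h : Rg θ δ η K L l q x y W Z P0) :
    (({m | m < ∏ p ∈ pw W Z, p ∧ Cov x y W Z m} : Set ℕ).ncard : ℝ) ≤
      ((∏ p ∈ pw W Z, p : ℕ) : ℝ) * Real.exp (-Real.exp ((1 + η) * l)) :=
  (core h.par h.par3).trans (mul_le_mul_of_nonneg_left h.sum_le (Nat.cast_nonneg _))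

end Pool.MP42e49e.R
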