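import Pool.Agent.H.MP_42e49e_nt.Core

/-!
# Tuples of residue classes and shifts
-/

set_option autoImplicit false

open Finset Filter

namespace Pool.MP42e49e

/-- The residue classes `b p` modulo `p`, for `p ∈ Q`, can be completed by residue classes for the
other primes `p ≤ x` to a covering of `{1, …, y}`: there are residue classes `a p` modulo `p` for all
primes `p ≤ x`, with `a p = b p` for `p ∈ Q`, such that each integer `1 ≤ n ≤ y` is in one of them. -/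
def Extends (x y : ℕ) (Q : Finset ℕ) (b : (p : ℕ) → p ∈ Q → ℕ) : Prop :=
  ∃ a : ℕ → ℤ, (∀ p (hp : p ∈ Q), a p = b p hp) ∧
    ∀ n : ℕ, 1 ≤ n → n ≤ y → ∃ p : ℕ, p.Prime ∧ p ≤ x ∧ (n : ℤ) ≡ a p [ZMOD (p : ℤ)]

theorem exists_shift {Q : Finset ℕ} (hQ : ∀ p ∈ Q, p.Prime) (b : (p : ℕ) → p ∈ Q → ℕ) :
    ∃ m : ℕ, m < ∏ p ∈ Q, p ∧ ∀ p (hp : p ∈ Q), (p : ℤ) ∣ (m : ℤ) + b p hp := by
  classical
  have hs : ∀ i ∈ Q, (fun p : ℕ => p) i ≠ 0 := fun i hi => (hQ i hi).pos.ne'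
  have pp : Set.Pairwise (Q : Set ℕ) (Function.onFun Nat.Coprime (fun p : ℕ => p)) := by
    intro p hp q hq hpq
    exact (Nat.coprime_primes (hQ p hp) (hQ q hq)).2 hpq
  obtain ⟨a, ha⟩ : ∃ a : ℕ → ℕ, ∀ p (hp : p ∈ Q), (p : ℤ) ∣ (a p : ℤ) + b p hp := by
    refine ⟨fun p => if hp : p ∈ Q then p * b p hp - b p hp else 0, ?_⟩
    intro p hp
    simp only [dif_pos hp]
    have h1 : b p hp ≤ p * b p hp := Nat.le_mul_of_pos_left _ (hQ p hp).pos
    rw [Nat.cast_sub h1]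
    refine ⟨b p hp, ?_⟩
    push_cast
    ring
  refine ⟨Nat.chineseRemainderOfFinset a (fun p => p) Q hs pp,
    Nat.chineseRemainderOfFinset_lt_prod a (fun p => p) hs pp, ?_⟩
  intro p hp
  have h2 := (Nat.chineseRemainderOfFinset a (fun p => p) Q hs pp).2 p hp
  have h3 := (Nat.modEq_iff_dvd.1 h2)
  have h4 := ha p hp
  have h5 : (((Nat.chineseRemainderOfFinset a (fun p => p) Q hs pp : ℕ) : ℤ)) + b p hp =
      ((a p : ℤ) + b p hp) - ((a p : ℤ) - ((Nat.chineseRemainderOfFinset a (fun p => p) Q hs pp : ℕ) : ℤ)) := by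
    ring
  rw [h5]
  exact dvd_sub h4 h3

theorem tuple_card {x y W Z : ℕ} {Q : Finset ℕ} (hQ : Q = pw W Z) :
    ({b : (p : ℕ) → p ∈ Q → ℕ | b ∈ Q.pi Finset.range ∧ Extends x y Q b} : Set _).ncard ≤
      ({m | m < ∏ p ∈ Q, p ∧ Cov x y W Z m} : Set ℕ).ncard := by
  classical
  have hQp : ∀ p ∈ Q, p.Prime := fun p hp => by
    rw [hQ, mem_pw] at hp
    exact hp.1
  choose f hf1 hf2 using fun b => exists_shift hQp b
  refine Set.ncard_le_ncard_of_injOn f ?_ ?_ ((Set.finite_lt_nat _).subset fun m hm => hm.1)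
  · rintro b ⟨-, a, ha1, ha2⟩
    refine ⟨hf1 b, a, ?_⟩
    intro n hn hcop
    rw [mem_Icc] at hn
    obtain ⟨p, hp, hpx, hpn⟩ := ha2 n hn.1 hn.2
    have h1 : (p : ℤ) ∣ n - a p := (Int.modEq_iff_dvd.1 hpn.symm)
    refine ⟨p, hp, hpx, ?_, h1⟩
    rw [← hQ]
    intro hpQ
    have h2 := hf2 b p hpQ
    rw [ha1 p hpQ] at h1
    have h3 : (p : ℤ) ∣ ((f b + n : ℕ) : ℤ) := by
      have h4 := dvd_add h2 h1
      push_cast
      have h5 : (f b : ℤ) + n = (f b : ℤ) + b p hpQ + (n - b p hpQ) := by ring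
      rwa [h5]
    have h6 : p ∣ f b + n := by exact_mod_cast h3
    have h7 : p ∣ ∏ p ∈ pw W Z, p := by
      rw [← hQ]
      exact dvd_prod_of_mem _ hpQ
    have h8 := Nat.dvd_gcd h6 h7
    rw [hcop] at h8
    exact hp.one_lt.ne' (Nat.dvd_one.1 h8)
  · rintro b ⟨hb, -⟩ b' ⟨hb', -⟩ hbb
    funext p hp
    have h1 := hf2 b p hp
    have h2 := hf2 b' p hp
    have hbb' : f b = f b' := hbb
    rw [hbb'] at h1
    have h3 : (p : ℤ) ∣ (b' p hp : ℤ) - b p hp := by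
      have h4 := dvd_sub h2 h1
      have h5 : ((f b' : ℤ) + b' p hp) - ((f b' : ℤ) + b p hp) = (b' p hp : ℤ) - b p hp := by ring
      rwa [h5] at h4
    have h6 := Nat.modEq_iff_dvd.2 h3
    have h7 := mem_range.1 (mem_pi.1 hb p hp)
    have h8 := mem_range.1 (mem_pi.1 hb' p hp)
    exact Nat.ModEq.eq_of_lt_of_lt h6 h7 h8

end Pool.MP42e49e
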