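import Pool.Agent.H.MP_42e49e_nt.R2End
import Pool.Agent.H.MP_42e49e_nt.Tup

/-!
# The theorem
-/

set_option autoImplicit false

open Finset Filter

namespace Pool.MP42e49e.R

open Pool.Agent.H.MP_3e6494_nt (prm mem_prm)

theorem exists_reg {θ : ℝ} (h0 : Real.exp (-1) < θ) (h1 : θ < 1) :
    ∃ δ η K : ℝ, 0 < η ∧ η < 1 ∧ ∀ᶠ x : ℕ in atTop, ∀ y : ℕ,
      x * Real.exp ((1 - η) * Real.log (Real.log x)) ≤ y →
      (y : ℝ) ≤ 2 * (x * Real.exp ((1 - η) * Real.log (Real.log x))) →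
      Rg θ δ η K (Real.log x) (Real.log (Real.log x))
        (η * Real.log x / Real.log (Real.log x)) x y
        ⌊Real.exp (η * Real.log x / Real.log (Real.log x))⌋₊
        ⌊Real.exp (θ * Real.log x)⌋₊
        ⌊Real.exp (Real.log x - 60 * (Real.log (Real.log x) *
          (η * Real.log x / Real.log (Real.log x))))⌋₊ := by
  have hθpos : 0 < θ := (Real.exp_pos _).trans h0
  have hlog1 : -1 < Real.log θ := by
    rw [Real.lt_log_iff_exp_lt hθpos]
    exact h0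
  have hlog2 : Real.log θ < 0 := Real.log_neg hθpos h1
  obtain ⟨δ, hδ⟩ : ∃ δ : ℝ, δ = (1 + Real.log θ) / 16 := ⟨_, rfl⟩
  have hδ0 : 0 < δ := by
    rw [hδ]
    linarith
  have hδ1 : δ ≤ 1 / 16 := by
    rw [hδ]
    linarith
  have he22 : (1 : ℝ) ≤ Real.exp 22 := Real.one_le_exp (by norm_num)
  obtain ⟨η, hη⟩ : ∃ η : ℝ, η = min (δ / (20000 * Real.exp 22)) ((1 - θ) / 100) := ⟨_, rfl⟩
  have hη0 : 0 < η := by
    rw [hη]
    exact lt_min (by positivity) (by linarith)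
  have hη1 : η * (20000 * Real.exp 22) ≤ δ := by
    rw [← le_div_iff₀ (by positivity), hη]
    exact min_le_left _ _
  have hη2 : 100 * η ≤ 1 - θ := by
    have : η ≤ (1 - θ) / 100 := by
      rw [hη]
      exact min_le_right _ _
    linarith
  obtain ⟨K, hK⟩ : ∃ K : ℝ, K = 1000 + 20480 * Real.exp 22 / δ := ⟨_, rfl⟩
  have k1 : 0 ≤ 20480 * Real.exp 22 / δ := by positivity
  have hK2 : 20480 * Real.exp 22 ≤ K * δ := by
    rw [← div_le_iff₀ hδ0]
    linarith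
  refine ⟨δ, η, K, hη0, by linarith, ?_⟩
  obtain ⟨Bc, hBc⟩ : ∃ B : ℝ, B = 10000 * Real.exp 22 := ⟨_, rfl⟩
  have tL : Tendsto (fun x : ℕ => Real.log (x : ℝ)) atTop atTop :=
    Real.tendsto_log_atTop.comp tendsto_natCast_atTop_atTop
  have tl : Tendsto (fun x : ℕ => Real.log (Real.log (x : ℝ))) atTop atTop :=
    Real.tendsto_log_atTop.comp tL
  filter_upwards [eventually_ge_atTop 1, tl.eventually_ge_atTop K,
    tL.eventually (ev_log_pow (100 / η) 2), tL.eventually (ev_log_pow (Bc ^ 4 / δ ^ 4) 4),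
    tl.eventually_ge_atTop (1000 * Real.exp 22 / δ / η)] with x hx e1 e2 e3 e4
  intro y hy1 hy2
  refine
    { hθ0 := h0
      hθ1 := h1
      hδ := by rw [hδ]; ring
      hδ0 := hδ0
      hδ1 := hδ1
      hη0 := hη0
      hη := hη1
      hηθ := hη2
      hx := hx
      hL := rfl
      hl := rfl
      hq := rfl
      hK1 := by linarith
      hK2 := hK2
      hKl := e1
      hL1 := ?_
      hL3 := ?_
      hL4 := ?_
      hW := rfl
      hZ := rfl
      hP := rfl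
      hy1 := hy1
      hy2 := hy2 }
  · rw [div_mul_eq_mul_div, div_le_iff₀ hη0] at e2
    linarith
  · rw [div_mul_eq_mul_div, div_le_iff₀ (by positivity)] at e3
    rw [← hBc, mul_pow]
    linarith
  · rw [div_le_iff₀ hη0] at e4
    have h5 := Real.add_one_le_exp (η * Real.log (Real.log x))
    have h6 : 1000 * Real.exp 22 / δ ≤ Real.exp (η * Real.log (Real.log x)) := by linarith
    rw [div_le_iff₀ hδ0] at h6
    linarith

theorem cov_mono {x y y' W Z m : ℕ} (h : Cov x y W Z m) (hy : y' ≤ y) : Cov x y' W Z m := by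
  obtain ⟨a, ha⟩ := h
  exact ⟨a, fun n hn => ha n (Icc_subset_Icc_right hy hn)⟩

/-- **Almost no choice of the residue classes for the primes in
`(exp (η log x / log log x), x^θ]` extends to a covering of `[1, x (log x)^(1 - η)]`.** -/
theorem main {θ : ℝ} (h0 : Real.exp (-1) < θ) (h1 : θ < 1) :
    ∃ η x₀ : ℝ, 0 < η ∧ η < 1 ∧ ∀ x y : ℕ, x₀ ≤ x → x * Real.log x ^ (1 - η) ≤ y →
      ∀ Q : Finset ℕ, (∀ p, p ∈ Q ↔ p.Prime ∧
        Real.exp (η * Real.log x / Real.log (Real.log x)) < p ∧ (p : ℝ) ≤ (x : ℝ) ^ θ) →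
      (({b : (p : ℕ) → p ∈ Q → ℕ | b ∈ Q.pi Finset.range ∧ Extends x y Q b} : Set _).ncard : ℝ) ≤
        Real.exp (-Real.log x ^ (1 + η)) * ∏ p ∈ Q, (p : ℝ) := by
  obtain ⟨δ, η, K, hη0, hη1, hev⟩ := exists_reg h0 h1
  obtain ⟨N, hN⟩ := eventually_atTop.1 (hev.and (eventually_ge_atTop 3))
  refine ⟨η, N, hη0, hη1, ?_⟩
  intro x y hx hy Q hQ
  obtain ⟨hreg, hx3⟩ := hN x (by exact_mod_cast hx)
  have hx0 : (3 : ℝ) ≤ x := by exact_mod_cast hx3
  have hL1 : 1 ≤ Real.log x := by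
    rw [Real.le_log_iff_exp_le (by linarith)]
    have := Real.exp_one_lt_d9
    linarith
  have hLp : 0 < Real.log x := by linarith
  have hpow : ∀ a : ℝ, Real.log x ^ a = Real.exp (a * Real.log (Real.log x)) := by
    intro a
    rw [Real.rpow_def_of_pos hLp, mul_comm]
  rw [hpow] at hy ⊢
  obtain ⟨T, hT⟩ : ∃ T : ℝ, T = x * Real.exp ((1 - η) * Real.log (Real.log x)) := ⟨_, rfl⟩
  have hT1 : 1 ≤ T := by
    have h2 : 0 ≤ Real.log (Real.log x) := Real.log_nonneg hL1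
    have h3 : 1 ≤ Real.exp ((1 - η) * Real.log (Real.log x)) :=
      Real.one_le_exp (mul_nonneg (by linarith) h2)
    rw [hT]
    nlinarith
  rw [← hT] at hy hreg
  obtain ⟨y0, hy0⟩ : ∃ y0 : ℕ, y0 = ⌈T⌉₊ := ⟨_, rfl⟩
  have hy01 : T ≤ y0 := by
    rw [hy0]
    exact Nat.le_ceil _
  have hy02 : (y0 : ℝ) ≤ 2 * T := by
    have h2 := (Nat.ceil_lt_add_one (show 0 ≤ T by linarith)).le
    rw [← hy0] at h2
    linarith
  have hy03 : y0 ≤ y := by
    rw [hy0]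
    exact Nat.ceil_le.2 hy
  have hfin := (hreg y0 hy01 hy02).final
  obtain ⟨W, hW⟩ : ∃ W : ℕ, W = ⌊Real.exp (η * Real.log x / Real.log (Real.log x))⌋₊ :=
    ⟨_, rfl⟩
  obtain ⟨Z, hZ⟩ : ∃ Z : ℕ, Z = ⌊Real.exp (θ * Real.log x)⌋₊ := ⟨_, rfl⟩
  rw [← hW, ← hZ] at hfin
  have hQeq : Q = pw W Z := by
    ext p
    rw [hQ, mem_pw, hW, hZ, Nat.floor_lt (Real.exp_pos _).le, Nat.le_floor_iff (Real.exp_pos _).le,
      Real.rpow_def_of_pos (by linarith : (0 : ℝ) < x), mul_comm θ]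
  have hsub : ({m | m < ∏ p ∈ Q, p ∧ Cov x y W Z m} : Set ℕ) ⊆
      {m | m < ∏ p ∈ Q, p ∧ Cov x y0 W Z m} := fun m hm => ⟨hm.1, cov_mono hm.2 hy03⟩
  have hfinite : ({m | m < ∏ p ∈ Q, p ∧ Cov x y0 W Z m} : Set ℕ).Finite :=
    (Set.finite_lt_nat _).subset fun m hm => hm.1
  rw [← hQeq] at hfin
  have h5 : ((({b : (p : ℕ) → p ∈ Q → ℕ | b ∈ Q.pi Finset.range ∧ Extends x y Q b} :
      Set _).ncard : ℕ) : ℝ) ≤ (({m | m < ∏ p ∈ Q, p ∧ Cov x y0 W Z m} : Set ℕ).ncard : ℝ) := by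
    exact_mod_cast (tuple_card hQeq).trans (Set.ncard_le_ncard hsub hfinite)
  refine (h5.trans hfin).trans (le_of_eq ?_)
  rw [mul_comm, Nat.cast_prod]

end Pool.MP42e49e.R
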