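import Pool.Agent.H.MP_42e49e_nt.R2Par

/-!
# The parameters satisfy the conditions of the third event
-/

set_option autoImplicit false

open Finset Filter

namespace Pool.MP42e49e.R

open Pool.Agent.H.MP_3e6494_nt (prm mem_prm)

variable {θ δ η K L l q : ℝ} {x y W Z P0 : ℕ}

/-- logarithm of the length of the progression -/
noncomputable def sp (y p : ℕ) : ℝ := Real.log ((y : ℝ) / p)

/-- logarithm of the sieving level -/
noncomputable def tp (q : ℝ) (y p : ℕ) : ℝ := min (sp y p / 14) q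

/-- the sieving level -/
noncomputable def up (q : ℝ) (y p : ℕ) : ℕ := ⌊Real.exp (tp q y p)⌋₊

/-- bound of the first stage -/
noncomputable def N3 (q : ℝ) (y p : ℕ) : ℝ := 3 * ((y : ℝ) / p / tp q y p)

/-- the largest primes are those above `x0` -/
noncomputable def x0 (η L l : ℝ) : ℕ := ⌊Real.exp (L - 3 * (η * l))⌋₊

/-- exponent of the probability -/
noncomputable def E0 (η l : ℝ) : ℝ := 2 * Real.exp ((1 + η) * l)

/-- bound of the second stage -/
noncomputable def τ3 (η L l q : ℝ) (y W Z p : ℕ) : ℝ :=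
  if p ≤ x0 η L l then
    2 * Real.exp 1 * PP (lL W Z) * N3 q y p + 11 * (E0 η l + 2 * up q y p)
  else N3 q y p

theorem Rg.xR (h : Rg θ δ η K L l q x y W Z P0) : (0 : ℝ) < x := by
  rw [h.x_eq]
  exact Real.exp_pos _

theorem Rg.yR (h : Rg θ δ η K L l q x y W Z P0) : (0 : ℝ) < y := by
  have h1 := h.xR
  have h2 : (x : ℝ) ≤ y := by exact_mod_cast h.x_le_y
  linarith

theorem Rg.sx (h : Rg θ δ η K L l q x y W Z P0) : (1 - η) * l ≤ Real.log ((y : ℝ) / x) := by
  have h1 := h.xR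
  have h2 := h.yR
  rw [Real.le_log_iff_exp_le (by positivity), le_div_iff₀ h1]
  linarith [h.hy1]

theorem Rg.sP (h : Rg θ δ η K L l q x y W Z P0) :
    Real.log ((y : ℝ) / P0) ≤ 61 * (l * q) := by
  have h1 := h.xR
  have h2 := h.yR
  have h3 := h.L_pos
  have hP := h.P_facts
  have hP0 : (2 : ℝ) ≤ P0 := by exact_mod_cast hP.2.2.2.2
  have h4 : (y : ℝ) / P0 ≤ 4 * Real.exp ((1 - η) * l + 60 * (l * q)) := by
    rw [div_le_iff₀ (by linarith)]
    have e1 : Real.exp L ≤ 2 * P0 * Real.exp (60 * (l * q)) := by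
      have e2 : Real.exp L = Real.exp (L - 60 * (l * q)) * Real.exp (60 * (l * q)) := by
        rw [← Real.exp_add]
        congr 1
        ring
      rw [e2]
      exact mul_le_mul_of_nonneg_right hP.2.1 (Real.exp_pos _).le
    calc (y : ℝ) ≤ 2 * (x * Real.exp ((1 - η) * l)) := h.hy2
      _ = 2 * Real.exp ((1 - η) * l) * Real.exp L := by rw [h.x_eq]; ring
      _ ≤ 2 * Real.exp ((1 - η) * l) * (2 * P0 * Real.exp (60 * (l * q))) :=
          mul_le_mul_of_nonneg_left e1 (by positivity)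
      _ = _ := by rw [Real.exp_add]; ring
  have h5 := Real.log_le_log (by positivity) h4
  rw [Real.log_mul (by norm_num) (Real.exp_pos _).ne', Real.log_exp] at h5
  have h6 : Real.log 4 ≤ 3 / 2 := by
    have h1 : Real.log 4 = 2 * Real.log 2 := by
      rw [show (4 : ℝ) = 2 ^ 2 by norm_num, Real.log_pow]
      norm_num
    have := Real.log_two_lt_d9
    linarith
  have h9 := h.lq_ge
  have h10 := h.l_ge
  have h11 : (1 - η) * l ≤ 1 * l := mul_le_mul_of_nonneg_right (by linarith [h.hη0]) (by linarith)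
  linarith

theorem Rg.sp_bounds (h : Rg θ δ η K L l q x y W Z P0) {p : ℕ} (hp : p ∈ pw P0 x) :
    l / 2 ≤ sp y p ∧ sp y p ≤ 61 * (l * q) ∧ sp y p ≤ L := by
  have hp' := mem_pw.1 hp
  have hp0 : (0 : ℝ) < p := by exact_mod_cast hp'.1.pos
  have h1 : (p : ℝ) ≤ x := by exact_mod_cast hp'.2.2
  have h2 : (P0 : ℝ) ≤ p := by exact_mod_cast hp'.2.1.le
  have hy := h.yR
  have hx := h.xR
  have hP0 : (2 : ℝ) ≤ P0 := by exact_mod_cast h.P_facts.2.2.2.2
  have h3 : Real.log ((y : ℝ) / x) ≤ sp y p :=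
    Real.log_le_log (by positivity) (div_le_div_of_nonneg_left hy.le hp0 h1)
  have h4 : sp y p ≤ Real.log ((y : ℝ) / P0) :=
    Real.log_le_log (by positivity) (div_le_div_of_nonneg_left hy.le (by linarith) h2)
  have h5 := h.sx
  have h6 := h.sP
  have h7 := h.lq_le2
  have h8 := h.L_ge
  have hl := h.l_ge
  have h10 : l / 2 ≤ (1 - η) * l := by
    have := h.η_le
    nlinarith
  refine ⟨by linarith, by linarith, ?_⟩
  have h9 : 61 * (l * q) ≤ 2 * (60 * (l * q)) := by
    have := h.lq_ge.1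
    linarith
  linarith

theorem Rg.tp_bounds (h : Rg θ δ η K L l q x y W Z P0) {p : ℕ} (hp : p ∈ pw P0 x) :
    l / 28 ≤ tp q y p ∧ tp q y p ≤ q ∧ tp q y p ≤ sp y p / 14 ∧
    1 / tp q y p ≤ 14 / sp y p + 1 / q := by
  obtain ⟨h1, h2, h3⟩ := h.sp_bounds hp
  have hl := h.l_ge
  have hq := h.q_ge
  refine ⟨?_, min_le_right _ _, min_le_left _ _, ?_⟩
  · unfold tp
    apply le_min
    · linarith
    · linarith
  · unfold tp
    have hs : 0 < sp y p := by linarith
    have hq0 : 0 < q := by linarith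
    have e1 : 0 ≤ 14 / sp y p := by positivity
    have e2 : 0 ≤ 1 / q := by positivity
    rcases min_choice (sp y p / 14) q with h4 | h4
    · rw [h4]
      have : 1 / (sp y p / 14) = 14 / sp y p := by field_simp
      linarith
    · rw [h4]
      linarith

theorem Rg.up_le (h : Rg θ δ η K L l q x y W Z P0) {p : ℕ} (hp : p ∈ pw P0 x) :
    up q y p ≤ W := by
  rw [h.hW]
  unfold up
  exact Nat.floor_mono (Real.exp_le_exp.2 (h.tp_bounds hp).2.1)

theorem Rg.N3_le (h : Rg θ δ η K L l q x y W Z P0) {p : ℕ} (hp : p ∈ pw P0 x) :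
    N3 q y p ≤ 3 * y * (14 * (1 / ((p : ℝ) * sp y p)) + 1 / q * (1 / (p : ℝ))) := by
  obtain ⟨h1, h2, h3⟩ := h.sp_bounds hp
  obtain ⟨h4, h5, h6, h7⟩ := h.tp_bounds hp
  have hl := h.l_ge
  have hy := h.yR
  have hp0 : (0 : ℝ) < p := by exact_mod_cast (mem_pw.1 hp).1.pos
  have hs : 0 < sp y p := by linarith
  have hq := h.q_ge
  have e1 : N3 q y p = 3 * ((y : ℝ) / p) * (1 / tp q y p) := by
    unfold N3
    ring
  rw [e1]
  have e2 : 3 * y * (14 * (1 / ((p : ℝ) * sp y p)) + 1 / q * (1 / (p : ℝ))) =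
      3 * ((y : ℝ) / p) * (14 / sp y p + 1 / q) := by
    field_simp
  rw [e2]
  exact mul_le_mul_of_nonneg_left h7 (by positivity)

theorem Rg.N3_le' (h : Rg θ δ η K L l q x y W Z P0) {p : ℕ} (hp : p ∈ pw P0 x) :
    N3 q y p ≤ 84 * y / l * (1 / (p : ℝ)) := by
  obtain ⟨h4, h5, h6, h7⟩ := h.tp_bounds hp
  have hl := h.l_ge
  have hy := h.yR
  have hp0 : (0 : ℝ) < p := by exact_mod_cast (mem_pw.1 hp).1.pos
  have e1 : N3 q y p = 3 * ((y : ℝ) / p) * (1 / tp q y p) := by
    unfold N3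
    ring
  have e2 : 1 / tp q y p ≤ 28 / l := by
    rw [div_le_div_iff₀ (by linarith) (by linarith)]
    linarith
  rw [e1]
  calc 3 * ((y : ℝ) / p) * (1 / tp q y p) ≤ 3 * ((y : ℝ) / p) * (28 / l) :=
        mul_le_mul_of_nonneg_left e2 (by positivity)
    _ = _ := by
        field_simp
        ring

theorem Rg.N3_ge (h : Rg θ δ η K L l q x y W Z P0) {p : ℕ} (hp : p ∈ pw P0 x) :
    (y : ℝ) / p / L ≤ N3 q y p := by
  obtain ⟨h4, h5, h6, h7⟩ := h.tp_bounds hp
  have hl := h.l_ge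
  have hy := h.yR
  have hL := h.L_ge
  have hp0 : (0 : ℝ) < p := by exact_mod_cast (mem_pw.1 hp).1.pos
  have h8 := h.q_le
  unfold N3
  have h9 : (y : ℝ) / p / L ≤ (y : ℝ) / p / tp q y p :=
    div_le_div_of_nonneg_left (by positivity) (by linarith) (by linarith)
  have h10 : 0 ≤ (y : ℝ) / p / L := by positivity
  linarith

end Pool.MP42e49e.R
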