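import Pool.Agent.H.MP_42e49e_nt.R2Sum

/-!
# The sum of the bounds over the largest primes
-/

set_option autoImplicit false

open Finset Filter

namespace Pool.MP42e49e.R

open Pool.Agent.H.MP_3e6494_nt (prm mem_prm)

variable {θ δ η K L l q : ℝ} {x y W Z P0 : ℕ}

theorem exp22 : Real.exp (-22) * Real.exp 22 = 1 := by
  rw [← Real.exp_add]
  norm_num

theorem Rg.tau1 (h : Rg θ δ η K L l q x y W Z P0) :
    ∑ p ∈ pw P0 x, 2 * Real.exp 1 * PP (lL W Z) * N3 q y p ≤
      δ * (y * (PP (lS W) * PP (lL W Z))) := by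
  have hl := h.l_ge
  have hL := h.L_ge
  have hL0 : 0 < L := by linarith
  have hq := h.q_ge
  have hq0 : 0 < q := by linarith
  have hy := h.yR
  have hV1 := PPL_pos (W := W) (Z := Z)
  have hδ0 := h.hδ0
  have hη0 := h.hη0
  have hP := h.P_facts
  have hlq := h.lq
  have hlq2 := h.lq_le2
  have hlq3 := h.lq_ge
  have he := Real.exp_pos 1
  have s1 := h.sum_ps
  have s2 : ∑ p ∈ pw P0 x, 1 / (p : ℝ) ≤ 121 * (l * q) / L := by
    rw [sum_pw h.P_le_x]
    have h1 := h.win (v := P0) (D := 60 * (l * q) + 1) hP.2.2.2.2 h.P_le_x (by linarith)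
      (by linarith) (by linarith)
    refine h1.trans ?_
    apply div_le_div_of_nonneg_right _ hL0.le
    linarith
  have s3 : ∑ p ∈ pw P0 x, N3 q y p ≤ 2715 * (y * l / L) := by
    refine (sum_le_sum fun p hp => h.N3_le hp).trans ?_
    rw [← mul_sum, sum_add_distrib, ← mul_sum, ← mul_sum]
    have b1 : 14 * ∑ p ∈ pw P0 x, 1 / ((p : ℝ) * sp y p) ≤ 14 * (56 * l / L) :=
      mul_le_mul_of_nonneg_left s1 (by norm_num)
    have b2 : 1 / q * ∑ p ∈ pw P0 x, 1 / (p : ℝ) ≤ 1 / q * (121 * (l * q) / L) :=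
      mul_le_mul_of_nonneg_left s2 (by positivity)
    have b3 : 1 / q * (121 * (l * q) / L) = 121 * l / L := by field_simp
    have b4 : 3 * (y : ℝ) * (14 * ∑ p ∈ pw P0 x, 1 / ((p : ℝ) * sp y p) +
        1 / q * ∑ p ∈ pw P0 x, 1 / (p : ℝ)) ≤ 3 * y * (14 * (56 * l / L) + 121 * l / L) :=
      mul_le_mul_of_nonneg_left (by linarith) (by positivity)
    refine b4.trans (le_of_eq ?_)
    ring
  rw [← mul_sum]
  have b1 : 2 * Real.exp 1 * PP (lL W Z) * ∑ p ∈ pw P0 x, N3 q y p ≤
      2 * Real.exp 1 * PP (lL W Z) * (2715 * (y * l / L)) :=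
    mul_le_mul_of_nonneg_left s3 (by positivity)
  refine b1.trans ?_
  have hV := h.V2_ge'
  have a3 : δ * (y * (Real.exp (-21) / (2 * q) * PP (lL W Z))) ≤
      δ * (y * (PP (lS W) * PP (lL W Z))) := by
    apply mul_le_mul_of_nonneg_left _ hδ0.le
    apply mul_le_mul_of_nonneg_left _ hy.le
    exact mul_le_mul_of_nonneg_right hV hV1.le
  refine le_trans ?_ a3
  have h21 : Real.exp (-21) * Real.exp 21 = 1 := by
    rw [← Real.exp_add]
    norm_num
  have h22 : Real.exp 22 = Real.exp 1 * Real.exp 21 := by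
    rw [← Real.exp_add]
    norm_num
  have b5 : 10860 * Real.exp 1 * η ≤ δ * Real.exp (-21) := by
    have c1 := h.hη
    have c2 := mul_le_mul_of_nonneg_right c1 (Real.exp_pos (-21)).le
    rw [h22] at c2
    have c3 : η * (20000 * (Real.exp 1 * Real.exp 21)) * Real.exp (-21) =
        20000 * Real.exp 1 * η * (Real.exp (-21) * Real.exp 21) := by ring
    rw [c3, h21, mul_one] at c2
    have c4 : 0 ≤ Real.exp 1 * η := by positivity
    linarith
  have b6 : 2 * Real.exp 1 * 2715 * (l / L) ≤ δ * (Real.exp (-21) / (2 * q)) := by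
    rw [← mul_div_assoc δ, le_div_iff₀ (by positivity)]
    calc 2 * Real.exp 1 * 2715 * (l / L) * (2 * q) = 10860 * Real.exp 1 * (l * q / L) := by ring
      _ = 10860 * Real.exp 1 * η := by
          rw [hlq]
          field_simp
      _ ≤ _ := b5
  have b7 := mul_le_mul_of_nonneg_right b6 (show 0 ≤ (y : ℝ) * PP (lL W Z) by positivity)
  calc 2 * Real.exp 1 * PP (lL W Z) * (2715 * (y * l / L)) =
      2 * Real.exp 1 * 2715 * (l / L) * (y * PP (lL W Z)) := by ring
    _ ≤ δ * (Real.exp (-21) / (2 * q)) * (y * PP (lL W Z)) := b7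
    _ = _ := by ring

theorem Rg.yL (h : Rg θ δ η K L l q x y W Z P0) :
    (x : ℝ) * Real.exp (-(η * l)) ≤ y / L := by
  have hL := h.L_ge
  rw [le_div_iff₀ (by linarith)]
  refine le_trans (le_of_eq ?_) h.hy1
  have e1 : Real.exp ((1 - η) * l) = Real.exp (-(η * l)) * L := by
    rw [← h.exp_l, ← Real.exp_add]
    congr 1
    ring
  rw [e1]
  ring

theorem Rg.tau2 (h : Rg θ δ η K L l q x y W Z P0) :
    11 * E0 η l * (pw P0 (x0 η L l)).card ≤ δ * (y * (Real.exp (-22) / L)) := by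
  have hl := h.l_ge
  have hL := h.L_ge
  have hL0 : 0 < L := by linarith
  have hx := h.xR
  have hP := h.P_facts
  have hx0 := h.x0_facts
  have hlogP : L / 2 ≤ Real.log P0 := by
    have := h.lq_le2
    linarith
  have b1 := card_pw_log P0 (x0 η L l) (by have := hP.2.2.2.2; omega)
  have hn : (0 : ℝ) ≤ (pw P0 (x0 η L l)).card := Nat.cast_nonneg _
  have hx00 : (0 : ℝ) ≤ (x0 η L l : ℝ) := Nat.cast_nonneg _
  have b2 : ((pw P0 (x0 η L l)).card : ℝ) * (L / 2) ≤
      x * Real.exp (-(3 * (η * l))) * (3 / 2) := by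
    calc ((pw P0 (x0 η L l)).card : ℝ) * (L / 2) ≤ (pw P0 (x0 η L l)).card * Real.log P0 :=
          mul_le_mul_of_nonneg_left hlogP hn
      _ ≤ (x0 η L l) * Real.log 4 := b1
      _ ≤ (x0 η L l) * (3 / 2) := mul_le_mul_of_nonneg_left log4_le hx00
      _ ≤ _ := mul_le_mul_of_nonneg_right hx0.2.2.1 (by norm_num)
  have b3 : L * ((pw P0 (x0 η L l)).card : ℝ) ≤ 3 * (x * Real.exp (-(3 * (η * l)))) := by
    linarith
  have e1 : Real.exp ((1 + η) * l) = Real.exp (η * l) * L := by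
    rw [← h.exp_l, ← Real.exp_add]
    congr 1
    ring
  have b4 : 11 * E0 η l * (pw P0 (x0 η L l)).card ≤ 66 * (x * Real.exp (-(2 * (η * l)))) := by
    unfold E0
    rw [e1]
    calc 11 * (2 * (Real.exp (η * l) * L)) * ((pw P0 (x0 η L l)).card : ℝ) =
        22 * Real.exp (η * l) * (L * ((pw P0 (x0 η L l)).card : ℝ)) := by ring
      _ ≤ 22 * Real.exp (η * l) * (3 * (x * Real.exp (-(3 * (η * l))))) :=
          mul_le_mul_of_nonneg_left b3 (by positivity)
      _ = 66 * (x * (Real.exp (η * l) * Real.exp (-(3 * (η * l))))) := by ring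
      _ = _ := by
          rw [← Real.exp_add]
          congr 3
          ring
  refine b4.trans ?_
  have h4 := h.hL4
  have hyL := h.yL
  have hδ0 := h.hδ0
  have b5 : δ * (x * Real.exp (-(η * l)) * Real.exp (-22)) ≤ δ * (y * (Real.exp (-22) / L)) := by
    apply mul_le_mul_of_nonneg_left _ hδ0.le
    have := mul_le_mul_of_nonneg_right hyL (Real.exp_pos (-22)).le
    calc _ ≤ (y : ℝ) / L * Real.exp (-22) := this
      _ = _ := by ring
  refine le_trans ?_ b5
  have b6 : 66 * Real.exp (-(η * l)) ≤ δ * Real.exp (-22) := by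
    have c1 := mul_le_mul_of_nonneg_right h4
      (show 0 ≤ Real.exp (-(η * l)) * Real.exp (-22) by positivity)
    have c2 : Real.exp (η * l) * Real.exp (-(η * l)) = 1 := by
      rw [← Real.exp_add, add_neg_cancel, Real.exp_zero]
    have c3 : 1000 * Real.exp 22 * (Real.exp (-(η * l)) * Real.exp (-22)) =
        1000 * Real.exp (-(η * l)) * (Real.exp (-22) * Real.exp 22) := by ring
    have c4 : δ * Real.exp (η * l) * (Real.exp (-(η * l)) * Real.exp (-22)) =
        δ * Real.exp (-22) * (Real.exp (η * l) * Real.exp (-(η * l))) := by ring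
    rw [c3, c4, exp22, c2] at c1
    have := Real.exp_pos (-(η * l))
    linarith
  have b7 := mul_le_mul_of_nonneg_right b6 (show 0 ≤ (x : ℝ) * Real.exp (-(η * l)) by positivity)
  calc 66 * (x * Real.exp (-(2 * (η * l)))) =
      66 * Real.exp (-(η * l)) * (x * Real.exp (-(η * l))) := by
        rw [show -(2 * (η * l)) = -(η * l) + -(η * l) by ring, Real.exp_add]
        ring
    _ ≤ δ * Real.exp (-22) * (x * Real.exp (-(η * l))) := b7
    _ = _ := by ring

theorem Rg.tau3 (h : Rg θ δ η K L l q x y W Z P0) :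
    22 * ∑ p ∈ pw P0 x, (up q y p : ℝ) ≤ δ * (y * (Real.exp (-22) / L)) := by
  have hl := h.l_ge
  have hL := h.L_ge
  have hL0 : 0 < L := by linarith
  have hy := h.yR
  have hδ0 := h.hδ0
  have b1 : ∑ p ∈ pw P0 x, (up q y p : ℝ) ≤ y * Real.exp (-(l / 4)) * (56 * l / L) := by
    refine (sum_le_sum fun p hp => h.u_le hp).trans ?_
    rw [← mul_sum]
    exact mul_le_mul_of_nonneg_left h.sum_ps (by positivity)
  have b2 : 10000 * Real.exp 22 * l ≤ δ * Real.exp (l / 4) := by
    apply le_of_pow_le_pow_left₀ (n := 4) (by norm_num) (by positivity)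
    have e5 : (δ * Real.exp (l / 4)) ^ 4 = δ ^ 4 * L := by
      rw [mul_pow, ← Real.exp_nat_mul, ← h.exp_l]
      congr 2
      push_cast
      ring
    rw [e5]
    exact h.hL3
  have h4 : Real.exp (l / 4) * Real.exp (-(l / 4)) = 1 := by
    rw [← Real.exp_add, add_neg_cancel, Real.exp_zero]
  have b3 : 1232 * l * Real.exp (-(l / 4)) ≤ δ * Real.exp (-22) := by
    have b4 := mul_le_mul_of_nonneg_right b2
      (show 0 ≤ Real.exp (-(l / 4)) * Real.exp (-22) by positivity)
    have e6 : 10000 * Real.exp 22 * l * (Real.exp (-(l / 4)) * Real.exp (-22)) =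
        10000 * (l * Real.exp (-(l / 4))) * (Real.exp (-22) * Real.exp 22) := by ring
    have e7 : δ * Real.exp (l / 4) * (Real.exp (-(l / 4)) * Real.exp (-22)) =
        δ * Real.exp (-22) * (Real.exp (l / 4) * Real.exp (-(l / 4))) := by ring
    rw [e6, e7, exp22, h4, mul_one, mul_one] at b4
    have : 0 ≤ l * Real.exp (-(l / 4)) := by positivity
    linarith
  calc 22 * ∑ p ∈ pw P0 x, (up q y p : ℝ) ≤ 22 * (y * Real.exp (-(l / 4)) * (56 * l / L)) :=
        mul_le_mul_of_nonneg_left b1 (by norm_num)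
    _ = 1232 * l * Real.exp (-(l / 4)) * (y / L) := by ring
    _ ≤ δ * Real.exp (-22) * (y / L) := mul_le_mul_of_nonneg_right b3 (by positivity)
    _ = _ := by ring

theorem Rg.tau4 (h : Rg θ δ η K L l q x y W Z P0) :
    ∑ p ∈ pw (x0 η L l) x, N3 q y p ≤ δ * (y * (Real.exp (-22) / L)) := by
  have hl := h.l_ge
  have hL := h.L_ge
  have hL0 : 0 < L := by linarith
  have hy := h.yR
  have hδ0 := h.hδ0
  have hη0 := h.hη0
  have hη1 := h.η_le
  have hx0 := h.x0_facts
  have hsub : ∀ p ∈ pw (x0 η L l) x, p ∈ pw P0 x := by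
    intro p hp
    rw [mem_pw] at hp ⊢
    exact ⟨hp.1, by omega, hp.2.2⟩
  refine (sum_le_sum fun p hp => h.N3_le' (hsub p hp)).trans ?_
  rw [← mul_sum, sum_pw hx0.2.1]
  have hηl : η * l ≤ 1 / 320000 * L :=
    mul_le_mul hη1 (by linarith [h.l_le]) (by linarith) (by norm_num)
  have h1 := h.win (v := x0 η L l) (D := 3 * (η * l) + 1) hx0.2.2.2.2 hx0.2.1 (by positivity)
    (by linarith) hx0.2.2.2.1
  have h2 : 84 * (y : ℝ) / l * (FF x - FF (x0 η L l)) ≤
      84 * y / l * ((2 * (3 * (η * l) + 1) + 24) / L) :=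
    mul_le_mul_of_nonneg_left h1 (by positivity)
  refine h2.trans ?_
  have h3 : 504 * η + 2184 / l ≤ δ * Real.exp (-22) := by
    have c1 := mul_le_mul_of_nonneg_right h.hη (Real.exp_pos (-22)).le
    have e1 : η * (20000 * Real.exp 22) * Real.exp (-22) =
        20000 * η * (Real.exp (-22) * Real.exp 22) := by ring
    rw [e1, exp22, mul_one] at c1
    have c2 : 2184 / l ≤ δ * Real.exp (-22) / 2 := by
      rw [div_le_iff₀ (by linarith)]
      have d1 : 20480 * Real.exp 22 ≤ l * δ :=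
        h.hK2.trans (mul_le_mul_of_nonneg_right h.hKl hδ0.le)
      have d2 := mul_le_mul_of_nonneg_right d1 (Real.exp_pos (-22)).le
      have e2 : 20480 * Real.exp 22 * Real.exp (-22) = 20480 * (Real.exp (-22) * Real.exp 22) := by
        ring
      rw [e2, exp22, mul_one] at d2
      linarith
    linarith
  calc 84 * (y : ℝ) / l * ((2 * (3 * (η * l) + 1) + 24) / L) = (504 * η + 2184 / l) * (y / L) := by
        field_simp
        ring
    _ ≤ δ * Real.exp (-22) * (y / L) := mul_le_mul_of_nonneg_right h3 (by positivity)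
    _ = _ := by ring

theorem Rg.tau_sum (h : Rg θ δ η K L l q x y W Z P0) :
    ∑ p ∈ pw P0 x, τ3 η L l q y W Z p ≤ 4 * (δ * (y * (PP (lS W) * PP (lL W Z)))) := by
  have hx0 := h.x0_facts
  have hV1 := PPL_pos (W := W) (Z := Z)
  have hy := h.yR
  have hδ0 := h.hδ0
  have he := Real.exp_pos 1
  have hl := h.l_ge
  have hq := h.q_ge
  have hsplit : pw P0 x = pw P0 (x0 η L l) ∪ pw (x0 η L l) x := by
    ext p
    rw [mem_union, mem_pw, mem_pw, mem_pw]
    have h1 := hx0.1
    have h2 := hx0.2.1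
    constructor
    · rintro ⟨h4, h5, h6⟩
      rcases le_or_gt p (x0 η L l) with h7 | h7
      · exact Or.inl ⟨h4, h5, h7⟩
      · exact Or.inr ⟨h4, h7, h6⟩
    · rintro (⟨h4, h5, h6⟩ | ⟨h4, h5, h6⟩)
      · exact ⟨h4, h5, by omega⟩
      · exact ⟨h4, by omega, h6⟩
  have hdisj : Disjoint (pw P0 (x0 η L l)) (pw (x0 η L l) x) := by
    rw [disjoint_left]
    intro p h4 h5
    rw [mem_pw] at h4 h5
    omega
  have hsub : pw P0 (x0 η L l) ⊆ pw P0 x := by
    rw [hsplit]
    exact subset_union_left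
  have hN0 : ∀ p ∈ pw P0 x, 0 ≤ N3 q y p := by
    intro p hp
    have hp0 : (0 : ℝ) < p := by exact_mod_cast (mem_pw.1 hp).1.pos
    have h1 := h.N3_ge hp
    have h2 : 0 ≤ (y : ℝ) / p / L := by
      have := h.L_ge
      positivity
    linarith
  have a1 : ∑ p ∈ pw P0 (x0 η L l), τ3 η L l q y W Z p =
      ∑ p ∈ pw P0 (x0 η L l), 2 * Real.exp 1 * PP (lL W Z) * N3 q y p +
      (11 * E0 η l * (pw P0 (x0 η L l)).card + 22 * ∑ p ∈ pw P0 (x0 η L l), (up q y p : ℝ)) := by
    have b1 : ∀ p ∈ pw P0 (x0 η L l), τ3 η L l q y W Z p =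
        2 * Real.exp 1 * PP (lL W Z) * N3 q y p + (11 * E0 η l + 22 * (up q y p : ℝ)) := by
      intro p hp
      unfold τ3
      rw [if_pos (mem_pw.1 hp).2.2]
      ring
    rw [sum_congr rfl b1, sum_add_distrib, sum_add_distrib, sum_const, nsmul_eq_mul, ← mul_sum,
      ← mul_sum]
    ring
  have a2 : ∑ p ∈ pw (x0 η L l) x, τ3 η L l q y W Z p = ∑ p ∈ pw (x0 η L l) x, N3 q y p := by
    refine sum_congr rfl fun p hp => ?_
    have := (mem_pw.1 hp).2.1
    unfold τ3
    rw [if_neg (by omega)]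
  have a3 : ∑ p ∈ pw P0 (x0 η L l), 2 * Real.exp 1 * PP (lL W Z) * N3 q y p ≤
      ∑ p ∈ pw P0 x, 2 * Real.exp 1 * PP (lL W Z) * N3 q y p :=
    sum_le_sum_of_subset_of_nonneg hsub fun p hp _ => by
      have := hN0 p hp
      positivity
  have a4 : 22 * ∑ p ∈ pw P0 (x0 η L l), (up q y p : ℝ) ≤ 22 * ∑ p ∈ pw P0 x, (up q y p : ℝ) :=
    mul_le_mul_of_nonneg_left (sum_le_sum_of_subset_of_nonneg hsub fun p hp _ =>
      Nat.cast_nonneg _) (by norm_num)
  have hVV := h.VV
  have hyVV : δ * (y * (Real.exp (-22) / L)) ≤ δ * (y * (PP (lS W) * PP (lL W Z))) :=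
    mul_le_mul_of_nonneg_left (mul_le_mul_of_nonneg_left hVV hy.le) hδ0.le
  have t1 := h.tau1
  have t2 := h.tau2
  have t3 := h.tau3
  have t4 := h.tau4
  rw [hsplit, sum_union hdisj, a1, a2]
  linarith

end Pool.MP42e49e.R
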