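import Pool.Agent.H.MP_42e49e_nt.Mer

/-!
# The two stages of the sieve
-/

set_option autoImplicit false

open Finset

namespace Pool.MP42e49e

open Pool.Agent.H.MP_3e6494_nt (prm mem_prm)

/-- the class `B` for the primes up to `W`, the class `m` for the larger ones -/
def bb (W B m : ℕ) (q : ℕ) : ℕ := if q ≤ W then B else m

theorem sv_bb_mod {W M1 : ℕ} {l : List ℕ} (h : ∀ q ∈ l, W < q → q ∣ M1) (B m : ℕ) (T : Finset ℕ) :
    sv (bb W B (m % M1)) l T = sv (bb W B m) l T := by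
  unfold sv
  refine filter_congr fun n _ => ?_
  have h1 : ∀ q ∈ l, (q ∣ bb W B (m % M1) q + n ↔ q ∣ bb W B m q + n) := by
    intro q hq
    unfold bb
    by_cases h2 : q ≤ W
    · rw [if_pos h2, if_pos h2]
    · rw [if_neg h2, if_neg h2]
      exact dvd_mod_add (h q hq (by omega))
  constructor
  · intro h2 q hq h3
    exact h2 q hq ((h1 q hq).2 h3)
  · intro h2 q hq h3
    exact h2 q hq ((h1 q hq).1 h3)

/-- counting in two stages -/
theorem two_stage (F : ℕ → Prop) [DecidablePred F] {W M1 : ℕ} {l l2 : List ℕ} (hM1 : 0 < M1)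
    (hM2 : 0 < l2.prod) (hc : Nat.Coprime M1 l2.prod) (h : ∀ q ∈ l, W < q → q ∣ M1) (B : ℕ)
    (T : Finset ℕ) :
    ((range (M1 * l2.prod)).filter fun m => F (srv l2 m (sv (bb W B m) l T)).card).card =
      ∑ m1 ∈ range M1, cnt F l2 (sv (bb W B m1) l T) := by
  rw [card_filter]
  unfold cnt
  rw [← crt_sum hM1 hM2 hc
    (fun c m => if F (srv l2 m (sv (bb W B c) l T)).card then 1 else 0)]
  refine sum_congr rfl fun m _ => ?_
  rw [srv_mod dvd_rfl, sv_bb_mod h]

theorem two_stage_le (F : ℕ → Prop) [DecidablePred F] {W M1 : ℕ} {l l2 : List ℕ} (hM1 : 0 < M1)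
    (hM2 : 0 < l2.prod) (hc : Nat.Coprime M1 l2.prod) (h : ∀ q ∈ l, W < q → q ∣ M1) (B : ℕ)
    (T : Finset ℕ) {E : ℝ}
    (hE : ∀ m1, (cnt F l2 (sv (bb W B m1) l T) : ℝ) ≤ l2.prod * E) :
    (((range (M1 * l2.prod)).filter fun m => F (srv l2 m (sv (bb W B m) l T)).card).card : ℝ) ≤
      ((M1 * l2.prod : ℕ) : ℝ) * E := by
  rw [two_stage F hM1 hM2 hc h, Nat.cast_sum]
  calc ∑ m1 ∈ range M1, (cnt F l2 (sv (bb W B m1) l T) : ℝ) ≤ ∑ _m1 ∈ range M1, (l2.prod * E) :=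
        sum_le_sum fun m1 _ => hE m1
    _ = ((M1 * l2.prod : ℕ) : ℝ) * E := by
        rw [sum_const, card_range, nsmul_eq_mul, Nat.cast_mul]
        ring

/-- upper tail, in the form used below -/
theorem ut {κ β a N K : ℝ} {k : ℕ} {l : List ℕ} {T : Finset ℕ} (hκ0 : 0 ≤ κ) (hκ1 : κ ≤ 1)
    (hl : ∀ q ∈ l, 2 ≤ q) (hcop : l.Pairwise Nat.Coprime) (hN : 0 < N) (hT : (T.card : ℝ) ≤ N)
    (ha : Real.exp β ≤ a) (hK : ∀ q ∈ l, ∀ c, ((T.filter fun n => q ∣ c + n).card : ℝ) ≤ K)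
    (hk : k * K ≤ κ * (a * N * PP l)) :
    (cnt (fun s => a * N * PP l < (s : ℝ)) l T : ℝ) ≤
      l.prod * Real.exp (-(k * (β - rs2 l - κ * rs l))) := by
  have ha0 : 0 < a := (Real.exp_pos _).trans_le ha
  have hP := PP_ge l hl
  have hP0 : 0 < PP l := (Real.exp_pos _).trans_le hP
  have hτ : 0 < a * N * PP l := by positivity
  have hpos : ∀ q ∈ l, 0 < q := fun q hq => by have := hl q hq; omega
  refine (upper_tail hκ0 hκ1 hτ hk l hpos hcop T hK).trans ?_
  refine mul_le_mul_of_nonneg_left ?_ (Nat.cast_nonneg _)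
  have h1 : (T.card : ℝ) / (a * N * PP l) ≤ Real.exp (rs l + rs2 l - β) := by
    have h2 : (T.card : ℝ) / (a * N * PP l) ≤ N / (a * N * PP l) :=
      div_le_div_of_nonneg_right hT hτ.le
    have h3 : N / (a * N * PP l) = 1 / (a * PP l) := by
      field_simp
    have h4 : Real.exp (β - (rs l + rs2 l)) ≤ a * PP l := by
      rw [sub_eq_add_neg, Real.exp_add]
      exact mul_le_mul ha hP (Real.exp_pos _).le ha0.le
    have h5 : 1 / (a * PP l) ≤ 1 / Real.exp (β - (rs l + rs2 l)) :=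
      one_div_le_one_div_of_le (Real.exp_pos _) h4
    have h6 : 1 / Real.exp (β - (rs l + rs2 l)) = Real.exp (rs l + rs2 l - β) := by
      rw [one_div, ← Real.exp_neg]
      congr 1
      ring
    rw [h3] at h2
    rw [h6] at h5
    exact h2.trans h5
  have h2 : ((T.card : ℝ) / (a * N * PP l)) ^ k ≤ Real.exp (k * (rs l + rs2 l - β)) := by
    rw [Real.exp_nat_mul]
    exact pow_le_pow_left₀ (by positivity) h1 k
  calc ((T.card : ℝ) / (a * N * PP l)) ^ k * Real.exp (-((1 - κ) * k * rs l))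
      ≤ Real.exp (k * (rs l + rs2 l - β)) * Real.exp (-((1 - κ) * k * rs l)) :=
        mul_le_mul_of_nonneg_right h2 (Real.exp_pos _).le
    _ = Real.exp (-(k * (β - rs2 l - κ * rs l))) := by
        rw [← Real.exp_add]
        congr 1
        ring

/-- lower tail, in the form used below -/
theorem lt' {κ β a N K : ℝ} {k : ℕ} {l : List ℕ} {T : Finset ℕ} (hκ0 : 0 ≤ κ) (hκ1 : κ ≤ 1)
    (hk1 : 1 ≤ k)
    (hl : ∀ q ∈ l, 2 ≤ q) (hcop : l.Pairwise Nat.Coprime) (hN : 0 < N) (hT : N ≤ (T.card : ℝ))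
    (ha0 : 0 < a) (ha : a ≤ Real.exp (-β))
    (hK : ∀ q ∈ l, ∀ c, ((T.filter fun n => q ∣ c + n).card : ℝ) ≤ K)
    (hk : 8 * (k * K) ≤ κ * (a * N * PP l)) :
    (cnt (fun s => (s : ℝ) < a * N * PP l) l T : ℝ) ≤
      l.prod * Real.exp (-(k * (β - κ * rs l))) := by
  have hP := PP_ge l hl
  have hP0 : 0 < PP l := (Real.exp_pos _).trans_le hP
  have hP1 := PP_le l hl
  have hτ : 0 < a * N * PP l := by positivity
  have hpos : ∀ q ∈ l, 0 < q := fun q hq => by have := hl q hq; omega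
  have hT0 : (0 : ℝ) < T.card := hN.trans_le hT
  have hT1 : 0 < T.card := by exact_mod_cast hT0
  refine (lower_tail hk1 hκ1 hτ hκ0 hk l hpos hcop T hT1 hK).trans ?_
  refine mul_le_mul_of_nonneg_left ?_ (Nat.cast_nonneg _)
  have h1 : (a * N * PP l) / (T.card : ℝ) ≤ Real.exp (-β - rs l) := by
    have h2 : (a * N * PP l) / (T.card : ℝ) ≤ (a * N * PP l) / N :=
      div_le_div_of_nonneg_left hτ.le hN hT
    have h3 : (a * N * PP l) / N = a * PP l := by
      field_simp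
    have h4 : a * PP l ≤ Real.exp (-β - rs l) := by
      rw [sub_eq_add_neg, Real.exp_add]
      exact mul_le_mul ha hP1 hP0.le (Real.exp_pos _).le
    rw [h3] at h2
    exact h2.trans h4
  have h2 : ((a * N * PP l) / (T.card : ℝ)) ^ k ≤ Real.exp (k * (-β - rs l)) := by
    rw [Real.exp_nat_mul]
    exact pow_le_pow_left₀ (by positivity) h1 k
  calc ((a * N * PP l) / (T.card : ℝ)) ^ k * Real.exp ((1 + κ) * k * rs l)
      ≤ Real.exp (k * (-β - rs l)) * Real.exp ((1 + κ) * k * rs l) :=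
        mul_le_mul_of_nonneg_right h2 (Real.exp_pos _).le
    _ = Real.exp (-(k * (β - κ * rs l))) := by
        rw [← Real.exp_add]
        congr 1
        ring

/-- the classes modulo `q` in an arithmetic progression -/
theorem cls_filter_le {w : ℝ} {p q : ℕ} (hp : 0 < p) (hw : 0 < w) (hwq : w ≤ q)
    (h : Nat.Coprime p q) (y c b : ℕ) :
    (((cls y p c).filter fun n => q ∣ b + n).card : ℝ) ≤ (y : ℝ) / p / w + 1 := by
  obtain ⟨c', hc'⟩ := cls_inter h y c b
  have hq : (0 : ℝ) < q := hw.trans_le hwq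
  have hq' : 0 < q := by exact_mod_cast hq
  have h1 := (abs_le.1 (cls_card (Nat.mul_pos hp hq') y c')).2
  rw [hc']
  have h2 : (y : ℝ) / ((p * q : ℕ) : ℝ) ≤ (y : ℝ) / p / w := by
    rw [Nat.cast_mul, ← div_div]
    exact div_le_div_of_nonneg_left (by positivity) hw hwq
  linarith

theorem sv_filter_le {b : ℕ → ℕ} {l : List ℕ} {T : Finset ℕ} {P : ℕ → Prop} [DecidablePred P]
    {K : ℝ} (h : ((T.filter P).card : ℝ) ≤ K) : (((sv b l T).filter P).card : ℝ) ≤ K := by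
  refine le_trans ?_ h
  exact_mod_cast card_le_card (filter_subset_filter _ (filter_subset _ _))

/-- one number for all the classes modulo small primes -/
theorem exists_class (W : ℕ) (a : ℕ → ℤ) :
    ∃ B, B < 4 ^ W ∧ ∀ p, p.Prime → p ≤ W → ∀ n : ℕ, (p ∣ B + n ↔ (p : ℤ) ∣ n - a p) := by
  have hco : Set.Pairwise (↑((range (W + 1)).filter Nat.Prime) : Set ℕ)
      (Function.onFun Nat.Coprime (fun p : ℕ => p)) := by
    intro p hp q hq hpq
    rw [mem_coe, mem_filter] at hp hq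
    exact (Nat.coprime_primes hp.2 hq.2).2 hpq
  obtain ⟨k, hk⟩ := Nat.chineseRemainderOfFinset (fun p : ℕ => ((-a p) % (p : ℤ)).toNat)
    (fun p : ℕ => p) ((range (W + 1)).filter Nat.Prime)
    (fun p hp => (mem_filter.1 hp).2.ne_zero) hco
  refine ⟨k % primorial W, (Nat.mod_lt _ (primorial_pos W)).trans_le (primorial_le_four_pow W), ?_⟩
  intro p hp hpW n
  have hmem : p ∈ (range (W + 1)).filter Nat.Prime := mem_filter.2 ⟨mem_range.2 (by omega), hp⟩
  have h1 : p ∣ primorial W := by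
    unfold primorial
    exact dvd_prod_of_mem (fun p => p) hmem
  rw [dvd_mod_add h1]
  have h2 := hk p hmem
  have h3 : ((k : ℕ) : ℤ) ≡ -a p [ZMOD p] := by
    have h4 : ((k : ℕ) : ℤ) ≡ (((-a p) % (p : ℤ)).toNat : ℤ) [ZMOD p] :=
      (Int.natCast_modEq_iff).2 h2
    rw [Int.toNat_of_nonneg (Int.emod_nonneg _ (by exact_mod_cast hp.ne_zero))] at h4
    exact h4.trans (Int.mod_modEq _ _)
  have h5 : (p ∣ k + n) ↔ ((p : ℤ) ∣ ((k + n : ℕ) : ℤ)) := Int.natCast_dvd_natCast.symm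
  rw [h5]
  have h6 : ((k + n : ℕ) : ℤ) ≡ n - a p [ZMOD p] := by
    push_cast
    have := h3.add_right (n : ℤ)
    rw [neg_add_eq_sub] at this
    exact this
  exact Int.ModEq.dvd_iff h6

/-- one class -/
theorem exists_class_one {p : ℕ} (hp : 0 < p) (a : ℤ) :
    ∃ c, c < p ∧ ∀ n : ℕ, (p ∣ c + n ↔ (p : ℤ) ∣ n - a) := by
  have hp' : (0 : ℤ) < p := by exact_mod_cast hp
  refine ⟨((-a) % (p : ℤ)).toNat, ?_, ?_⟩
  · have h1 := Int.emod_lt_of_pos (-a) hp'
    have h2 := Int.emod_nonneg (-a) hp'.ne'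
    omega
  · intro n
    have h5 : (p ∣ ((-a) % (p : ℤ)).toNat + n) ↔
        ((p : ℤ) ∣ ((((-a) % (p : ℤ)).toNat + n : ℕ) : ℤ)) := Int.natCast_dvd_natCast.symm
    rw [h5]
    have h6 : ((((-a) % (p : ℤ)).toNat + n : ℕ) : ℤ) ≡ n - a [ZMOD p] := by
      push_cast
      rw [Int.toNat_of_nonneg (Int.emod_nonneg _ hp'.ne')]
      have := (Int.mod_modEq (-a) (p : ℤ)).add_right (n : ℤ)
      rw [neg_add_eq_sub] at this
      exact this
    exact Int.ModEq.dvd_iff h6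

end Pool.MP42e49e
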