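import Mathlib

/-!
# Random residue classes: the number of survivors

`M` is the product of pairwise coprime moduli `q`, `m` runs through the residues modulo `M`; the
elements `n` of a finite set `T` with `q ∣ m + n` for some `q` are deleted.
-/

set_option autoImplicit false

open Finset

namespace Pool.MP42e49e

/-- the survivors -/
def srv (l : List ℕ) (m : ℕ) (T : Finset ℕ) : Finset ℕ := T.filter fun n => ∀ q ∈ l, ¬ q ∣ m + n

theorem srv_nil (m : ℕ) (T : Finset ℕ) : srv [] m T = T := by
  unfold srv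
  exact filter_true_of_mem fun n _ q hq => absurd hq (List.not_mem_nil)

theorem srv_cons (q : ℕ) (l : List ℕ) (m : ℕ) (T : Finset ℕ) :
    srv (q :: l) m T = srv l m (T.filter fun n => ¬ q ∣ m + n) := by
  unfold srv
  rw [filter_filter]
  refine filter_congr fun n _ => ?_
  simp only [List.mem_cons, forall_eq_or_imp]

theorem dvd_mod_add {q M m n : ℕ} (h : q ∣ M) : q ∣ m % M + n ↔ q ∣ m + n := by
  have h1 : m % M + n ≡ m + n [MOD q] :=
    Nat.ModEq.add_right n ((Nat.mod_modEq m M).of_dvd h)
  rw [Nat.dvd_iff_mod_eq_zero, Nat.dvd_iff_mod_eq_zero]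
  unfold Nat.ModEq at h1
  rw [h1]

theorem srv_mod {l : List ℕ} {m M : ℕ} (h : l.prod ∣ M) (T : Finset ℕ) :
    srv l (m % M) T = srv l m T := by
  unfold srv
  refine filter_congr fun n _ => ?_
  have h1 : ∀ q ∈ l, (q ∣ m % M + n ↔ q ∣ m + n) := fun q hq =>
    dvd_mod_add ((List.dvd_prod hq).trans h)
  constructor
  · intro h2 q hq h3
    exact h2 q hq ((h1 q hq).2 h3)
  · intro h2 q hq h3
    exact h2 q hq ((h1 q hq).1 h3)

/-- Chinese remainder theorem, summation form -/
theorem crt_sum {R : Type*} [AddCommMonoid R] {q M : ℕ} (hq : 0 < q) (hM : 0 < M)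
    (h : Nat.Coprime q M) (G : ℕ → ℕ → R) :
    ∑ m ∈ range (q * M), G (m % q) (m % M) = ∑ c ∈ range q, ∑ m ∈ range M, G c m := by
  rw [← sum_product']
  refine sum_bij' (fun m _ => (m % q, m % M)) (fun p _ => (Nat.chineseRemainder h p.1 p.2 : ℕ))
    ?_ ?_ ?_ ?_ ?_
  · intro m _
    rw [mem_product]
    exact ⟨mem_range.2 (Nat.mod_lt _ hq), mem_range.2 (Nat.mod_lt _ hM)⟩
  · intro p _
    exact mem_range.2 (Nat.chineseRemainder_lt_mul h p.1 p.2 hq.ne' hM.ne')
  · intro m hm
    have h1 := (Nat.chineseRemainder h (m % q) (m % M)).2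
    have h2 : (Nat.chineseRemainder h (m % q) (m % M) : ℕ) ≡ m [MOD q * M] :=
      (Nat.modEq_and_modEq_iff_modEq_mul h).1
        ⟨h1.1.trans (Nat.mod_modEq m q), h1.2.trans (Nat.mod_modEq m M)⟩
    exact Nat.ModEq.eq_of_lt_of_lt h2
      (Nat.chineseRemainder_lt_mul h (m % q) (m % M) hq.ne' hM.ne') (mem_range.1 hm)
  · intro p hp
    rw [mem_product] at hp
    have h1 := (Nat.chineseRemainder h p.1 p.2).2
    ext
    · exact (Nat.mod_eq_of_modEq h1.1 (mem_range.1 hp.1))
    · exact (Nat.mod_eq_of_modEq h1.2 (mem_range.1 hp.2))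
  · intro m _
    rfl

/-- number of `m` modulo the product of `l` for which the number of survivors satisfies `F` -/
def cnt (F : ℕ → Prop) [DecidablePred F] (l : List ℕ) (T : Finset ℕ) : ℕ :=
  ∑ m ∈ range l.prod, if F (srv l m T).card then 1 else 0

theorem cnt_nil (F : ℕ → Prop) [DecidablePred F] (T : Finset ℕ) :
    cnt F [] T = if F T.card then 1 else 0 := by
  unfold cnt
  rw [List.prod_nil, sum_range_one, srv_nil]

theorem cnt_cons (F : ℕ → Prop) [DecidablePred F] {q : ℕ} {l : List ℕ} (hq : 0 < q)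
    (hl : 0 < l.prod) (h : Nat.Coprime q l.prod) (T : Finset ℕ) :
    cnt F (q :: l) T = ∑ c ∈ range q, cnt F l (T.filter fun n => ¬ q ∣ c + n) := by
  unfold cnt
  rw [List.prod_cons, ← crt_sum hq hl h
    (fun c m => if F (srv l m (T.filter fun n => ¬ q ∣ c + n)).card then 1 else 0)]
  refine sum_congr rfl fun m _ => ?_
  rw [srv_cons, srv_mod dvd_rfl]
  have : (T.filter fun n => ¬ q ∣ m % q + n) = T.filter fun n => ¬ q ∣ m + n :=
    filter_congr fun n _ => by rw [dvd_mod_add dvd_rfl]
  rw [this]

theorem cnt_le (F : ℕ → Prop) [DecidablePred F] (l : List ℕ) (T : Finset ℕ) :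
    cnt F l T ≤ l.prod := by
  unfold cnt
  calc ∑ m ∈ range l.prod, (if F (srv l m T).card then 1 else 0) ≤ ∑ _m ∈ range l.prod, 1 :=
        sum_le_sum fun m _ => by split_ifs <;> omega
    _ = l.prod := by simp

/-- the deleted elements, summed over the classes -/
theorem sum_del {q : ℕ} (hq : 0 < q) (T : Finset ℕ) :
    ∑ c ∈ range q, (T.filter fun n => q ∣ c + n).card = T.card := by
  have h : ∀ n ∈ T, ∑ c ∈ range q, (if q ∣ c + n then 1 else 0) = 1 := by
    intro n _
    rw [sum_eq_single ((q - n % q) % q)]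
    · rw [if_pos]
      rw [Nat.dvd_iff_mod_eq_zero, Nat.mod_add_mod]
      have h1 : n % q < q := Nat.mod_lt _ hq
      have h2 : q - n % q + n = q * (n / q + 1) := by
        have := Nat.div_add_mod n q
        rw [mul_add, mul_one]
        omega
      rw [h2, Nat.mul_mod_right]
    · intro c hc hne
      rw [if_neg]
      intro hd
      apply hne
      have h1 : n % q < q := Nat.mod_lt _ hq
      have hc' := mem_range.1 hc
      have h3 : q ∣ c + n % q := by
        have h4 : c + n % q ≡ c + n [MOD q] := Nat.ModEq.add_left c (Nat.mod_modEq n q)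
        exact (Nat.modEq_zero_iff_dvd.1 (h4.trans (Nat.modEq_zero_iff_dvd.2 hd)))
      obtain ⟨k, hk⟩ := h3
      rcases Nat.eq_zero_or_pos (n % q) with h0 | h0
      · rw [h0, Nat.sub_zero, Nat.mod_self]
        rw [h0, add_zero] at hk
        rcases Nat.eq_zero_or_pos k with hk0 | hk0
        · rw [hk0, mul_zero] at hk
          exact hk
        · have : q * 1 ≤ q * k := Nat.mul_le_mul_left q hk0
          omega
      · have hk1 : k = 1 := by
          rcases Nat.lt_trichotomy k 1 with h5 | h5 | h5
          · have : k = 0 := by omega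
            rw [this, mul_zero] at hk
            omega
          · exact h5
          · have : q * 2 ≤ q * k := Nat.mul_le_mul_left q h5
            omega
        rw [hk1, mul_one] at hk
        rw [Nat.mod_eq_of_lt (by omega)]
        omega
    · intro h
      exact absurd (mem_range.2 (Nat.mod_lt _ hq)) h
  calc ∑ c ∈ range q, (T.filter fun n => q ∣ c + n).card
      = ∑ c ∈ range q, ∑ n ∈ T, (if q ∣ c + n then 1 else 0) := by
        refine sum_congr rfl fun c _ => ?_
        rw [card_filter]
    _ = ∑ n ∈ T, ∑ c ∈ range q, (if q ∣ c + n then 1 else 0) := sum_comm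
    _ = ∑ n ∈ T, 1 := sum_congr rfl h
    _ = T.card := by simp

theorem card_split (T : Finset ℕ) (p : ℕ → Prop) [DecidablePred p] :
    ((T.filter fun n => ¬ p n).card : ℝ) = T.card - (T.filter p).card := by
  have := card_filter_add_card_filter_not (s := T) p
  have h : ((T.filter p).card : ℝ) + ((T.filter fun n => ¬ p n).card : ℝ) = T.card := by
    exact_mod_cast this
  linarith

end Pool.MP42e49e
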