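import Pool.Agent.H.MP_42e49e_nt.TailA

/-!
# Large deviations for the number of survivors
-/

set_option autoImplicit false

open Finset

namespace Pool.MP42e49e

/-- sum of the reciprocals -/
noncomputable def rs : List ℕ → ℝ
  | [] => 0
  | q :: l => 1 / (q : ℝ) + rs l

theorem rs_nil : rs [] = 0 := rfl

theorem rs_cons (q : ℕ) (l : List ℕ) : rs (q :: l) = 1 / (q : ℝ) + rs l := rfl

theorem rs_nonneg (l : List ℕ) : 0 ≤ rs l := by
  induction l with
  | nil => exact le_rfl
  | cons q l ih =>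
    rw [rs_cons]
    positivity

theorem coprime_prod {q : ℕ} : ∀ {l : List ℕ}, (∀ x ∈ l, Nat.Coprime q x) →
    Nat.Coprime q l.prod := by
  intro l
  induction l with
  | nil =>
    intro _
    rw [List.prod_nil]
    exact Nat.coprime_one_right q
  | cons x l ih =>
    intro h
    rw [List.prod_cons]
    exact Nat.Coprime.mul_right (h x List.mem_cons_self)
      (ih fun z hz => h z (List.mem_cons_of_mem _ hz))

theorem key_upper {κ X Y : ℝ} {k : ℕ} (hX : 0 < X) (hY : 0 ≤ Y) (hYX : Y ≤ X)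
    (hk : k * Y ≤ κ * X) (hκ : κ ≤ 1) :
    (X - Y) ^ k ≤ X ^ k * (1 - (1 - κ) * (k * (Y / X))) := by
  have hu0 : 0 ≤ Y / X := div_nonneg hY hX.le
  have hu1 : Y / X ≤ 1 := (div_le_one hX).2 hYX
  have e1 : X - Y = X * (1 - Y / X) := by
    field_simp
  obtain ⟨s, hs⟩ : ∃ s : ℝ, s = k * (Y / X) := ⟨_, rfl⟩
  have hs0 : 0 ≤ s := by rw [hs]; positivity
  have hsκ : s ≤ κ := by
    rw [hs, ← mul_div_assoc, div_le_iff₀ hX]
    exact hk
  rw [e1, mul_pow, ← hs]
  refine mul_le_mul_of_nonneg_left ?_ (by positivity)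
  have h1 : (1 - Y / X) ^ k ≤ Real.exp (-s) := by
    have h2 : (1 - Y / X) ≤ Real.exp (-(Y / X)) := Real.one_sub_le_exp_neg _
    have h3 := pow_le_pow_left₀ (by linarith) h2 k
    rwa [← Real.exp_nat_mul, mul_neg, ← hs] at h3
  have h4 : Real.exp (-s) ≤ 1 - s + s ^ 2 := by
    rw [Real.exp_neg]
    have h5 : s + 1 ≤ Real.exp s := Real.add_one_le_exp s
    have h6 : (Real.exp s)⁻¹ ≤ (s + 1)⁻¹ := inv_anti₀ (by linarith) h5
    refine h6.trans ?_
    rw [inv_le_iff_one_le_mul₀ (by linarith)]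
    nlinarith [pow_nonneg hs0 3]
  nlinarith [mul_nonneg hs0 (sub_nonneg.2 hsκ)]

theorem key_lower {κ X Y : ℝ} {k : ℕ} (hk1 : 1 ≤ k) (hX : 0 < X) (hY : 0 ≤ Y)
    (hk : 8 * (k * Y) ≤ κ * X) (hκ1 : κ ≤ 1) :
    0 < X - Y ∧ (1 / (X - Y)) ^ k ≤ (1 / X) ^ k * (1 + (1 + κ) * (k * (Y / X))) := by
  have hk1' : (1 : ℝ) ≤ k := by exact_mod_cast hk1
  have hu0 : 0 ≤ Y / X := div_nonneg hY hX.le
  obtain ⟨u, hu⟩ : ∃ u : ℝ, u = Y / X := ⟨_, rfl⟩
  rw [← hu] at hu0
  have hku : 8 * (k * u) ≤ κ := by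
    rw [hu, ← mul_div_assoc, ← mul_div_assoc, div_le_iff₀ hX]
    exact hk
  have hu8 : 8 * u ≤ κ := by
    have : u ≤ k * u := by nlinarith
    linarith
  have hκ0 : 0 ≤ κ := by linarith
  have e1 : X - Y = X * (1 - u) := by
    rw [hu]
    field_simp
  have h1u : 0 < 1 - u := by linarith
  refine ⟨by rw [e1]; positivity, ?_⟩
  rw [e1, ← hu, one_div, mul_inv, mul_pow, ← one_div]
  refine mul_le_mul_of_nonneg_left ?_ (by positivity)
  obtain ⟨s, hs⟩ : ∃ s : ℝ, s = k * (u / (1 - u)) := ⟨_, rfl⟩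
  have hs0 : 0 ≤ s := by rw [hs]; positivity
  have h1 : ((1 - u)⁻¹) ^ k ≤ Real.exp s := by
    have h2 : (1 - u)⁻¹ ≤ Real.exp (u / (1 - u)) := by
      have h3 := Real.add_one_le_exp (u / (1 - u))
      have h4 : u / (1 - u) + 1 = (1 - u)⁻¹ := by
        field_simp
        ring
      rwa [h4] at h3
    have h3 := pow_le_pow_left₀ (by positivity) h2 k
    rwa [← Real.exp_nat_mul, ← hs] at h3
  have hdiv : u / (1 - u) ≤ u * (1 + κ / 7) := by
    rw [div_le_iff₀ h1u]
    have : 1 ≤ (1 + κ / 7) * (1 - u) := by nlinarith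
    nlinarith
  have hsk : s ≤ (k * u) * (1 + κ / 7) := by
    rw [hs]
    calc (k : ℝ) * (u / (1 - u)) ≤ k * (u * (1 + κ / 7)) :=
          mul_le_mul_of_nonneg_left hdiv (by positivity)
      _ = (k * u) * (1 + κ / 7) := by ring
  have hs7 : s ≤ κ / 7 := by nlinarith
  have h5 : Real.exp s ≤ 1 + s * (1 + 2 * s) := by
    have h6 := Real.exp_bound_div_one_sub_of_interval hs0 (by linarith : s < 1)
    refine h6.trans ?_
    rw [div_le_iff₀ (by linarith)]
    nlinarith [pow_nonneg hs0 2, pow_nonneg hs0 3]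
  refine h1.trans (h5.trans ?_)
  have h7 : s * (1 + 2 * s) ≤ (k * u) * (1 + κ / 7) * (1 + 2 * κ / 7) := by
    have h8 : 1 + 2 * s ≤ 1 + 2 * κ / 7 := by linarith
    have h9 : 0 ≤ (k * u) * (1 + κ / 7) := by positivity
    exact mul_le_mul hsk h8 (by positivity) h9
  have h10 : (1 + κ / 7) * (1 + 2 * κ / 7) ≤ 1 + κ := by nlinarith
  have h11 : 0 ≤ k * u := by positivity
  nlinarith [mul_le_mul_of_nonneg_left h10 h11]

theorem srv_card_le (l : List ℕ) (m : ℕ) (T : Finset ℕ) : (srv l m T).card ≤ T.card :=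
  card_filter_le _ _

theorem cnt_eq_zero {τ : ℝ} {l : List ℕ} {T : Finset ℕ} (h : (T.card : ℝ) ≤ τ) :
    cnt (fun s => τ < (s : ℝ)) l T = 0 := by
  unfold cnt
  refine sum_eq_zero fun m _ => ?_
  rw [if_neg]
  intro h1
  have h2 : ((srv l m T).card : ℝ) ≤ T.card := by exact_mod_cast srv_card_le l m T
  linarith

/-- **Upper tail.** -/
theorem upper_tail {κ τ K : ℝ} {k : ℕ} (hκ0 : 0 ≤ κ) (hκ1 : κ ≤ 1) (hτ : 0 < τ)
    (hk : k * K ≤ κ * τ) : ∀ l : List ℕ, (∀ q ∈ l, 0 < q) → l.Pairwise Nat.Coprime →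
    ∀ T : Finset ℕ, (∀ q ∈ l, ∀ c, ((T.filter fun n => q ∣ c + n).card : ℝ) ≤ K) →
    (cnt (fun s => τ < (s : ℝ)) l T : ℝ) ≤
      l.prod * ((T.card / τ) ^ k * Real.exp (-((1 - κ) * k * rs l))) := by
  intro l
  induction l with
  | nil =>
    intro _ _ T _
    rw [cnt_nil, List.prod_nil, rs_nil, mul_zero, neg_zero, Real.exp_zero,
      mul_one, Nat.cast_one, one_mul]
    split_ifs with h
    · rw [Nat.cast_one]
      exact one_le_pow₀ ((one_le_div hτ).2 h.le)
    · rw [Nat.cast_zero]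
      positivity
  | cons q l ih =>
    intro hpos hcop T hK
    rw [List.pairwise_cons] at hcop
    have hq : 0 < q := hpos q (List.mem_cons_self)
    have hq' : (0 : ℝ) < q := by exact_mod_cast hq
    have hl : 0 < l.prod := List.prod_pos fun x hx => hpos x (List.mem_cons_of_mem _ hx)
    have hc : Nat.Coprime q l.prod := coprime_prod hcop.1
    rcases le_or_gt (T.card : ℝ) τ with hT | hT
    · rw [cnt_eq_zero hT, Nat.cast_zero]
      positivity
    · have hX : (0 : ℝ) < T.card := hτ.trans hT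
      rw [cnt_cons _ hq hl hc, Nat.cast_sum]
      obtain ⟨E, hE⟩ : ∃ E : ℝ, E = Real.exp (-((1 - κ) * k * rs l)) :=
        ⟨_, rfl⟩
      have hE0 : 0 < E := by rw [hE]; exact Real.exp_pos _
      have h1 : ∀ c ∈ range q, (cnt (fun s => τ < (s : ℝ)) l (T.filter fun n => ¬ q ∣ c + n) : ℝ) ≤
          l.prod * E * (1 / τ) ^ k * (T.card : ℝ) ^ k *
            (1 - (1 - κ) * (k * (((T.filter fun n => q ∣ c + n).card : ℝ) / T.card))) := by
        intro c _
        have h2 := ih (fun x hx => hpos x (List.mem_cons_of_mem _ hx)) hcop.2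
          (T.filter fun n => ¬ q ∣ c + n) (fun x hx c' => by
            refine le_trans ?_ (hK x (List.mem_cons_of_mem _ hx) c')
            exact_mod_cast card_le_card (filter_subset_filter _ (filter_subset _ _)))
        rw [← hE, card_split] at h2
        refine h2.trans ?_
        have hYK : ((T.filter fun n => q ∣ c + n).card : ℝ) ≤ K := hK q List.mem_cons_self c
        have h3 := key_upper (κ := κ) (k := k) hX
          (Nat.cast_nonneg (T.filter fun n => q ∣ c + n).card)
          (by exact_mod_cast card_filter_le _ _)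
          ((mul_le_mul_of_nonneg_left hYK (Nat.cast_nonneg k)).trans
            (hk.trans (mul_le_mul_of_nonneg_left hT.le hκ0))) hκ1
        have h4 : 0 ≤ (l.prod : ℝ) * E * (1 / τ) ^ k := by positivity
        calc (l.prod : ℝ) * ((((T.card : ℝ) - (T.filter fun n => q ∣ c + n).card) / τ) ^ k * E)
            = (l.prod : ℝ) * E * (1 / τ) ^ k *
              (((T.card : ℝ) - (T.filter fun n => q ∣ c + n).card) ^ k) := by
              rw [div_pow, one_div, inv_pow]
              ring
          _ ≤ _ := by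
              rw [mul_assoc ((l.prod : ℝ) * E * (1 / τ) ^ k)]
              exact mul_le_mul_of_nonneg_left h3 h4
      refine (sum_le_sum h1).trans ?_
      rw [← mul_sum]
      have h5 : ∑ c ∈ range q, (1 - (1 - κ) *
          (k * (((T.filter fun n => q ∣ c + n).card : ℝ) / T.card))) = q - (1 - κ) * k := by
        rw [sum_sub_distrib, ← mul_sum, ← mul_sum, ← sum_div]
        have h6 : ∑ c ∈ range q, ((T.filter fun n => q ∣ c + n).card : ℝ) = T.card := by
          exact_mod_cast sum_del hq T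
        rw [h6, div_self hX.ne', sum_const, card_range]
        simp
      rw [h5]
      have h7 : (q : ℝ) - (1 - κ) * k ≤ q * Real.exp (-((1 - κ) * k * (1 / (q : ℝ)))) := by
        have h8 := Real.one_sub_le_exp_neg ((1 - κ) * k * (1 / (q : ℝ)))
        have h9 := mul_le_mul_of_nonneg_left h8 hq'.le
        refine le_trans (le_of_eq ?_) h9
        field_simp
      have h10 : 0 ≤ (l.prod : ℝ) * E * (1 / τ) ^ k * (T.card : ℝ) ^ k := by positivity
      refine (mul_le_mul_of_nonneg_left h7 h10).trans (le_of_eq ?_)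
      rw [rs_cons, mul_add, neg_add, Real.exp_add, ← hE, List.prod_cons,
        Nat.cast_mul, div_pow, div_pow, one_pow]
      ring

/-- **Lower tail.** -/
theorem lower_tail {κ τ K : ℝ} {k : ℕ} (hk1 : 1 ≤ k) (hκ1 : κ ≤ 1) (hτ : 0 < τ) (hκ0 : 0 ≤ κ)
    (hk : 8 * (k * K) ≤ κ * τ) : ∀ l : List ℕ, (∀ q ∈ l, 0 < q) → l.Pairwise Nat.Coprime →
    ∀ T : Finset ℕ, 0 < T.card →
    (∀ q ∈ l, ∀ c, ((T.filter fun n => q ∣ c + n).card : ℝ) ≤ K) →
    (cnt (fun s => (s : ℝ) < τ) l T : ℝ) ≤
      l.prod * ((τ / T.card) ^ k * Real.exp ((1 + κ) * k * rs l)) := by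
  intro l
  induction l with
  | nil =>
    intro _ _ T hT0 _
    have hX : (0 : ℝ) < T.card := by exact_mod_cast hT0
    rw [cnt_nil, List.prod_nil, rs_nil, mul_zero, Real.exp_zero,
      mul_one, Nat.cast_one, one_mul]
    split_ifs with h
    · rw [Nat.cast_one]
      exact one_le_pow₀ ((one_le_div hX).2 h.le)
    · rw [Nat.cast_zero]
      positivity
  | cons q l ih =>
    intro hpos hcop T hT0 hK
    rw [List.pairwise_cons] at hcop
    have hX : (0 : ℝ) < T.card := by exact_mod_cast hT0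
    have hq : 0 < q := hpos q (List.mem_cons_self)
    have hq' : (0 : ℝ) < q := by exact_mod_cast hq
    have hl : 0 < l.prod := List.prod_pos fun x hx => hpos x (List.mem_cons_of_mem _ hx)
    have hc : Nat.Coprime q l.prod := coprime_prod hcop.1
    have hsum0 : 0 ≤ rs (q :: l) := rs_nonneg _
    rcases lt_or_ge (T.card : ℝ) τ with hT | hT
    · have h1 : (cnt (fun s => (s : ℝ) < τ) (q :: l) T : ℝ) ≤ ((q :: l).prod : ℕ) := by
        exact_mod_cast cnt_le _ _ _
      refine h1.trans ?_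
      have h2 : (1 : ℝ) ≤ (τ / T.card) ^ k := one_le_pow₀ ((one_le_div hX).2 hT.le)
      have h3 : (1 : ℝ) ≤ Real.exp ((1 + κ) * k * rs (q :: l)) :=
        Real.one_le_exp (by positivity)
      have h4 : (0 : ℝ) ≤ ((q :: l).prod : ℕ) := Nat.cast_nonneg _
      calc (((q :: l).prod : ℕ) : ℝ) = ((q :: l).prod : ℕ) * (1 * 1) := by ring
        _ ≤ _ := mul_le_mul_of_nonneg_left (mul_le_mul h2 h3 zero_le_one (by positivity)) h4
    · rw [cnt_cons _ hq hl hc, Nat.cast_sum]
      obtain ⟨E, hE⟩ : ∃ E : ℝ, E = Real.exp ((1 + κ) * k * rs l) :=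
        ⟨_, rfl⟩
      have hE0 : 0 < E := by rw [hE]; exact Real.exp_pos _
      have h1 : ∀ c ∈ range q, (cnt (fun s => (s : ℝ) < τ) l (T.filter fun n => ¬ q ∣ c + n) : ℝ) ≤
          l.prod * E * τ ^ k * (1 / (T.card : ℝ)) ^ k *
            (1 + (1 + κ) * (k * (((T.filter fun n => q ∣ c + n).card : ℝ) / T.card))) := by
        intro c _
        have hYK : ((T.filter fun n => q ∣ c + n).card : ℝ) ≤ K := hK q List.mem_cons_self c
        have h3 := key_lower (κ := κ) (k := k) hk1 hX
          (Nat.cast_nonneg (T.filter fun n => q ∣ c + n).card)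
          (by
            have h4 : (k : ℝ) * (T.filter fun n => q ∣ c + n).card ≤ k * K :=
              mul_le_mul_of_nonneg_left hYK (Nat.cast_nonneg k)
            have h5 : κ * τ ≤ κ * T.card := mul_le_mul_of_nonneg_left hT hκ0
            linarith) hκ1
        have h6 : 0 < (T.filter fun n => ¬ q ∣ c + n).card := by
          have h7 : (0 : ℝ) < ((T.filter fun n => ¬ q ∣ c + n).card : ℝ) := by
            rw [card_split]
            exact h3.1
          exact_mod_cast h7
        have h2 := ih (fun x hx => hpos x (List.mem_cons_of_mem _ hx)) hcop.2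
          (T.filter fun n => ¬ q ∣ c + n) h6 (fun x hx c' => by
            refine le_trans ?_ (hK x (List.mem_cons_of_mem _ hx) c')
            exact_mod_cast card_le_card (filter_subset_filter _ (filter_subset _ _)))
        rw [← hE, card_split] at h2
        refine h2.trans ?_
        have h4 : 0 ≤ (l.prod : ℝ) * E * τ ^ k := by positivity
        calc (l.prod : ℝ) * ((τ / ((T.card : ℝ) - (T.filter fun n => q ∣ c + n).card)) ^ k * E)
            = (l.prod : ℝ) * E * τ ^ k *
              ((1 / ((T.card : ℝ) - (T.filter fun n => q ∣ c + n).card)) ^ k) := by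
              rw [div_pow, one_div, inv_pow]
              ring
          _ ≤ _ := by
              rw [mul_assoc ((l.prod : ℝ) * E * τ ^ k)]
              exact mul_le_mul_of_nonneg_left h3.2 h4
      refine (sum_le_sum h1).trans ?_
      rw [← mul_sum]
      have h5 : ∑ c ∈ range q, (1 + (1 + κ) *
          (k * (((T.filter fun n => q ∣ c + n).card : ℝ) / T.card))) = q + (1 + κ) * k := by
        rw [sum_add_distrib, ← mul_sum, ← mul_sum, ← sum_div]
        have h6 : ∑ c ∈ range q, ((T.filter fun n => q ∣ c + n).card : ℝ) = T.card := by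
          exact_mod_cast sum_del hq T
        rw [h6, div_self hX.ne', sum_const, card_range]
        simp
      rw [h5]
      have h7 : (q : ℝ) + (1 + κ) * k ≤ q * Real.exp ((1 + κ) * k * (1 / (q : ℝ))) := by
        have h8 := Real.add_one_le_exp ((1 + κ) * k * (1 / (q : ℝ)))
        have h9 := mul_le_mul_of_nonneg_left h8 hq'.le
        refine le_trans (le_of_eq ?_) h9
        field_simp
        ring
      have h10 : 0 ≤ (l.prod : ℝ) * E * τ ^ k * (1 / (T.card : ℝ)) ^ k := by positivity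
      refine (mul_le_mul_of_nonneg_left h7 h10).trans (le_of_eq ?_)
      rw [rs_cons, mul_add, Real.exp_add, ← hE, List.prod_cons,
        Nat.cast_mul, div_pow, div_pow, one_pow]
      ring

end Pool.MP42e49e
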